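import Pool.Agent.H465.OC.StmB
import Pool.Graph.R_pool_sql_team_seeded_3997aac3.Q279.SC.All

/-!
# Project OC, task B1: `LSBasic`
-/

set_option autoImplicit false

namespace Pool.Agent.H476.OCLSBasic

open Polynomial Pool.Agent.Q279.SC Pool.Agent.H465.OC

noncomputable section

variable {R : Type} [CommRing R]

theorem ls_coeff (f : PowerSeries R) (n : ℤ) :
    (ls f).coeff n = if n < 0 then 0 else PowerSeries.coeff n.natAbs f :=
  PowerSeries.coeff_coe (f := f) n

theorem ls_mul (f g : PowerSeries R) : ls (f * g) = ls f * ls g :=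
  map_mul (HahnSeries.ofPowerSeries ℤ R) f g

theorem ls_pow (f : PowerSeries R) (n : ℕ) : ls (f ^ n) = ls f ^ n :=
  map_pow (HahnSeries.ofPowerSeries ℤ R) f n

theorem ls_sub (f g : PowerSeries R) : ls (f - g) = ls f - ls g :=
  map_sub (HahnSeries.ofPowerSeries ℤ R) f g

theorem ls_one : ls (1 : PowerSeries R) = 1 := map_one (HahnSeries.ofPowerSeries ℤ R)

theorem ls_X : ls (PowerSeries.X : PowerSeries R) = HahnSeries.single 1 1 :=
  HahnSeries.ofPowerSeries_X

theorem ls_1728 : ls (1728 : PowerSeries R) = 1728 :=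
  map_ofNat (HahnSeries.ofPowerSeries ℤ R) 1728

theorem VV_mul (p : ℕ) [Fact p.Prime] (s : LaurentSeries R) (n : ℤ) :
    (VV p R s).coeff (p * n) = s.coeff n :=
  HahnSeries.embDomain_coeff (a := n)

theorem VV_not (p : ℕ) [Fact p.Prime] (s : LaurentSeries R) (n : ℤ) (hn : ¬ (p : ℤ) ∣ n) :
    (VV p R s).coeff n = 0 := by
  apply HahnSeries.embDomain_of_notMem_range
  rintro ⟨m, hm⟩
  apply hn
  exact ⟨m, hm.symm⟩

theorem cc_map (f : PowerSeries ℤ) (h : PowerSeries.constantCoeff f = 1) :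
    PowerSeries.constantCoeff (PowerSeries.map (Int.castRingHom R) f) = ((1 : Rˣ) : R) := by
  rw [← PowerSeries.coeff_zero_eq_constantCoeff_apply, PowerSeries.coeff_map,
    PowerSeries.coeff_zero_eq_constantCoeff_apply, h]
  simp

theorem z4_0 : PowerSeries.constantCoeff z4 = 1 := by
  unfold z4 zA
  rw [map_add, map_mul, map_one, ← PowerSeries.coeff_zero_eq_constantCoeff_apply (PowerSeries.mk _),
    PowerSeries.coeff_mk]
  simp

theorem z6_0 : PowerSeries.constantCoeff z6 = 1 := by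
  unfold z6 zB
  rw [map_sub, map_mul, map_one, ← PowerSeries.coeff_zero_eq_constantCoeff_apply (PowerSeries.mk _),
    PowerSeries.coeff_mk]
  simp

theorem qD_X : qD R = PowerSeries.X * qd R := by
  unfold qD qd
  rw [Pool.Agent.Q237.SX.zD_X, map_mul, PowerSeries.map_X]

theorem qD_eq : 1728 * qD R = q4 R ^ 3 - q6 R ^ 2 := by
  unfold qD q4 q6
  have h := congrArg (PowerSeries.map (Int.castRingHom R)) Pool.Agent.Q237.SX.zD_eq
  rw [map_mul, map_sub, map_pow, map_pow] at h
  rw [← h]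
  congr 1
  exact (map_ofNat (PowerSeries.map (Int.castRingHom R)) 1728).symm

theorem qd_inv : ls (qd R) * ls (PowerSeries.invOfUnit (qd R) 1) = 1 := by
  rw [← ls_mul, PowerSeries.mul_invOfUnit (qd R) 1 (cc_map _ Pool.Agent.Q237.SX.zd0), ls_one]

theorem q4_inv : ls (q4 R) * ls (PowerSeries.invOfUnit (q4 R) 1) = 1 := by
  rw [← ls_mul, PowerSeries.mul_invOfUnit (q4 R) 1 (cc_map _ z4_0), ls_one]

theorem q6_inv : ls (q6 R) * ls (PowerSeries.invOfUnit (q6 R) 1) = 1 := by
  rw [← ls_mul, PowerSeries.mul_invOfUnit (q6 R) 1 (cc_map _ z6_0), ls_one]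

theorem single_mul_single : (HahnSeries.single (1 : ℤ) (1 : R)) * HahnSeries.single (-1 : ℤ) (1 : R) =
    1 := by
  rw [HahnSeries.single_mul_single]
  simp

theorem qD_Di : ls (qD R) * Di R = 1 := by
  unfold Di
  rw [qD_X, ls_mul, ls_X]
  have h1 := single_mul_single (R := R)
  have h2 := qd_inv (R := R)
  calc HahnSeries.single (1 : ℤ) (1 : R) * ls (qd R) *
        (HahnSeries.single (-1) 1 * ls (PowerSeries.invOfUnit (qd R) 1))
      = (HahnSeries.single (1 : ℤ) (1 : R) * HahnSeries.single (-1 : ℤ) (1 : R)) *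
        (ls (qd R) * ls (PowerSeries.invOfUnit (qd R) 1)) := by ring
    _ = 1 := by rw [h1, h2, one_mul]

theorem coeff_shift (g : PowerSeries R) (n : ℤ) :
    (HahnSeries.single (-1 : ℤ) (1 : R) * ls g).coeff n = (ls g).coeff (n + 1) := by
  have h := HahnSeries.coeff_single_mul_add (r := (1 : R)) (x := ls g) (a := n + 1) (b := (-1 : ℤ))
  rw [one_mul] at h
  rw [← h]
  congr 1
  ring

theorem coeff_m1 (g : PowerSeries R) (hg : PowerSeries.constantCoeff g = 1) :
    (HahnSeries.single (-1 : ℤ) (1 : R) * ls g).coeff (-1) = 1 := by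
  rw [coeff_shift, ls_coeff]
  simp [hg]

theorem coeff_lt (g : PowerSeries R) (n : ℤ) (hn : n < -1) :
    (HahnSeries.single (-1 : ℤ) (1 : R) * ls g).coeff n = 0 := by
  rw [coeff_shift, ls_coeff, if_pos (by omega)]

theorem jj_eq : jj R = HahnSeries.single (-1 : ℤ) (1 : R) *
    ls (q4 R ^ 3 * PowerSeries.invOfUnit (qd R) 1) := by
  unfold jj Di
  rw [ls_mul, ls_pow]
  ring

theorem cc_inv : PowerSeries.constantCoeff (PowerSeries.invOfUnit (qd R) 1) = 1 := by
  rw [PowerSeries.constantCoeff_invOfUnit]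
  simp

theorem cc_jj : PowerSeries.constantCoeff (q4 R ^ 3 * PowerSeries.invOfUnit (qd R) 1) = 1 := by
  rw [map_mul, map_pow, cc_inv]
  have h : PowerSeries.constantCoeff (q4 R) = 1 := by
    have := cc_map (R := R) _ z4_0
    simpa [q4] using this
  rw [h]
  simp

theorem VV_ls (p : ℕ) [hp : Fact p.Prime] (f : PowerSeries R) : VV p R (ls f) = ls (fr p f) := by
  ext n
  have hp0 : (0 : ℤ) < p := by exact_mod_cast hp.out.pos
  by_cases hn : (p : ℤ) ∣ n
  · obtain ⟨m, rfl⟩ := hn
    rw [VV_mul, ls_coeff, ls_coeff]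
    by_cases hm : m < 0
    · rw [if_pos hm, if_pos (by nlinarith)]
    · rw [if_neg hm, if_neg (by nlinarith)]
      unfold fr
      rw [PowerSeries.coeff_mk, Int.natAbs_mul, Int.natAbs_natCast, if_pos (dvd_mul_right _ _),
        Nat.mul_div_cancel_left _ hp.out.pos]
  · rw [VV_not p _ n hn, ls_coeff]
    by_cases hm : n < 0
    · rw [if_pos hm]
    · rw [if_neg hm]
      unfold fr
      rw [PowerSeries.coeff_mk, if_neg]
      intro h
      apply hn
      exact Int.natCast_dvd.2 h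

theorem q6_Di : ls (q6 R) ^ 2 * Di R = jj R - 1728 := by
  have h1 : ls (1728 * qD R) = ls (q4 R ^ 3 - q6 R ^ 2) := by rw [qD_eq]
  rw [ls_mul, ls_sub, ls_pow, ls_pow, ls_1728] at h1
  have h2 := qD_Di (R := R)
  unfold jj
  linear_combination (Di R) * h1 - 1728 * h2

theorem UU_VV (p : ℕ) [hp : Fact p.Prime] (s : LaurentSeries R) : UU p R (VV p R s) = s := by
  ext n
  exact VV_mul p s n

theorem main : LSBasic := by
  intro p hp R _
  refine ⟨fun s n => VV_mul p s n, fun s n hn => VV_not p s n hn, fun f => VV_ls p f, qD_Di,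
    q4_inv, q6_inv, q6_Di, fun s => UU_VV p s, ?_, ?_, ?_, ?_⟩
  · rw [jj_eq]
    exact coeff_m1 _ cc_jj
  · intro n hn
    rw [jj_eq]
    exact coeff_lt _ n hn
  · exact coeff_m1 _ cc_inv
  · intro n hn
    exact coeff_lt _ n hn

end

end Pool.Agent.H476.OCLSBasic
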