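import Mathlib

open Complex Filter Topology Set MeasureTheory

namespace Pool.Agent.H476.Ext

/-- closing the contour in the lower half plane -/
lemma LH {F : ℂ → ℂ} {C R0 : ℝ} (hd : ∀ z : ℂ, z.im ≤ 0 → DifferentiableAt ℂ F z)
    (hb : ∀ z : ℂ, z.im ≤ 0 → R0 ≤ ‖z‖ → ‖F z‖ ≤ C / ‖z‖ ^ 2)
    (hint : Integrable (fun x : ℝ => F x)) : ∫ x : ℝ, F x = 0 := by
  have hlim : Tendsto (fun R : ℝ => ∫ x in (-R)..R, F x) atTop (𝓝 (∫ x : ℝ, F x)) :=
    intervalIntegral_tendsto_integral hint tendsto_neg_atTop_atBot tendsto_id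
  have hbound : ∀ᶠ R : ℝ in atTop, ‖∫ x in (-R)..R, F x‖ ≤ 4 * |C| / R := by
    filter_upwards [eventually_ge_atTop R0, eventually_ge_atTop (1 : ℝ)] with R hR hR1
    have hR0 : 0 < R := by linarith
    have hC : 0 ≤ |C| := abs_nonneg C
    have key := Complex.integral_boundary_rect_eq_zero_of_differentiableOn F ⟨-R, -R⟩ ⟨R, 0⟩ (by
      intro z hz
      have h1 := hz.2
      rw [mem_preimage, uIcc_of_le (by simp; linarith)] at h1
      exact (hd z h1.2).differentiableWithinAt)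
    simp only [smul_eq_mul] at key
    have hb' : ∀ z : ℂ, z.im ≤ 0 → R ≤ ‖z‖ → ‖F z‖ ≤ |C| / R ^ 2 := by
      intro z hz hzR
      have h2 := hb z hz (hR.trans hzR)
      have h3 : C / ‖z‖ ^ 2 ≤ |C| / ‖z‖ ^ 2 :=
        div_le_div_of_nonneg_right (le_abs_self C) (by positivity)
      refine (h2.trans h3).trans ?_
      exact div_le_div_of_nonneg_left hC (by positivity) (pow_le_pow_left₀ hR0.le hzR 2)
    have e1 : ‖∫ x in (-R)..R, F (x + ((-R : ℝ) : ℂ) * I)‖ ≤ |C| / R ^ 2 * |R - (-R)| := by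
      refine intervalIntegral.norm_integral_le_of_norm_le_const fun x hx => ?_
      refine hb' _ (by simp; linarith) ?_
      have := abs_im_le_norm ((x : ℂ) + ((-R : ℝ) : ℂ) * I)
      have h5 : ((x : ℂ) + ((-R : ℝ) : ℂ) * I).im = -R := by simp
      rwa [h5, abs_neg, abs_of_pos hR0] at this
    have e2 : ‖∫ y in (-R)..0, F (((R : ℝ) : ℂ) + y * I)‖ ≤ |C| / R ^ 2 * |0 - (-R)| := by
      refine intervalIntegral.norm_integral_le_of_norm_le_const fun y hy => ?_
      rw [uIoc_of_le (by linarith)] at hy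
      refine hb' _ (by simpa using hy.2) ?_
      have := abs_re_le_norm (((R : ℝ) : ℂ) + y * I)
      simp at this
      rwa [abs_of_pos hR0] at this
    have e3 : ‖∫ y in (-R)..0, F (((-R : ℝ) : ℂ) + y * I)‖ ≤ |C| / R ^ 2 * |0 - (-R)| := by
      refine intervalIntegral.norm_integral_le_of_norm_le_const fun y hy => ?_
      rw [uIoc_of_le (by linarith)] at hy
      refine hb' _ (by simpa using hy.2) ?_
      have := abs_re_le_norm (((-R : ℝ) : ℂ) + y * I)
      have h5 : (((-R : ℝ) : ℂ) + y * I).re = -R := by simp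
      rwa [h5, abs_neg, abs_of_pos hR0] at this
    have e4 : (∫ x in (-R)..R, F x) = (∫ x in (-R)..R, F (x + ((-R : ℝ) : ℂ) * I)) +
        I * (∫ y in (-R)..0, F (((R : ℝ) : ℂ) + y * I)) -
        I * (∫ y in (-R)..0, F (((-R : ℝ) : ℂ) + y * I)) := by
      have : (∫ x in (-R)..R, F (x + ((0 : ℝ) : ℂ) * I)) = ∫ x in (-R)..R, F x := by simp
      rw [← this]
      linear_combination -key
    rw [e4]
    refine (norm_sub_le _ _).trans ?_
    refine (add_le_add (norm_add_le _ _) le_rfl).trans ?_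
    rw [norm_mul, norm_mul, norm_I, one_mul, one_mul]
    have e5 : |R - (-R)| = 2 * R := by rw [abs_of_pos (by linarith)]; ring
    have e6 : |0 - (-R)| = R := by rw [abs_of_pos (by linarith)]; ring
    rw [e5] at e1
    rw [e6] at e2 e3
    calc _ ≤ |C| / R ^ 2 * (2 * R) + |C| / R ^ 2 * R + |C| / R ^ 2 * R :=
          add_le_add (add_le_add e1 e2) e3
      _ = 4 * |C| / R := by field_simp; ring
  have hz : Tendsto (fun R : ℝ => 4 * |C| / R) atTop (𝓝 0) := tendsto_const_nhds.div_atTop tendsto_id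
  have h0 := squeeze_zero_norm' hbound hz
  exact tendsto_nhds_unique hlim h0

lemma norm_le_sub {z : ℂ} {b : ℝ} (hz : z.im ≤ 0) (hb : 0 ≤ b) : ‖z‖ ≤ ‖z - b * I‖ := by
  apply Real.sqrt_le_sqrt
  simp only [normSq_apply, sub_re, sub_im, mul_re, mul_im, ofReal_re, ofReal_im, I_re, I_im]
  nlinarith

lemma one_add_sq_le {τ b : ℝ} (hb : 1 ≤ |b|) : Real.sqrt (1 + τ ^ 2) ≤ ‖(τ : ℂ) - b * I‖ := by
  apply Real.sqrt_le_sqrt
  simp only [normSq_apply, sub_re, sub_im, mul_re, mul_im, ofReal_re, ofReal_im, I_re, I_im]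
  have : 1 ≤ b ^ 2 := by
    rw [← sq_abs]; nlinarith
  nlinarith

lemma sub_ne {τ b : ℝ} (hb : b ≠ 0) : (τ : ℂ) - b * I ≠ 0 := by
  intro h
  have := congrArg im h
  simp at this
  exact hb this

/-- the kernel difference on the real line -/
noncomputable def bk (b : ℝ) (z : ℂ) : ℂ := 1 / (z - b * I) - 1 / (z - I)

lemma bk_eq {b : ℝ} {z : ℂ} (h1 : z - b * I ≠ 0) (h2 : z - I ≠ 0) :
    bk b z = (b * I - I) / ((z - b * I) * (z - I)) := by
  unfold bk
  field_simp
  ring

lemma norm_bk_real {b : ℝ} (hb : 1 ≤ |b|) (τ : ℝ) :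
    ‖bk b τ‖ ≤ (|b| + 1) * (1 + τ ^ 2)⁻¹ := by
  have hb0 : b ≠ 0 := by rintro rfl; simp at hb; linarith
  have h1 : (τ : ℂ) - b * I ≠ 0 := sub_ne hb0
  have h2 : (τ : ℂ) - I ≠ 0 := by simpa using sub_ne (τ := τ) (b := 1) one_ne_zero
  rw [bk_eq h1 h2, norm_div, norm_mul]
  have e1 : ‖(b : ℂ) * I - I‖ ≤ |b| + 1 := by
    refine (norm_sub_le _ _).trans ?_
    simp
  have e2 := one_add_sq_le (τ := τ) hb
  have e3 : Real.sqrt (1 + τ ^ 2) ≤ ‖(τ : ℂ) - I‖ := by
    simpa using one_add_sq_le (τ := τ) (b := 1) (by simp)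
  have e4 : 0 < 1 + τ ^ 2 := by positivity
  have e5 : 1 + τ ^ 2 ≤ ‖(τ : ℂ) - b * I‖ * ‖(τ : ℂ) - I‖ := by
    calc 1 + τ ^ 2 = Real.sqrt (1 + τ ^ 2) * Real.sqrt (1 + τ ^ 2) :=
          (Real.mul_self_sqrt e4.le).symm
      _ ≤ _ := mul_le_mul e2 e3 (Real.sqrt_nonneg _) (norm_nonneg _)
  rw [← div_eq_mul_inv]
  exact div_le_div₀ (by positivity) e1 e4 e5

lemma bk_cont {b : ℝ} (hb : b ≠ 0) : Continuous (fun τ : ℝ => bk b τ) := by
  unfold bk
  refine Continuous.sub ?_ ?_
  · exact continuous_const.div (by fun_prop) fun τ => sub_ne hb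
  · refine continuous_const.div (by fun_prop) fun τ => ?_
    simpa using sub_ne (τ := τ) (b := 1) one_ne_zero

lemma bk_int {b : ℝ} (hb : 1 ≤ |b|) {q : ℝ → ℂ} (hq : AEStronglyMeasurable q)
    {M : ℝ} (hq1 : ∀ τ, ‖q τ‖ ≤ M) :
    Integrable (fun τ : ℝ => q τ * bk b τ) := by
  have hb0 : b ≠ 0 := by rintro rfl; simp at hb; linarith
  have hM : 0 ≤ M := (norm_nonneg _).trans (hq1 0)
  refine Integrable.mono' ((integrable_inv_one_add_sq).const_mul (M * (|b| + 1)))
    (hq.mul (bk_cont hb0).aestronglyMeasurable) (Eventually.of_forall fun τ => ?_)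
  rw [norm_mul]
  calc ‖q τ‖ * ‖bk b τ‖ ≤ M * ((|b| + 1) * (1 + τ ^ 2)⁻¹) :=
        mul_le_mul (hq1 τ) (norm_bk_real hb τ) (norm_nonneg _) hM
    _ = _ := by ring

/-- poles in the upper half plane -/
lemma int_upper {b : ℝ} (hb : 1 ≤ b) {q : ℂ → ℂ} (hq : ∀ z : ℂ, z.im ≤ 0 → DifferentiableAt ℂ q z)
    (hq1 : ∀ z : ℂ, z.im ≤ 0 → ‖q z‖ ≤ 1) : ∫ τ : ℝ, q τ * bk b τ = 0 := by
  have hab : |b| = b := abs_of_pos (by linarith)
  have hqc : Continuous (fun τ : ℝ => q τ) := by
    rw [continuous_iff_continuousAt]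
    intro τ
    exact ContinuousAt.comp (f := fun τ : ℝ => (τ : ℂ)) (hq τ (by simp)).continuousAt
      continuous_ofReal.continuousAt
  refine LH (F := fun z => q z * bk b z) (C := b + 1) (R0 := 1) ?_ ?_ ?_
  · intro z hz
    refine (hq z hz).mul ?_
    have h1 : z - b * I ≠ 0 := by
      intro h; have := congrArg im h; simp at this; linarith
    have h2 : z - I ≠ 0 := by
      intro h; have := congrArg im h; simp at this; linarith
    unfold bk
    fun_prop (disch := assumption)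
  · intro z hz hz1
    have h1 : z - b * I ≠ 0 := by
      intro h; have := congrArg im h; simp at this; linarith
    have h2 : z - I ≠ 0 := by
      intro h; have := congrArg im h; simp at this; linarith
    rw [norm_mul, bk_eq h1 h2, norm_div, norm_mul]
    have e0 : ‖(b : ℂ) * I - I‖ ≤ b + 1 := by
      refine (norm_sub_le _ _).trans ?_
      simp [hab]
    have e1 := norm_le_sub hz (b := b) (by linarith)
    have e2 : ‖z‖ ≤ ‖z - I‖ := by simpa using norm_le_sub hz (b := 1) (by norm_num)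
    have e3 : 0 < ‖z‖ := by linarith
    have e4 : ‖z‖ ^ 2 ≤ ‖z - b * I‖ * ‖z - I‖ := by
      rw [sq]; exact mul_le_mul e1 e2 (norm_nonneg _) (norm_nonneg _)
    calc ‖q z‖ * (‖(b : ℂ) * I - I‖ / (‖z - b * I‖ * ‖z - I‖)) ≤
        1 * ((b + 1) / ‖z‖ ^ 2) := by
          refine mul_le_mul (hq1 z hz) ?_ (by positivity) zero_le_one
          exact div_le_div₀ (by linarith) e0 (by positivity) e4
      _ = _ := one_mul _
  · exact bk_int (by rw [hab]; exact hb) hqc.aestronglyMeasurable (M := 1) fun τ => hq1 τ (by simp)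

lemma int_bk_neg {a : ℝ} (ha : 1 ≤ a) : ∫ τ : ℝ, bk (-a) τ = -(2 * Real.pi * I) := by
  have h1 : ∫ τ : ℝ, bk a τ = 0 := by
    have := int_upper (b := a) ha (q := fun _ => 1) (fun z _ => differentiableAt_const _)
      (fun z _ => by simp)
    simpa using this
  have haa : 1 ≤ |a| := ha.trans (le_abs_self a)
  have hint : Integrable (fun τ : ℝ => bk a τ) := by
    have := bk_int (b := a) haa (q := fun _ => 1) (by fun_prop) (M := 1) (fun _ => by simp)
    simpa using this
  have h2 : ∀ τ : ℝ, bk (-a) τ = (starRingEnd ℂ) (bk a τ) + (-2 * I) * ((1 + τ ^ 2)⁻¹ : ℝ) := by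
    intro τ
    unfold bk
    simp only [map_sub, map_div₀, map_one, map_mul, conj_ofReal, conj_I]
    have e1 : (τ : ℂ) - I ≠ 0 := by simpa using sub_ne (τ := τ) (b := 1) one_ne_zero
    have e2 : (τ : ℂ) - -I ≠ 0 := by simpa using sub_ne (τ := τ) (b := -1) (by norm_num)
    have e3 : (1 + (τ : ℂ) ^ 2) ≠ 0 := by
      have : (0 : ℝ) < 1 + τ ^ 2 := by positivity
      exact_mod_cast this.ne'
    have e4 : 1 / ((τ : ℂ) - -I) - 1 / ((τ : ℂ) - I) = (-2 * I) * (1 + (τ : ℂ) ^ 2)⁻¹ := by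
      have e5 : ((τ : ℂ) - -I) * ((τ : ℂ) - I) = 1 + (τ : ℂ) ^ 2 := by
        ring_nf; rw [I_sq]; ring
      rw [div_sub_div _ _ e2 e1, e5, div_eq_mul_inv]
      ring
    push_cast
    rw [← e4]
    ring
  simp_rw [h2]
  have h3 : ∫ τ : ℝ, (((1 + τ ^ 2)⁻¹ : ℝ) : ℂ) = ((∫ τ : ℝ, (1 + τ ^ 2)⁻¹ : ℝ) : ℂ) :=
    integral_ofReal
  rw [integral_add, integral_conj, h1, integral_const_mul, h3,
    integral_univ_inv_one_add_sq]
  · simp; ring
  · exact hint.mono (Complex.continuous_conj.comp_aestronglyMeasurable hint.1)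
      (Eventually.of_forall fun τ => by simp)
  · exact (integrable_inv_one_add_sq.ofReal).const_mul _

/-- poles in the lower half plane -/
lemma int_lower {a : ℝ} (ha : 1 ≤ a) {q : ℂ → ℂ} {U : Set ℂ} (hU : IsOpen U)
    (hUs : ∀ z : ℂ, z.im ≤ 0 → z ∈ U) (hq : DifferentiableOn ℂ q U)
    (hq1 : ∀ z : ℂ, z.im ≤ 0 → ‖q z‖ ≤ 1) :
    ∫ τ : ℝ, q τ * bk (-a) τ = -(2 * Real.pi * I) * q (-(a * I)) := by
  set w : ℂ := -(a * I) with hw
  have hwim : w.im = -a := by simp [hw]
  have hwlow : w.im ≤ 0 := by rw [hwim]; linarith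
  have haa : |(-a)| = a := by rw [abs_neg, abs_of_pos (by linarith)]
  have hqc : Continuous (fun τ : ℝ => q τ) := by
    rw [continuous_iff_continuousAt]
    intro τ
    exact ContinuousAt.comp (f := fun τ : ℝ => (τ : ℂ))
      ((hq.differentiableAt (hU.mem_nhds (hUs τ (by simp)))).continuousAt)
      continuous_ofReal.continuousAt
  have hI1 : Integrable (fun τ : ℝ => q τ * bk (-a) τ) :=
    bk_int (by rw [haa]; exact ha) hqc.aestronglyMeasurable (M := 1) fun τ => hq1 τ (by simp)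
  have hI2 : Integrable (fun τ : ℝ => bk (-a) τ) := by
    have := bk_int (b := -a) (by rw [haa]; exact ha) (q := fun _ => 1) (by fun_prop) (M := 1)
      (fun _ => by simp)
    simpa using this
  have hzw : ∀ z : ℂ, z - ((-a : ℝ) : ℂ) * I = z - w := fun z => by rw [hw]; push_cast; ring
  have hG0 : ∫ τ : ℝ, (dslope q w τ * ((w - I) / (τ - I))) = 0 := by
    have hds : DifferentiableOn ℂ (dslope q w) U :=
      (Complex.differentiableOn_dslope (hU.mem_nhds (hUs w hwlow))).2 hq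
    have heq : ∀ τ : ℝ, dslope q w τ * ((w - I) / (τ - I)) = (q τ - q w) * bk (-a) τ := by
      intro τ
      have h1 : (τ : ℂ) - w ≠ 0 := by
        rw [← hzw]; exact sub_ne (by linarith)
      have h2 : (τ : ℂ) - I ≠ 0 := by simpa using sub_ne (τ := τ) (b := 1) one_ne_zero
      rw [dslope_of_ne _ (sub_ne_zero.1 h1), slope_def_field, bk_eq (by rw [hzw]; exact h1) h2, hzw]
      rw [hw]
      push_cast
      field_simp
    refine LH (F := fun z => dslope q w z * ((w - I) / (z - I))) (C := 4 * (a + 1))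
      (R0 := 2 * a) ?_ ?_ ?_
    · intro z hz
      have h2 : z - I ≠ 0 := by
        intro h; have := congrArg im h; simp at this; linarith
      have h3 : DifferentiableAt ℂ (dslope q w) z := hds.differentiableAt (hU.mem_nhds (hUs z hz))
      exact h3.mul ((differentiableAt_const _).div (by fun_prop) h2)
    · intro z hz hz1
      have hz0 : 0 < ‖z‖ := by linarith
      have hwn : ‖w‖ = a := by
        rw [hw, norm_neg, norm_mul, norm_I, mul_one, norm_real, Real.norm_eq_abs,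
          abs_of_pos (by linarith)]
      have e1 : ‖z‖ / 2 ≤ ‖z - w‖ := by
        have := norm_sub_norm_le z w
        rw [hwn] at this
        linarith
      have e2 : ‖z‖ ≤ ‖z - I‖ := by simpa using norm_le_sub hz (b := 1) (by norm_num)
      have h1 : z - w ≠ 0 := norm_pos_iff.1 (by linarith)
      rw [norm_mul, dslope_of_ne _ (sub_ne_zero.1 h1), slope_def_field, norm_div, norm_div]
      have e3 : ‖q z - q w‖ ≤ 2 := by
        refine (norm_sub_le _ _).trans ?_
        linarith [hq1 z hz, hq1 w hwlow]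
      have e4 : ‖w - I‖ ≤ a + 1 := by
        refine (norm_sub_le _ _).trans ?_
        rw [hwn]; simp
      calc ‖q z - q w‖ / ‖z - w‖ * (‖w - I‖ / ‖z - I‖) ≤ 2 / (‖z‖ / 2) * ((a + 1) / ‖z‖) := by
            refine mul_le_mul ?_ ?_ (by positivity) (by positivity)
            · exact div_le_div₀ (by norm_num) e3 (by positivity) e1
            · exact div_le_div₀ (by linarith) e4 hz0 e2
        _ = 4 * (a + 1) / ‖z‖ ^ 2 := by field_simp; ring
    · refine (bk_int (b := -a) (by rw [haa]; exact ha) (q := fun τ => q τ - q w)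
        (hqc.sub continuous_const).aestronglyMeasurable (M := 2) fun τ => ?_).congr
        (Eventually.of_forall fun τ => (heq τ).symm)
      refine (norm_sub_le _ _).trans ?_
      linarith [hq1 τ (by simp), hq1 w hwlow]
  have hsplit : ∀ τ : ℝ, q τ * bk (-a) τ = dslope q w τ * ((w - I) / (τ - I)) +
      q w * bk (-a) τ := by
    intro τ
    have h1 : (τ : ℂ) - w ≠ 0 := by
      rw [← hzw]; exact sub_ne (by linarith)
    have h2 : (τ : ℂ) - I ≠ 0 := by simpa using sub_ne (τ := τ) (b := 1) one_ne_zero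
    rw [dslope_of_ne _ (sub_ne_zero.1 h1), slope_def_field, bk_eq (by rw [hzw]; exact h1) h2, hzw]
    rw [hw]
    push_cast
    field_simp
    ring
  have hI3 : Integrable (fun τ : ℝ => dslope q w τ * ((w - I) / (τ - I))) := by
    refine (hI1.sub (hI2.const_mul (q w))).congr (Eventually.of_forall fun τ => ?_)
    simp only [Pi.sub_apply]
    rw [hsplit τ]; ring
  simp_rw [hsplit]
  rw [integral_add hI3 (hI2.const_mul _), hG0, integral_const_mul, int_bk_neg ha]
  ring

end Pool.Agent.H476.Ext
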