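import Pool.Agent.H476.EA

open Complex Filter Topology Set MeasureTheory

namespace Pool.Agent.H476.Ext

/-- periodised Bernoulli function -/
noncomputable def Bt (k : ℕ) (y : ℝ) : ℝ := bernoulliFun k (Int.fract y)

noncomputable def ee (α : ℝ) (k : ℤ) : ℂ := cexp (2 * Real.pi * I * k * α)

noncomputable def bb (k : ℤ) : ℝ := 2 * Real.pi * k

noncomputable def aa (n : ℕ) (α : ℝ) (k : ℤ) : ℂ := ee α k / ((bb k : ℂ) * I) ^ n

lemma fourierB {k : ℕ} (hk : 2 ≤ k) (y : ℝ) :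
    HasSum (fun m : ℤ => 1 / (m : ℂ) ^ k * ee y m)
      (-(2 * Real.pi * I) ^ k / k.factorial * Bt k y) := by
  have h := hasSum_one_div_pow_mul_fourier_mul_bernoulliFun hk (x := Int.fract y)
    ⟨Int.fract_nonneg y, (Int.fract_lt_one y).le⟩
  refine (h.congr_fun ?_)
  intro m
  congr 1
  rw [fourier_coe_apply, ee]
  have : (2 * Real.pi * I * m * y : ℂ) = 2 * Real.pi * I * m * ((Int.fract y : ℝ) : ℂ) / (1 : ℝ) +
      ((m * ⌊y⌋ : ℤ) : ℂ) * (2 * Real.pi * I) := by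
    have e : (y : ℂ) = ((Int.fract y : ℝ) : ℂ) + (⌊y⌋ : ℂ) := by
      have := Int.fract_add_floor y
      exact_mod_cast this.symm
    push_cast
    rw [e]
    ring
  rw [this, Complex.exp_add, Complex.exp_int_mul_two_pi_mul_I, mul_one]

lemma norm_ee (α : ℝ) (k : ℤ) : ‖ee α k‖ = 1 := by
  rw [ee, show (2 * Real.pi * I * k * α : ℂ) = ((2 * Real.pi * k * α : ℝ) : ℂ) * I by
    push_cast; ring, norm_exp_ofReal_mul_I]

lemma aa_zero {n : ℕ} (hn : 2 ≤ n) (α : ℝ) : aa n α 0 = 0 := by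
  unfold aa bb
  simp
  right; omega

lemma bb_abs {k : ℤ} (hk : k ≠ 0) : 1 ≤ |bb k| ∧ |(k : ℝ)| ≤ |bb k| ∧ 1 ≤ |(k : ℝ)| := by
  have h1 : (1 : ℝ) ≤ |(k : ℝ)| := by
    have := Int.one_le_abs hk
    exact_mod_cast this
  have h2 : |bb k| = 2 * Real.pi * |(k : ℝ)| := by
    unfold bb
    rw [abs_mul, abs_of_pos (by positivity : 0 < 2 * Real.pi)]
  have h3 := Real.pi_gt_three
  rw [h2]
  refine ⟨by nlinarith, by nlinarith, h1⟩

/-- majorant -/
noncomputable def uu (τ : ℝ) : ℝ := ((1 : ℝ) + ‖τ‖ ^ 2) ^ (-(3 / 2 : ℝ) / 2)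

lemma uu_int : Integrable uu := by
  unfold uu
  exact integrable_rpow_neg_one_add_norm_sq (by simp; norm_num)

lemma uu_nonneg (τ : ℝ) : 0 ≤ uu τ := by unfold uu; positivity

lemma uu_le_one (τ : ℝ) : uu τ ≤ 1 := by
  unfold uu
  apply Real.rpow_le_one_of_one_le_of_nonpos
  · have : 0 ≤ ‖τ‖ ^ 2 := by positivity
    linarith
  · norm_num

lemma norm_bk_fine {b : ℝ} (hb : 1 ≤ |b|) (τ : ℝ) :
    ‖bk b τ‖ ≤ 2 * Real.sqrt |b| * uu τ := by
  have hb0 : b ≠ 0 := by rintro rfl; simp at hb; linarith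
  have h1 : (τ : ℂ) - b * I ≠ 0 := sub_ne hb0
  have h2 : (τ : ℂ) - I ≠ 0 := by simpa using sub_ne (τ := τ) (b := 1) one_ne_zero
  rw [bk_eq h1 h2, norm_div, norm_mul]
  set s1 := Real.sqrt (1 + τ ^ 2) with hs1
  have hs1p : 0 < s1 := by positivity
  have e1 : ‖(b : ℂ) * I - I‖ ≤ 2 * |b| := by
    refine (norm_sub_le _ _).trans ?_
    simp
    linarith
  have e2 : s1 ≤ ‖(τ : ℂ) - b * I‖ := one_add_sq_le (τ := τ) hb
  have e3 : s1 ≤ ‖(τ : ℂ) - I‖ := by
    simpa using one_add_sq_le (τ := τ) (b := 1) (by simp)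
  have e4 : |b| ≤ ‖(τ : ℂ) - b * I‖ := by
    have := abs_im_le_norm ((τ : ℂ) - b * I)
    simpa using this
  have e5 : Real.sqrt (s1 * |b|) ≤ ‖(τ : ℂ) - b * I‖ := by
    rw [Real.sqrt_le_left (norm_nonneg _), sq]
    exact mul_le_mul e2 e4 (abs_nonneg _) (norm_nonneg _)
  have hb1 : 0 < |b| := by linarith
  have e6 : uu τ = (s1 * Real.sqrt s1)⁻¹ := by
    have h0 : (0 : ℝ) < 1 + τ ^ 2 := by positivity
    rw [uu, hs1, Real.sqrt_eq_rpow, Real.sqrt_eq_rpow, ← Real.rpow_mul h0.le,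
      ← Real.rpow_add h0, ← Real.rpow_neg h0.le, Real.norm_eq_abs, sq_abs]
    norm_num
  rw [e6]
  have e7 : Real.sqrt (s1 * |b|) = Real.sqrt s1 * Real.sqrt |b| := Real.sqrt_mul hs1p.le _
  have hsb : 0 < Real.sqrt |b| := Real.sqrt_pos.2 hb1
  have hss : 0 < Real.sqrt s1 := Real.sqrt_pos.2 hs1p
  calc ‖(b : ℂ) * I - I‖ / (‖(τ : ℂ) - b * I‖ * ‖(τ : ℂ) - I‖)
      ≤ (2 * |b|) / ((Real.sqrt s1 * Real.sqrt |b|) * s1) := by
        refine div_le_div₀ (by positivity) e1 (by positivity) ?_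
        rw [← e7]
        exact mul_le_mul e5 e3 hs1p.le (norm_nonneg _)
    _ = 2 * Real.sqrt |b| * (s1 * Real.sqrt s1)⁻¹ := by
        have : |b| = Real.sqrt |b| * Real.sqrt |b| := (Real.mul_self_sqrt hb1.le).symm
        conv_lhs => rw [this]
        rw [← this]
        field_simp
        rw [sq, ← this]

/-- the coefficients of the majorant -/
noncomputable def ck (k : ℤ) : ℝ := 2 * |(k : ℝ)| ^ (-(3 / 2 : ℝ))

lemma ck_summable : Summable ck := by
  unfold ck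
  exact (Real.summable_abs_int_rpow (by norm_num)).mul_left 2

lemma ck_nonneg (k : ℤ) : 0 ≤ ck k := by unfold ck; positivity

lemma norm_term_le {n : ℕ} (hn : 2 ≤ n) (α : ℝ) (k : ℤ) (τ : ℝ) :
    ‖aa n α k * bk (bb k) τ‖ ≤ ck k * uu τ := by
  by_cases hk : k = 0
  · subst hk
    rw [aa_zero hn, zero_mul, norm_zero]
    exact mul_nonneg (ck_nonneg 0) (uu_nonneg τ)
  obtain ⟨h1, h2, h3⟩ := bb_abs hk
  have e1 : ‖aa n α k‖ ≤ (|bb k| ^ 2)⁻¹ := by
    unfold aa
    rw [norm_div, norm_ee, norm_pow, norm_mul, norm_I, mul_one, norm_real, Real.norm_eq_abs,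
      one_div]
    exact inv_anti₀ (by positivity) (pow_le_pow_right₀ h1 hn)
  rw [norm_mul]
  have e2 := norm_bk_fine h1 τ
  have h0 : 0 < |bb k| := by linarith
  have h4 : 0 < |(k : ℝ)| := by linarith
  have e3 : (|bb k| ^ 2)⁻¹ * Real.sqrt |bb k| ≤ |(k : ℝ)| ^ (-(3 / 2 : ℝ)) := by
    have : (|bb k| ^ 2)⁻¹ * Real.sqrt |bb k| = |bb k| ^ (-(3 / 2 : ℝ)) := by
      rw [Real.sqrt_eq_rpow, ← Real.rpow_natCast, ← Real.rpow_neg h0.le, ← Real.rpow_add h0]
      norm_num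
    rw [this]
    exact Real.rpow_le_rpow_of_nonpos h4 h2 (by norm_num)
  calc ‖aa n α k‖ * ‖bk (bb k) τ‖ ≤ (|bb k| ^ 2)⁻¹ * (2 * Real.sqrt |bb k| * uu τ) :=
        mul_le_mul e1 e2 (norm_nonneg _) (by positivity)
    _ = 2 * ((|bb k| ^ 2)⁻¹ * Real.sqrt |bb k|) * uu τ := by ring
    _ ≤ 2 * (|(k : ℝ)| ^ (-(3 / 2 : ℝ))) * uu τ := by
        have := uu_nonneg τ
        gcongr
    _ = _ := rfl

/-- the kernel `K/(n+1)!` -/
noncomputable def kk (n : ℕ) (α : ℝ) (τ : ℝ) : ℂ := ∑' k : ℤ, aa n α k * bk (bb k) τ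

lemma bb_ne {k : ℤ} (hk : k ≠ 0) : bb k ≠ 0 := by
  have := (bb_abs hk).1
  intro h
  rw [h] at this
  simp at this
  linarith

lemma term_cont {n : ℕ} (hn : 2 ≤ n) (α : ℝ) (k : ℤ) :
    Continuous (fun τ : ℝ => aa n α k * bk (bb k) τ) := by
  by_cases hk : k = 0
  · subst hk
    simp only [aa_zero hn, zero_mul]
    exact continuous_const
  · exact continuous_const.mul (bk_cont (bb_ne hk))

lemma kk_cont {n : ℕ} (hn : 2 ≤ n) (α : ℝ) : Continuous (kk n α) := by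
  unfold kk
  refine continuous_tsum (fun k => term_cont hn α k) ck_summable fun k τ => ?_
  refine (norm_term_le hn α k τ).trans ?_
  have := uu_le_one τ
  have := ck_nonneg k
  nlinarith

lemma kk_bound {n : ℕ} (hn : 2 ≤ n) (α : ℝ) (τ : ℝ) : ‖kk n α τ‖ ≤ (∑' k, ck k) * uu τ := by
  unfold kk
  exact tsum_of_norm_bounded (ck_summable.hasSum.mul_right _) fun k => norm_term_le hn α k τ

lemma kk_int {n : ℕ} (hn : 2 ≤ n) (α : ℝ) : Integrable (kk n α) := by
  refine Integrable.mono' (uu_int.const_mul (∑' k, ck k)) (kk_cont hn α).aestronglyMeasurable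
    (Eventually.of_forall fun τ => kk_bound hn α τ)

/-- the multiplier -/
noncomputable def qq (n : ℕ) (μ : ℝ) (z : ℂ) : ℂ := (1 + μ * I / (z - μ * I)) ^ (n + 1)

lemma qq_zero (n : ℕ) (z : ℂ) : qq n 0 z = 1 := by simp [qq]

lemma qq_eq {n : ℕ} {μ : ℝ} {z : ℂ} (h : z - μ * I ≠ 0) : qq n μ z = (z / (z - μ * I)) ^ (n + 1) := by
  unfold qq
  congr 1
  field_simp
  ring

lemma qq_norm {n : ℕ} {μ : ℝ} (hμ : 0 ≤ μ) {z : ℂ} (hz : z.im ≤ 0) : ‖qq n μ z‖ ≤ 1 := by
  rcases hμ.eq_or_lt with rfl | hμ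
  · rw [qq_zero]; simp
  · have h : z - μ * I ≠ 0 := by
      intro h; have := congrArg im h; simp at this; linarith
    rw [qq_eq h, norm_pow, norm_div]
    apply pow_le_one₀ (by positivity)
    rw [div_le_one (norm_pos_iff.2 h)]
    exact norm_le_sub hz hμ.le

lemma qq_norm_real {n : ℕ} (μ : ℝ) (τ : ℝ) : ‖qq n μ τ‖ ≤ 1 := by
  by_cases hμ : μ = 0
  · rw [hμ, qq_zero]; simp
  · have h : (τ : ℂ) - μ * I ≠ 0 := sub_ne hμ
    rw [qq_eq h, norm_pow, norm_div]
    apply pow_le_one₀ (by positivity)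
    rw [div_le_one (norm_pos_iff.2 h)]
    apply Real.sqrt_le_sqrt
    simp only [normSq_apply, sub_re, sub_im, mul_re, mul_im, ofReal_re, ofReal_im, I_re, I_im]
    nlinarith [sq_nonneg μ]

lemma qq_cont_real {n : ℕ} (μ : ℝ) : Continuous (fun τ : ℝ => qq n μ τ) := by
  by_cases hμ : μ = 0
  · subst hμ
    simp only [qq_zero]
    exact continuous_const
  · unfold qq
    refine Continuous.pow (continuous_const.add (continuous_const.div (by fun_prop) fun τ => ?_)) _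
    exact sub_ne hμ

lemma qq_diff {n : ℕ} {μ : ℝ} (hμ : 0 ≤ μ) : ∃ U : Set ℂ, IsOpen U ∧ (∀ z : ℂ, z.im ≤ 0 → z ∈ U) ∧
    DifferentiableOn ℂ (qq n μ) U := by
  rcases hμ.eq_or_lt with rfl | hμ
  · refine ⟨univ, isOpen_univ, fun _ _ => mem_univ _, ?_⟩
    have : qq n 0 = fun _ => (1 : ℂ) := funext (qq_zero n)
    rw [this]
    exact differentiableOn_const _
  · refine ⟨{z : ℂ | z.im < μ}, isOpen_lt continuous_im continuous_const,
      fun z hz => lt_of_le_of_lt hz hμ, ?_⟩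
    intro z hz
    have hz : z.im < μ := hz
    have h : z - μ * I ≠ 0 := by
      intro h; have := congrArg im h; simp at this; linarith
    unfold qq
    refine DifferentiableAt.differentiableWithinAt ?_
    fun_prop (disch := assumption)

noncomputable def JJ (n : ℕ) (α μ : ℝ) : ℂ := ∫ τ : ℝ, qq n μ τ * kk n α τ

noncomputable def g0 (n : ℕ) (α μ : ℝ) (m : ℕ) : ℂ :=
  ee α (-m) / (-I * (2 * Real.pi * m + μ)) ^ (n + 1)

lemma hasSum_JJ_int {n : ℕ} (hn : 2 ≤ n) (α μ : ℝ) :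
    HasSum (fun k : ℤ => ∫ τ : ℝ, qq n μ τ * (aa n α k * bk (bb k) τ)) (JJ n α μ) := by
  have hI : ∀ k : ℤ, Integrable (fun τ : ℝ => qq n μ τ * (aa n α k * bk (bb k) τ)) := by
    intro k
    refine Integrable.mono' (uu_int.const_mul (ck k))
      ((qq_cont_real μ).mul (term_cont hn α k)).aestronglyMeasurable
      (Eventually.of_forall fun τ => ?_)
    rw [norm_mul]
    have h1 := qq_norm_real (n := n) μ τ
    have h2 := norm_term_le hn α k τ
    nlinarith [norm_nonneg (aa n α k * bk (bb k) τ), norm_nonneg (qq n μ τ)]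
  have hS : Summable fun k : ℤ => ∫ τ : ℝ, ‖qq n μ τ * (aa n α k * bk (bb k) τ)‖ := by
    refine Summable.of_nonneg_of_le (fun k => integral_nonneg fun τ => norm_nonneg _) (fun k => ?_)
      (ck_summable.mul_right (∫ τ, uu τ))
    rw [← integral_const_mul]
    refine integral_mono (hI k).norm (uu_int.const_mul _) fun τ => ?_
    simp only
    rw [norm_mul]
    have h1 := qq_norm_real (n := n) μ τ
    have h2 := norm_term_le hn α k τ
    nlinarith [norm_nonneg (aa n α k * bk (bb k) τ), norm_nonneg (qq n μ τ)]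
  have h := hasSum_integral_of_summable_integral_norm hI hS
  have h2 : (fun τ : ℝ => ∑' k : ℤ, qq n μ τ * (aa n α k * bk (bb k) τ)) =
      fun τ : ℝ => qq n μ τ * kk n α τ := by
    funext τ
    rw [tsum_mul_left, kk]
  rw [h2] at h
  exact h

lemma hasSum_JJ {n : ℕ} (hn : 2 ≤ n) (α : ℝ) {μ : ℝ} (hμ : 0 ≤ μ) :
    HasSum (fun m : ℕ => -(4 * Real.pi ^ 2) * (m * g0 n α μ m)) (JJ n α μ) := by
  have h := hasSum_JJ_int hn α μ
  have hinj : Function.Injective (fun m : ℕ => (-(m : ℤ))) := by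
    intro a b hab
    simpa using hab
  obtain ⟨U, hU, hUs, hUd⟩ := qq_diff (n := n) hμ
  have hpi := Real.pi_gt_three
  rw [← hinj.hasSum_iff] at h
  · refine h.congr_fun ?_
    intro m
    simp only [Function.comp_apply]
    rcases Nat.eq_zero_or_pos m with rfl | hm
    · simp [aa_zero hn]
    · have hm1 : (1 : ℝ) ≤ m := by exact_mod_cast hm
      have hb : bb (-(m : ℤ)) = -(2 * Real.pi * m) := by unfold bb; push_cast; ring
      have e1 : ∀ τ : ℝ, qq n μ τ * (aa n α (-(m : ℤ)) * bk (bb (-(m : ℤ))) τ) =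
          aa n α (-(m : ℤ)) * (qq n μ τ * bk (-(2 * Real.pi * m)) τ) := by
        intro τ; rw [hb]; ring
      simp_rw [e1]
      rw [integral_const_mul, int_lower (a := 2 * Real.pi * m) (by nlinarith) hU hUs hUd
        (fun z hz => qq_norm hμ hz)]
      have hpos : 0 < 2 * Real.pi * m + μ := by positivity
      have hposC : (2 * Real.pi * m + μ : ℂ) ≠ 0 := by exact_mod_cast hpos.ne'
      have hmC : (2 * Real.pi * m : ℂ) ≠ 0 := by
        have : 0 < 2 * Real.pi * m := by positivity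
        exact_mod_cast this.ne'
      have e2 : -(((2 * Real.pi * m : ℝ) : ℂ) * I) - μ * I = -I * (2 * Real.pi * m + μ) := by
        push_cast; ring
      have e3 : -(((2 * Real.pi * m : ℝ) : ℂ) * I) - μ * I ≠ 0 := by
        rw [e2]
        exact mul_ne_zero (neg_ne_zero.2 I_ne_zero) hposC
      rw [qq_eq e3, e2]
      unfold aa g0
      rw [hb]
      push_cast
      rw [div_pow, pow_succ (-(2 * Real.pi * m * I) : ℂ) n]
      have e4 : (-(2 * Real.pi * m) * I : ℂ) = -(2 * Real.pi * m * I) := by ring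
      rw [e4]
      have e5 : (-(2 * Real.pi * m * I) : ℂ) ≠ 0 := neg_ne_zero.2 (mul_ne_zero hmC I_ne_zero)
      have e6 : (-(2 * Real.pi * m * I) : ℂ) ^ n ≠ 0 := pow_ne_zero _ e5
      have e7 : (-I * (2 * Real.pi * m + μ) : ℂ) ^ (n + 1) ≠ 0 :=
        pow_ne_zero _ (mul_ne_zero (neg_ne_zero.2 I_ne_zero) hposC)
      have e9 : -(2 * Real.pi * I) * (-(2 * Real.pi * m * I)) = -(4 * Real.pi ^ 2) * (m : ℂ) := by
        ring_nf; rw [I_sq]; ring
      have e8 : ∀ e W D P : ℂ, W ≠ 0 → D ≠ 0 → e / W ^ n * (P * (W ^ n * W / D)) =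
          P * W * (e / D) := by
        intro e W D P hW hD
        field_simp
      rw [e8 _ _ _ _ e5 e7, e9]
      ring
  · intro k hk
    have hk1 : 0 < k := by
      by_contra hcon
      push Not at hcon
      apply hk
      refine ⟨k.natAbs, ?_⟩
      simp only
      omega
    have e1 : ∀ τ : ℝ, qq n μ τ * (aa n α k * bk (bb k) τ) =
        aa n α k * (qq n μ τ * bk (bb k) τ) := by intro τ; ring
    simp_rw [e1]
    rw [integral_const_mul, int_upper, mul_zero]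
    · unfold bb
      have : (1 : ℝ) ≤ k := by exact_mod_cast hk1
      nlinarith
    · exact fun z hz => hUd.differentiableAt (hU.mem_nhds (hUs z hz))
    · exact fun z hz => qq_norm hμ hz

end Pool.Agent.H476.Ext
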