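import Pool.Agent.H476.EB

open Complex Filter Topology Set MeasureTheory

namespace Pool.Agent.H476.Ext

lemma bbI (k : ℤ) : ((bb k : ℝ) : ℂ) * I = (2 * Real.pi * I) * k := by
  unfold bb; push_cast; ring

lemma aa_eq (n : ℕ) (α : ℝ) (k : ℤ) : aa n α k = ((2 * Real.pi * I) ^ n)⁻¹ * (1 / (k : ℂ) ^ n * ee α k) := by
  unfold aa
  rw [bbI, mul_pow, div_eq_mul_inv, mul_inv]
  ring

lemma two_pi_I_ne : (2 * Real.pi * I : ℂ) ≠ 0 := by simp [Real.pi_ne_zero]

lemma hasSum_aa {n : ℕ} (hn : 2 ≤ n) (α : ℝ) : HasSum (aa n α) (-(Bt n α / n.factorial : ℝ)) := by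
  have h := (fourierB hn α).mul_left (((2 * Real.pi * I : ℂ) ^ n)⁻¹)
  have e : ((2 * Real.pi * I : ℂ) ^ n)⁻¹ * (-(2 * Real.pi * I) ^ n / n.factorial * Bt n α) =
      (-(Bt n α / n.factorial : ℝ) : ℂ) := by
    have h1 : ((2 * Real.pi * I : ℂ) ^ n) ≠ 0 := pow_ne_zero _ two_pi_I_ne
    push_cast
    field_simp
  rw [e] at h
  refine h.congr_fun fun k => aa_eq n α k

lemma summable_kk {n : ℕ} (hn : 2 ≤ n) (α τ : ℝ) : Summable fun k : ℤ => aa n α k * bk (bb k) τ := by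
  refine Summable.of_norm_bounded (ck_summable.mul_right (uu τ)) fun k => norm_term_le hn α k τ

lemma hasSum_T {n : ℕ} (hn : 2 ≤ n) {α : ℝ} (hα : Bt n α = 0) (τ : ℝ) :
    HasSum (fun k : ℤ => aa n α k / ((τ : ℂ) - bb k * I)) (kk n α τ) := by
  have h1 : HasSum (fun k : ℤ => aa n α k * bk (bb k) τ) (kk n α τ) := (summable_kk hn α τ).hasSum
  have h2 := (hasSum_aa hn α).mul_right (1 / ((τ : ℂ) - I))
  rw [hα] at h2
  simp only [zero_div, ofReal_zero, neg_zero, zero_mul] at h2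
  have h3 := h1.add h2
  rw [add_zero] at h3
  refine h3.congr_fun fun k => ?_
  unfold bk
  ring

lemma ee_sub (α x : ℝ) (k : ℤ) : ee (α - x) k = ee α k * cexp (-((bb k : ℝ) * I) * x) := by
  rw [ee, ee, ← Complex.exp_add]
  congr 1
  unfold bb
  push_cast
  ring

lemma exp_bb (k : ℤ) : cexp (-((bb k : ℝ) * I)) = 1 := by
  rw [Complex.exp_neg, bbI, mul_comm, Complex.exp_int_mul_two_pi_mul_I, inv_one]

lemma tau_ne {τ : ℝ} (hτ : τ ≠ 0) (k : ℤ) : (τ : ℂ) - bb k * I ≠ 0 := by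
  intro h
  have := congrArg re h
  simp at this
  exact hτ this

lemma int_term {τ : ℝ} (hτ : τ ≠ 0) (α : ℝ) (k : ℤ) :
    ∫ x in (0 : ℝ)..1, (ee α k - ee (α - x) k) * cexp (τ * x) =
      (cexp τ - 1) / τ * ee α k * (-(bb k * I) / ((τ : ℂ) - bb k * I)) := by
  have hτC : (τ : ℂ) ≠ 0 := by exact_mod_cast hτ
  have h1 := tau_ne hτ k
  have e1 : ∀ x : ℝ, (ee α k - ee (α - x) k) * cexp (τ * x) =
      ee α k * cexp (τ * x) - ee α k * cexp ((τ - bb k * I) * x) := by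
    intro x
    rw [ee_sub, sub_mul]
    congr 1
    rw [mul_assoc, ← Complex.exp_add]
    congr 2
    ring
  simp_rw [e1]
  rw [intervalIntegral.integral_sub, intervalIntegral.integral_const_mul,
    intervalIntegral.integral_const_mul, integral_exp_mul_complex hτC, integral_exp_mul_complex h1]
  · have e2 : cexp ((τ - bb k * I) * (1 : ℝ)) = cexp τ := by
      rw [ofReal_one, mul_one, sub_eq_add_neg, Complex.exp_add, exp_bb, mul_one]
    rw [e2]
    simp only [ofReal_one, mul_one, ofReal_zero, mul_zero, Complex.exp_zero]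
    field_simp
    ring
  · exact (by fun_prop : Continuous fun x : ℝ => ee α k * cexp (τ * x)).intervalIntegrable _ _
  · exact (by fun_prop :
      Continuous fun x : ℝ => ee α k * cexp ((τ - bb k * I) * x)).intervalIntegrable _ _

/-- the real form of the kernel -/
noncomputable def KR (n : ℕ) (α τ : ℝ) : ℝ :=
  τ / (Real.exp τ - 1) * (∫ x in (0 : ℝ)..1, (Bt (n + 1) α - Bt (n + 1) (α - x)) *
    Real.exp (τ * x)) / (n + 1).factorial

lemma kk_real {n : ℕ} (hn : 2 ≤ n) {α : ℝ} (hα : Bt n α = 0) {τ : ℝ} (hτ : τ ≠ 0) :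
    kk n α τ = (KR n α τ : ℂ) := by
  have hτC : (τ : ℂ) ≠ 0 := by exact_mod_cast hτ
  set P : ℂ := (2 * Real.pi * I) with hP
  have hP0 : P ≠ 0 := two_pi_I_ne
  -- termwise integration
  set F : ℤ → ℝ → ℂ := fun k x => 1 / (k : ℂ) ^ (n + 1) * ((ee α k - ee (α - x) k) * cexp (τ * x))
    with hF
  have hFc : ∀ k, Continuous (F k) := by
    intro k
    rw [hF]
    simp only [ee]
    fun_prop
  have hFb : ∀ k, ∀ x ∈ Ioc (0 : ℝ) 1, ‖F k x‖ ≤ 1 / |(k : ℝ)| ^ (n + 1) * (2 * Real.exp |τ|) := by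
    intro k x hx
    rw [hF]
    simp only
    rw [norm_mul, norm_mul, norm_div, norm_one, norm_pow, Complex.norm_exp]
    have e1 : ‖(k : ℂ)‖ = |(k : ℝ)| := by
      rw [Complex.norm_intCast]
    rw [e1]
    refine mul_le_mul_of_nonneg_left ?_ (by positivity)
    refine mul_le_mul ?_ ?_ (Real.exp_pos _).le (by norm_num)
    · refine (norm_sub_le _ _).trans ?_
      rw [norm_ee, norm_ee]; norm_num
    · rw [Real.exp_le_exp]
      have : ((τ : ℂ) * x).re = τ * x := by simp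
      rw [this]
      have h1 := le_abs_self (τ * x)
      rw [abs_mul, abs_of_pos hx.1] at h1
      have := abs_nonneg τ
      nlinarith [hx.2]
  have hsumk : Summable fun k : ℤ => 1 / |(k : ℝ)| ^ (n + 1) * (2 * Real.exp |τ|) := by
    have : Summable fun k : ℤ => |(k : ℝ)| ^ (-((n + 1 : ℕ) : ℝ)) :=
      Real.summable_abs_int_rpow (by push_cast; have : (2 : ℝ) ≤ n := by exact_mod_cast hn
                                     linarith)
    refine (this.mul_right (2 * Real.exp |τ|)).congr fun k => ?_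
    rw [Real.rpow_neg (abs_nonneg _), Real.rpow_natCast, one_div]
  have hI : ∀ k : ℤ, Integrable (F k) (volume.restrict (Ioc (0 : ℝ) 1)) := fun k =>
    (hFc k).integrableOn_Ioc
  have hfinvol : (volume.restrict (Ioc (0 : ℝ) 1)) univ < ⊤ := by simp
  have hS : Summable fun k : ℤ => ∫ x in Ioc (0 : ℝ) 1, ‖F k x‖ := by
    refine Summable.of_nonneg_of_le (fun k => integral_nonneg fun τ => norm_nonneg _) (fun k => ?_)
      hsumk
    have : ∫ x in Ioc (0 : ℝ) 1, ‖F k x‖ ≤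
        ∫ x in Ioc (0 : ℝ) 1, 1 / |(k : ℝ)| ^ (n + 1) * (2 * Real.exp |τ|) := by
      refine setIntegral_mono_on (hI k).norm (integrable_const _) measurableSet_Ioc
        fun x hx => hFb k x hx
    simpa using this
  have h := hasSum_integral_of_summable_integral_norm hI hS
  have hval : ∀ x : ℝ, ∑' k : ℤ, F k x =
      (-P ^ (n + 1) / (n + 1).factorial) * (((Bt (n + 1) α - Bt (n + 1) (α - x)) *
        Real.exp (τ * x) : ℝ) : ℂ) := by
    intro x
    have g1 := fourierB (k := n + 1) (by omega) α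
    have g2 := fourierB (k := n + 1) (by omega) (α - x)
    have g3 := (g1.sub g2).mul_right (cexp (τ * x))
    rw [← hP] at g3
    have g4 : HasSum (fun k : ℤ => F k x) ((-P ^ (n + 1) / (n + 1).factorial * Bt (n + 1) α -
        -P ^ (n + 1) / (n + 1).factorial * Bt (n + 1) (α - x)) * cexp (τ * x)) := by
      refine g3.congr_fun fun k => ?_
      rw [hF]; ring
    rw [g4.tsum_eq]
    push_cast
    ring
  simp_rw [hval] at h
  rw [integral_const_mul] at h
  have hIr : ∫ x in Ioc (0 : ℝ) 1, (((Bt (n + 1) α - Bt (n + 1) (α - x)) *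
        Real.exp (τ * x) : ℝ) : ℂ) = ((∫ x in (0 : ℝ)..1, (Bt (n + 1) α - Bt (n + 1) (α - x)) *
        Real.exp (τ * x) : ℝ) : ℂ) := by
    rw [intervalIntegral.integral_of_le (by norm_num)]
    exact integral_ofReal
  rw [hIr] at h
  -- the other evaluation
  have hT := hasSum_T hn hα τ
  have h2 := hT.mul_left ((cexp τ - 1) / τ * (-P ^ (n + 1)))
  have h3 : HasSum (fun k : ℤ => ∫ x in Ioc (0 : ℝ) 1, F k x)
      ((cexp τ - 1) / τ * (-P ^ (n + 1)) * kk n α τ) := by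
    refine h2.congr_fun fun k => ?_
    have e1 : ∫ x in Ioc (0 : ℝ) 1, F k x = 1 / (k : ℂ) ^ (n + 1) *
        ∫ x in (0 : ℝ)..1, (ee α k - ee (α - x) k) * cexp (τ * x) := by
      rw [intervalIntegral.integral_of_le (by norm_num), ← integral_const_mul]
    rw [e1, int_term hτ, aa_eq, ← hP]
    by_cases hk : k = 0
    · subst hk
      have hn0 : n ≠ 0 := by omega
      simp [bb, hn0]
    · have hkC : (k : ℂ) ≠ 0 := by exact_mod_cast hk
      have h1 := tau_ne hτ k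
      rw [bbI, ← hP] at h1 ⊢
      field_simp
      ring
  have h4 := h3.unique h
  have hexp : (cexp τ - 1) ≠ 0 := by
    have : Real.exp τ - 1 ≠ 0 := by
      intro hc
      have : Real.exp τ = 1 := by linarith
      exact hτ ((Real.exp_eq_one_iff τ).1 this)
    have h5 : cexp τ - 1 = ((Real.exp τ - 1 : ℝ) : ℂ) := by push_cast; ring
    rw [h5]
    exact_mod_cast this
  have hPn : -P ^ (n + 1) ≠ 0 := neg_ne_zero.2 (pow_ne_zero _ hP0)
  have hf : (((n + 1).factorial : ℕ) : ℂ) ≠ 0 := by exact_mod_cast (Nat.factorial_ne_zero _)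
  have h5 : (cexp τ - 1) / τ * kk n α τ = ((∫ x in (0 : ℝ)..1, (Bt (n + 1) α -
      Bt (n + 1) (α - x)) * Real.exp (τ * x) : ℝ) : ℂ) / (n + 1).factorial := by
    refine mul_left_cancel₀ hPn ?_
    linear_combination h4
  have h6 : kk n α τ = τ / (cexp τ - 1) * ((cexp τ - 1) / τ * kk n α τ) := by
    field_simp
  rw [h6, h5]
  unfold KR
  push_cast
  ring

lemma KR_sign {n : ℕ} {α σ : ℝ} (hσ : ∀ y : ℝ, 0 ≤ σ * (Bt (n + 1) y - Bt (n + 1) α)) {τ : ℝ}
    (hτ : τ ≠ 0) : σ * KR n α τ ≤ 0 := by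
  unfold KR
  have h1 : 0 < τ / (Real.exp τ - 1) := by
    rcases lt_or_gt_of_ne hτ with h | h
    · apply div_pos_of_neg_of_neg h
      have : Real.exp τ < 1 := by rw [← Real.exp_zero]; exact Real.exp_lt_exp.2 h
      linarith
    · apply div_pos h
      have : 1 < Real.exp τ := by rw [← Real.exp_zero]; exact Real.exp_lt_exp.2 h
      linarith
  have h2 : σ * (∫ x in (0 : ℝ)..1, (Bt (n + 1) α - Bt (n + 1) (α - x)) * Real.exp (τ * x)) ≤ 0 := by
    rw [← intervalIntegral.integral_const_mul]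
    have : 0 ≤ ∫ x in (0 : ℝ)..1, -(σ * ((Bt (n + 1) α - Bt (n + 1) (α - x)) * Real.exp (τ * x))) := by
      refine intervalIntegral.integral_nonneg (by norm_num) fun x _ => ?_
      have h3 := hσ (α - x)
      have h4 := Real.exp_pos (τ * x)
      have : -(σ * ((Bt (n + 1) α - Bt (n + 1) (α - x)) * Real.exp (τ * x))) =
          (σ * (Bt (n + 1) (α - x) - Bt (n + 1) α)) * Real.exp (τ * x) := by ring
      rw [this]
      positivity
    rw [intervalIntegral.integral_neg] at this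
    linarith
  have h3 : (0 : ℝ) < (n + 1).factorial := by exact_mod_cast Nat.factorial_pos _
  have : σ * (τ / (Real.exp τ - 1) * (∫ x in (0 : ℝ)..1, (Bt (n + 1) α - Bt (n + 1) (α - x)) *
    Real.exp (τ * x)) / (n + 1).factorial) = (τ / (Real.exp τ - 1)) * (σ * (∫ x in (0 : ℝ)..1,
    (Bt (n + 1) α - Bt (n + 1) (α - x)) * Real.exp (τ * x))) / (n + 1).factorial := by ring
  rw [this]
  apply div_nonpos_of_nonpos_of_nonneg _ h3.le
  exact mul_nonpos_of_nonneg_of_nonpos h1.le h2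

lemma qq_conj (n : ℕ) (μ τ : ℝ) : (starRingEnd ℂ) (qq n μ τ) = qq n (-μ) τ := by
  unfold qq
  simp only [map_pow, map_add, map_one, map_div₀, map_mul, map_sub, conj_ofReal, conj_I, ofReal_neg]
  congr 2
  ring

lemma JJ_conj {n : ℕ} (hn : 2 ≤ n) {α : ℝ} (hα : Bt n α = 0) (μ : ℝ) :
    (starRingEnd ℂ) (JJ n α μ) = JJ n α (-μ) := by
  unfold JJ
  rw [← integral_conj]
  refine integral_congr_ae ?_
  have : ∀ᵐ τ : ℝ, τ ≠ 0 := by
    rw [ae_iff]; simp
  filter_upwards [this] with τ hτ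
  rw [map_mul, qq_conj, kk_real hn hα hτ, conj_ofReal]

/-- the Fourier transform of the extremal function -/
noncomputable def Eh (n : ℕ) (α lam : ℝ) : ℂ :=
  -(1 / Real.pi ^ 2) * ((1 / 2) * JJ n α lam - (1 / 4) * ee α (-1) * JJ n α (lam + 2 * Real.pi) -
    (1 / 4) * ee α 1 * JJ n α (lam - 2 * Real.pi))

lemma ee_add (α : ℝ) (k l : ℤ) : ee α k * ee α l = ee α (k + l) := by
  rw [ee, ee, ee, ← Complex.exp_add]
  congr 1
  push_cast
  ring

lemma g0_shift (n : ℕ) (α μ : ℝ) (m : ℕ) :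
    ee α (-1) * g0 n α (μ + 2 * Real.pi) m = g0 n α μ (m + 1) := by
  unfold g0
  rw [← mul_div_assoc, ee_add]
  congr 1
  · congr 1; push_cast; ring
  · congr 1; push_cast; ring

lemma g0_shift' (n : ℕ) (α μ : ℝ) (m : ℕ) :
    ee α 1 * g0 n α (μ - 2 * Real.pi) (m + 1) = g0 n α μ m := by
  unfold g0
  rw [← mul_div_assoc, ee_add]
  congr 1
  · congr 1; push_cast; ring
  · congr 1; push_cast; ring

lemma pi_sq_ne : (-(4 * (Real.pi : ℂ) ^ 2)) ≠ 0 := by
  simp [Real.pi_ne_zero]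

lemma hasSum_A {n : ℕ} (hn : 2 ≤ n) (α : ℝ) {μ : ℝ} (hμ : 0 ≤ μ) :
    HasSum (fun m : ℕ => ((m : ℂ) + 1) * g0 n α μ (m + 1)) ((-(4 * (Real.pi : ℂ) ^ 2))⁻¹ * JJ n α μ) := by
  have h := (hasSum_JJ hn α hμ).mul_left ((-(4 * (Real.pi : ℂ) ^ 2))⁻¹)
  rw [← hasSum_nat_add_iff' 1] at h
  simp only [Finset.range_one, Finset.sum_singleton, Nat.cast_zero, zero_mul, mul_zero, sub_zero] at h
  refine h.congr_fun fun m => ?_
  rw [← mul_assoc, inv_mul_cancel₀ pi_sq_ne, one_mul]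
  push_cast
  ring

lemma hasSum_B {n : ℕ} (hn : 2 ≤ n) (α : ℝ) {μ : ℝ} (hμ : 0 ≤ μ) :
    HasSum (fun m : ℕ => (m : ℂ) * g0 n α μ (m + 1))
      ((-(4 * (Real.pi : ℂ) ^ 2))⁻¹ * (ee α (-1) * JJ n α (μ + 2 * Real.pi))) := by
  have h := (hasSum_JJ hn α (μ := μ + 2 * Real.pi) (by positivity)).mul_left
    ((-(4 * (Real.pi : ℂ) ^ 2))⁻¹ * ee α (-1))
  rw [mul_assoc] at h
  refine h.congr_fun fun m => ?_
  rw [← g0_shift]
  field_simp [pi_sq_ne]

lemma hasSum_C {n : ℕ} (hn : 2 ≤ n) (α : ℝ) {μ : ℝ} (hμ : 2 * Real.pi ≤ μ) :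
    HasSum (fun m : ℕ => ((m : ℂ) + 1) * g0 n α μ m)
      ((-(4 * (Real.pi : ℂ) ^ 2))⁻¹ * (ee α 1 * JJ n α (μ - 2 * Real.pi))) := by
  have h := (hasSum_A hn α (μ := μ - 2 * Real.pi) (by linarith)).mul_left (ee α 1)
  have e : ee α 1 * ((-(4 * (Real.pi : ℂ) ^ 2))⁻¹ * JJ n α (μ - 2 * Real.pi)) =
    ((-(4 * (Real.pi : ℂ) ^ 2))⁻¹ * (ee α 1 * JJ n α (μ - 2 * Real.pi))) := by ring
  rw [e] at h
  refine h.congr_fun fun m => ?_
  rw [← g0_shift']
  ring

/-- the Fourier transform beyond `2π` -/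
lemma Eh_large {n : ℕ} (hn : 2 ≤ n) (α : ℝ) {lam : ℝ} (hl : 2 * Real.pi ≤ lam) :
    Eh n α lam = -(I / lam) ^ (n + 1) := by
  have hl0 : 0 ≤ lam := by have := Real.pi_pos; linarith
  have hA := hasSum_A hn α hl0
  have hB := hasSum_B hn α hl0
  have hC := hasSum_C hn α hl
  set A := (-(4 * (Real.pi : ℂ) ^ 2))⁻¹ * JJ n α lam with hAd
  set B := (-(4 * (Real.pi : ℂ) ^ 2))⁻¹ * (ee α (-1) * JJ n α (lam + 2 * Real.pi)) with hBd
  set C := (-(4 * (Real.pi : ℂ) ^ 2))⁻¹ * (ee α 1 * JJ n α (lam - 2 * Real.pi)) with hCd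
  -- m g0 m
  have hA' : HasSum (fun m : ℕ => (m : ℂ) * g0 n α lam m) A := by
    rw [← hasSum_nat_add_iff' 1]
    simp only [Finset.range_one, Finset.sum_singleton, Nat.cast_zero, zero_mul, sub_zero]
    refine hA.congr_fun fun m => by push_cast; ring
  have h1 : HasSum (fun m : ℕ => g0 n α lam (m + 1)) (A - B) := by
    refine (hA.sub hB).congr_fun fun m => by ring
  have h2 : HasSum (fun m : ℕ => g0 n α lam m) (C - A) := by
    refine (hC.sub hA').congr_fun fun m => by ring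
  have h3 : HasSum (fun m : ℕ => g0 n α lam (m + 1)) (C - A - g0 n α lam 0) := by
    rw [← hasSum_nat_add_iff' 1] at h2
    simpa using h2
  have h4 := h1.unique h3
  have hpi : (Real.pi : ℂ) ≠ 0 := by exact_mod_cast Real.pi_ne_zero
  have h5 : Eh n α lam = 2 * A - B - C := by
    rw [hAd, hBd, hCd, Eh]
    field_simp
    ring
  have h6 : g0 n α lam 0 = (I / lam) ^ (n + 1) := by
    unfold g0
    have hlC : (lam : ℂ) ≠ 0 := by
      have : 0 < lam := by have := Real.pi_pos; linarith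
      exact_mod_cast this.ne'
    have e1 : ee α (-((0 : ℕ) : ℤ)) = 1 := by simp [ee]
    rw [e1, Nat.cast_zero, mul_zero, zero_add, one_div, ← inv_pow]
    congr 1
    rw [mul_inv, inv_neg, inv_I]
    ring
  rw [h5, ← h6]
  linear_combination h4

lemma g0_conj {n : ℕ} (α : ℝ) (m : ℕ) :
    (starRingEnd ℂ) (g0 n α 0 m) = ee α m / ((2 * Real.pi * I) * m) ^ (n + 1) := by
  unfold g0
  rw [map_div₀, map_pow]
  congr 1
  · unfold ee
    rw [← Complex.exp_conj]
    congr 1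
    simp [conj_ofNat]
  · congr 1
    simp [conj_ofNat]
    ring

/-- the mass -/
lemma Eh_zero {n : ℕ} (hn : 2 ≤ n) {α : ℝ} (hα : Bt n α = 0) :
    Eh n α 0 = (-(Bt (n + 1) α / (n + 1).factorial : ℝ) : ℂ) := by
  have hA := hasSum_A hn α (μ := 0) le_rfl
  have hB := hasSum_B hn α (μ := 0) le_rfl
  set A := (-(4 * (Real.pi : ℂ) ^ 2))⁻¹ * JJ n α 0 with hAd
  set B := (-(4 * (Real.pi : ℂ) ^ 2))⁻¹ * (ee α (-1) * JJ n α (0 + 2 * Real.pi)) with hBd
  have h1 : HasSum (fun m : ℕ => g0 n α 0 (m + 1)) (A - B) := by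
    refine (hA.sub hB).congr_fun fun m => by ring
  have hAc : (starRingEnd ℂ) A = A := by
    rw [hAd, map_mul, JJ_conj hn hα, neg_zero]
    congr 1
    simp [conj_ofNat]
  have hBc : (starRingEnd ℂ) B = (-(4 * (Real.pi : ℂ) ^ 2))⁻¹ * (ee α 1 * JJ n α (0 - 2 * Real.pi)) := by
    rw [hBd, map_mul, map_mul, JJ_conj hn hα]
    congr 1
    · simp [conj_ofNat]
    · congr 1
      · unfold ee
        rw [← Complex.exp_conj]
        congr 1
        simp [conj_ofNat]
      · congr 1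
        ring
  have hpi : (Real.pi : ℂ) ≠ 0 := by exact_mod_cast Real.pi_ne_zero
  have h5 : Eh n α 0 = 2 * A - B - (starRingEnd ℂ) B := by
    rw [hBc, hAd, hBd, Eh]
    field_simp
    ring
  have h6 : Eh n α 0 = (starRingEnd ℂ) (A - B) + (A - B) := by
    rw [h5, map_sub, hAc]; ring
  rw [h6]
  have h7 : HasSum (fun m : ℕ => (starRingEnd ℂ) (g0 n α 0 (m + 1))) ((starRingEnd ℂ) (A - B)) :=
    h1.map (starRingEnd ℂ) Complex.continuous_conj
  have h8 := hasSum_aa (n := n + 1) (by omega) α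
  set f : ℤ → ℂ := aa (n + 1) α with hf
  have hf1 : HasSum (fun m : ℕ => f m) ((starRingEnd ℂ) (A - B)) := by
    rw [← hasSum_nat_add_iff' 1]
    have e0 : f ((0 : ℕ) : ℤ) = 0 := by
      rw [hf]; exact aa_zero (by omega) α
    simp only [Finset.range_one, Finset.sum_singleton, e0, sub_zero]
    refine h7.congr_fun fun m => ?_
    rw [g0_conj, hf, aa, bbI]
    push_cast
    rfl
  have hf2 : HasSum (fun m : ℕ => f (-((m : ℤ) + 1))) (A - B) := by
    refine h1.congr_fun fun m => ?_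
    rw [hf, aa, bbI, g0]
    have e1 : (2 * Real.pi * I * ((-((m : ℤ) + 1) : ℤ) : ℂ)) =
        (-I * (2 * Real.pi * ((m + 1 : ℕ) : ℂ) + ((0 : ℝ) : ℂ))) := by
      push_cast; ring
    rw [e1]
    push_cast
    rfl
  exact (HasSum.of_nat_of_neg_add_one hf1 hf2).unique h8

end Pool.Agent.H476.Ext
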