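import Pool.Agent.H476.EC

open Complex Filter Topology Set MeasureTheory

namespace Pool.Agent.H476.Ext

lemma int_pow_exp_aux (n : ℕ) {s : ℝ} (hs : 0 < s) :
    ∫ x in Ioi (0 : ℝ), (x : ℂ) ^ n * cexp (-(s * x)) = n.factorial / s ^ (n + 1) := by
  have h := Complex.integral_cpow_mul_exp_neg_mul_Ioi (a := (n + 1 : ℂ)) (r := s)
    (by simp; positivity) hs
  have e1 : ∀ x ∈ Ioi (0 : ℝ), (x : ℂ) ^ ((n : ℂ) + 1 - 1) * cexp (-(s * x)) =
      (x : ℂ) ^ n * cexp (-(s * x)) := by
    intro x _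
    rw [add_sub_cancel_right, cpow_natCast]
  rw [setIntegral_congr_fun measurableSet_Ioi e1] at h
  rw [h, Complex.Gamma_nat_eq_factorial]
  have e2 : (1 / (s : ℂ)) ^ ((n : ℂ) + 1) = (1 / (s : ℂ)) ^ (n + 1) := by
    have : ((n : ℂ) + 1) = ((n + 1 : ℕ) : ℂ) := by push_cast; ring
    rw [this, cpow_natCast]
  rw [e2, div_pow, one_pow]
  ring

lemma int_pow_exp_real (n : ℕ) {a : ℝ} (ha : 0 < a) :
    ∫ x in Ioi (0 : ℝ), x ^ n * Real.exp (-(a * x)) = n.factorial / a ^ (n + 1) := by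
  have h := int_pow_exp_aux n ha
  have h2 : ∫ x in Ioi (0 : ℝ), (x : ℂ) ^ n * cexp (-(a * x)) =
      ((∫ x in Ioi (0 : ℝ), x ^ n * Real.exp (-(a * x)) : ℝ) : ℂ) := by
    rw [← integral_complex_ofReal]
    refine setIntegral_congr_fun measurableSet_Ioi fun x _ => ?_
    push_cast
    rfl
  rw [h2] at h
  exact_mod_cast h

lemma integrableOn_pow_exp (n : ℕ) {a : ℝ} (ha : 0 < a) :
    IntegrableOn (fun x : ℝ => x ^ n * Real.exp (-(a * x))) (Ioi 0) := by
  by_contra hcon
  have h := int_pow_exp_real n ha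
  rw [integral_undef hcon] at h
  have : (0 : ℝ) < n.factorial / a ^ (n + 1) := by
    have : (0 : ℝ) < n.factorial := by exact_mod_cast Nat.factorial_pos n
    positivity
  linarith

lemma norm_pow_exp (n : ℕ) (s : ℂ) {x : ℝ} (hx : 0 ≤ x) :
    ‖(x : ℂ) ^ n * cexp (-(s * x))‖ = x ^ n * Real.exp (-(s.re * x)) := by
  rw [norm_mul, norm_pow, norm_real, Real.norm_eq_abs, abs_of_nonneg hx, Complex.norm_exp]
  simp

lemma integrableOn_pow_exp_c (n : ℕ) {s : ℂ} (hs : 0 < s.re) :
    IntegrableOn (fun x : ℝ => (x : ℂ) ^ n * cexp (-(s * x))) (Ioi 0) := by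
  refine Integrable.mono' (integrableOn_pow_exp n hs) ?_ ?_
  · exact (by fun_prop : Continuous fun x : ℝ => (x : ℂ) ^ n * cexp (-(s * x))).aestronglyMeasurable
  · refine (ae_restrict_iff' measurableSet_Ioi).2 (Eventually.of_forall fun x hx => ?_)
    rw [norm_pow_exp n s (le_of_lt hx)]

lemma int_pow_exp (n : ℕ) {s : ℂ} (hs : 0 < s.re) :
    ∫ x in Ioi (0 : ℝ), (x : ℂ) ^ n * cexp (-(s * x)) = n.factorial / s ^ (n + 1) := by
  have hs0 : s ≠ 0 := by rintro rfl; simp at hs
  have htend : ∀ m : ℕ, Tendsto (fun x : ℝ => (x : ℂ) ^ m * cexp (-(s * x))) atTop (𝓝 0) := by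
    intro m
    rw [tendsto_zero_iff_norm_tendsto_zero]
    have h := tendsto_rpow_mul_exp_neg_mul_atTop_nhds_zero (m : ℝ) s.re hs
    refine h.congr' ?_
    filter_upwards [eventually_ge_atTop 0] with x hx
    rw [norm_pow_exp m s hx, Real.rpow_natCast, neg_mul]
  induction n with
  | zero =>
    have h := integral_Ioi_of_hasDerivAt_of_tendsto (a := (0 : ℝ))
      (f := fun x : ℝ => -(1 / s) * ((x : ℂ) ^ 0 * cexp (-(s * x))))
      (f' := fun x : ℝ => (x : ℂ) ^ 0 * cexp (-(s * x))) (m := 0)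
      (by
        refine Continuous.continuousWithinAt ?_
        fun_prop)
      (by
        intro x _
        have h1 : HasDerivAt (fun x : ℝ => cexp (-(s * x))) (cexp (-(s * x)) * (-(s * 1))) x :=
          (((hasDerivAt_id x).ofReal_comp.const_mul s).neg).cexp
        have h2 := h1.const_mul (-(1 / s))
        simp only [pow_zero, one_mul]
        refine h2.congr_deriv ?_
        field_simp)
      (integrableOn_pow_exp_c 0 hs)
      (by simpa using (htend 0).const_mul (-(1 / s)))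
    rw [h]
    simp
  | succ n ih =>
    have hI1 := integrableOn_pow_exp_c (n + 1) hs
    have hI2 := integrableOn_pow_exp_c n hs
    have h := integral_Ioi_of_hasDerivAt_of_tendsto (a := (0 : ℝ))
      (f := fun x : ℝ => -(1 / s) * ((x : ℂ) ^ (n + 1) * cexp (-(s * x))))
      (f' := fun x : ℝ => (x : ℂ) ^ (n + 1) * cexp (-(s * x)) -
        ((n + 1) / s) * ((x : ℂ) ^ n * cexp (-(s * x)))) (m := 0)
      (by
        refine Continuous.continuousWithinAt ?_
        fun_prop)
      (by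
        intro x _
        have h1 : HasDerivAt (fun x : ℝ => cexp (-(s * x))) (cexp (-(s * x)) * (-(s * 1))) x :=
          (((hasDerivAt_id x).ofReal_comp.const_mul s).neg).cexp
        have h3 : HasDerivAt (fun x : ℝ => (x : ℂ) ^ (n + 1)) (((n + 1 : ℕ) : ℂ) * (x : ℂ) ^ n * 1) x := by
          have := ((hasDerivAt_id x).ofReal_comp).fun_pow (n + 1)
          simpa using this
        have h2 := (h3.mul h1).const_mul (-(1 / s))
        refine h2.congr_deriv ?_
        push_cast
        field_simp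
        ring)
      (hI1.sub (hI2.const_mul _))
      (by simpa using (htend (n + 1)).const_mul (-(1 / s)))
    rw [integral_sub hI1 (hI2.const_mul _), integral_const_mul, ih] at h
    have e : -(1 / s) * ((((0 : ℝ)) : ℂ) ^ (n + 1) * cexp (-(s * ((0 : ℝ) : ℂ)))) = 0 := by simp
    rw [e, sub_zero, sub_eq_zero] at h
    rw [h, Nat.factorial_succ]
    push_cast
    field_simp
    ring

/-- the building block -/
noncomputable def ph (n : ℕ) (x a : ℝ) : ℝ :=
  if 0 < x * a then |x| ^ n * Real.exp (-(x * a)) * |a| ^ (n + 1) else 0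

lemma ph_nonneg (n : ℕ) (x a : ℝ) : 0 ≤ ph n x a := by
  unfold ph
  split_ifs
  · positivity
  · exact le_rfl

lemma ph_neg (n : ℕ) (x a : ℝ) : ph n (-x) (-a) = ph n x a := by
  unfold ph
  rw [neg_mul_neg, abs_neg, abs_neg]

lemma ph_meas (n : ℕ) : Measurable (fun p : ℝ × ℝ => ph n p.1 p.2) := by
  unfold ph
  refine Measurable.ite ?_ ?_ measurable_const
  · exact measurableSet_lt measurable_const (measurable_fst.mul measurable_snd)
  · fun_prop

lemma ph_pos_eq (n : ℕ) {a : ℝ} (ha : 0 < a) : (fun x : ℝ => ph n x a) =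
    indicator (Ioi 0) (fun x : ℝ => (x ^ n * Real.exp (-(a * x))) * a ^ (n + 1)) := by
  funext x
  by_cases hx : 0 < x
  · rw [indicator_of_mem (mem_Ioi.2 hx), ph, if_pos (mul_pos hx ha), abs_of_pos hx, abs_of_pos ha,
      mul_comm x a]
  · rw [indicator_of_notMem (by simpa using hx), ph, if_neg]
    push Not at hx ⊢
    exact mul_nonpos_of_nonpos_of_nonneg hx ha.le

lemma ph_int_pos (n : ℕ) {a : ℝ} (ha : 0 < a) : Integrable (fun x : ℝ => ph n x a) := by
  rw [ph_pos_eq n ha, integrable_indicator_iff measurableSet_Ioi]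
  exact (integrableOn_pow_exp n ha).mul_const _

lemma ph_ft_pos (n : ℕ) {a : ℝ} (ha : 0 < a) (μ : ℝ) :
    ∫ x : ℝ, (ph n x a : ℂ) * cexp (I * μ * x) = n.factorial * ((a : ℂ) / (a - μ * I)) ^ (n + 1) := by
  have h1 : (fun x : ℝ => (ph n x a : ℂ) * cexp (I * μ * x)) =
      indicator (Ioi 0) (fun x : ℝ => ((x : ℂ) ^ n * cexp (-((a - μ * I) * x))) * a ^ (n + 1)) := by
    funext x
    have : ph n x a = indicator (Ioi 0) (fun x : ℝ => (x ^ n * Real.exp (-(a * x))) * a ^ (n + 1)) x :=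
      congrFun (ph_pos_eq n ha) x
    rw [this]
    by_cases hx : 0 < x
    · rw [indicator_of_mem (mem_Ioi.2 hx), indicator_of_mem (mem_Ioi.2 hx)]
      push_cast
      have e : cexp (-((a - μ * I) * x)) = cexp (-(a * x)) * cexp (I * μ * x) := by
        rw [← Complex.exp_add]; congr 1; ring
      rw [e]
      ring
    · rw [indicator_of_notMem (by simpa using hx), indicator_of_notMem (by simpa using hx)]
      simp
  rw [h1, integral_indicator measurableSet_Ioi, integral_mul_const, int_pow_exp n (by simpa using ha)]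
  rw [div_pow]
  ring

lemma ph_int {n : ℕ} {a : ℝ} (ha : a ≠ 0) : Integrable (fun x : ℝ => ph n x a) := by
  rcases lt_or_gt_of_ne ha with h | h
  · have h1 := (ph_int_pos n (neg_pos.2 h)).comp_neg
    refine h1.congr (Eventually.of_forall fun x => ?_)
    exact ph_neg n x a
  · exact ph_int_pos n h

lemma ph_ft {n : ℕ} {a : ℝ} (ha : a ≠ 0) (μ : ℝ) :
    ∫ x : ℝ, (ph n x a : ℂ) * cexp (I * μ * x) = n.factorial * qq n μ a := by
  have hne : (a : ℂ) - μ * I ≠ 0 := by
    intro h
    have := congrArg re h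
    simp at this
    exact ha this
  rw [qq_eq hne]
  rcases lt_or_gt_of_ne ha with h | h
  · rw [← integral_neg_eq_self]
    have h1 := ph_ft_pos n (neg_pos.2 h) (-μ)
    have e1 : ∀ x : ℝ, (ph n (-x) a : ℂ) * cexp (I * μ * ((-x : ℝ) : ℂ)) =
        (ph n x (-a) : ℂ) * cexp (I * ((-μ : ℝ) : ℂ) * x) := by
      intro x
      rw [← ph_neg n x (-a), neg_neg]
      congr 2
      push_cast
      ring
    simp_rw [e1]
    rw [h1]
    congr 2
    push_cast
    rw [neg_mul, sub_neg_eq_add, show (-(a : ℂ) + μ * I) = -(a - μ * I) by ring, neg_div_neg_eq]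
  · exact ph_ft_pos n h μ

lemma ph_mass {n : ℕ} {a : ℝ} (ha : a ≠ 0) : ∫ x : ℝ, ph n x a = n.factorial := by
  have h := ph_ft (n := n) ha 0
  simp only [ofReal_zero, mul_zero, zero_mul, Complex.exp_zero, mul_one, qq_zero] at h
  rw [integral_complex_ofReal] at h
  exact_mod_cast h

/-- integral in the other variable -/
lemma ph_mass' {n : ℕ} {x : ℝ} (hx : x ≠ 0) : Integrable (fun a : ℝ => ph n x a) ∧
    ∫ a : ℝ, ph n x a = (n + 1).factorial / x ^ 2 := by
  have hpos : ∀ y : ℝ, 0 < y → Integrable (fun a : ℝ => ph n y a) ∧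
      ∫ a : ℝ, ph n y a = (n + 1).factorial / y ^ 2 := by
    intro y hy
    have h1 : (fun a : ℝ => ph n y a) =
        indicator (Ioi 0) (fun a : ℝ => y ^ n * (a ^ (n + 1) * Real.exp (-(y * a)))) := by
      funext a
      by_cases ha : 0 < a
      · rw [indicator_of_mem (mem_Ioi.2 ha), ph, if_pos (mul_pos hy ha), abs_of_pos hy, abs_of_pos ha]
        ring
      · rw [indicator_of_notMem (by simpa using ha), ph, if_neg]
        push Not at ha ⊢
        exact mul_nonpos_of_nonneg_of_nonpos hy.le ha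
    rw [h1]
    constructor
    · rw [integrable_indicator_iff measurableSet_Ioi]
      exact (integrableOn_pow_exp (n + 1) hy).const_mul _
    · rw [integral_indicator measurableSet_Ioi, integral_const_mul, int_pow_exp_real (n + 1) hy]
      field_simp
      ring
  rcases lt_or_gt_of_ne hx with h | h
  · obtain ⟨h1, h2⟩ := hpos (-x) (neg_pos.2 h)
    have e1 : (fun a : ℝ => ph n x a) = fun a => ph n (-x) (-a) := by
      funext a; rw [ph_neg]
    constructor
    · rw [e1]; exact h1.comp_neg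
    · rw [e1, integral_neg_eq_self (fun a => ph n (-x) a), h2]
      congr 1; ring
  · exact hpos x h

/-- the weighted kernel integral -/
noncomputable def PP (n : ℕ) (α x : ℝ) : ℝ := ∫ τ : ℝ, ph n x τ * (kk n α τ).re

lemma ph_prod_int {n : ℕ} (hn : 2 ≤ n) (α : ℝ) :
    Integrable (fun p : ℝ × ℝ => ph n p.1 p.2 * (kk n α p.2).re) (volume.prod volume) := by
  have hmeas : AEStronglyMeasurable (fun p : ℝ × ℝ => ph n p.1 p.2 * (kk n α p.2).re)
      (volume.prod volume) := by
    refine ((ph_meas n).aestronglyMeasurable).mul ?_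
    exact ((continuous_re.comp (kk_cont hn α)).comp continuous_snd).aestronglyMeasurable
  rw [integrable_prod_iff' hmeas]
  have hae : ∀ᵐ τ : ℝ, τ ≠ 0 := by rw [ae_iff]; simp
  constructor
  · filter_upwards [hae] with τ hτ
    exact (ph_int hτ).mul_const _
  · have h1 : (fun τ : ℝ => ∫ x : ℝ, ‖ph n x τ * (kk n α τ).re‖) =ᵐ[volume]
        fun τ => n.factorial * ‖(kk n α τ).re‖ := by
      filter_upwards [hae] with τ hτ
      simp_rw [norm_mul]
      rw [integral_mul_const]
      congr 1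
      rw [← ph_mass hτ]
      refine integral_congr_ae (Eventually.of_forall fun x => ?_)
      simp only
      rw [Real.norm_eq_abs, abs_of_nonneg (ph_nonneg n x τ)]
    rw [integrable_congr h1]
    exact ((kk_int hn α).re.norm).const_mul _

lemma PP_int {n : ℕ} (hn : 2 ≤ n) (α : ℝ) : Integrable (PP n α) :=
  (ph_prod_int hn α).integral_prod_left

lemma exp_norm (μ x : ℝ) : ‖cexp (I * μ * x)‖ = 1 := by
  rw [show (I * μ * x : ℂ) = ((μ * x : ℝ) : ℂ) * I by push_cast; ring, norm_exp_ofReal_mul_I]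

lemma PP_ft {n : ℕ} (hn : 2 ≤ n) {α : ℝ} (hα : Bt n α = 0) (μ : ℝ) :
    ∫ x : ℝ, (PP n α x : ℂ) * cexp (I * μ * x) = n.factorial * JJ n α μ := by
  have h1 : Integrable (fun p : ℝ × ℝ => ((ph n p.1 p.2 * (kk n α p.2).re : ℝ) : ℂ) *
      cexp (I * μ * p.1)) (volume.prod volume) := by
    refine (ph_prod_int hn α).ofReal.mul_bdd (c := 1) ?_ ?_
    · exact (by fun_prop : Continuous fun p : ℝ × ℝ => cexp (I * μ * p.1)).aestronglyMeasurable
    · exact Eventually.of_forall fun p => (exp_norm μ p.1).le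
  have h2 : ∀ x : ℝ, (PP n α x : ℂ) * cexp (I * μ * x) =
      ∫ τ : ℝ, ((ph n x τ * (kk n α τ).re : ℝ) : ℂ) * cexp (I * μ * x) := by
    intro x
    rw [integral_mul_const, PP, integral_complex_ofReal]
  simp_rw [h2]
  rw [integral_integral_swap h1, JJ, ← integral_const_mul]
  have hae : ∀ᵐ τ : ℝ, τ ≠ 0 := by rw [ae_iff]; simp
  refine integral_congr_ae ?_
  filter_upwards [hae] with τ hτ
  have h3 := ph_ft (n := n) hτ μ
  have h4 : kk n α τ = (((kk n α τ).re : ℝ) : ℂ) := by
    rw [kk_real hn hα hτ, ofReal_re]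
  rw [← mul_assoc, ← h3, h4, ← integral_mul_const]
  refine integral_congr_ae (Eventually.of_forall fun x => ?_)
  simp only [ofReal_re]
  push_cast
  ring

/-- the extremal function -/
noncomputable def EF (n : ℕ) (α x : ℝ) : ℝ :=
  -(Real.sin (Real.pi * (x - α)) ^ 2 / (Real.pi ^ 2 * n.factorial)) * PP n α x

lemma EF_int {n : ℕ} (hn : 2 ≤ n) (α : ℝ) : Integrable (EF n α) := by
  refine (PP_int hn α).bdd_mul (c := 1 / (Real.pi ^ 2 * n.factorial)) ?_ ?_
  · exact (by fun_prop : Continuous fun x : ℝ => -(Real.sin (Real.pi * (x - α)) ^ 2 /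
      (Real.pi ^ 2 * n.factorial))).aestronglyMeasurable
  · refine Eventually.of_forall fun x => ?_
    rw [norm_neg, Real.norm_eq_abs, abs_of_nonneg (by positivity)]
    apply div_le_div_of_nonneg_right _ (by positivity)
    exact Real.sin_sq_le_one _

lemma EF_ft {n : ℕ} (hn : 2 ≤ n) {α : ℝ} (hα : Bt n α = 0) (lam : ℝ) :
    ∫ x : ℝ, (EF n α x : ℂ) * cexp (I * lam * x) = Eh n α lam := by
  have hI : ∀ μ : ℝ, Integrable (fun x : ℝ => (PP n α x : ℂ) * cexp (I * μ * x)) := by
    intro μ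
    refine (PP_int hn α).ofReal.mul_bdd (c := 1) ?_ ?_
    · exact (by fun_prop : Continuous fun x : ℝ => cexp (I * μ * x)).aestronglyMeasurable
    · exact Eventually.of_forall fun x => (exp_norm μ x).le
  have hf : (n.factorial : ℂ) ≠ 0 := by exact_mod_cast Nat.factorial_ne_zero n
  have hpi : (Real.pi : ℂ) ≠ 0 := by exact_mod_cast Real.pi_ne_zero
  have key : ∀ x : ℝ, (EF n α x : ℂ) * cexp (I * lam * x) =
      -(1 / (Real.pi ^ 2 * n.factorial)) * ((1 / 2) * ((PP n α x : ℂ) * cexp (I * lam * x)) -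
        (1 / 4) * ee α (-1) * ((PP n α x : ℂ) * cexp (I * ((lam + 2 * Real.pi : ℝ) : ℂ) * x)) -
        (1 / 4) * ee α 1 * ((PP n α x : ℂ) * cexp (I * ((lam - 2 * Real.pi : ℝ) : ℂ) * x))) := by
    intro x
    have e1 : ((Real.sin (Real.pi * (x - α)) ^ 2 : ℝ) : ℂ) =
        1 / 2 - (1 / 4) * (ee α (-1) * cexp (2 * Real.pi * I * x)) -
          (1 / 4) * (ee α 1 * cexp (-(2 * Real.pi * I * x))) := by
      push_cast
      rw [Complex.sin]
      have a1 : ee α (-1) * cexp (2 * Real.pi * I * x) = cexp (Real.pi * (x - α) * I) ^ 2 := by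
        rw [ee, ← Complex.exp_add, ← Complex.exp_nat_mul]
        congr 1; push_cast; ring
      have a2 : ee α 1 * cexp (-(2 * Real.pi * I * x)) = cexp (-(Real.pi * (x - α)) * I) ^ 2 := by
        rw [ee, ← Complex.exp_add, ← Complex.exp_nat_mul]
        congr 1; push_cast; ring
      rw [a1, a2]
      have a3 : cexp (-(Real.pi * (x - α)) * I) * cexp (Real.pi * (x - α) * I) = 1 := by
        rw [← Complex.exp_add]; simp
      have a4 : I ^ 2 = -1 := I_sq
      generalize cexp (-(Real.pi * (x - α)) * I) = u at a3 ⊢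
      generalize cexp (Real.pi * (x - α) * I) = v at a3 ⊢
      linear_combination (1 / 4) * (u - v) ^ 2 * a4 + (1 / 2) * a3
    have e2 : cexp (I * ((lam + 2 * Real.pi : ℝ) : ℂ) * x) =
        cexp (I * lam * x) * cexp (2 * Real.pi * I * x) := by
      rw [← Complex.exp_add]; congr 1; push_cast; ring
    have e3 : cexp (I * ((lam - 2 * Real.pi : ℝ) : ℂ) * x) =
        cexp (I * lam * x) * cexp (-(2 * Real.pi * I * x)) := by
      rw [← Complex.exp_add]; congr 1; push_cast; ring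
    rw [e2, e3]
    have e4 : (EF n α x : ℂ) = -(((Real.sin (Real.pi * (x - α)) ^ 2 : ℝ) : ℂ) /
        (Real.pi ^ 2 * n.factorial)) * (PP n α x : ℂ) := by
      unfold EF; push_cast; ring
    rw [e4, e1]
    field_simp
  simp_rw [key]
  rw [integral_const_mul, integral_sub, integral_sub, integral_const_mul, integral_const_mul,
    integral_const_mul, PP_ft hn hα, PP_ft hn hα, PP_ft hn hα, Eh]
  · field_simp
  · exact (hI _).const_mul _
  · exact (hI _).const_mul _
  · exact ((hI _).const_mul _).sub ((hI _).const_mul _)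
  · exact (hI _).const_mul _

lemma EF_sign {n : ℕ} (hn : 2 ≤ n) {α σ : ℝ} (hα : Bt n α = 0)
    (hσ : ∀ y : ℝ, 0 ≤ σ * (Bt (n + 1) y - Bt (n + 1) α)) (x : ℝ) : 0 ≤ σ * EF n α x := by
  have h1 : 0 ≤ ∫ τ : ℝ, ph n x τ * (-(σ * (kk n α τ).re)) := by
    refine integral_nonneg_of_ae ?_
    have hae : ∀ᵐ τ : ℝ, τ ≠ 0 := by rw [ae_iff]; simp
    filter_upwards [hae] with τ hτ
    have h2 := KR_sign hσ hτ
    rw [kk_real hn hα hτ, ofReal_re]
    exact mul_nonneg (ph_nonneg n x τ) (by linarith)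
  have h2 : ∫ τ : ℝ, ph n x τ * (-(σ * (kk n α τ).re)) = -(σ * PP n α x) := by
    rw [PP, ← integral_const_mul, ← integral_neg]
    refine integral_congr_ae (Eventually.of_forall fun τ => ?_)
    simp only
    ring
  rw [h2] at h1
  unfold EF
  have : σ * (-(Real.sin (Real.pi * (x - α)) ^ 2 / (Real.pi ^ 2 * n.factorial)) * PP n α x) =
      (Real.sin (Real.pi * (x - α)) ^ 2 / (Real.pi ^ 2 * n.factorial)) * (-(σ * PP n α x)) := by ring
  rw [this]
  exact mul_nonneg (by positivity) h1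

lemma EF_decay {n : ℕ} (hn : 2 ≤ n) (α : ℝ) : ∃ C : ℝ, 0 < C ∧ ∀ x : ℝ, x ≠ 0 →
    |EF n α x| ≤ C / x ^ 2 := by
  set M := ∑' k, ck k with hM
  have hM0 : 0 ≤ M := tsum_nonneg ck_nonneg
  refine ⟨(1 / (Real.pi ^ 2 * n.factorial)) * (M * (n + 1).factorial) + 1, by positivity,
    fun x hx => ?_⟩
  have hx2 : 0 < x ^ 2 := by positivity
  have h1 : |PP n α x| ≤ M * ((n + 1).factorial / x ^ 2) := by
    obtain ⟨g1, g2⟩ := ph_mass' (n := n) hx
    unfold PP
    rw [← g2, ← integral_const_mul, ← Real.norm_eq_abs]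
    refine norm_integral_le_of_norm_le (g1.const_mul M) (Eventually.of_forall fun τ => ?_)
    rw [norm_mul, Real.norm_eq_abs, abs_of_nonneg (ph_nonneg n x τ), mul_comm]
    refine mul_le_mul_of_nonneg_right ?_ (ph_nonneg n x τ)
    have h3 := kk_bound hn α τ
    have h4 := uu_le_one τ
    have h5 := abs_re_le_norm (kk n α τ)
    rw [Real.norm_eq_abs]
    nlinarith [uu_nonneg τ]
  unfold EF
  rw [abs_mul, abs_neg, abs_of_nonneg (by positivity)]
  have h2 : Real.sin (Real.pi * (x - α)) ^ 2 / (Real.pi ^ 2 * n.factorial) ≤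
      1 / (Real.pi ^ 2 * n.factorial) := by
    apply div_le_div_of_nonneg_right _ (by positivity)
    exact Real.sin_sq_le_one _
  calc Real.sin (Real.pi * (x - α)) ^ 2 / (Real.pi ^ 2 * n.factorial) * |PP n α x|
      ≤ 1 / (Real.pi ^ 2 * n.factorial) * (M * ((n + 1).factorial / x ^ 2)) :=
        mul_le_mul h2 h1 (abs_nonneg _) (by positivity)
    _ = (1 / (Real.pi ^ 2 * n.factorial) * (M * (n + 1).factorial)) / x ^ 2 := by ring
    _ ≤ _ := by
        apply div_le_div_of_nonneg_right _ hx2.le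
        linarith

/-- summary of the extremal problem -/
theorem extremal {n : ℕ} (hn : 2 ≤ n) {α σ : ℝ} (hα : Bt n α = 0)
    (hσ : ∀ y : ℝ, 0 ≤ σ * (Bt (n + 1) y - Bt (n + 1) α)) : ∃ E : ℝ → ℝ, Integrable E ∧
      (∀ x, 0 ≤ σ * E x) ∧ (∃ C : ℝ, 0 < C ∧ ∀ x : ℝ, x ≠ 0 → |E x| ≤ C / x ^ 2) ∧
      (∫ x, E x = -(Bt (n + 1) α / (n + 1).factorial)) ∧
      (∀ lam : ℝ, 2 * Real.pi ≤ lam →
        ∫ x : ℝ, (E x : ℂ) * cexp (I * lam * x) = -(I / lam) ^ (n + 1)) := by
  refine ⟨EF n α, EF_int hn α, EF_sign hn hα hσ, EF_decay hn α, ?_, fun lam hl => ?_⟩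
  · have h := EF_ft hn hα 0
    rw [Eh_zero hn hα] at h
    simp only [ofReal_zero, mul_zero, zero_mul, Complex.exp_zero, mul_one] at h
    rw [integral_complex_ofReal] at h
    exact_mod_cast h
  · rw [EF_ft hn hα, Eh_large hn α hl]

end Pool.Agent.H476.Ext
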