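import Pool.Agent.H476.ZE

open Complex Filter Topology Set Metric MeasureTheory

namespace Pool.Agent.H476

lemma ii_abs_rpow0 (b : ℝ) : IntervalIntegrable (fun x : ℝ => |x| ^ (-(1 / 2 : ℝ))) volume 0 b := by
  have hpos : ∀ b : ℝ, 0 ≤ b → IntervalIntegrable (fun x : ℝ => |x| ^ (-(1 / 2 : ℝ))) volume 0 b := by
    intro b hb
    have h := intervalIntegral.intervalIntegrable_rpow' (a := 0) (b := b) (r := -(1 / 2 : ℝ))
      (by norm_num)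
    refine h.congr ?_
    intro x hx
    rw [uIoc_of_le hb] at hx
    simp only
    rw [abs_of_pos hx.1]
  rcases le_total 0 b with hb | hb
  · exact hpos b hb
  · have h := hpos (-b) (by linarith)
    rw [IntervalIntegrable.iff_comp_neg] at h
    simpa using h

lemma ii_abs_rpow (c a b : ℝ) :
    IntervalIntegrable (fun x : ℝ => |x - c| ^ (-(1 / 2 : ℝ))) volume a b := by
  have h : IntervalIntegrable (fun x : ℝ => |x| ^ (-(1 / 2 : ℝ))) volume (a - c) (b - c) :=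
    (ii_abs_rpow0 (a - c)).symm.trans (ii_abs_rpow0 (b - c))
  have h2 := h.comp_sub_right c
  simpa using h2

lemma intOn_abs_rpow (c a b : ℝ) :
    IntegrableOn (fun x : ℝ => |x - c| ^ (-(1 / 2 : ℝ))) (Ioc a b) := by
  rcases le_total a b with h | h
  · exact (intervalIntegrable_iff_integrableOn_Ioc_of_le h).1 (ii_abs_rpow c a b)
  · rw [Ioc_eq_empty (not_lt.2 h)]
    exact integrableOn_empty

/-- `|a + i b| ≥ √|a| √|b|` in the form of negative powers -/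
lemma inv_sqrt_mul_le {a b : ℝ} (ha : 0 < a) (hb : b ≠ 0) :
    1 / (a ^ (-(1 / 2 : ℝ)) * |b| ^ (-(1 / 2 : ℝ))) ≤ ‖(⟨a, b⟩ : ℂ)‖ := by
  have hb' : 0 < |b| := abs_pos.2 hb
  have h1 : 1 / (a ^ (-(1 / 2 : ℝ)) * |b| ^ (-(1 / 2 : ℝ))) = Real.sqrt (a * |b|) := by
    rw [Real.rpow_neg ha.le, Real.rpow_neg hb'.le, ← mul_inv, one_div, inv_inv,
      ← Real.sqrt_eq_rpow, ← Real.sqrt_eq_rpow, Real.sqrt_mul ha.le]
  rw [h1, Real.sqrt_le_left (norm_nonneg _), sq]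
  have h2 := abs_re_le_norm (⟨a, b⟩ : ℂ)
  have h3 := abs_im_le_norm (⟨a, b⟩ : ℂ)
  simp only at h2 h3
  rw [abs_of_pos ha] at h2
  exact mul_le_mul h2 h3 (abs_nonneg _) (norm_nonneg _)

lemma gt_loc (hRH : RiemannHypothesis) (t0 : ℝ) : ∃ (Γ : Finset ℝ) (B : ℝ), 0 ≤ B ∧
    ∀ τ : ℝ, |τ - t0| ≤ 1 / 2 → τ ∉ Γ → ∀ u ∈ Ioc (0 : ℝ) (3 / 2),
      ‖gt (⟨1 / 2 + u, τ⟩ : ℂ)‖ ≤ (B * (1 + ∑ γ ∈ Γ, |τ - γ| ^ (-(1 / 2 : ℝ)))) *
        u ^ (-(1 / 2 : ℝ)) := by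
  classical
  obtain ⟨K, hK, hdata⟩ := Z1_ball
  obtain ⟨M, hM1, han, hF0, hb, hMc, hL0, hLM⟩ := hdata t0
  obtain ⟨s, g, hs, hg, hfg, hg0, hcard⟩ := H370.Loc.extract (f := Z1) (c := ⟨2, t0⟩) (r := 1.8)
    (R := 1.9) (M := M) (by norm_num) (by norm_num) hM1 han hF0 hb
  have hsub : closedBall (⟨2, t0⟩ : ℂ) 1.8 ⊆ closedBall (⟨2, t0⟩ : ℂ) 1.9 :=
    closedBall_subset_closedBall (by norm_num)
  have hcont : ContinuousOn (fun z => deriv g z / g z) (closedBall (⟨2, t0⟩ : ℂ) 1.8) := by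
    intro z hz
    exact (((hg z (hsub hz)).deriv).div (hg z (hsub hz)) (hg0 z hz)).continuousAt.continuousWithinAt
  obtain ⟨Bg, hBg⟩ := (isCompact_closedBall (⟨2, t0⟩ : ℂ) 1.8).exists_bound_of_continuousOn hcont
  set n := Multiset.card s with hn
  refine ⟨s.toFinset.image (fun ρ => ρ.im), n + 2 * |Bg|, by positivity, ?_⟩
  intro τ hτ hτΓ u hu
  set Γ := s.toFinset.image (fun ρ : ℂ => ρ.im) with hΓ
  set S : ℝ := 1 + ∑ γ ∈ Γ, |τ - γ| ^ (-(1 / 2 : ℝ)) with hS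
  have hterm : ∀ γ ∈ Γ, 0 ≤ |τ - γ| ^ (-(1 / 2 : ℝ)) := fun γ _ => by positivity
  have hS1 : 1 ≤ S := by
    have := Finset.sum_nonneg hterm
    linarith
  set z : ℂ := ⟨1 / 2 + u, τ⟩ with hz
  have hzre : z.re = 1 / 2 + u := rfl
  have hzim : z.im = τ := rfl
  have hzb : z ∈ closedBall (⟨2, t0⟩ : ℂ) 1.8 := by
    rw [mem_closedBall, dist_eq_norm]
    apply abs_le_of_sq_le_sq' _ (by norm_num) |>.2
    rw [← Complex.normSq_eq_norm_sq, Complex.normSq_apply]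
    simp only [sub_re, sub_im, hzre, hzim]
    rw [abs_le] at hτ
    nlinarith [hu.1, hu.2, hτ.1, hτ.2]
  have hup : 0 < u ^ (-(1 / 2 : ℝ)) := Real.rpow_pos_of_pos hu.1 _
  have hδ : 0 < 1 / (u ^ (-(1 / 2 : ℝ)) * S) := by positivity
  have hdist : ∀ ρ ∈ s, 1 / (u ^ (-(1 / 2 : ℝ)) * S) ≤ ‖z - ρ‖ := by
    intro ρ hρ
    obtain ⟨h1, h2⟩ := hs ρ hρ
    obtain ⟨h3, -, -⟩ := ball_sub h1
    have h4 := Z1_zero_re hRH (by norm_num at h3 ⊢; linarith) h2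
    have h5 : z - ρ = ⟨u, τ - ρ.im⟩ := by
      apply Complex.ext
      · simp [hzre, h4]
      · simp [hzim]
    have h6 : ρ.im ∈ Γ := by
      rw [hΓ, Finset.mem_image]
      exact ⟨ρ, Multiset.mem_toFinset.2 hρ, rfl⟩
    have h7 : τ - ρ.im ≠ 0 := by
      intro h
      apply hτΓ
      rw [sub_eq_zero] at h
      rwa [h]
    rw [h5]
    refine le_trans ?_ (inv_sqrt_mul_le hu.1 h7)
    apply one_div_le_one_div_of_le
    · have : 0 < |τ - ρ.im| := abs_pos.2 h7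
      positivity
    · refine mul_le_mul_of_nonneg_left ?_ hup.le
      have := Finset.single_le_sum hterm h6
      linarith
  have hPz : H370.Loc.Pf s z ≠ 0 := H370.Loc.Pf_ne_zero fun ρ hρ he => by
    have := hdist ρ hρ
    rw [he, sub_self, norm_zero] at this
    linarith
  have heq : gt z = logDeriv (H370.Loc.Pf s) z + logDeriv g z := by
    have h1 : Z1 = fun w => H370.Loc.Pf s w * g w := funext hfg
    rw [gt]
    conv_lhs => rw [h1]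
    exact logDeriv_mul z hPz (hg0 z hzb) (H370.Loc.Pf_diff s z) (hg z (hsub hzb)).differentiableAt
  have hP := H370.Loc.Pf_logDeriv (s := s) hδ hdist
  have hgz : ‖logDeriv g z‖ ≤ |Bg| := by
    rw [logDeriv_apply]
    exact (hBg z hzb).trans (le_abs_self _)
  have hu1 : (1 : ℝ) ≤ 2 * u ^ (-(1 / 2 : ℝ)) := by
    rw [Real.rpow_neg hu.1.le, ← Real.sqrt_eq_rpow, ← div_eq_mul_inv, le_div_iff₀ (Real.sqrt_pos.2 hu.1),
      one_mul, Real.sqrt_le_left (by norm_num)]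
    linarith [hu.2]
  rw [heq]
  calc ‖logDeriv (H370.Loc.Pf s) z + logDeriv g z‖ ≤ (n : ℝ) / (1 / (u ^ (-(1 / 2 : ℝ)) * S)) + |Bg| :=
        (norm_add_le _ _).trans (add_le_add hP hgz)
    _ = n * S * u ^ (-(1 / 2 : ℝ)) + |Bg| := by rw [div_div_eq_mul_div, div_one]; ring
    _ ≤ n * S * u ^ (-(1 / 2 : ℝ)) + |Bg| * (S * (2 * u ^ (-(1 / 2 : ℝ)))) := by
        have h1 : 1 ≤ S * (2 * u ^ (-(1 / 2 : ℝ))) := by nlinarith
        have := mul_le_mul_of_nonneg_left h1 (abs_nonneg Bg)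
        linarith
    _ = _ := by ring

/-- separable bound on `(0,T]` -/
lemma gt_sep (hRH : RiemannHypothesis) (T : ℝ) : ∃ (D : ℝ → ℝ) (N : Set ℝ), N.Finite ∧
    (∀ τ, 0 ≤ D τ) ∧ IntegrableOn D (Ioc 0 T) ∧ Measurable D ∧
    ∀ τ ∈ Ioc (0 : ℝ) T, τ ∉ N → ∀ u ∈ Ioc (0 : ℝ) (3 / 2),
      ‖gt (⟨1 / 2 + u, τ⟩ : ℂ)‖ ≤ D τ * u ^ (-(1 / 2 : ℝ)) := by
  classical
  choose Γ B hB hmain using gt_loc hRH
  set n := ⌈T⌉₊ + 1 with hn
  set D : ℝ → ℝ := fun τ => ∑ k ∈ Finset.range n,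
    B k * (1 + ∑ γ ∈ Γ k, |τ - γ| ^ (-(1 / 2 : ℝ))) with hD
  have hnn : ∀ (τ : ℝ) (k : ℕ), 0 ≤ B k * (1 + ∑ γ ∈ Γ k, |τ - γ| ^ (-(1 / 2 : ℝ))) := by
    intro τ k
    have : 0 ≤ ∑ γ ∈ Γ k, |τ - γ| ^ (-(1 / 2 : ℝ)) := Finset.sum_nonneg fun γ _ => by positivity
    exact mul_nonneg (hB k) (by linarith)
  refine ⟨D, ⋃ k ∈ Finset.range n, (Γ k : Set ℝ), ?_, ?_, ?_, ?_, ?_⟩
  · exact Set.Finite.biUnion (Finset.finite_toSet _) fun k _ => Finset.finite_toSet _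
  · exact fun τ => Finset.sum_nonneg fun k _ => hnn τ k
  · refine integrable_finsetSum _ fun k _ => ?_
    refine Integrable.const_mul ?_ _
    refine Integrable.add (integrable_const _) ?_
    exact integrable_finsetSum _ fun γ _ => intOn_abs_rpow γ 0 T
  · rw [hD]
    fun_prop
  · intro τ hτ hN u hu
    -- nearest integer
    set k := ⌊τ + 1 / 2⌋₊ with hk
    have hτ0 : 0 ≤ τ + 1 / 2 := by linarith [hτ.1]
    have h1 : (k : ℝ) ≤ τ + 1 / 2 := Nat.floor_le hτ0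
    have h2 : τ + 1 / 2 < k + 1 := Nat.lt_floor_add_one _
    have hkn : k < n := by
      rw [hn, Nat.lt_succ_iff, hk]
      have h3 : τ ≤ ⌈T⌉₊ := hτ.2.trans (Nat.le_ceil T)
      have h4 : ⌊τ + 1 / 2⌋₊ ≤ ⌊((⌈T⌉₊ : ℕ) : ℝ) + 1 / 2⌋₊ := Nat.floor_mono (by linarith)
      have h5 : ⌊((⌈T⌉₊ : ℕ) : ℝ) + 1 / 2⌋₊ = ⌈T⌉₊ := by
        rw [Nat.floor_eq_iff (by positivity)]
        constructor <;> linarith
      omega
    have hkmem : k ∈ Finset.range n := Finset.mem_range.2 hkn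
    have h6 := hmain k τ (by rw [abs_le]; constructor <;> linarith) (by
      intro hmem
      apply hN
      simp only [mem_iUnion]
      exact ⟨k, hkmem, hmem⟩) u hu
    refine h6.trans ?_
    refine mul_le_mul_of_nonneg_right ?_ (Real.rpow_nonneg hu.1.le _)
    exact Finset.single_le_sum (f := fun k : ℕ => B k * (1 + ∑ γ ∈ Γ k, |τ - γ| ^ (-(1 / 2 : ℝ))))
      (fun k _ => hnn τ k) hkmem

end Pool.Agent.H476
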