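import Pool.Agent.H476.FA
import Pool.Agent.H476.ED

open Complex Filter Topology Set Metric MeasureTheory

namespace Pool.Agent.H476

lemma Lz_an_of_ne {s : ℂ} (h1 : s ≠ 1) (hz : riemannZeta s ≠ 0) : AnalyticAt ℂ Lz s := by
  have h2 : AnalyticAt ℂ riemannZeta s := by
    have hd : DifferentiableOn ℂ riemannZeta {z : ℂ | z ≠ 1} := fun z hz =>
      (differentiableAt_riemannZeta hz).differentiableWithinAt
    exact hd.analyticAt (isOpen_ne.mem_nhds h1)
  exact h2.deriv.div h2 hz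

lemma Lz_an (hRH : RiemannHypothesis) {s : ℂ} (hs : 1 / 2 < s.re) (h1 : s ≠ 1) :
    AnalyticAt ℂ Lz s := Lz_an_of_ne h1 (zeta_ne hRH hs h1)

lemma gt_an (hRH : RiemannHypothesis) {s : ℂ} (hs : 1 / 2 < s.re) : AnalyticAt ℂ gt s := by
  have h : AnalyticAt ℂ Z1 s := Z1_an (by linarith)
  exact h.deriv.div h (Z1_ne hRH hs)

lemma Lz_eq_gt (hRH : RiemannHypothesis) {s : ℂ} (hs : 1 / 2 < s.re) (h1 : s ≠ 1) :
    Lz s = gt s - 1 / (s - 1) := by
  rw [gt_eq (by linarith) h1 (zeta_ne hRH hs h1)]; ring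

lemma ne_one_of_im {s : ℂ} (h : 0 < s.im) : s ≠ 1 := by
  rintro rfl; simp at h

/-- the basic bound for `ζ'/ζ` in the upper half plane -/
lemma Lz_bound (hRH : RiemannHypothesis) : ∃ C : ℝ, 0 < C ∧ ∀ (s : ℂ) (u : ℝ), 1 / 2 ≤ s.re →
    0 < s.im → 0 < u →
      ‖Lz (s + u)‖ ≤ C * (Real.log (3 + |s.im|) + 1 / s.im) * ((1 / u + 1) * (2 : ℝ) ^ (-u)) := by
  obtain ⟨C1, hC1, hb1⟩ := gt_bound hRH
  obtain ⟨C2, hC2, hb2⟩ := Lz_decay
  refine ⟨3 * (C1 + 1) + C2, by positivity, fun s u hs ht hu => ?_⟩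
  have hlog := one_le_log3 s.im
  set l := Real.log (3 + |s.im|) with hl
  have hti : 0 < 1 / s.im := by positivity
  have hui : 0 < 1 / u := by positivity
  have h2u : 0 < (2 : ℝ) ^ (-u) := by positivity
  have him : (s + u).im = s.im := by simp
  have hre : (s + u).re = s.re + u := by simp
  rcases le_or_gt (s.re + u) 2 with h | h
  · have hne : s + u ≠ 1 := ne_one_of_im (by rw [him]; exact ht)
    rw [Lz_eq_gt hRH (by rw [hre]; linarith) hne]
    have e1 := hb1 (s + u) (by rw [hre]; linarith) (by rw [hre]; exact h)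
    rw [him, hre, ← hl] at e1
    have e2 : C1 * l / (s.re + u - 1 / 2) ≤ C1 * l * (1 / u) := by
      rw [mul_one_div]
      exact div_le_div_of_nonneg_left (by positivity) hu (by linarith)
    have e3 : ‖1 / (s + u - 1)‖ ≤ 1 / s.im := by
      rw [norm_div, norm_one]
      apply one_div_le_one_div_of_le ht
      have := abs_im_le_norm (s + u - 1)
      have h4 : (s + u - 1).im = s.im := by simp
      rw [h4, abs_of_pos ht] at this
      exact this
    have e4 : 1 ≤ 3 * (2 : ℝ) ^ (-u) := by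
      have h5 : u ≤ 3 / 2 := by linarith
      have h6 : (2 : ℝ) ^ (-(3 / 2 : ℝ)) ≤ (2 : ℝ) ^ (-u) :=
        Real.rpow_le_rpow_of_exponent_le (by norm_num) (by linarith)
      have h7 : (1 / 3 : ℝ) ≤ (2 : ℝ) ^ (-(3 / 2 : ℝ)) := by
        rw [Real.rpow_neg (by norm_num)]
        rw [one_div]
        apply inv_anti₀ (by positivity)
        have h8 : (2 : ℝ) ^ (3 / 2 : ℝ) = Real.sqrt 8 := by
          rw [Real.sqrt_eq_rpow, show (8 : ℝ) = 2 ^ (3 : ℝ) by norm_num, ← Real.rpow_mul (by norm_num)]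
          norm_num
        rw [h8, Real.sqrt_le_left (by norm_num)]
        norm_num
      linarith
    calc ‖gt (s + u) - 1 / (s + u - 1)‖ ≤ C1 * l * (1 / u) + 1 / s.im :=
          (norm_sub_le _ _).trans (add_le_add (e1.trans e2) e3)
      _ ≤ (C1 + 1) * (l + 1 / s.im) * (1 / u + 1) := by
          have hl0 : 0 < l := by linarith
          have e5 : (C1 + 1) * (l + 1 / s.im) * (1 / u + 1) = C1 * l * (1 / u) + 1 / s.im +
            (C1 * l + C1 * (1 / s.im) * (1 / u) + C1 * (1 / s.im) + l * (1 / u) + l +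
              (1 / s.im) * (1 / u)) := by ring
          rw [e5]
          have : 0 ≤ (C1 * l + C1 * (1 / s.im) * (1 / u) + C1 * (1 / s.im) + l * (1 / u) + l +
              (1 / s.im) * (1 / u)) := by positivity
          linarith
      _ ≤ (C1 + 1) * (l + 1 / s.im) * (1 / u + 1) * (3 * (2 : ℝ) ^ (-u)) :=
          le_mul_of_one_le_right (by positivity) e4
      _ = 3 * (C1 + 1) * ((l + 1 / s.im) * ((1 / u + 1) * (2 : ℝ) ^ (-u))) := by ring
      _ ≤ (3 * (C1 + 1) + C2) * ((l + 1 / s.im) * ((1 / u + 1) * (2 : ℝ) ^ (-u))) := by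
          refine mul_le_mul_of_nonneg_right (by linarith) (by positivity)
      _ = _ := by ring
  · have e1 := hb2 (s + u) (by rw [hre]; linarith)
    rw [hre] at e1
    have e2 : (2 : ℝ) ^ (-(s.re + u)) ≤ (2 : ℝ) ^ (-u) :=
      Real.rpow_le_rpow_of_exponent_le (by norm_num) (by linarith)
    have e3 : 1 ≤ (l + 1 / s.im) * (1 / u + 1) := by nlinarith
    calc ‖Lz (s + u)‖ ≤ C2 * (2 : ℝ) ^ (-u) := e1.trans (mul_le_mul_of_nonneg_left e2 hC2.le)
      _ ≤ C2 * (2 : ℝ) ^ (-u) * ((l + 1 / s.im) * (1 / u + 1)) :=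
          le_mul_of_one_le_right (by positivity) e3
      _ = C2 * ((l + 1 / s.im) * ((1 / u + 1) * (2 : ℝ) ^ (-u))) := by ring
      _ ≤ (3 * (C1 + 1) + C2) * ((l + 1 / s.im) * ((1 / u + 1) * (2 : ℝ) ^ (-u))) := by
          refine mul_le_mul_of_nonneg_right (by linarith) (by positivity)
      _ = _ := by ring

lemma two_rpow_neg (u : ℝ) : (2 : ℝ) ^ (-u) = Real.exp (-(Real.log 2 * u)) := by
  rw [Real.rpow_def_of_pos (by norm_num)]; congr 1; ring

lemma log2_pos : 0 < Real.log 2 := Real.log_pos (by norm_num)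

lemma intOn_pow_two (k : ℕ) : IntegrableOn (fun u : ℝ => u ^ k * (2 : ℝ) ^ (-u)) (Ioi 0) := by
  simp_rw [two_rpow_neg]
  exact Ext.integrableOn_pow_exp k log2_pos

/-- `F_n` -/
noncomputable def Fn (n : ℕ) (s : ℂ) : ℂ :=
  -∫ u in Ioi (0 : ℝ), ((u ^ n / n.factorial : ℝ) : ℂ) * Lz (s + u)

lemma Lz_line_cont (hRH : RiemannHypothesis) {s : ℂ} (hs : 1 / 2 ≤ s.re) (ht : 0 < s.im) :
    ContinuousOn (fun u : ℝ => Lz (s + u)) (Ioi 0) := by
  intro u hu
  have hu : 0 < u := hu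
  have h1 : ContinuousAt Lz (s + u) := (Lz_an hRH (by simp; linarith)
    (ne_one_of_im (by simpa using ht))).continuousAt
  exact (ContinuousAt.comp (f := fun u : ℝ => s + (u : ℂ)) h1 (by fun_prop)).continuousWithinAt

lemma Fn_meas (hRH : RiemannHypothesis) (n : ℕ) {s : ℂ} (hs : 1 / 2 ≤ s.re) (ht : 0 < s.im) :
    AEStronglyMeasurable (fun u : ℝ => ((u ^ n / n.factorial : ℝ) : ℂ) * Lz (s + u))
      (volume.restrict (Ioi 0)) := by
  refine ContinuousOn.aestronglyMeasurable ?_ measurableSet_Ioi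
  exact (by fun_prop : Continuous fun u : ℝ => ((u ^ n / n.factorial : ℝ) : ℂ)).continuousOn.mul
    (Lz_line_cont hRH hs ht)

/-- majorant for `n ≥ 1` -/
noncomputable def mj (n : ℕ) (u : ℝ) : ℝ := u ^ (n - 1) * (2 : ℝ) ^ (-u) + u ^ n * (2 : ℝ) ^ (-u)

lemma mj_int (n : ℕ) : IntegrableOn (mj n) (Ioi 0) := (intOn_pow_two (n - 1)).add (intOn_pow_two n)

lemma Fn_bound (hRH : RiemannHypothesis) : ∃ C : ℝ, 0 < C ∧ ∀ (n : ℕ) (s : ℂ) (u : ℝ), 1 ≤ n →
    1 / 2 ≤ s.re → 0 < s.im → 0 < u → ‖((u ^ n / n.factorial : ℝ) : ℂ) * Lz (s + u)‖ ≤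
      C * (Real.log (3 + |s.im|) + 1 / s.im) * mj n u := by
  obtain ⟨C, hC, hb⟩ := Lz_bound hRH
  refine ⟨C, hC, fun n s u hn hs ht hu => ?_⟩
  have h1 := hb s u hs ht hu
  have hl := one_le_log3 s.im
  have hf : (1 : ℝ) ≤ n.factorial := by exact_mod_cast Nat.one_le_iff_ne_zero.2 (Nat.factorial_ne_zero n)
  rw [norm_mul, norm_real, Real.norm_eq_abs, abs_of_nonneg (by positivity)]
  have e1 : u ^ n / n.factorial ≤ u ^ n := div_le_self (by positivity) hf
  have e2 : u ^ n * (1 / u) = u ^ (n - 1) := by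
    obtain ⟨m, rfl⟩ : ∃ m, n = m + 1 := ⟨n - 1, by omega⟩
    rw [pow_succ]
    field_simp
    simp
  have hti : 0 < 1 / s.im := by positivity
  calc u ^ n / n.factorial * ‖Lz (s + u)‖ ≤ u ^ n * (C * (Real.log (3 + |s.im|) + 1 / s.im) *
        ((1 / u + 1) * (2 : ℝ) ^ (-u))) := mul_le_mul e1 h1 (norm_nonneg _) (by positivity)
    _ = C * (Real.log (3 + |s.im|) + 1 / s.im) * (u ^ n * (1 / u) * (2 : ℝ) ^ (-u) +
        u ^ n * (2 : ℝ) ^ (-u)) := by ring
    _ = _ := by rw [e2]; rfl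

lemma Fn_int (hRH : RiemannHypothesis) {n : ℕ} (hn : 1 ≤ n) {s : ℂ} (hs : 1 / 2 ≤ s.re)
    (ht : 0 < s.im) :
    IntegrableOn (fun u : ℝ => ((u ^ n / n.factorial : ℝ) : ℂ) * Lz (s + u)) (Ioi 0) := by
  obtain ⟨C, hC, hb⟩ := Fn_bound hRH
  refine Integrable.mono' ((mj_int n).const_mul (C * (Real.log (3 + |s.im|) + 1 / s.im)))
    (Fn_meas hRH n hs ht) ?_
  exact (ae_restrict_iff' measurableSet_Ioi).2 (Eventually.of_forall fun u hu => hb n s u hn hs ht hu)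

/-- bound away from the line, all `n` -/
lemma Lz_bound_in (hRH : RiemannHypothesis) {δ t1 t2 : ℝ} (hδ : 0 < δ) (ht1 : 0 < t1) :
    ∃ C : ℝ, 0 < C ∧ ∀ (s : ℂ) (u : ℝ), 1 / 2 + δ ≤ s.re → t1 ≤ s.im → s.im ≤ t2 → 0 ≤ u →
      ‖Lz (s + u)‖ ≤ C * (2 : ℝ) ^ (-u) := by
  obtain ⟨C, hC, hb⟩ := Lz_bound hRH
  have hl0 : 0 ≤ Real.log (3 + |t2|) := by linarith [one_le_log3 t2]
  refine ⟨C * (Real.log (3 + |t2|) + 1 / t1) * (1 / δ + 1), by positivity, ?_⟩
  intro s u hs h1 h2 hu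
  have ht : 0 < s.im := by linarith
  have h := hb (s - δ) (u + δ) (by simp; linarith) (by simpa using ht) (by linarith)
  have e0 : (s - δ : ℂ) + ((u + δ : ℝ) : ℂ) = s + u := by push_cast; ring
  have e1 : (s - (δ : ℂ)).im = s.im := by simp
  rw [e0, e1] at h
  refine h.trans ?_
  have e2 : Real.log (3 + |s.im|) ≤ Real.log (3 + |t2|) := by
    apply Real.log_le_log (by positivity)
    rw [abs_of_pos ht, abs_of_nonneg (by linarith)]
    linarith
  have e3 : 1 / s.im ≤ 1 / t1 := one_div_le_one_div_of_le ht1 h1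
  have e4 : 1 / (u + δ) ≤ 1 / δ := one_div_le_one_div_of_le hδ (by linarith)
  have e5 : (2 : ℝ) ^ (-(u + δ)) ≤ (2 : ℝ) ^ (-u) :=
    Real.rpow_le_rpow_of_exponent_le (by norm_num) (by linarith)
  have hti : 0 < 1 / s.im := by positivity
  have hui : 0 < 1 / (u + δ) := by positivity
  have hl := one_le_log3 s.im
  calc C * (Real.log (3 + |s.im|) + 1 / s.im) * ((1 / (u + δ) + 1) * (2 : ℝ) ^ (-(u + δ)))
      ≤ C * (Real.log (3 + |t2|) + 1 / t1) * ((1 / δ + 1) * (2 : ℝ) ^ (-u)) := by gcongr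
    _ = _ := by ring

end Pool.Agent.H476
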