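import Pool.Agent.H476.FB

open Complex Filter Topology Set Metric MeasureTheory

namespace Pool.Agent.H476

lemma shift_Ioi {E : Type*} [NormedAddCommGroup E] [NormedSpace ℝ E] (f : ℝ → E) (a b : ℝ) :
    ∫ u in Ioi b, f (a + u) = ∫ u in Ioi (a + b), f u := by
  have h := (measurePreserving_add_left volume a).setIntegral_preimage_emb
    (MeasurableEquiv.addLeft a).measurableEmbedding f (Ioi (a + b))
  rw [preimage_const_add_Ioi, add_sub_cancel_left] at h
  exact h

lemma shift_Ioi_int {E : Type*} [NormedAddCommGroup E] [NormedSpace ℝ E] (f : ℝ → E) (a b : ℝ) :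
    IntegrableOn (fun u => f (a + u)) (Ioi b) ↔ IntegrableOn f (Ioi (a + b)) := by
  have h := (measurePreserving_add_left volume a).integrableOn_comp_preimage (f := f)
    (s := Ioi (a + b)) (MeasurableEquiv.addLeft a).measurableEmbedding
  rw [preimage_const_add_Ioi, add_sub_cancel_left] at h
  exact h

/-! ### `ζ → 1` to the right -/

lemma zeta_sub_one : ∃ C : ℝ, 0 < C ∧ ∀ s : ℂ, 2 ≤ s.re →
    ‖riemannZeta s - 1‖ ≤ C * (2 : ℝ) ^ (-s.re) := by
  set A : ℝ := ∑' n, ‖LSeries.term 1 2 n‖ with hA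
  have hsum : Summable fun n => ‖LSeries.term 1 2 n‖ :=
    ((LSeriesSummable_one_iff (s := 2)).2 (by norm_num)).norm
  have hA0 : 0 ≤ A := tsum_nonneg fun n => norm_nonneg _
  refine ⟨(A + 1) * 4, by positivity, fun s hs => ?_⟩
  have h1 : HasSum (fun n => LSeries.term 1 s n) (riemannZeta s) := by
    have := ((LSeriesSummable_one_iff (s := s)).2 (by linarith)).hasSum
    rwa [← LSeries, LSeries_one_eq_riemannZeta (by linarith)] at this
  have h2 : HasSum (fun n : ℕ => if n = 1 then (1 : ℂ) else 0) 1 := by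
    have := hasSum_ite_eq (1 : ℕ) (1 : ℂ)
    exact this
  have h3 := h1.sub h2
  have h4 : ‖riemannZeta s - 1‖ ≤ (2 : ℝ) ^ (-(s.re - 2)) * A := by
    rw [← h3.tsum_eq]
    refine tsum_of_norm_bounded (hsum.hasSum.mul_left _) fun n => ?_
    rcases Nat.lt_or_ge n 2 with h | h
    · interval_cases n
      · simp
      · simp [LSeries.term]; positivity
    · have hn1 : n ≠ 1 := by omega
      rw [if_neg hn1, sub_zero, LSeries.norm_term_eq, LSeries.norm_term_eq]
      have h0 : n ≠ 0 := by omega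
      simp only [h0, if_false, re_ofNat, Pi.one_apply, norm_one]
      have hn : (2 : ℝ) ≤ n := by exact_mod_cast h
      have hn0 : (0 : ℝ) < n := by linarith
      have e1 : (n : ℝ) ^ s.re = (n : ℝ) ^ (2 : ℝ) * (n : ℝ) ^ (s.re - 2) := by
        rw [← Real.rpow_add hn0]; congr 1; ring
      have e2 : (2 : ℝ) ^ (s.re - 2) ≤ (n : ℝ) ^ (s.re - 2) :=
        Real.rpow_le_rpow (by norm_num) hn (by linarith)
      have e3 : (0 : ℝ) < (2 : ℝ) ^ (s.re - 2) := by positivity
      have e4 : (0 : ℝ) < (n : ℝ) ^ (2 : ℝ) := by positivity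
      rw [e1, Real.rpow_neg (by norm_num), ← div_eq_inv_mul, div_div]
      exact one_div_le_one_div_of_le (by positivity) (mul_le_mul_of_nonneg_left e2 e4.le)
  refine h4.trans ?_
  have h5 : (2 : ℝ) ^ (-(s.re - 2)) = 4 * (2 : ℝ) ^ (-s.re) := by
    rw [show -(s.re - 2) = 2 + -s.re by ring, Real.rpow_add (by norm_num)]
    norm_num
  rw [h5]
  have h6 : (0 : ℝ) < 4 * (2 : ℝ) ^ (-s.re) := by positivity
  nlinarith

lemma tendsto_two_rpow_neg : Tendsto (fun R : ℝ => (2 : ℝ) ^ (-R)) atTop (𝓝 0) := by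
  simp_rw [two_rpow_neg]
  have h : Tendsto (fun R : ℝ => Real.log 2 * R) atTop atTop :=
    tendsto_id.const_mul_atTop log2_pos
  exact Real.tendsto_exp_neg_atTop_nhds_zero.comp h

lemma tendsto_zeta_right (s : ℂ) : Tendsto (fun R : ℝ => riemannZeta (s + R)) atTop (𝓝 1) := by
  obtain ⟨C, hC, hb⟩ := zeta_sub_one
  rw [tendsto_iff_norm_sub_tendsto_zero]
  have h1 : Tendsto (fun R : ℝ => C * (2 : ℝ) ^ (-(s.re + R))) atTop (𝓝 0) := by
    have h2 : Tendsto (fun R : ℝ => s.re + R) atTop atTop := tendsto_atTop_add_const_left _ _ tendsto_id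
    simpa using (tendsto_two_rpow_neg.comp h2).const_mul C
  refine squeeze_zero' (Eventually.of_forall fun R => norm_nonneg _) ?_ h1
  filter_upwards [eventually_ge_atTop (2 - s.re)] with R hR
  have := hb (s + R) (by simp; linarith)
  simpa using this

/-! ### horizontal integration -/

/-- no zero or pole of zeta to the right -/
def Good (s : ℂ) : Prop := ∀ u : ℝ, 0 ≤ u → s + u ≠ 1 ∧ riemannZeta (s + u) ≠ 0

lemma Good.add {s : ℂ} (h : Good s) {a : ℝ} (ha : 0 ≤ a) : Good (s + a) := by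
  intro u hu
  have := h (a + u) (by linarith)
  have e : s + a + u = s + ((a + u : ℝ) : ℂ) := by push_cast; ring
  rw [e]
  exact this

lemma Good.cont {s : ℂ} (h : Good s) : ContinuousOn (fun u : ℝ => Lz (s + u)) (Ici 0) := by
  intro u hu
  obtain ⟨h1, h2⟩ := h u hu
  have h3 := (Lz_an_of_ne h1 h2).continuousAt
  exact (ContinuousAt.comp (f := fun u : ℝ => s + (u : ℂ)) h3 (by fun_prop)).continuousWithinAt

lemma Good.int {s : ℂ} (h : Good s) : IntegrableOn (fun u : ℝ => Lz (s + u)) (Ioi 0) := by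
  obtain ⟨C, hC, hb⟩ := Lz_decay
  set A := max 0 (3 / 2 - s.re) with hA
  have hA0 : 0 ≤ A := le_max_left _ _
  rw [← Ioc_union_Ioi_eq_Ioi hA0]
  refine IntegrableOn.union ?_ ?_
  · have h1 : ContinuousOn (fun u : ℝ => Lz (s + u)) (Icc 0 A) := h.cont.mono fun u hu => hu.1
    exact (h1.integrableOn_Icc).mono_set Ioc_subset_Icc_self
  · have h2 : IntegrableOn (fun u : ℝ => (C * (2 : ℝ) ^ (-s.re)) * (u ^ 0 * (2 : ℝ) ^ (-u))) (Ioi A) :=
      ((intOn_pow_two 0).mono_set (Ioi_subset_Ioi hA0)).const_mul _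
    refine Integrable.mono' h2 ?_ ?_
    · exact (h.cont.mono fun u hu => hA0.trans (le_of_lt hu)).aestronglyMeasurable measurableSet_Ioi
    · refine (ae_restrict_iff' measurableSet_Ioi).2 (Eventually.of_forall fun u hu => ?_)
      have hu : A < u := hu
      have h3 := hb (s + u) (by
        have := le_max_right (0 : ℝ) (3 / 2 - s.re)
        simp; linarith)
      refine h3.trans (le_of_eq ?_)
      simp only [add_re, ofReal_re, pow_zero, one_mul]
      rw [neg_add, Real.rpow_add (by norm_num)]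
      ring

lemma Fn_zero (s : ℂ) : Fn 0 s = -∫ u in Ioi (0 : ℝ), Lz (s + u) := by
  unfold Fn
  simp

lemma Good.ii {s : ℂ} (h : Good s) {a b : ℝ} (ha : 0 ≤ a) (hab : a ≤ b) :
    IntervalIntegrable (fun u : ℝ => Lz (s + u)) volume a b :=
  (h.cont.mono (by rw [uIcc_of_le hab]; exact fun u hu => ha.trans hu.1)).intervalIntegrable

lemma F0_sub {s : ℂ} (h : Good s) {a : ℝ} (ha : 0 ≤ a) :
    Fn 0 s = Fn 0 (s + a) - ∫ u in (0 : ℝ)..a, Lz (s + u) := by
  rw [Fn_zero, Fn_zero, intervalIntegral.integral_of_le ha]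
  have h1 : ∫ u in Ioi (0 : ℝ), Lz (s + a + u) = ∫ u in Ioi a, Lz (s + u) := by
    have := shift_Ioi (fun u : ℝ => Lz (s + u)) a 0
    rw [add_zero] at this
    rw [← this]
    refine setIntegral_congr_fun measurableSet_Ioi fun u _ => ?_
    congr 1
    push_cast; ring
  have h2 : ∫ u in Ioi (0 : ℝ), Lz (s + u) = (∫ u in Ioc 0 a, Lz (s + u)) + ∫ u in Ioi a, Lz (s + u) := by
    rw [← setIntegral_union (Ioc_disjoint_Ioi le_rfl) measurableSet_Ioi
      (h.int.mono_set Ioc_subset_Ioi_self) (h.int.mono_set (Ioi_subset_Ioi ha)),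
      Ioc_union_Ioi_eq_Ioi ha]
  rw [h1, h2]
  ring

lemma F0_exp {s : ℂ} (h : Good s) : cexp (Fn 0 s) = riemannZeta s := by
  have h1 : ∀ R : ℝ, 0 ≤ R → riemannZeta s = riemannZeta (s + R) *
      cexp (-∫ u in (0 : ℝ)..R, Lz (s + u)) := by
    intro R hR
    have key := exp_int (F := fun u : ℝ => riemannZeta (s + u))
      (F' := fun u : ℝ => deriv riemannZeta (s + u)) (a := 0) (b := R) hR ?_ ?_ ?_
    · simpa [Lz, logDeriv_apply] using key
    · intro u hu
      have h2 : HasDerivAt riemannZeta (deriv riemannZeta (s + u)) (s + u) :=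
        (differentiableAt_riemannZeta (h u hu.1).1).hasDerivAt
      have h3 : HasDerivAt (fun u : ℝ => s + (u : ℂ)) 1 u := by
        simpa using (ofRealCLM.hasDerivAt (x := u)).const_add s
      have := HasDerivAt.comp u h2 h3
      simpa [Function.comp_def] using this
    · intro u hu
      exact (h u hu.1).2
    · exact h.cont.mono fun u hu => hu.1
  have h2 : Tendsto (fun R : ℝ => riemannZeta (s + R) * cexp (-∫ u in (0 : ℝ)..R, Lz (s + u))) atTop
      (𝓝 (1 * cexp (-∫ u in Ioi (0 : ℝ), Lz (s + u)))) := by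
    refine (tendsto_zeta_right s).mul ?_
    refine (Complex.continuous_exp.tendsto _).comp ?_
    exact (intervalIntegral_tendsto_integral_Ioi 0 h.int tendsto_id).neg
  have h3 : Tendsto (fun R : ℝ => riemannZeta (s + R) * cexp (-∫ u in (0 : ℝ)..R, Lz (s + u))) atTop
      (𝓝 (riemannZeta s)) := by
    refine Tendsto.congr' ?_ tendsto_const_nhds
    filter_upwards [eventually_ge_atTop 0] with R hR
    exact h1 R hR
  rw [Fn_zero, ← one_mul (cexp _)]
  exact tendsto_nhds_unique h2 h3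

lemma good_right {s : ℂ} (hs : 1 < s.re) : Good s := by
  intro u hu
  constructor
  · intro h
    have := congrArg re h
    simp at this
    linarith
  · exact riemannZeta_ne_zero_of_one_le_re (by simp; linarith)

lemma good_upper (hRH : RiemannHypothesis) {s : ℂ} (hs : 1 / 2 < s.re) (ht : 0 < s.im) :
    Good s := by
  intro u hu
  have h1 : s + u ≠ 1 := ne_one_of_im (by simpa using ht)
  exact ⟨h1, zeta_ne hRH (by simp; linarith) h1⟩

lemma good_line (hRH : RiemannHypothesis) {s : ℂ} (hs : 1 / 2 ≤ s.re) (ht : 0 < s.im)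
    (hz : riemannZeta s ≠ 0) : Good s := by
  intro u hu
  rcases hu.eq_or_lt with rfl | hu
  · simp only [ofReal_zero, add_zero]
    exact ⟨ne_one_of_im ht, hz⟩
  · have h1 : s + u ≠ 1 := ne_one_of_im (by simpa using ht)
    exact ⟨h1, zeta_ne hRH (by simp; linarith) h1⟩

lemma Lz_conj {s : ℂ} (hs : 1 < s.re) : Lz ((starRingEnd ℂ) s) = (starRingEnd ℂ) (Lz s) := by
  have h1 : s ≠ 1 := by rintro rfl; simp at hs
  have h1' : (starRingEnd ℂ) s ≠ 1 := by
    intro h
    apply h1
    have := congrArg (starRingEnd ℂ) h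
    simpa using this
  have e1 := gt_eq (s := s) (by linarith) h1 (riemannZeta_ne_zero_of_one_le_re hs.le)
  have e2 := gt_eq (s := (starRingEnd ℂ) s) (by simp; linarith) h1'
    (riemannZeta_ne_zero_of_one_le_re (by simpa using hs.le))
  rw [gt_conj] at e2
  have e3 : Lz ((starRingEnd ℂ) s) = (starRingEnd ℂ) (gt s) - 1 / ((starRingEnd ℂ) s - 1) := by
    rw [e2]; ring
  rw [e3, e1, map_add, map_div₀, map_sub, map_one]
  ring

lemma F0_real {x : ℝ} (hx : 1 < x) : (Fn 0 (x : ℂ)).im = 0 := by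
  have h : (starRingEnd ℂ) (Fn 0 (x : ℂ)) = Fn 0 (x : ℂ) := by
    rw [Fn_zero, map_neg, ← integral_conj]
    congr 1
    refine setIntegral_congr_fun measurableSet_Ioi fun u hu => ?_
    have hu : 0 < u := hu
    rw [← Lz_conj (by simp; linarith)]
    congr 1
    simp
  exact conj_eq_iff_im.1 h

/-- continuity on vertical lines to the right -/
lemma F0_cont_vert {x : ℝ} (hx : 3 / 2 ≤ x) : Continuous (fun τ : ℝ => Fn 0 (x + τ * I)) := by
  obtain ⟨C, hC, hb⟩ := Lz_decay
  simp_rw [Fn_zero]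
  refine Continuous.neg ?_
  refine continuous_of_dominated (bound := fun u => (C * (2 : ℝ) ^ (-x)) * (u ^ 0 * (2 : ℝ) ^ (-u)))
    ?_ ?_ ?_ ?_
  · intro τ
    have hg : Good (x + τ * I) := good_right (by simp; linarith)
    exact (hg.cont.mono fun u hu => le_of_lt hu).aestronglyMeasurable measurableSet_Ioi
  · intro τ
    refine (ae_restrict_iff' measurableSet_Ioi).2 (Eventually.of_forall fun u hu => ?_)
    have hu : 0 < u := hu
    refine (hb _ (by simp; linarith)).trans (le_of_eq ?_)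
    simp only [add_re, ofReal_re, mul_re, I_re, mul_zero, ofReal_im, I_im, mul_one, sub_self,
      add_zero, pow_zero, one_mul]
    rw [neg_add, Real.rpow_add (by norm_num)]
    ring
  · exact (intOn_pow_two 0).const_mul _
  · refine (ae_restrict_iff' measurableSet_Ioi).2 (Eventually.of_forall fun u hu => ?_)
    have hu : 0 < u := hu
    rw [continuous_iff_continuousAt]
    intro τ
    have hg : Good (x + τ * I) := good_right (by simp; linarith)
    obtain ⟨h1, h2⟩ := hg u hu.le
    exact ContinuousAt.comp (f := fun τ : ℝ => (x : ℂ) + τ * I + u) (Lz_an_of_ne h1 h2).continuousAt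
      (by fun_prop)

/-- continuity on horizontal lines -/
lemma F0_cont_hor {s : ℂ} (h : Good s) : ContinuousOn (fun u : ℝ => Fn 0 (s + u)) (Ici 0) := by
  have h1 : ∀ u ∈ Ici (0 : ℝ), Fn 0 (s + u) = Fn 0 s + ∫ v in (0 : ℝ)..u, Lz (s + v) := by
    intro u hu
    rw [F0_sub h hu]; ring
  refine ContinuousOn.congr ?_ h1
  refine continuousOn_const.add ?_
  intro u hu
  have hu : 0 ≤ u := hu
  have h2 : ContinuousOn (fun x => ∫ v in (0 : ℝ)..x, Lz (s + v)) (uIcc 0 (u + 1)) := by
    refine intervalIntegral.continuousOn_primitive_interval ?_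
    rw [uIcc_of_le (by linarith)]
    exact (h.cont.mono fun v hv => hv.1).integrableOn_Icc
  rw [uIcc_of_le (by linarith)] at h2
  refine (h2 u ⟨hu, by linarith⟩).mono_of_mem_nhdsWithin ?_
  refine mem_nhdsWithin.2 ⟨Iio (u + 1), isOpen_Iio, by simp, ?_⟩
  rintro y ⟨hy1, hy2⟩
  exact ⟨hy2, le_of_lt hy1⟩

end Pool.Agent.H476
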