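import Pool.Agent.H476.FC

open Complex Filter Topology Set Metric MeasureTheory

namespace Pool.Agent.H476

/-! ### vertical integration -/

lemma F0_decay : ∃ C : ℝ, 0 < C ∧ ∀ s : ℂ, 3 / 2 ≤ s.re → ‖Fn 0 s‖ ≤ C * (2 : ℝ) ^ (-s.re) := by
  obtain ⟨C, hC, hb⟩ := Lz_decay
  have hI := intOn_pow_two 0
  have hI0 : 0 ≤ ∫ u in Ioi (0 : ℝ), u ^ 0 * (2 : ℝ) ^ (-u) :=
    setIntegral_nonneg measurableSet_Ioi fun u _ => by positivity
  refine ⟨C * (∫ u in Ioi (0 : ℝ), u ^ 0 * (2 : ℝ) ^ (-u)) + 1, by positivity, fun s hs => ?_⟩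
  rw [Fn_zero, norm_neg]
  have h1 : ‖∫ u in Ioi (0 : ℝ), Lz (s + u)‖ ≤
      ∫ u in Ioi (0 : ℝ), (C * (2 : ℝ) ^ (-s.re)) * (u ^ 0 * (2 : ℝ) ^ (-u)) := by
    refine norm_integral_le_of_norm_le (hI.const_mul _) ?_
    refine (ae_restrict_iff' measurableSet_Ioi).2 (Eventually.of_forall fun u hu => ?_)
    have hu : 0 < u := hu
    refine (hb _ (by simp; linarith)).trans (le_of_eq ?_)
    simp only [add_re, ofReal_re, pow_zero, one_mul]
    rw [neg_add, Real.rpow_add (by norm_num)]
    ring
  rw [integral_const_mul] at h1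
  refine h1.trans ?_
  have h2 : (0 : ℝ) < (2 : ℝ) ^ (-s.re) := by positivity
  nlinarith

lemma F0_vert_aux (hRH : RiemannHypothesis) {x ε t : ℝ} (hx : 1 / 2 < x) (hε : 0 < ε) (hεt : ε ≤ t) :
    Fn 0 (x + t * I) - Fn 0 (x + ε * I) = I * ∫ τ in ε..t, Lz (x + τ * I) := by
  obtain ⟨C, hC, hb⟩ := Lz_decay
  obtain ⟨C', hC', hb'⟩ := F0_decay
  have key : ∀ a : ℝ, 0 ≤ a → (Fn 0 (x + t * I) - Fn 0 (x + ε * I)) -
      I * (∫ τ in ε..t, Lz (x + τ * I)) = Fn 0 (x + t * I + a) - Fn 0 (x + ε * I + a) -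
        I * ∫ τ in ε..t, Lz (((x + a : ℝ) : ℂ) + τ * I) := by
    intro a ha
    have hr := Complex.integral_boundary_rect_eq_zero_of_differentiableOn Lz ⟨x, ε⟩ ⟨x + a, t⟩ (by
      intro z hz
      have h1 := hz.1
      have h2 := hz.2
      simp only [mem_preimage] at h1 h2
      rw [uIcc_of_le (by linarith)] at h1
      rw [uIcc_of_le hεt] at h2
      exact (Lz_an hRH (by linarith [h1.1]) (ne_one_of_im (by linarith [h2.1]))).differentiableAt.differentiableWithinAt)
    simp only [smul_eq_mul] at hr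
    have g1 : Good (x + ε * I) := good_upper hRH (by simpa using hx) (by simpa using hε)
    have g2 : Good (x + t * I) := good_upper hRH (by simpa using hx) (by simp; linarith)
    have e1 : ∫ y in x..(x + a), Lz (y + ((ε : ℝ) : ℂ) * I) = Fn 0 (x + ε * I + a) - Fn 0 (x + ε * I) := by
      rw [F0_sub g1 ha]
      have := intervalIntegral.integral_comp_add_left (a := 0) (b := a)
        (fun y : ℝ => Lz (y + ((ε : ℝ) : ℂ) * I)) x
      rw [add_zero] at this
      rw [← this]
      have e : ∀ u : ℝ, ((x + u : ℝ) : ℂ) + (ε : ℂ) * I = x + ε * I + u := by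
        intro u; push_cast; ring
      simp_rw [e]
      ring
    have e2 : ∫ y in x..(x + a), Lz (y + ((t : ℝ) : ℂ) * I) = Fn 0 (x + t * I + a) - Fn 0 (x + t * I) := by
      rw [F0_sub g2 ha]
      have := intervalIntegral.integral_comp_add_left (a := 0) (b := a)
        (fun y : ℝ => Lz (y + ((t : ℝ) : ℂ) * I)) x
      rw [add_zero] at this
      rw [← this]
      have e : ∀ u : ℝ, ((x + u : ℝ) : ℂ) + (t : ℂ) * I = x + t * I + u := by
        intro u; push_cast; ring
      simp_rw [e]
      ring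
    rw [e1, e2] at hr
    linear_combination hr
  -- limit a → ∞
  have hlim : Tendsto (fun a : ℝ => Fn 0 (x + t * I + a) - Fn 0 (x + ε * I + a) -
        I * ∫ τ in ε..t, Lz (((x + a : ℝ) : ℂ) + τ * I)) atTop (𝓝 (0 - 0 - I * 0)) := by
    have hF : ∀ y : ℝ, Tendsto (fun a : ℝ => Fn 0 (x + y * I + a)) atTop (𝓝 0) := by
      intro y
      rw [tendsto_zero_iff_norm_tendsto_zero]
      have h1 : Tendsto (fun a : ℝ => C' * (2 : ℝ) ^ (-(x + a))) atTop (𝓝 0) := by
        have h2 : Tendsto (fun R : ℝ => x + R) atTop atTop := tendsto_atTop_add_const_left _ _ tendsto_id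
        simpa using (tendsto_two_rpow_neg.comp h2).const_mul C'
      refine squeeze_zero' (Eventually.of_forall fun R => norm_nonneg _) ?_ h1
      filter_upwards [eventually_ge_atTop (2 - x)] with a ha
      have := hb' (x + y * I + a) (by simp; linarith)
      simpa using this
    refine ((hF t).sub (hF ε)).sub (Tendsto.const_mul _ ?_)
    rw [tendsto_zero_iff_norm_tendsto_zero]
    have h1 : Tendsto (fun a : ℝ => C * (2 : ℝ) ^ (-(x + a)) * |t - ε|) atTop (𝓝 0) := by
      have h2 : Tendsto (fun R : ℝ => x + R) atTop atTop := tendsto_atTop_add_const_left _ _ tendsto_id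
      simpa using ((tendsto_two_rpow_neg.comp h2).const_mul C).mul_const |t - ε|
    refine squeeze_zero' (Eventually.of_forall fun R => norm_nonneg _) ?_ h1
    filter_upwards [eventually_ge_atTop (2 - x)] with a ha
    refine intervalIntegral.norm_integral_le_of_norm_le_const fun τ _ => ?_
    have := hb (((x + a : ℝ) : ℂ) + τ * I) (by simp; linarith)
    simpa using this
  have h0 : Tendsto (fun _ : ℝ => (Fn 0 (x + t * I) - Fn 0 (x + ε * I)) -
      I * (∫ τ in ε..t, Lz (x + τ * I))) atTop (𝓝 (0 - 0 - I * 0)) := by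
    refine hlim.congr' ?_
    filter_upwards [eventually_ge_atTop 0] with a ha
    exact (key a ha).symm
  have h1 := tendsto_nhds_unique h0 tendsto_const_nhds
  simp only [mul_zero, sub_self] at h1
  exact (sub_eq_zero.1 h1.symm)

/-- boundary value of `F_0` on the real axis from above -/
noncomputable def F0p (x : ℝ) : ℂ :=
  (Real.log ‖riemannZeta x‖ : ℂ) - ((if x < 1 then Real.pi else 0 : ℝ) : ℂ) * I

lemma gt_real {x : ℝ} : (gt (x : ℂ)).im = 0 := by
  have h : (starRingEnd ℂ) (gt (x : ℂ)) = gt (x : ℂ) := by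
    rw [← gt_conj, conj_ofReal]
  exact conj_eq_iff_im.1 h

lemma int_inv_line {x ε : ℝ} (hε : 0 < ε) : ∫ u in (0 : ℝ)..2, 1 / ((x + ε * I + u : ℂ) - 1) =
    Complex.log (x + 1 + ε * I) - Complex.log (x - 1 + ε * I) := by
  have h : ∀ u ∈ uIcc (0 : ℝ) 2, HasDerivAt (fun u : ℝ => Complex.log ((x - 1 + ε * I : ℂ) + u))
      (1 / ((x + ε * I + u : ℂ) - 1)) u := by
    intro u _
    have h1 : HasDerivAt (fun u : ℝ => (x - 1 + ε * I : ℂ) + u) 1 u := by
      simpa using (ofRealCLM.hasDerivAt (x := u)).const_add (x - 1 + ε * I : ℂ)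
    have h2 : (x - 1 + ε * I : ℂ) + u ∈ slitPlane := by
      right
      simp
      exact hε.ne'
    have h3 := h1.clog_real h2
    refine h3.congr_deriv ?_
    congr 1
    ring
  rw [intervalIntegral.integral_eq_sub_of_hasDerivAt h]
  · congr 2
    · push_cast; ring
    · simp
  · refine ContinuousOn.intervalIntegrable ?_
    refine continuousOn_const.div (by fun_prop) ?_
    intro u _ hc
    have := congrArg im hc
    simp at this
    linarith

lemma tendsto_F0p (hRH : RiemannHypothesis) {x : ℝ} (hx : 1 / 2 < x) (hx1 : x ≠ 1) :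
    Tendsto (fun ε : ℝ => Fn 0 (x + ε * I)) (𝓝[>] 0) (𝓝 (F0p x)) := by
  have hsmall : ∀ᶠ ε : ℝ in 𝓝[>] 0, ε ∈ Ioc (0 : ℝ) 1 := Ioc_mem_nhdsGT (by norm_num)
  -- the pieces
  have hrepr : ∀ ε : ℝ, ε ∈ Ioc (0 : ℝ) 1 → Fn 0 (x + ε * I) = Fn 0 (((x + 2 : ℝ) : ℂ) + ε * I) -
      (∫ u in (0 : ℝ)..2, gt (x + ε * I + u)) + (Complex.log (x + 1 + ε * I) -
        Complex.log (x - 1 + ε * I)) := by
    intro ε hε
    have g1 : Good (x + ε * I) := good_upper hRH (by simpa using hx) (by simpa using hε.1)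
    rw [F0_sub g1 (a := 2) (by norm_num), ← int_inv_line hε.1]
    have e1 : (x + ε * I + ((2 : ℝ) : ℂ) : ℂ) = ((x + 2 : ℝ) : ℂ) + ε * I := by push_cast; ring
    rw [e1]
    have e2 : ∫ u in (0 : ℝ)..2, Lz (x + ε * I + u) = (∫ u in (0 : ℝ)..2, gt (x + ε * I + u)) -
        ∫ u in (0 : ℝ)..2, 1 / ((x + ε * I + u : ℂ) - 1) := by
      rw [← intervalIntegral.integral_sub]
      · refine intervalIntegral.integral_congr fun u hu => ?_
        rw [uIcc_of_le (by norm_num)] at hu
        exact Lz_eq_gt hRH (by simp; linarith [hu.1]) (ne_one_of_im (by simpa using hε.1))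
      · refine ContinuousOn.intervalIntegrable ?_
        intro u hu
        rw [uIcc_of_le (by norm_num)] at hu
        have h1 : ContinuousAt gt (x + ε * I + u) := (gt_an hRH (by simp; linarith [hu.1])).continuousAt
        exact (ContinuousAt.comp (f := fun u : ℝ => (x + ε * I : ℂ) + u) h1
          (by fun_prop)).continuousWithinAt
      · refine ContinuousOn.intervalIntegrable ?_
        refine continuousOn_const.div (by fun_prop) ?_
        intro u _ hc
        have := congrArg im hc
        simp at this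
        linarith [hε.1]
    rw [e2]
    ring
  have h1 : Tendsto (fun ε : ℝ => Fn 0 (((x + 2 : ℝ) : ℂ) + ε * I)) (𝓝[>] 0)
      (𝓝 (Fn 0 ((x + 2 : ℝ) : ℂ))) := by
    have := (F0_cont_vert (x := x + 2) (by linarith)).tendsto 0
    simp only [ofReal_zero, zero_mul, add_zero] at this
    exact this.mono_left nhdsWithin_le_nhds
  have h2 : Tendsto (fun ε : ℝ => ∫ u in (0 : ℝ)..2, gt (x + ε * I + u)) (𝓝[>] 0)
      (𝓝 (∫ u in (0 : ℝ)..2, gt (x + u))) := by
    have hK : IsCompact (Icc x (x + 2) ×ℂ Icc (0 : ℝ) 1) := compact_strip _ _ _ _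
    have hcont : ContinuousOn gt (Icc x (x + 2) ×ℂ Icc (0 : ℝ) 1) := by
      intro z hz
      exact (gt_an hRH (by linarith [hz.1.1])).continuousAt.continuousWithinAt
    obtain ⟨B, hB⟩ := hK.exists_bound_of_continuousOn hcont
    refine intervalIntegral.tendsto_integral_filter_of_dominated_convergence (fun _ => B) ?_ ?_ ?_ ?_
    · filter_upwards [hsmall] with ε hε
      rw [uIoc_of_le (by norm_num)]
      refine ContinuousOn.aestronglyMeasurable ?_ measurableSet_Ioc
      intro u hu
      have h1 : ContinuousAt gt (x + ε * I + u) := (gt_an hRH (by simp; linarith [hu.1])).continuousAt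
      exact (ContinuousAt.comp (f := fun u : ℝ => (x + ε * I : ℂ) + u) h1
        (by fun_prop)).continuousWithinAt
    · filter_upwards [hsmall] with ε hε
      refine Eventually.of_forall fun u hu => ?_
      rw [uIoc_of_le (by norm_num)] at hu
      refine hB _ ⟨?_, ?_⟩
      · simp; constructor <;> linarith [hu.1, hu.2]
      · simp; exact ⟨hε.1.le, hε.2⟩
    · exact intervalIntegrable_const
    · refine Eventually.of_forall fun u hu => ?_
      rw [uIoc_of_le (by norm_num)] at hu
      have h1 : ContinuousAt gt ((x : ℂ) + ((0 : ℝ) : ℂ) * I + u) :=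
        (gt_an hRH (by simp; linarith [hu.1])).continuousAt
      have h3 := (ContinuousAt.comp (f := fun ε : ℝ => (x : ℂ) + ε * I + u) h1 (by fun_prop)).tendsto
      simp only [Function.comp_def, ofReal_zero, zero_mul, add_zero] at h3
      exact h3.mono_left nhdsWithin_le_nhds
  have h3 : Tendsto (fun ε : ℝ => (Complex.log (x + 1 + ε * I)).im) (𝓝[>] 0) (𝓝 0) := by
    have hc : ContinuousAt Complex.log ((x : ℂ) + 1 + ((0 : ℝ) : ℂ) * I) := by
      refine continuousAt_clog ?_
      left; simp; linarith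
    have h4 := (ContinuousAt.comp (f := fun ε : ℝ => (x : ℂ) + 1 + ε * I) hc (by fun_prop)).tendsto
    simp only [Function.comp_def, ofReal_zero, zero_mul, add_zero] at h4
    have h5 := ((continuous_im.tendsto _).comp h4)
    have e : (Complex.log ((x : ℂ) + 1)).im = 0 := by
      have : ((x : ℂ) + 1) = ((x + 1 : ℝ) : ℂ) := by push_cast; ring
      rw [this, log_im, arg_ofReal_of_nonneg (by linarith)]
    rw [e] at h5
    exact h5.mono_left nhdsWithin_le_nhds
  have h4 : Tendsto (fun ε : ℝ => (Complex.log (x - 1 + ε * I)).im) (𝓝[>] 0)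
      (𝓝 (if x < 1 then Real.pi else 0)) := by
    by_cases hlt : x < 1
    · rw [if_pos hlt]
      have hc := Complex.continuousWithinAt_log_of_re_neg_of_im_zero (z := ((x : ℂ) - 1))
        (by simp; linarith) (by simp)
      have hmap : Tendsto (fun ε : ℝ => (x : ℂ) - 1 + ε * I) (𝓝[>] 0)
          (𝓝[{z : ℂ | 0 ≤ z.im}] ((x : ℂ) - 1)) := by
        rw [tendsto_nhdsWithin_iff]
        constructor
        · have : ContinuousAt (fun ε : ℝ => (x : ℂ) - 1 + ε * I) 0 := by fun_prop
          have := this.tendsto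
          simp only [ofReal_zero, zero_mul, add_zero] at this
          exact this.mono_left nhdsWithin_le_nhds
        · filter_upwards [self_mem_nhdsWithin] with ε hε
          have hε : 0 < ε := hε
          simp; exact hε.le
      have h5 := (continuous_im.tendsto _).comp (hc.tendsto.comp hmap)
      have e : (Complex.log ((x : ℂ) - 1)).im = Real.pi := by
        have : ((x : ℂ) - 1) = ((x - 1 : ℝ) : ℂ) := by push_cast; ring
        rw [this, log_im, arg_ofReal_of_neg (by linarith)]
      rw [e] at h5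
      exact h5
    · rw [if_neg hlt]
      have hgt : 1 < x := lt_of_le_of_ne (not_lt.1 hlt) (Ne.symm hx1)
      have hc : ContinuousAt Complex.log ((x : ℂ) - 1 + ((0 : ℝ) : ℂ) * I) := by
        refine continuousAt_clog ?_
        left; simp; linarith
      have h4 := (ContinuousAt.comp (f := fun ε : ℝ => (x : ℂ) - 1 + ε * I) hc (by fun_prop)).tendsto
      simp only [Function.comp_def, ofReal_zero, zero_mul, add_zero] at h4
      have h5 := ((continuous_im.tendsto _).comp h4)
      have e : (Complex.log ((x : ℂ) - 1)).im = 0 := by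
        have : ((x : ℂ) - 1) = ((x - 1 : ℝ) : ℂ) := by push_cast; ring
        rw [this, log_im, arg_ofReal_of_nonneg (by linarith)]
      rw [e] at h5
      exact h5.mono_left nhdsWithin_le_nhds
  -- imaginary part
  have him : Tendsto (fun ε : ℝ => (Fn 0 (x + ε * I)).im) (𝓝[>] 0)
      (𝓝 (-(if x < 1 then Real.pi else 0))) := by
    have e0 : (Fn 0 ((x + 2 : ℝ) : ℂ)).im = 0 := F0_real (by linarith)
    have e1 : (∫ u in (0 : ℝ)..2, gt (x + u)).im = 0 := by
      rw [← Complex.imCLM_apply, ← ContinuousLinearMap.intervalIntegral_comp_comm]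
      · have e : ∀ u : ℝ, Complex.imCLM (gt (x + u)) = 0 := by
          intro u
          rw [imCLM_apply]
          have := gt_real (x := x + u)
          push_cast at this
          exact this
        simp_rw [e]
        simp
      · refine ContinuousOn.intervalIntegrable ?_
        intro u hu
        rw [uIcc_of_le (by norm_num)] at hu
        have h1 : ContinuousAt gt (x + u) := (gt_an hRH (by simp; linarith [hu.1])).continuousAt
        exact (ContinuousAt.comp (f := fun u : ℝ => (x : ℂ) + u) h1 (by fun_prop)).continuousWithinAt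
    have h5 := (((continuous_im.tendsto _).comp h1).sub ((continuous_im.tendsto _).comp h2)).add
      (h3.sub h4)
    rw [e0, e1] at h5
    simp only [sub_self, zero_add, zero_sub] at h5
    refine h5.congr' ?_
    filter_upwards [hsmall] with ε hε
    rw [hrepr ε hε]
    simp
  -- real part
  have hre : Tendsto (fun ε : ℝ => (Fn 0 (x + ε * I)).re) (𝓝[>] 0)
      (𝓝 (Real.log ‖riemannZeta x‖)) := by
    have hz : riemannZeta x ≠ 0 := zeta_ne hRH (by simpa using hx) (by exact_mod_cast hx1)
    have hc : ContinuousAt (fun ε : ℝ => Real.log ‖riemannZeta (x + ε * I)‖) 0 := by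
      refine ContinuousAt.log ?_ ?_
      · refine ContinuousAt.norm ?_
        have h6 : ContinuousAt riemannZeta ((x : ℂ) + ((0 : ℝ) : ℂ) * I) := by
          simp only [ofReal_zero, zero_mul, add_zero]
          exact (differentiableAt_riemannZeta (by exact_mod_cast hx1)).continuousAt
        exact ContinuousAt.comp (f := fun ε : ℝ => (x : ℂ) + ε * I) h6 (by fun_prop)
      · simpa using hz
    have h5 := hc.tendsto
    simp only [ofReal_zero, zero_mul, add_zero] at h5
    refine (h5.mono_left nhdsWithin_le_nhds).congr' ?_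
    filter_upwards [hsmall] with ε hε
    have g1 : Good (x + ε * I) := good_upper hRH (by simpa using hx) (by simpa using hε.1)
    rw [← F0_exp g1, Complex.norm_exp, Real.log_exp]
  have h6 : Tendsto (fun ε : ℝ => (((Fn 0 (x + ε * I)).re : ℝ) : ℂ) +
      (((Fn 0 (x + ε * I)).im : ℝ) : ℂ) * I) (𝓝[>] 0) (𝓝 (F0p x)) := by
    have h7 := ((continuous_ofReal.tendsto _).comp hre).add
      (((continuous_ofReal.tendsto _).comp him).mul_const I)
    have e : F0p x = ((Real.log ‖riemannZeta x‖ : ℝ) : ℂ) +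
        ((-(if x < 1 then Real.pi else 0) : ℝ) : ℂ) * I := by
      unfold F0p; push_cast; ring
    rw [e]
    exact h7
  refine h6.congr fun ε => ?_
  exact re_add_im _

/-- vertical integration of `ζ'/ζ` -/
lemma F0_vert (hRH : RiemannHypothesis) {x t : ℝ} (hx : 1 / 2 < x) (hx1 : x ≠ 1) (ht : 0 < t) :
    Fn 0 (x + t * I) - F0p x = I * ∫ τ in (0 : ℝ)..t, Lz (x + τ * I) := by
  have hc : ContinuousOn (fun τ : ℝ => Lz (x + τ * I)) (Icc 0 t) := by
    intro τ _
    have hne : (x : ℂ) + τ * I ≠ 1 := by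
      intro h
      have h1 := congrArg re h
      simp at h1
      exact hx1 h1
    have h1 := (Lz_an hRH (s := x + τ * I) (by simpa using hx) hne).continuousAt
    exact (ContinuousAt.comp (f := fun τ : ℝ => (x : ℂ) + τ * I) h1 (by fun_prop)).continuousWithinAt
  have h1 : Tendsto (fun ε : ℝ => Fn 0 (x + t * I) - Fn 0 (x + ε * I)) (𝓝[>] 0)
      (𝓝 (Fn 0 (x + t * I) - F0p x)) := tendsto_const_nhds.sub (tendsto_F0p hRH hx hx1)
  have hii : IntervalIntegrable (fun τ : ℝ => Lz (x + τ * I)) volume 0 t :=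
    (hc.mono (by rw [uIcc_of_le ht.le])).intervalIntegrable
  have h2 : Tendsto (fun ε : ℝ => I * ∫ τ in ε..t, Lz (x + τ * I)) (𝓝[>] 0)
      (𝓝 (I * ∫ τ in (0 : ℝ)..t, Lz (x + τ * I))) := by
    refine Tendsto.const_mul _ ?_
    have h3 : Tendsto (fun ε : ℝ => (∫ τ in (0 : ℝ)..t, Lz (x + τ * I)) -
        ∫ τ in (0 : ℝ)..ε, Lz (x + τ * I)) (𝓝[>] 0)
        (𝓝 ((∫ τ in (0 : ℝ)..t, Lz (x + τ * I)) - ∫ τ in (0 : ℝ)..0, Lz (x + τ * I))) := by
      refine tendsto_const_nhds.sub ?_
      have h4 : ContinuousOn (fun ε => ∫ τ in (0 : ℝ)..ε, Lz (x + τ * I)) (uIcc 0 t) := by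
        refine intervalIntegral.continuousOn_primitive_interval ?_
        rw [uIcc_of_le ht.le]
        exact hc.integrableOn_Icc
      rw [uIcc_of_le ht.le] at h4
      refine (h4 0 ⟨le_rfl, ht.le⟩).tendsto.mono_left ?_
      refine nhdsWithin_le_iff.2 ?_
      filter_upwards [Ioo_mem_nhdsGT ht] with ε hε
      exact ⟨hε.1.le, hε.2.le⟩
    simp only [intervalIntegral.integral_same, sub_zero] at h3
    refine h3.congr' ?_
    filter_upwards [Ioo_mem_nhdsGT ht] with ε hε
    rw [intervalIntegral.integral_interval_sub_left hii]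
    exact hii.mono_set (by
      rw [uIcc_of_le ht.le, uIcc_of_le hε.1.le]
      exact Icc_subset_Icc_right hε.2.le)
  refine tendsto_nhds_unique h1 (h2.congr' ?_)
  filter_upwards [Ioo_mem_nhdsGT ht] with ε hε
  exact (F0_vert_aux hRH hx hε.1 hε.2.le).symm

end Pool.Agent.H476
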