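import Mathlib

open Complex Filter Topology Set Metric MeasureTheory

namespace Pool.Agent.H476

section
variable {E : Type*} [NormedAddCommGroup E] [NormedSpace ℝ E] [CompleteSpace E]

lemma int_pow_div (m : ℕ) {w : ℝ} (hw : 0 ≤ w) :
    ∫ u in Ioc (0 : ℝ) w, u ^ m / m.factorial = w ^ (m + 1) / (m + 1).factorial := by
  rw [← intervalIntegral.integral_of_le hw, intervalIntegral.integral_div, integral_pow]
  simp only [ne_eq, Nat.add_eq_zero_iff, one_ne_zero, and_false, not_false_eq_true, zero_pow, sub_zero]
  rw [Nat.factorial_succ]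
  push_cast
  field_simp

/-- the triangle kernel identity -/
lemma KL {f : ℝ → E} {m : ℕ}
    (hf : IntegrableOn (fun w => (w ^ (m + 1) / (m + 1).factorial : ℝ) • f w) (Ioi 0))
    (hm : AEStronglyMeasurable f (volume.restrict (Ioi 0))) :
    IntegrableOn (fun u => (u ^ m / m.factorial : ℝ) • ∫ w in Ioi u, f w) (Ioi 0) ∧
    ∫ u in Ioi (0 : ℝ), (u ^ m / m.factorial : ℝ) • ∫ w in Ioi u, f w =
      ∫ w in Ioi (0 : ℝ), (w ^ (m + 1) / (m + 1).factorial : ℝ) • f w := by
  set μ := volume.restrict (Ioi (0 : ℝ)) with hμ
  set S : Set (ℝ × ℝ) := {p | p.1 < p.2} with hS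
  have hSm : MeasurableSet S := measurableSet_lt measurable_fst measurable_snd
  set G : ℝ × ℝ → E := indicator S (fun p => (p.1 ^ m / m.factorial : ℝ) • f p.2) with hG
  have hGm : AEStronglyMeasurable G (μ.prod μ) := by
    refine AEStronglyMeasurable.indicator ?_ hSm
    exact (by fun_prop : Continuous fun p : ℝ × ℝ => (p.1 ^ m / m.factorial : ℝ)).aestronglyMeasurable.smul
      hm.comp_snd
  have hfin : ∀ w : ℝ, 0 < w → ∀ (c : E), Integrable (fun u => G (u, w)) μ := by
    intro w hw c
    have e : (fun u => G (u, w)) = indicator (Iio w) (fun u => (u ^ m / m.factorial : ℝ) • f w) := by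
      funext u
      by_cases h : u < w
      · rw [hG, indicator_of_mem (by exact h), indicator_of_mem (by exact h)]
      · rw [hG, indicator_of_notMem (by exact h), indicator_of_notMem (by exact h)]
    rw [e, integrable_indicator_iff measurableSet_Iio]
    refine Integrable.smul_const ?_ _
    rw [hμ, Measure.restrict_restrict measurableSet_Iio, Iio_inter_Ioi]
    exact ((by fun_prop : Continuous fun u : ℝ => (u ^ m / m.factorial : ℝ)).integrableOn_Ioc
      (a := 0) (b := w)).mono_set Ioo_subset_Ioc_self
  have hval : ∀ w : ℝ, 0 < w → ∀ g : E, ∫ u, indicator (Iio w) (fun u => (u ^ m / m.factorial : ℝ) • g) u ∂μ =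
      (w ^ (m + 1) / (m + 1).factorial : ℝ) • g := by
    intro w hw g
    rw [integral_indicator measurableSet_Iio, integral_smul_const, hμ,
      Measure.restrict_restrict measurableSet_Iio, Iio_inter_Ioi, ← integral_Ioc_eq_integral_Ioo,
      int_pow_div m hw.le]
  have hGI : Integrable G (μ.prod μ) := by
    rw [integrable_prod_iff' hGm]
    constructor
    · rw [hμ]
      refine (ae_restrict_iff' measurableSet_Ioi).2 (Eventually.of_forall fun w hw => ?_)
      exact hfin w hw 0
    · refine hf.norm.congr ?_
      rw [hμ]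
      refine (ae_restrict_iff' measurableSet_Ioi).2 (Eventually.of_forall fun w hw => ?_)
      have hw : 0 < w := hw
      have e : ∀ u ∈ Ioi (0 : ℝ), ‖G (u, w)‖ = indicator (Iio w) (fun u => (u ^ m / m.factorial : ℝ) • ‖f w‖) u := by
        intro u hu
        have hu : 0 < u := hu
        by_cases h : u < w
        · rw [hG, indicator_of_mem (by exact h), indicator_of_mem (by exact h), norm_smul,
            Real.norm_eq_abs, abs_of_nonneg (by positivity), smul_eq_mul]
        · rw [hG, indicator_of_notMem (by exact h), indicator_of_notMem (by exact h), norm_zero]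
      simp only
      rw [setIntegral_congr_fun measurableSet_Ioi e]
      have h2 : ∫ u in Ioi (0 : ℝ), indicator (Iio w) (fun u => (u ^ m / m.factorial : ℝ) • ‖f w‖) u =
          (w ^ (m + 1) / (m + 1).factorial : ℝ) • ‖f w‖ := by
        rw [integral_indicator measurableSet_Iio, integral_smul_const,
          Measure.restrict_restrict measurableSet_Iio, Iio_inter_Ioi, ← integral_Ioc_eq_integral_Ioo,
          int_pow_div m hw.le]
      rw [h2, norm_smul, Real.norm_eq_abs, abs_of_nonneg (by positivity), smul_eq_mul]
  have hin : ∀ u ∈ Ioi (0 : ℝ), ∫ w, G (u, w) ∂μ = (u ^ m / m.factorial : ℝ) • ∫ w in Ioi u, f w := by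
    intro u hu
    have hu : 0 < u := hu
    have e : (fun w => G (u, w)) = indicator (Ioi u) (fun w => (u ^ m / m.factorial : ℝ) • f w) := by
      funext w
      by_cases h : u < w
      · rw [hG, indicator_of_mem (by exact h), indicator_of_mem (by exact h)]
      · rw [hG, indicator_of_notMem (by exact h), indicator_of_notMem (by exact h)]
    rw [e, integral_indicator measurableSet_Ioi, integral_smul, hμ,
      Measure.restrict_restrict measurableSet_Ioi, Ioi_inter_Ioi, sup_eq_left.2 hu.le]
  constructor
  · have h1 := hGI.integral_prod_left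
    refine h1.congr ?_
    rw [hμ]
    exact (ae_restrict_iff' measurableSet_Ioi).2 (Eventually.of_forall fun u hu => hin u hu)
  · have h1 := integral_integral_swap (f := fun u w => G (u, w)) (μ := μ) (ν := μ) hGI
    rw [hμ] at h1
    rw [setIntegral_congr_fun measurableSet_Ioi hin] at h1
    rw [h1]
    refine setIntegral_congr_fun measurableSet_Ioi fun w hw => ?_
    have hw : 0 < w := hw
    have e : (fun u => G (u, w)) = indicator (Iio w) (fun u => (u ^ m / m.factorial : ℝ) • f w) := by
      funext u
      by_cases h : u < w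
      · rw [hG, indicator_of_mem (by exact h), indicator_of_mem (by exact h)]
      · rw [hG, indicator_of_notMem (by exact h), indicator_of_notMem (by exact h)]
    rw [e]
    exact hval w hw (f w)

/-- tail integral operator -/
noncomputable def TT (f : ℝ → E) (x : ℝ) : E := ∫ y in Ioi x, f y

omit [CompleteSpace E] in
lemma shiftIoi (f : ℝ → E) (a b : ℝ) :
    ∫ u in Ioi b, f (a + u) = ∫ u in Ioi (a + b), f u := by
  have h := (measurePreserving_add_left volume a).setIntegral_preimage_emb
    (MeasurableEquiv.addLeft a).measurableEmbedding f (Ioi (a + b))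
  rw [preimage_const_add_Ioi, add_sub_cancel_left] at h
  exact h

/-- iterated tail integrals -/
lemma TT_iter (x0 : ℝ) : ∀ (m : ℕ) (f : ℝ → E),
    (∀ k : ℕ, IntegrableOn (fun w => (w ^ k / k.factorial : ℝ) • f (x0 + w)) (Ioi 0)) →
    (TT^[m + 1] f) x0 = ∫ w in Ioi (0 : ℝ), (w ^ m / m.factorial : ℝ) • f (x0 + w) := by
  intro m
  induction m with
  | zero =>
    intro f _
    simp only [zero_add, Function.iterate_one, pow_zero, Nat.factorial_zero, Nat.cast_one, div_one,
      one_smul]
    rw [shiftIoi f x0 0, add_zero]
    rfl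
  | succ m ih =>
    intro f hf
    have hmeas : AEStronglyMeasurable (fun w => f (x0 + w)) (volume.restrict (Ioi 0)) := by
      have := (hf 0).1
      simpa using this
    have hT : ∀ w : ℝ, TT f (x0 + w) = ∫ v in Ioi w, f (x0 + v) := by
      intro w
      rw [shiftIoi f x0 w]
      rfl
    rw [Function.iterate_succ_apply, ih]
    · simp_rw [hT]
      exact (KL (f := fun w => f (x0 + w)) (hf (m + 1)) hmeas).2
    · intro k
      simp_rw [hT]
      exact (KL (f := fun w => f (x0 + w)) (hf (k + 1)) hmeas).1

end

end Pool.Agent.H476
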