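import Pool.Agent.H476.FD
import Pool.Agent.H476.KL

open Complex Filter Topology Set Metric MeasureTheory

namespace Pool.Agent.H476

lemma zeta_meas : Measurable riemannZeta := by
  refine measurable_of_continuousOn_compl_singleton 1 ?_
  intro z hz
  exact (differentiableAt_riemannZeta hz).continuousAt.continuousWithinAt

lemma Lz_meas : Measurable Lz := by
  unfold Lz
  exact (measurable_deriv riemannZeta).div zeta_meas

lemma prod_int (hRH : RiemannHypothesis) (m : ℕ) (t : ℝ) :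
    Integrable (fun p : ℝ × ℝ => ((p.1 ^ m / m.factorial : ℝ) : ℂ) * Lz (1 / 2 + p.2 * I + p.1))
      ((volume.restrict (Ioi (0 : ℝ))).prod (volume.restrict (Ioc (0 : ℝ) t))) := by
  obtain ⟨D, N, hN, hD0, hDI, hDm, hD⟩ := gt_sep hRH t
  obtain ⟨C, hC, hb⟩ := Lz_decay
  set μ := volume.restrict (Ioi (0 : ℝ)) with hμ
  set ν := volume.restrict (Ioc (0 : ℝ) t) with hν
  -- the three factors
  set a1 : ℝ → ℝ := indicator (Ioc 0 (3 / 2)) (fun u => (3 / 2 : ℝ) ^ m * |u - 0| ^ (-(1 / 2 : ℝ))) with ha1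
  set a2 : ℝ → ℝ := indicator (Ioc 0 (3 / 2)) (fun u => (3 / 2 : ℝ) ^ m * |u - 1 / 2| ^ (-(1 / 2 : ℝ)))
    with ha2
  set a3 : ℝ → ℝ := fun u => C * (u ^ m * (2 : ℝ) ^ (-u)) with ha3
  have i1 : Integrable a1 μ := by
    rw [ha1]
    refine Integrable.restrict ?_
    rw [integrable_indicator_iff measurableSet_Ioc]
    exact (intOn_abs_rpow 0 0 (3 / 2)).const_mul _
  have i2 : Integrable a2 μ := by
    rw [ha2]
    refine Integrable.restrict ?_
    rw [integrable_indicator_iff measurableSet_Ioc]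
    exact (intOn_abs_rpow (1 / 2) 0 (3 / 2)).const_mul _
  have i3 : Integrable a3 μ := (intOn_pow_two m).const_mul C
  have j1 : Integrable D ν := hDI
  have j2 : Integrable (fun τ : ℝ => |τ - 0| ^ (-(1 / 2 : ℝ))) ν := intOn_abs_rpow 0 0 t
  have j3 : Integrable (fun _ : ℝ => (1 : ℝ)) ν := integrable_const _
  have hM := ((i1.mul_prod j1).add (i2.mul_prod j2)).add (i3.mul_prod j3)
  refine Integrable.mono' hM ?_ ?_
  · refine Measurable.aestronglyMeasurable ?_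
    refine Measurable.mul (by fun_prop) ?_
    exact Lz_meas.comp (by fun_prop)
  · have f1 : ∀ᵐ u ∂μ, 0 < u ∧ u ≠ 1 / 2 := by
      rw [hμ]
      have e1 : ∀ᵐ u ∂(volume.restrict (Ioi (0 : ℝ))), u ∈ Ioi (0 : ℝ) := ae_restrict_mem measurableSet_Ioi
      have e2 : ∀ᵐ u ∂(volume.restrict (Ioi (0 : ℝ))), u ≠ (1 / 2 : ℝ) := by
        refine ae_restrict_of_ae ?_
        rw [ae_iff]; simp
      filter_upwards [e1, e2] with u h1 h2
      exact ⟨h1, h2⟩
    have f2 : ∀ᵐ τ ∂ν, τ ∈ Ioc (0 : ℝ) t ∧ τ ∉ N := by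
      rw [hν]
      have e1 : ∀ᵐ τ ∂(volume.restrict (Ioc (0 : ℝ) t)), τ ∈ Ioc (0 : ℝ) t :=
        ae_restrict_mem measurableSet_Ioc
      have e2 : ∀ᵐ τ ∂(volume.restrict (Ioc (0 : ℝ) t)), τ ∉ N := by
        refine ae_restrict_of_ae ?_
        exact (hN.countable.ae_notMem _)
      filter_upwards [e1, e2] with u h1 h2
      exact ⟨h1, h2⟩
    have g1 := (Measure.quasiMeasurePreserving_fst (μ := μ) (ν := ν)).ae f1
    have g2 := (Measure.quasiMeasurePreserving_snd (μ := μ) (ν := ν)).ae f2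
    filter_upwards [g1, g2] with p hp1 hp2
    obtain ⟨u, τ⟩ := p
    obtain ⟨hu, hu2⟩ := hp1
    obtain ⟨hτ, hτN⟩ := hp2
    simp only at hu hu2 hτ hτN ⊢
    have hf : (1 : ℝ) ≤ m.factorial := by exact_mod_cast Nat.one_le_iff_ne_zero.2 (Nat.factorial_ne_zero m)
    have e0 : ‖((u ^ m / m.factorial : ℝ) : ℂ)‖ ≤ u ^ m := by
      rw [norm_real, Real.norm_eq_abs, abs_of_nonneg (by positivity)]
      exact div_le_self (by positivity) hf
    rw [norm_mul]
    have hzz : (1 / 2 + τ * I + u : ℂ) = ⟨1 / 2 + u, τ⟩ := by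
      apply Complex.ext <;> simp
    simp only [Pi.add_apply]
    have n1 : 0 ≤ a1 u := by
      rw [ha1]; exact indicator_nonneg (fun x _ => by positivity) u
    have n2 : 0 ≤ a2 u := by
      rw [ha2]; exact indicator_nonneg (fun x _ => by positivity) u
    have n3 : 0 ≤ a3 u := by
      rw [ha3]; positivity
    have n4 := hD0 τ
    have n5 : 0 ≤ |τ - 0| ^ (-(1 / 2 : ℝ)) := by positivity
    rcases le_or_gt u (3 / 2) with h | h
    · have hmem : u ∈ Ioc (0 : ℝ) (3 / 2) := ⟨hu, h⟩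
      have k1 : a1 u = (3 / 2 : ℝ) ^ m * |u - 0| ^ (-(1 / 2 : ℝ)) := by
        rw [ha1, indicator_of_mem hmem]
      have k2 : a2 u = (3 / 2 : ℝ) ^ m * |u - 1 / 2| ^ (-(1 / 2 : ℝ)) := by
        rw [ha2, indicator_of_mem hmem]
      have hne : (⟨1 / 2 + u, τ⟩ : ℂ) ≠ 1 := ne_one_of_im hτ.1
      have e1 : ‖Lz (1 / 2 + τ * I + u)‖ ≤ D τ * |u - 0| ^ (-(1 / 2 : ℝ)) +
          |u - 1 / 2| ^ (-(1 / 2 : ℝ)) * |τ - 0| ^ (-(1 / 2 : ℝ)) := by
        rw [hzz, Lz_eq_gt hRH (by simpa using hu) hne]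
        refine (norm_sub_le _ _).trans (add_le_add ?_ ?_)
        · rw [sub_zero, abs_of_pos hu]
          exact hD τ hτ hτN u hmem
        · have hne2 : |u - 1 / 2| ≠ 0 := abs_ne_zero.2 (sub_ne_zero.2 hu2)
          have h5 : ‖(⟨1 / 2 + u, τ⟩ : ℂ) - 1‖ = ‖(⟨|u - 1 / 2|, τ - 0⟩ : ℂ)‖ := by
            rw [← sq_eq_sq₀ (norm_nonneg _) (norm_nonneg _), ← normSq_eq_norm_sq, ← normSq_eq_norm_sq,
              normSq_apply, normSq_apply]
            simp only [sub_re, sub_im, one_re, one_im, sub_zero]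
            rw [abs_mul_abs_self]
            ring
          have h6 := inv_sqrt_mul_le (a := |u - 1 / 2|) (b := τ - 0) (abs_pos.2 (sub_ne_zero.2 hu2))
            (by rw [sub_zero]; exact hτ.1.ne')
          rw [norm_div, norm_one, h5]
          have h7 : 0 < |u - 1 / 2| ^ (-(1 / 2 : ℝ)) * |τ - 0| ^ (-(1 / 2 : ℝ)) := by
            have : 0 < |τ - 0| := by rw [sub_zero]; exact abs_pos.2 hτ.1.ne'
            have : 0 < |u - 1 / 2| := abs_pos.2 (sub_ne_zero.2 hu2)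
            positivity
          rw [div_le_iff₀ (lt_of_lt_of_le (by positivity) h6)]
          rw [div_le_iff₀ h7] at h6
          linarith
      have e2 : u ^ m ≤ (3 / 2 : ℝ) ^ m := pow_le_pow_left₀ hu.le h m
      rw [k1, k2]
      calc ‖((u ^ m / m.factorial : ℝ) : ℂ)‖ * ‖Lz (1 / 2 + τ * I + u)‖
          ≤ (3 / 2 : ℝ) ^ m * (D τ * |u - 0| ^ (-(1 / 2 : ℝ)) +
            |u - 1 / 2| ^ (-(1 / 2 : ℝ)) * |τ - 0| ^ (-(1 / 2 : ℝ))) :=
            mul_le_mul (e0.trans e2) e1 (norm_nonneg _) (by positivity)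
        _ = (3 / 2 : ℝ) ^ m * |u - 0| ^ (-(1 / 2 : ℝ)) * D τ +
            (3 / 2 : ℝ) ^ m * |u - 1 / 2| ^ (-(1 / 2 : ℝ)) * |τ - 0| ^ (-(1 / 2 : ℝ)) := by ring
        _ ≤ _ := by linarith
    · have e1 : ‖Lz (1 / 2 + τ * I + u)‖ ≤ C * (2 : ℝ) ^ (-u) := by
        refine (hb _ (by rw [hzz]; simp only; linarith)).trans ?_
        refine mul_le_mul_of_nonneg_left ?_ hC.le
        apply Real.rpow_le_rpow_of_exponent_le (by norm_num)
        rw [hzz]; simp only; linarith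
      have e3 : ‖((u ^ m / m.factorial : ℝ) : ℂ)‖ * ‖Lz (1 / 2 + τ * I + u)‖ ≤ a3 u := by
        rw [ha3]
        calc _ ≤ u ^ m * (C * (2 : ℝ) ^ (-u)) := mul_le_mul e0 e1 (norm_nonneg _) (by positivity)
          _ = _ := by ring
      have e4 : 0 ≤ a1 u * D τ := mul_nonneg n1 n4
      have e5 : 0 ≤ a2 u * |τ - 0| ^ (-(1 / 2 : ℝ)) := mul_nonneg n2 n5
      linarith

noncomputable def cc (m : ℕ) : ℂ := ∫ u in Ioi (0 : ℝ), ((u ^ m / m.factorial : ℝ) : ℂ) * F0p (1 / 2 + u)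

lemma Fn_succ (hRH : RiemannHypothesis) (m : ℕ) {s : ℂ} (hs : 1 / 2 ≤ s.re) (ht : 0 < s.im) :
    IntegrableOn (fun u : ℝ => ((u ^ m / m.factorial : ℝ) : ℂ) * Fn 0 (s + u)) (Ioi 0) ∧
    ∫ u in Ioi (0 : ℝ), ((u ^ m / m.factorial : ℝ) : ℂ) * Fn 0 (s + u) = Fn (m + 1) s := by
  have h1 := Fn_int hRH (n := m + 1) (by omega) hs ht
  have h2 : IntegrableOn (fun w : ℝ => (w ^ (m + 1) / (m + 1).factorial : ℝ) • Lz (s + w)) (Ioi 0) := by
    simpa only [real_smul] using h1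
  have h3 : AEStronglyMeasurable (fun w : ℝ => Lz (s + w)) (volume.restrict (Ioi 0)) :=
    (Lz_line_cont hRH hs ht).aestronglyMeasurable measurableSet_Ioi
  obtain ⟨k1, k2⟩ := KL h2 h3
  have e : ∀ u : ℝ, ((u ^ m / m.factorial : ℝ) : ℂ) * Fn 0 (s + u) =
      -((u ^ m / m.factorial : ℝ) • ∫ w in Ioi u, Lz (s + w)) := by
    intro u
    rw [Fn_zero, real_smul, mul_neg]
    congr 2
    have := shift_Ioi (fun w : ℝ => Lz (s + w)) u 0
    rw [add_zero] at this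
    rw [← this]
    refine setIntegral_congr_fun measurableSet_Ioi fun w _ => ?_
    congr 1
    push_cast; ring
  simp_rw [e]
  refine ⟨k1.neg, ?_⟩
  rw [integral_neg, k2, Fn]
  simp only [real_smul]

/-- the fundamental vertical relation on the critical line -/
lemma Fn_vert (hRH : RiemannHypothesis) (m : ℕ) {t : ℝ} (ht : 0 < t) :
    IntegrableOn (fun u : ℝ => ((u ^ m / m.factorial : ℝ) : ℂ) * F0p (1 / 2 + u)) (Ioi 0) ∧
    IntervalIntegrable (fun τ : ℝ => Fn m (1 / 2 + τ * I)) volume 0 t ∧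
    ∫ τ in (0 : ℝ)..t, Fn m (1 / 2 + τ * I) = I * (Fn (m + 1) (1 / 2 + t * I) - cc m) := by
  have hP := prod_int hRH m t
  have hs : (1 / 2 : ℝ) ≤ (1 / 2 + t * I : ℂ).re := by simp
  have hsi : 0 < (1 / 2 + t * I : ℂ).im := by simpa using ht
  obtain ⟨k1, k2⟩ := Fn_succ hRH m hs hsi
  have hinner : ∀ᵐ u ∂(volume.restrict (Ioi (0 : ℝ))),
      ∫ τ in Ioc (0 : ℝ) t, ((u ^ m / m.factorial : ℝ) : ℂ) * Lz (1 / 2 + τ * I + u) =
        -I * (((u ^ m / m.factorial : ℝ) : ℂ) * Fn 0 (1 / 2 + t * I + u) -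
          ((u ^ m / m.factorial : ℝ) : ℂ) * F0p (1 / 2 + u)) := by
    have e1 : ∀ᵐ u ∂(volume.restrict (Ioi (0 : ℝ))), u ∈ Ioi (0 : ℝ) := ae_restrict_mem measurableSet_Ioi
    have e2 : ∀ᵐ u ∂(volume.restrict (Ioi (0 : ℝ))), u ≠ (1 / 2 : ℝ) := by
      refine ae_restrict_of_ae ?_
      rw [ae_iff]; simp
    filter_upwards [e1, e2] with u hu hu2
    have hu : 0 < u := hu
    rw [integral_const_mul]
    have h1 := F0_vert hRH (x := 1 / 2 + u) (t := t) (by linarith) (by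
      intro h; apply hu2; linarith) ht
    have h2 : ∫ τ in Ioc (0 : ℝ) t, Lz (1 / 2 + τ * I + u) =
        ∫ τ in (0 : ℝ)..t, Lz (((1 / 2 + u : ℝ) : ℂ) + τ * I) := by
      rw [intervalIntegral.integral_of_le ht.le]
      refine setIntegral_congr_fun measurableSet_Ioc fun τ _ => ?_
      congr 1
      push_cast; ring
    have h3 : (1 / 2 + t * I + u : ℂ) = ((1 / 2 + u : ℝ) : ℂ) + t * I := by push_cast; ring
    rw [h2, h3]
    have h4 : ∫ τ in (0 : ℝ)..t, Lz (((1 / 2 + u : ℝ) : ℂ) + τ * I) =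
        -I * (Fn 0 (((1 / 2 + u : ℝ) : ℂ) + t * I) - F0p (1 / 2 + u)) := by
      rw [h1, ← mul_assoc, neg_mul, I_mul_I]; ring
    rw [h4]
    ring
  have hI1 := hP.integral_prod_left
  have hI1' : IntegrableOn (fun u : ℝ => -I * (((u ^ m / m.factorial : ℝ) : ℂ) *
      Fn 0 (1 / 2 + t * I + u) - ((u ^ m / m.factorial : ℝ) : ℂ) * F0p (1 / 2 + u))) (Ioi 0) :=
    hI1.congr hinner
  have hI2 : IntegrableOn (fun u : ℝ => ((u ^ m / m.factorial : ℝ) : ℂ) * F0p (1 / 2 + u)) (Ioi 0) := by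
    have h5 := k1.sub (hI1'.const_mul I)
    refine h5.congr (Eventually.of_forall fun u => ?_)
    simp only [Pi.sub_apply]
    rw [← mul_assoc, mul_neg, I_mul_I]
    ring
  refine ⟨hI2, ?_, ?_⟩
  · rw [intervalIntegrable_iff_integrableOn_Ioc_of_le ht.le]
    have h6 := hP.integral_prod_right
    exact h6.neg
  · rw [intervalIntegral.integral_of_le ht.le]
    have h7 := integral_integral_swap (f := fun u τ => ((u ^ m / m.factorial : ℝ) : ℂ) *
      Lz (1 / 2 + (τ : ℝ) * I + (u : ℝ))) hP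
    have h8 : ∫ τ in Ioc (0 : ℝ) t, Fn m (1 / 2 + τ * I) =
        -∫ τ in Ioc (0 : ℝ) t, ∫ u in Ioi (0 : ℝ), ((u ^ m / m.factorial : ℝ) : ℂ) *
          Lz (1 / 2 + τ * I + u) := by
      rw [← integral_neg]
      rfl
    rw [h8, ← h7, integral_congr_ae hinner, integral_const_mul, integral_sub k1 hI2, k2, cc]
    ring

end Pool.Agent.H476
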