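import Mathlib

open Complex Set MeasureTheory

/-!
Definitions for the antiderivatives `S_n` of the argument function of the Riemann zeta function.
-/

namespace Pool.Agent.H476.Sn

/-- The point at parameter `u ∈ [0, 2]` of the broken path `2 → 2 + i t → 1/2 + i t`. -/
noncomputable def pathPt (t u : ℝ) : ℂ :=
  if u ≤ 1 then 2 + ((u * t : ℝ) : ℂ) * I else ((2 - 3 / 2 * (u - 1) : ℝ) : ℂ) + (t : ℂ) * I

/-- `θ` is the value of `arg ζ(1/2 + i t)` obtained by continuous variation along the segments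
from `2` to `2 + i t` and then to `1/2 + i t`, starting with `arg ζ(2) = 0`. -/
def IsArg (t θ : ℝ) : Prop :=
  ∃ φ : ℝ → ℝ, ContinuousOn φ (Icc 0 2) ∧ φ 0 = 0 ∧ φ 2 = θ ∧ ∀ u ∈ Icc (0 : ℝ) 2,
    riemannZeta (pathPt t u) = (‖riemannZeta (pathPt t u)‖ : ℂ) * cexp ((φ u : ℂ) * I)

/-- Iterated tail integrals of `log |ζ|` on the real axis: `iterLog 0 x = log |ζ(x)|` and
`iterLog (j + 1) x = ∫_x^∞ iterLog j y dy`. -/
noncomputable def iterLog : ℕ → ℝ → ℝ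
  | 0, x => Real.log ‖riemannZeta (x : ℂ)‖
  | j + 1, x => ∫ y in Ioi x, iterLog j y

/-- The normalising constants: `δ_{2k} = (-1)^(k-1) / ((2k)! 2^(2k))` and
`δ_{2k-1} = ((-1)^(k-1) / π) ∫_{1/2}^∞ ∫_{σ_{2k-2}}^∞ ... ∫_{σ_1}^∞ log |ζ(σ_0)|`
(`2k - 1` integrations), for `k ≥ 1`. -/
noncomputable def delta (n : ℕ) : ℝ :=
  if Even n then (-1) ^ (n / 2 - 1) / (n.factorial * 2 ^ n)
  else (-1) ^ ((n - 1) / 2) / Real.pi * iterLog n (1 / 2)

/-- Iterated antiderivatives with normalising constants `c`: `S_0 = S` and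
`S_n(t) = ∫_0^t S_{n-1}(τ) dτ + c_n` for `n ≥ 1`. -/
noncomputable def SNc (c : ℕ → ℝ) (S : ℝ → ℝ) : ℕ → ℝ → ℝ
  | 0 => S
  | n + 1 => fun t => (∫ τ in (0 : ℝ)..t, SNc c S n τ) + c (n + 1)

/-- `S_0 = S` and `S_n(t) = ∫_0^t S_{n-1}(τ) dτ + δ_n`. -/
noncomputable def SN (S : ℝ → ℝ) : ℕ → ℝ → ℝ := SNc delta S

/-- `S` is the normalised argument function at all points that are not ordinates of zeros
(the values at ordinates are left free). -/
def IsS (S : ℝ → ℝ) : Prop :=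
  ∀ t : ℝ, 0 < t → riemannZeta (1 / 2 + t * I) ≠ 0 → IsArg t (Real.pi * S t)

/-- The comparison function `Λ_n(t) = log t / (log log t)^(n+1)`. -/
noncomputable def LamN (n : ℕ) (t : ℝ) : ℝ := Real.log t / (Real.log (Real.log t)) ^ (n + 1)

/-- `A_n^- = π^n M_{n+1} / (2 (n+1)!)`, `M_k` the maximum of the Bernoulli polynomial `B_k` on
`[0, 1]`. -/
noncomputable def Aminus (n : ℕ) : ℝ :=
  Real.pi ^ n * sSup (bernoulliFun (n + 1) '' Icc 0 1) / (2 * (n + 1).factorial)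

/-- `A_n^+ = -π^n m_{n+1} / (2 (n+1)!)`, `m_k` the minimum of the Bernoulli polynomial `B_k` on
`[0, 1]`. -/
noncomputable def Aplus (n : ℕ) : ℝ :=
  -(Real.pi ^ n * sInf (bernoulliFun (n + 1) '' Icc 0 1)) / (2 * (n + 1).factorial)

end Pool.Agent.H476.Sn
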