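import Pool.Agent.H476.FE
import Pool.Agent.H476.SDefs

open Complex Filter Topology Set Metric MeasureTheory

namespace Pool.Agent.H476

open Sn

lemma pathPt_le {t u : ℝ} (h : u ≤ 1) : pathPt t u = ((2 : ℝ) : ℂ) + ((u * t : ℝ) : ℂ) * I := by
  rw [pathPt, if_pos h]; push_cast; ring

lemma pathPt_ge {t u : ℝ} (h : 1 ≤ u) : pathPt t u = ((2 - 3 / 2 * (u - 1) : ℝ) : ℂ) + (t : ℂ) * I := by
  rcases h.eq_or_lt with rfl | h
  · rw [pathPt, if_pos le_rfl]; push_cast; ring
  · rw [pathPt, if_neg (not_le.2 h)]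

lemma path_good (hRH : RiemannHypothesis) {t : ℝ} (ht : 0 < t)
    (hz : riemannZeta (1 / 2 + t * I) ≠ 0) {u : ℝ} (hu : u ∈ Icc (0 : ℝ) 2) : Good (pathPt t u) := by
  rcases le_total u 1 with h | h
  · rw [pathPt_le h]
    exact good_right (by simp)
  · rw [pathPt_ge h]
    rcases hu.2.eq_or_lt with h2 | h2
    · subst h2
      have e : (((2 - 3 / 2 * ((2 : ℝ) - 1) : ℝ) : ℂ) + (t : ℂ) * I) = 1 / 2 + t * I := by
        push_cast; ring
      rw [e]
      exact good_line hRH (by simp) (by simpa using ht) hz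
    · refine good_upper hRH ?_ (by simpa using ht)
      simp
      linarith

lemma isArg_exists (hRH : RiemannHypothesis) {t : ℝ} (ht : 0 < t)
    (hz : riemannZeta (1 / 2 + t * I) ≠ 0) : IsArg t (Fn 0 (1 / 2 + t * I)).im := by
  refine ⟨fun u => (Fn 0 (pathPt t u)).im, ?_, ?_, ?_, ?_⟩
  · have h1 : ContinuousOn (fun u => (Fn 0 (pathPt t u)).im) (Icc 0 1) := by
      refine continuous_im.comp_continuousOn ?_
      have h2 : Continuous (fun u : ℝ => Fn 0 (((2 : ℝ) : ℂ) + ((u * t : ℝ) : ℂ) * I)) :=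
        (F0_cont_vert (x := 2) (by norm_num)).comp (by fun_prop : Continuous fun u : ℝ => u * t)
      refine h2.continuousOn.congr fun u hu => ?_
      simp only
      rw [pathPt_le hu.2]
    have h3 : ContinuousOn (fun u => (Fn 0 (pathPt t u)).im) (Icc 1 2) := by
      refine continuous_im.comp_continuousOn ?_
      have hg : Good (1 / 2 + t * I) := good_line hRH (by simp) (by simpa using ht) hz
      have h4 := F0_cont_hor hg
      have h5 : ContinuousOn (fun u : ℝ => Fn 0 ((1 / 2 + t * I : ℂ) + ((3 / 2 * (2 - u) : ℝ) : ℂ)))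
          (Icc 1 2) := by
        refine ContinuousOn.comp (g := fun v : ℝ => Fn 0 ((1 / 2 + t * I : ℂ) + v))
          (f := fun u : ℝ => 3 / 2 * (2 - u)) h4 (by fun_prop) ?_
        intro u hu
        simp only [mem_Ici]
        linarith [hu.2]
      refine h5.congr fun u hu => ?_
      simp only
      rw [pathPt_ge hu.1]
      congr 1
      push_cast; ring
    have h6 := h1.union_of_isClosed h3 isClosed_Icc isClosed_Icc
    rwa [Icc_union_Icc_eq_Icc (by norm_num) (by norm_num)] at h6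
  · simp only
    rw [pathPt_le (by norm_num)]
    simpa using F0_real (x := 2) (by norm_num)
  · simp only
    rw [pathPt_ge (by norm_num)]
    congr 2
    push_cast; ring
  · intro u hu
    have hg := path_good hRH ht hz hu
    have h1 := F0_exp hg
    simp only
    rw [← h1, Complex.norm_exp, ofReal_exp, ← Complex.exp_add, re_add_im]

lemma isArg_unique (hRH : RiemannHypothesis) {t : ℝ} (ht : 0 < t)
    (hz : riemannZeta (1 / 2 + t * I) ≠ 0) {θ1 θ2 : ℝ} (h1 : IsArg t θ1) (h2 : IsArg t θ2) :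
    θ1 = θ2 := by
  obtain ⟨φ1, c1, z1, e1, f1⟩ := h1
  obtain ⟨φ2, c2, z2, e2, f2⟩ := h2
  by_contra hne
  set g : ℝ → ℝ := fun u => φ1 u - φ2 u with hg
  have hgc : ContinuousOn g (Icc 0 2) := c1.sub c2
  have hval : ∀ u ∈ Icc (0 : ℝ) 2, ∃ n : ℤ, g u = n * (2 * Real.pi) := by
    intro u hu
    have hg0 := path_good hRH ht hz hu
    have hzne : riemannZeta (pathPt t u) ≠ 0 := by
      have := (hg0 0 le_rfl).2
      simpa using this
    have hn : (‖riemannZeta (pathPt t u)‖ : ℂ) ≠ 0 := by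
      exact_mod_cast (norm_ne_zero_iff.2 hzne)
    have h3 : cexp ((φ1 u : ℂ) * I) = cexp ((φ2 u : ℂ) * I) := by
      have a1 := f1 u hu
      have a2 := f2 u hu
      have a3 := a1.symm.trans a2
      exact mul_left_cancel₀ hn a3
    rw [Complex.exp_eq_exp_iff_exists_int] at h3
    obtain ⟨n, hn⟩ := h3
    refine ⟨n, ?_⟩
    have h4 : ((φ1 u : ℂ)) * I = ((φ2 u + n * (2 * Real.pi) : ℝ) : ℂ) * I := by
      rw [hn]; push_cast; ring
    have h5 := mul_right_cancel₀ I_ne_zero h4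
    have h6 : φ1 u = φ2 u + n * (2 * Real.pi) := by exact_mod_cast h5
    rw [hg]; simp only; linarith
  have hg0 : g 0 = 0 := by rw [hg]; simp only; rw [z1, z2]; ring
  have hg2 : g 2 ≠ 0 := by rw [hg]; simp only; rw [e1, e2]; exact sub_ne_zero.2 hne
  obtain ⟨n, hn⟩ := hval 2 ⟨by norm_num, le_rfl⟩
  have hpi := Real.pi_pos
  have hn0 : n ≠ 0 := by
    rintro rfl
    apply hg2
    rw [hn]; simp
  have hmid : ∀ v : ℝ, v ∈ uIcc (g 0) (g 2) → ∃ m : ℤ, v = m * (2 * Real.pi) := by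
    intro v hv
    have hc : ContinuousOn g (uIcc 0 2) := by rwa [uIcc_of_le (by norm_num)]
    obtain ⟨u, hu, rfl⟩ := intermediate_value_uIcc hc hv
    rw [uIcc_of_le (by norm_num)] at hu
    exact hval u hu
  have hno : ∀ (m : ℤ) (s : ℝ), (s = Real.pi ∨ s = -Real.pi) → s ≠ m * (2 * Real.pi) := by
    intro m s hs h
    have h7 : (1 : ℝ) = 2 * m ∨ (-1 : ℝ) = 2 * m := by
      rcases hs with rfl | rfl
      · left
        have : Real.pi * 1 = Real.pi * (2 * m) := by linarith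
        exact mul_left_cancel₀ hpi.ne' this
      · right
        have : Real.pi * (-1) = Real.pi * (2 * m) := by linarith
        exact mul_left_cancel₀ hpi.ne' this
    rcases h7 with h7 | h7
    · have : (1 : ℤ) = 2 * m := by exact_mod_cast h7
      omega
    · have : (-1 : ℤ) = 2 * m := by exact_mod_cast h7
      omega
  rw [hg0, hn] at hmid
  rcases lt_or_gt_of_ne hn0 with h | h
  · have h8 : (n : ℝ) ≤ -1 := by exact_mod_cast (by omega : n ≤ -1)
    obtain ⟨m, hm⟩ := hmid (-Real.pi) (by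
      rw [uIcc_of_ge (by nlinarith)]
      constructor <;> nlinarith)
    exact hno m _ (Or.inr rfl) hm
  · have h8 : (1 : ℝ) ≤ n := by exact_mod_cast (by omega : 1 ≤ n)
    obtain ⟨m, hm⟩ := hmid (Real.pi) (by
      rw [uIcc_of_le (by nlinarith)]
      constructor <;> nlinarith)
    exact hno m _ (Or.inl rfl) hm

/-- `H_n`: the explicit formula for `S_n` -/
noncomputable def Hn (n : ℕ) (t : ℝ) : ℝ := (1 / Real.pi) * (I ^ n * Fn n (1 / 2 + t * I)).im

lemma S_eq_H0 (hRH : RiemannHypothesis) {S : ℝ → ℝ} (hS : IsS S) {t : ℝ} (ht : 0 < t)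
    (hz : riemannZeta (1 / 2 + t * I) ≠ 0) : S t = Hn 0 t := by
  have h := isArg_unique hRH ht hz (hS t ht hz) (isArg_exists hRH ht hz)
  rw [Hn, pow_zero, one_mul, ← h]
  field_simp

lemma iterLog_eq (n : ℕ) : iterLog n = TT^[n] (iterLog 0) := by
  induction n with
  | zero => rfl
  | succ n ih =>
    rw [Function.iterate_succ_apply', ← ih]
    funext x
    rfl

lemma cc_eq (hRH : RiemannHypothesis) (m : ℕ) : cc m = (iterLog (m + 1) (1 / 2) : ℂ) -
    ((Real.pi * (1 / 2) ^ (m + 1) / (m + 1).factorial : ℝ) : ℂ) * I := by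
  have hI : ∀ k : ℕ, IntegrableOn (fun u : ℝ => ((u ^ k / k.factorial : ℝ) : ℂ) * F0p (1 / 2 + u))
      (Ioi 0) := fun k => (Fn_vert hRH k (t := 1) one_pos).1
  have hre : ∀ (k : ℕ) (u : ℝ), (((u ^ k / k.factorial : ℝ) : ℂ) * F0p (1 / 2 + u)).re =
      (u ^ k / k.factorial : ℝ) • iterLog 0 (1 / 2 + u) := by
    intro k u
    rw [re_ofReal_mul, F0p, smul_eq_mul, iterLog]
    simp
  have him : ∀ (u : ℝ), (((u ^ m / m.factorial : ℝ) : ℂ) * F0p (1 / 2 + u)).im =
      -(indicator (Iio (1 / 2 : ℝ)) (fun u => Real.pi * (u ^ m / m.factorial)) u) := by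
    intro u
    rw [im_ofReal_mul, F0p]
    by_cases h : u < 1 / 2
    · rw [indicator_of_mem (by exact h), if_pos (by linarith)]
      simp; ring
    · rw [indicator_of_notMem (by exact h), if_neg (by linarith)]
      simp
  have hmom : ∀ k : ℕ, IntegrableOn (fun w => (w ^ k / k.factorial : ℝ) • iterLog 0 (1 / 2 + w))
      (Ioi 0) := by
    intro k
    have := (hI k).re
    refine this.congr (Eventually.of_forall fun u => ?_)
    exact hre k u
  have h1 := TT_iter (1 / 2) m (iterLog 0) hmom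
  rw [← iterLog_eq] at h1
  have h2 : (cc m).re = iterLog (m + 1) (1 / 2) := by
    rw [h1, cc, ← reCLM_apply, ← ContinuousLinearMap.integral_comp_comm _ (hI m)]
    refine setIntegral_congr_fun measurableSet_Ioi fun u _ => ?_
    exact hre m u
  have h3 : (cc m).im = -(Real.pi * (1 / 2) ^ (m + 1) / (m + 1).factorial) := by
    rw [cc, ← imCLM_apply, ← ContinuousLinearMap.integral_comp_comm _ (hI m)]
    have e : ∀ u ∈ Ioi (0 : ℝ), imCLM (((u ^ m / m.factorial : ℝ) : ℂ) * F0p (1 / 2 + u)) =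
        -(indicator (Iio (1 / 2 : ℝ)) (fun u => Real.pi * (u ^ m / m.factorial)) u) :=
      fun u _ => him u
    rw [setIntegral_congr_fun measurableSet_Ioi e, integral_neg, integral_indicator measurableSet_Iio,
      Measure.restrict_restrict measurableSet_Iio, Iio_inter_Ioi, ← integral_Ioc_eq_integral_Ioo,
      integral_const_mul, int_pow_div m (by norm_num)]
    ring
  generalize Real.pi * (1 / 2) ^ (m + 1) / ((m + 1).factorial : ℝ) = q at h3 ⊢
  apply Complex.ext
  · rw [h2]; simp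
  · rw [h3]; simp

lemma delta_eq (hRH : RiemannHypothesis) (m : ℕ) :
    delta (m + 1) = (1 / Real.pi) * (I ^ (m + 1) * cc m).im := by
  rw [cc_eq hRH m]
  set L := iterLog (m + 1) (1 / 2) with hL
  set q : ℝ := Real.pi * (1 / 2) ^ (m + 1) / (m + 1).factorial with hq
  have hpi := Real.pi_ne_zero
  rcases Nat.even_or_odd (m + 1) with he | ho
  · rw [delta, if_pos he]
    obtain ⟨k, hk⟩ := he
    have hk1 : 1 ≤ k := by omega
    obtain ⟨j, rfl⟩ : ∃ j, k = j + 1 := ⟨k - 1, by omega⟩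
    have e1 : (m + 1) / 2 - 1 = j := by omega
    have e2 : I ^ (m + 1) = ((-1) ^ (j + 1) : ℂ) := by
      rw [hk, ← two_mul, pow_mul, I_sq]
    rw [e1, e2]
    have e3 : ((-1 : ℂ)) ^ (j + 1) = (((-1 : ℝ) ^ (j + 1) : ℝ) : ℂ) := by push_cast; rfl
    rw [e3, im_ofReal_mul]
    simp only [sub_im, ofReal_im, mul_im, ofReal_re, I_im, mul_one, I_re, mul_zero, add_zero, zero_sub]
    rw [hq, pow_succ (-1 : ℝ) j, div_pow, one_pow]
    field_simp
    try ring
  · rw [delta, if_neg (Nat.not_even_iff_odd.2 ho)]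
    obtain ⟨j, hj⟩ := ho
    have e1 : (m + 1 - 1) / 2 = j := by omega
    have e2 : I ^ (m + 1) = ((-1) ^ j : ℂ) * I := by
      rw [hj, pow_succ, pow_mul, I_sq]
    rw [e1, e2]
    have e3 : ((-1 : ℂ)) ^ j = (((-1 : ℝ) ^ j : ℝ) : ℂ) := by push_cast; rfl
    rw [e3, mul_assoc, im_ofReal_mul]
    simp only [mul_im, I_re, I_im, sub_re, sub_im, ofReal_re, ofReal_im, mul_re, mul_zero, mul_one,
      zero_mul, one_mul, sub_zero, zero_add]
    ring

lemma Hn_succ (hRH : RiemannHypothesis) (m : ℕ) {t : ℝ} (ht : 0 < t) :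
    Hn (m + 1) t = (∫ τ in (0 : ℝ)..t, Hn m τ) + delta (m + 1) := by
  obtain ⟨-, h2, h3⟩ := Fn_vert hRH m ht
  have h4 : ∫ τ in (0 : ℝ)..t, Hn m τ = (1 / Real.pi) * (I ^ m * ∫ τ in (0 : ℝ)..t,
      Fn m (1 / 2 + τ * I)).im := by
    unfold Hn
    rw [intervalIntegral.integral_const_mul, ← intervalIntegral.integral_const_mul (I ^ m)]
    congr 1
    rw [← imCLM_apply, ← ContinuousLinearMap.intervalIntegral_comp_comm _ (h2.const_mul _)]
    rfl
  rw [h4, h3, delta_eq hRH m, Hn]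
  have e : I ^ m * (I * (Fn (m + 1) (1 / 2 + t * I) - cc m)) =
      I ^ (m + 1) * Fn (m + 1) (1 / 2 + t * I) - I ^ (m + 1) * cc m := by ring
  rw [e, sub_im]
  ring

lemma SN_eq (hRH : RiemannHypothesis) {S : ℝ → ℝ} (hS : IsS S) (n : ℕ) :
    ∀ t : ℝ, 0 < t → SN S (n + 1) t = Hn (n + 1) t := by
  induction n with
  | zero =>
    intro t ht
    rw [Hn_succ hRH 0 ht]
    show (∫ τ in (0 : ℝ)..t, S τ) + delta 1 = _
    congr 1
    rw [intervalIntegral.integral_of_le ht.le, intervalIntegral.integral_of_le ht.le]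
    refine integral_congr_ae ?_
    have h1 : ∀ᵐ τ ∂(volume.restrict (Ioc (0 : ℝ) t)), τ ∈ Ioc (0 : ℝ) t :=
      ae_restrict_mem measurableSet_Ioc
    -- finitely many ordinates
    set N : Set ℝ := {τ : ℝ | τ ∈ Icc (0 : ℝ) t ∧ riemannZeta (1 / 2 + τ * I) = 0} with hN
    have hNfin : N.Finite := by
      have hK : IsCompact (Icc (1 / 2 : ℝ) (1 / 2) ×ℂ Icc (0 : ℝ) t) := compact_strip _ _ _ _
      have h2 := hK.inter_riemannZetaZeros_finite
      refine (h2.image Complex.im).subset ?_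
      rintro τ ⟨h3, h4⟩
      refine ⟨1 / 2 + τ * I, ⟨⟨?_, ?_⟩, ?_⟩, by simp⟩
      · simp
      · simpa using h3
      · exact mem_riemannZetaZeros.2 h4
    have h2 : ∀ᵐ τ ∂(volume.restrict (Ioc (0 : ℝ) t)), τ ∉ N := by
      refine ae_restrict_of_ae ?_
      exact hNfin.countable.ae_notMem _
    filter_upwards [h1, h2] with τ hτ hτN
    refine S_eq_H0 hRH hS hτ.1 ?_
    intro hz
    exact hτN ⟨⟨hτ.1.le, hτ.2⟩, hz⟩
  | succ n ih =>
    intro t ht
    rw [Hn_succ hRH (n + 1) ht]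
    show (∫ τ in (0 : ℝ)..t, SN S (n + 1) τ) + delta (n + 1 + 1) = _
    congr 1
    rw [intervalIntegral.integral_of_le ht.le, intervalIntegral.integral_of_le ht.le]
    exact setIntegral_congr_fun measurableSet_Ioc fun τ hτ => ih τ hτ.1

end Pool.Agent.H476
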