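import Pool.Agent.H476.FG

open Complex Filter Topology Set Metric MeasureTheory

namespace Pool.Agent.H476

/-- holomorphy of parameter integrals -/
lemma holo_integral {f : ℂ → ℝ → ℂ} {U : Set ℂ} (hU : IsOpen U) {μ : Measure ℝ}
    (hmeas : ∀ s ∈ U, AEStronglyMeasurable (f s) μ)
    (hdiff : ∀ᵐ y ∂μ, DifferentiableOn ℂ (fun s => f s y) U)
    (hb : ∀ s0 ∈ U, ∃ r : ℝ, 0 < r ∧ closedBall s0 r ⊆ U ∧ ∃ b : ℝ → ℝ, Integrable b μ ∧
      ∀ᵐ y ∂μ, ∀ s ∈ closedBall s0 r, ‖f s y‖ ≤ b y) :
    DifferentiableOn ℂ (fun s => ∫ y, f s y ∂μ) U := by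
  intro s0 hs0
  obtain ⟨r, hr, hrU, b, hbi, hbb⟩ := hb s0 hs0
  have hr2 : 0 < r / 2 := by positivity
  have hball : ball s0 (r / 2) ∈ 𝓝 s0 := ball_mem_nhds s0 hr2
  have hd : ∀ᵐ y ∂μ, ∀ s ∈ ball s0 (r / 2), HasDerivAt (fun s => f s y) (deriv (fun s => f s y) s) s := by
    filter_upwards [hdiff] with y hy s hs
    have hsU : s ∈ U := hrU (ball_subset_closedBall (ball_subset_ball (by linarith) hs))
    exact (hy.differentiableAt (hU.mem_nhds hsU)).hasDerivAt
  have hbd : ∀ᵐ y ∂μ, ∀ s ∈ ball s0 (r / 2), ‖deriv (fun s => f s y) s‖ ≤ b y / (r / 2) := by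
    filter_upwards [hdiff, hbb] with y hy hby s hs
    have hsub : closedBall s (r / 2) ⊆ closedBall s0 r := by
      intro w hw
      rw [mem_closedBall, dist_eq_norm] at hw ⊢
      rw [mem_ball, dist_eq_norm] at hs
      calc ‖w - s0‖ = ‖(w - s) + (s - s0)‖ := by congr 1; ring
        _ ≤ ‖w - s‖ + ‖s - s0‖ := norm_add_le _ _
        _ ≤ r := by linarith
    refine Complex.norm_deriv_le_of_forall_mem_sphere_norm_le hr2 ?_ ?_
    · apply DifferentiableOn.diffContOnCl
      rw [closure_ball _ hr2.ne']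
      exact hy.mono (hsub.trans hrU)
    · intro z hz
      exact hby z (hsub (sphere_subset_closedBall hz))
  have hmeas' : AEStronglyMeasurable (fun y => deriv (fun s => f s y) s0) μ := by
    set h : ℕ → ℝ := fun n => (r / 2) / ((n : ℝ) + 1) with hh
    have hh0 : ∀ n, 0 < h n := fun n => by rw [hh]; positivity
    have hhr : ∀ n, h n ≤ r / 2 := by
      intro n
      rw [hh]
      exact div_le_self hr2.le (by have : (0 : ℝ) ≤ n := Nat.cast_nonneg n; linarith)
    have hht : Tendsto h atTop (𝓝 0) := by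
      rw [hh]
      exact tendsto_const_nhds.div_atTop (tendsto_atTop_add_const_right _ _ tendsto_natCast_atTop_atTop)
    refine aestronglyMeasurable_of_tendsto_ae (u := atTop)
      (f := fun (n : ℕ) y => (h n : ℂ)⁻¹ * (f (s0 + h n) y - f s0 y)) ?_ ?_
    · intro n
      refine AEStronglyMeasurable.const_mul ?_ _
      refine (hmeas _ (hrU ?_)).sub (hmeas _ hs0)
      rw [mem_closedBall, dist_eq_norm, add_sub_cancel_left, norm_real, Real.norm_eq_abs,
        abs_of_pos (hh0 n)]
      linarith [hhr n]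
    · filter_upwards [hd] with y hy
      have h1 := (hy s0 (mem_ball_self hr2)).tendsto_slope_zero
      have h2 : Tendsto (fun n => (h n : ℂ)) atTop (𝓝[≠] 0) := by
        rw [tendsto_nhdsWithin_iff]
        constructor
        · have := (continuous_ofReal.tendsto 0).comp hht
          simpa [Function.comp_def] using this
        · exact Eventually.of_forall fun n => by
            simp only [mem_compl_iff, mem_singleton_iff, ofReal_eq_zero]
            exact (hh0 n).ne'
      exact h1.comp h2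
  have hbi' : Integrable (fun y => b y / (r / 2)) μ := hbi.div_const _
  have hF : Integrable (f s0) μ := by
    refine Integrable.mono' hbi (hmeas s0 hs0) ?_
    filter_upwards [hbb] with y hy
    exact hy s0 (mem_closedBall_self hr.le)
  have hmeasE : ∀ᶠ s in 𝓝 s0, AEStronglyMeasurable (f s) μ := by
    filter_upwards [hU.mem_nhds hs0] with s hs
    exact hmeas s hs
  exact (hasDerivAt_integral_of_dominated_loc_of_deriv_le hball hmeasE hF hmeas' hbd hbi'
    hd).2.differentiableAt.differentiableWithinAt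

/-- the assumptions on the auxiliary function -/
structure Adm (n : ℕ) (L0 : ℝ) (E : ℝ → ℝ) : Prop where
  int : Integrable E
  logint : Integrable (fun y => |E y| * Real.log (1 + |y|))
  ft : ∀ lam : ℝ, L0 ≤ lam → ∫ y : ℝ, (E y : ℂ) * cexp (I * lam * y) = -(I / lam) ^ (n + 1)

lemma log_one_add_le {x : ℝ} (hx : 0 ≤ x) : Real.log (1 + x) ≤ 2 * Real.sqrt x := by
  have h1 : Real.log (1 + x) ≤ 2 * Real.log (1 + Real.sqrt x) := by
    have : Real.log (1 + x) ≤ Real.log ((1 + Real.sqrt x) ^ 2) := by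
      apply Real.log_le_log (by linarith)
      have h2 := Real.sq_sqrt hx
      nlinarith [Real.sqrt_nonneg x]
    rwa [Real.log_pow] at this
  have h2 := Real.log_le_sub_one_of_pos (show 0 < 1 + Real.sqrt x by positivity)
  linarith

/-- `|E| ≤ C/x²` and integrable implies `|E| log` integrable -/
lemma logint_of_decay {E : ℝ → ℝ} (hE : Integrable E) {C : ℝ} (hC : ∀ x : ℝ, x ≠ 0 → |E x| ≤ C / x ^ 2) :
    Integrable (fun y => |E y| * Real.log (1 + |y|)) := by
  have hC0 : 0 ≤ C := by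
    have := hC 1 one_ne_zero
    simp only [one_pow, div_one] at this
    exact (abs_nonneg _).trans this
  have hmeas : AEStronglyMeasurable (fun y => |E y| * Real.log (1 + |y|)) volume := by
    refine (hE.1.norm).mul ?_
    refine Continuous.aestronglyMeasurable ?_
    refine Continuous.log (by fun_prop) fun y => ?_
    have := abs_nonneg y
    linarith
  -- majorant on the outside
  have h32 : IntegrableOn (fun x : ℝ => x ^ (-(3 / 2 : ℝ))) (Ioi 1) :=
    integrableOn_Ioi_rpow_of_lt (by norm_num) one_pos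
  set g : ℝ → ℝ := indicator (Ioi 1) (fun x : ℝ => x ^ (-(3 / 2 : ℝ))) with hg
  have hgI : Integrable g := by
    rw [hg, integrable_indicator_iff measurableSet_Ioi]; exact h32
  have hgI' : Integrable (fun y => g (-y)) := hgI.comp_neg
  have hg0 : ∀ y, 0 ≤ g y := fun y => indicator_nonneg (fun x hx => by
    have : (1 : ℝ) < x := hx
    positivity) y
  refine Integrable.mono' ((hE.norm.mul_const (Real.log 2)).add ((hgI.add hgI').const_mul (2 * C)))
    hmeas (Eventually.of_forall fun y => ?_)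
  have hl0 : 0 ≤ Real.log (1 + |y|) := Real.log_nonneg (by linarith [abs_nonneg y])
  rw [Real.norm_eq_abs, abs_of_nonneg (mul_nonneg (abs_nonneg _) hl0)]
  simp only [Pi.add_apply, Real.norm_eq_abs]
  have hl2 : 0 ≤ Real.log 2 := log2_pos.le
  rcases le_or_gt |y| 1 with h | h
  · have h1 : Real.log (1 + |y|) ≤ Real.log 2 :=
      Real.log_le_log (by linarith [abs_nonneg y]) (by linarith)
    have h2 := mul_le_mul_of_nonneg_left h1 (abs_nonneg (E y))
    have h3 := mul_nonneg (mul_nonneg (by norm_num : (0 : ℝ) ≤ 2) hC0) (add_nonneg (hg0 y) (hg0 (-y)))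
    linarith
  · have hy0 : y ≠ 0 := by rintro rfl; simp at h; linarith
    have h1 : |E y| * Real.log (1 + |y|) ≤ 2 * C * |y| ^ (-(3 / 2 : ℝ)) := by
      have h2 := hC y hy0
      have h3 := log_one_add_le (abs_nonneg y)
      have hyp : 0 < |y| := by linarith
      calc |E y| * Real.log (1 + |y|) ≤ C / y ^ 2 * (2 * Real.sqrt |y|) :=
            mul_le_mul h2 h3 hl0 (by positivity)
        _ = 2 * C * |y| ^ (-(3 / 2 : ℝ)) := by
            rw [Real.sqrt_eq_rpow, ← sq_abs, ← Real.rpow_natCast, div_eq_mul_inv,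
              ← Real.rpow_neg hyp.le]
            have : |y| ^ (-(3 / 2 : ℝ)) = |y| ^ (-((2 : ℕ) : ℝ)) * |y| ^ (1 / 2 : ℝ) := by
              rw [← Real.rpow_add hyp]; norm_num
            rw [this]; ring
    have h4 : |y| ^ (-(3 / 2 : ℝ)) ≤ g y + g (-y) := by
      rcases lt_or_gt_of_ne hy0 with h5 | h5
      · rw [abs_of_neg h5] at h ⊢
        have : g (-y) = (-y) ^ (-(3 / 2 : ℝ)) := by rw [hg, indicator_of_mem (mem_Ioi.2 h)]
        rw [this]
        linarith [hg0 y]
      · rw [abs_of_pos h5] at h ⊢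
        have : g y = y ^ (-(3 / 2 : ℝ)) := by rw [hg, indicator_of_mem (mem_Ioi.2 h)]
        rw [this]
        linarith [hg0 (-y)]
    have h5 := mul_le_mul_of_nonneg_left h4 (mul_nonneg (by norm_num : (0 : ℝ) ≤ 2) hC0)
    have h6 := mul_nonneg (abs_nonneg (E y)) hl2
    linarith

/-- Fourier transform of `E` -/
noncomputable def ftE (E : ℝ → ℝ) (lam : ℝ) : ℂ := ∫ y : ℝ, (E y : ℂ) * cexp (I * lam * y)

lemma norm_exp_I (lam y : ℝ) : ‖cexp (I * lam * y)‖ = 1 := Ext.exp_norm lam y

lemma ftE_int {E : ℝ → ℝ} (hE : Integrable E) (lam : ℝ) :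
    Integrable (fun y : ℝ => (E y : ℂ) * cexp (I * lam * y)) := by
  refine hE.ofReal.mul_bdd (c := 1) ?_ ?_
  · exact (by fun_prop : Continuous fun y : ℝ => cexp (I * lam * y)).aestronglyMeasurable
  · exact Eventually.of_forall fun y => (norm_exp_I lam y).le

lemma ftE_norm {E : ℝ → ℝ} (lam : ℝ) : ‖ftE E lam‖ ≤ ∫ y, |E y| := by
  unfold ftE
  refine (norm_integral_le_integral_norm _).trans (le_of_eq ?_)
  refine integral_congr_ae (Eventually.of_forall fun y => ?_)
  simp only
  rw [norm_mul, norm_exp_I, mul_one, norm_real, Real.norm_eq_abs]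

lemma ftE_cont {E : ℝ → ℝ} (hE : Integrable E) : Continuous (ftE E) := by
  unfold ftE
  refine continuous_of_dominated (bound := fun y => |E y|) (fun lam => (ftE_int hE lam).1) ?_
    hE.norm ?_
  · intro lam
    refine Eventually.of_forall fun y => ?_
    rw [norm_mul, norm_exp_I, mul_one, norm_real, Real.norm_eq_abs]
  · exact Eventually.of_forall fun y => by fun_prop

/-- the domain of the identity -/
def UU : Set ℂ := {s : ℂ | 1 / 2 < s.re ∧ s.re < 2 ∧ 0 < s.im}

lemma UU_open : IsOpen UU := by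
  have h1 : IsOpen {s : ℂ | 1 / 2 < s.re} := isOpen_lt continuous_const continuous_re
  have h2 : IsOpen {s : ℂ | s.re < 2} := isOpen_lt continuous_re continuous_const
  have h3 : IsOpen {s : ℂ | 0 < s.im} := isOpen_lt continuous_const continuous_im
  have : UU = {s : ℂ | 1 / 2 < s.re} ∩ ({s : ℂ | s.re < 2} ∩ {s : ℂ | 0 < s.im}) := by
    ext s; simp [UU]
  rw [this]
  exact h1.inter (h2.inter h3)

lemma UU_conv : Convex ℝ UU := by
  have : UU = {s : ℂ | 1 / 2 < s.re} ∩ ({s : ℂ | s.re < 2} ∩ {s : ℂ | 0 < s.im}) := by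
    ext s; simp [UU]
  rw [this]
  exact (convex_halfSpace_re_gt _).inter ((convex_halfSpace_re_lt _).inter (convex_halfSpace_im_gt _))

/-- local box in `UU` -/
lemma UU_box {s0 : ℂ} (hs0 : s0 ∈ UU) : ∃ r : ℝ, 0 < r ∧ closedBall s0 r ⊆ UU ∧
    ∀ s ∈ closedBall s0 r, 1 / 2 + r ≤ s.re ∧ s.re ≤ 2 - r ∧ r ≤ s.im ∧ s.im ≤ s0.im + 1 ∧
      |s.im| ≤ |s0.im| + 1 := by
  obtain ⟨h1, h2, h3⟩ := hs0
  set r := min (min ((s0.re - 1 / 2) / 2) ((2 - s0.re) / 2)) (min (s0.im / 2) 1) with hr
  have r1 : r ≤ (s0.re - 1 / 2) / 2 := (min_le_left _ _).trans (min_le_left _ _)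
  have r2 : r ≤ (2 - s0.re) / 2 := (min_le_left _ _).trans (min_le_right _ _)
  have r3 : r ≤ s0.im / 2 := (min_le_right _ _).trans (min_le_left _ _)
  have r4 : r ≤ 1 := (min_le_right _ _).trans (min_le_right _ _)
  have hr0 : 0 < r := by
    rw [hr]
    refine lt_min (lt_min ?_ ?_) (lt_min ?_ one_pos) <;> linarith
  have key : ∀ s ∈ closedBall s0 r, 1 / 2 + r ≤ s.re ∧ s.re ≤ 2 - r ∧ r ≤ s.im ∧
      s.im ≤ s0.im + 1 ∧ |s.im| ≤ |s0.im| + 1 := by
    intro s hs
    rw [mem_closedBall, dist_eq_norm] at hs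
    have e1 := (abs_re_le_norm (s - s0)).trans hs
    have e2 := (abs_im_le_norm (s - s0)).trans hs
    rw [sub_re, abs_le] at e1
    rw [sub_im, abs_le] at e2
    refine ⟨by linarith, by linarith, by linarith, by linarith, ?_⟩
    rw [abs_of_pos h3, abs_of_pos (by linarith)]
    linarith
  refine ⟨r, hr0, ?_, key⟩
  intro s hs
  obtain ⟨k1, k2, k3, -, -⟩ := key s hs
  exact ⟨by linarith, by linarith, by linarith⟩

lemma log_shift (a y : ℝ) : Real.log (3 + |a - y|) ≤ Real.log (3 + |a|) + Real.log (1 + |y|) := by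
  rw [← Real.log_mul (by positivity) (by positivity)]
  apply Real.log_le_log (by positivity)
  have h1 := abs_sub a y
  have h2 := abs_nonneg a
  have h3 := abs_nonneg y
  nlinarith [abs_sub_le a 0 y, abs_sub_comm (0 : ℝ) y, abs_neg y]

/-- left side -/
noncomputable def LHSf (E : ℝ → ℝ) (s : ℂ) : ℂ := ∫ y : ℝ, (E y : ℂ) * gt (s - I * y)

lemma shift_re (s : ℂ) (y : ℝ) : (s - I * y).re = s.re := by simp
lemma shift_im (s : ℂ) (y : ℝ) : (s - I * y).im = s.im - y := by simp

lemma gt_line_cont (hRH : RiemannHypothesis) {s : ℂ} (hs : 1 / 2 < s.re) :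
    Continuous (fun y : ℝ => gt (s - I * y)) := by
  rw [continuous_iff_continuousAt]
  intro y
  have h1 : ContinuousAt gt (s - I * y) := (gt_an hRH (by rw [shift_re]; exact hs)).continuousAt
  exact ContinuousAt.comp (f := fun y : ℝ => s - I * (y : ℂ)) h1 (by fun_prop)

lemma LHS_bound (hRH : RiemannHypothesis) {n : ℕ} {L0 : ℝ} {E : ℝ → ℝ} (hE : Adm n L0 E)
    {r a : ℝ} (hr : 0 < r) : ∃ b : ℝ → ℝ, Integrable b ∧ ∀ (s : ℂ) (y : ℝ),
      1 / 2 + r ≤ s.re → s.re ≤ 2 → |s.im| ≤ a → ‖(E y : ℂ) * gt (s - I * y)‖ ≤ b y := by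
  obtain ⟨C, hC, hb⟩ := gt_bound hRH
  refine ⟨fun y => (C / r * Real.log (3 + |a|)) * |E y| + (C / r) * (|E y| * Real.log (1 + |y|)),
    (hE.int.norm.const_mul _).add (hE.logint.const_mul _), fun s y h1 h2 h3 => ?_⟩
  have h4 := hb (s - I * y) (by rw [shift_re]; linarith) (by rw [shift_re]; exact h2)
  rw [shift_re, shift_im] at h4
  have h5 := log_shift s.im y
  have h6 : Real.log (3 + |s.im|) ≤ Real.log (3 + |a|) := by
    apply Real.log_le_log (by positivity)
    linarith [le_abs_self a]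
  have hl : 0 ≤ Real.log (1 + |y|) := Real.log_nonneg (by linarith [abs_nonneg y])
  have h7 : C * Real.log (3 + |s.im - y|) / (s.re - 1 / 2) ≤
      C / r * (Real.log (3 + |a|) + Real.log (1 + |y|)) := by
    have h8 : 0 ≤ Real.log (3 + |s.im - y|) := by linarith [one_le_log3 (s.im - y)]
    calc C * Real.log (3 + |s.im - y|) / (s.re - 1 / 2) ≤ C * Real.log (3 + |s.im - y|) / r :=
          div_le_div_of_nonneg_left (by positivity) hr (by linarith)
      _ = C / r * Real.log (3 + |s.im - y|) := by ring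
      _ ≤ _ := mul_le_mul_of_nonneg_left (by linarith) (by positivity)
  rw [norm_mul, norm_real, Real.norm_eq_abs]
  calc |E y| * ‖gt (s - I * y)‖ ≤ |E y| * (C / r * (Real.log (3 + |a|) + Real.log (1 + |y|))) :=
        mul_le_mul_of_nonneg_left (h4.trans h7) (abs_nonneg _)
    _ = _ := by ring

lemma LHS_diff (hRH : RiemannHypothesis) {n : ℕ} {L0 : ℝ} {E : ℝ → ℝ} (hE : Adm n L0 E) :
    DifferentiableOn ℂ (LHSf E) UU := by
  unfold LHSf
  refine holo_integral UU_open ?_ ?_ ?_
  · intro s hs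
    exact hE.int.ofReal.1.mul (gt_line_cont hRH hs.1).aestronglyMeasurable
  · refine Eventually.of_forall fun y s hs => ?_
    refine DifferentiableAt.differentiableWithinAt ?_
    refine (differentiableAt_const _).mul ?_
    exact DifferentiableAt.comp s (f := fun s : ℂ => s - I * y)
      (gt_an hRH (by rw [shift_re]; exact hs.1)).differentiableAt (by fun_prop)
  · intro s0 hs0
    obtain ⟨r, hr, hrU, hbox⟩ := UU_box hs0
    obtain ⟨b, hbI, hbb⟩ := LHS_bound hRH hE (r := r) (a := |s0.im| + 1) hr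
    refine ⟨r, hr, hrU, b, hbI, Eventually.of_forall fun y s hs => ?_⟩
    obtain ⟨k1, k2, k3, k4, k5⟩ := hbox s hs
    exact hbb s y k1 (by linarith) k5

lemma Fn_diff (hRH : RiemannHypothesis) (n : ℕ) : DifferentiableOn ℂ (Fn n) UU := by
  unfold Fn
  refine DifferentiableOn.neg ?_
  refine holo_integral UU_open ?_ ?_ ?_
  · intro s hs
    exact Fn_meas hRH n hs.1.le hs.2.2
  · refine (ae_restrict_iff' measurableSet_Ioi).2 (Eventually.of_forall fun u hu => ?_)
    have hu : 0 < u := hu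
    intro s hs
    refine DifferentiableAt.differentiableWithinAt ?_
    refine (differentiableAt_const _).mul ?_
    exact DifferentiableAt.comp s (f := fun s : ℂ => s + u)
      (Lz_an hRH (by simp; linarith [hs.1]) (ne_one_of_im (by simpa using hs.2.2))).differentiableAt
      (by fun_prop)
  · intro s0 hs0
    obtain ⟨r, hr, hrU, hbox⟩ := UU_box hs0
    obtain ⟨C, hC, hb⟩ := Lz_bound_in hRH (δ := r) (t1 := r) (t2 := s0.im + 1) hr hr
    refine ⟨r, hr, hrU, fun u => C * (u ^ n * (2 : ℝ) ^ (-u)), (intOn_pow_two n).const_mul C, ?_⟩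
    refine (ae_restrict_iff' measurableSet_Ioi).2 (Eventually.of_forall fun u hu s hs => ?_)
    have hu : 0 < u := hu
    obtain ⟨k1, k2, k3, k4, k5⟩ := hbox s hs
    have hf : (1 : ℝ) ≤ n.factorial := by exact_mod_cast Nat.one_le_iff_ne_zero.2 (Nat.factorial_ne_zero n)
    rw [norm_mul, norm_real, Real.norm_eq_abs, abs_of_nonneg (by positivity)]
    have e1 : u ^ n / n.factorial ≤ u ^ n := div_le_self (by positivity) hf
    calc u ^ n / n.factorial * ‖Lz (s + u)‖ ≤ u ^ n * (C * (2 : ℝ) ^ (-u)) :=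
          mul_le_mul e1 (hb s u k1 k3 k4 hu.le) (norm_nonneg _) (by positivity)
      _ = _ := by ring

end Pool.Agent.H476
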