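import Pool.Agent.H476.HA

open Complex Filter Topology Set Metric MeasureTheory

namespace Pool.Agent.H476

/-- the finite prime sum -/
noncomputable def PPf (n : ℕ) (E : ℝ → ℝ) (N : ℕ) (s : ℂ) : ℂ :=
  ∑ m ∈ Finset.range N, (ArithmeticFunction.vonMangoldt m : ℂ) * (m : ℂ) ^ (-s) *
    (ftE E (Real.log m) + (I / (Real.log m : ℝ)) ^ (n + 1))

/-- the integral over the bounded frequencies -/
noncomputable def QQf (L0 : ℝ) (E : ℝ → ℝ) (s : ℂ) : ℂ :=
  ∫ lam in Ioc (0 : ℝ) L0, cexp (-(s - 1) * lam) * ftE E lam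

/-- the tail term -/
noncomputable def RRf (n : ℕ) (L0 : ℝ) (s : ℂ) : ℂ :=
  ∫ u in Ioi (0 : ℝ), ((u ^ n / n.factorial : ℝ) : ℂ) * (cexp (-((s + u - 1) * L0)) / (s + u - 1))

lemma PPf_diff (n : ℕ) (E : ℝ → ℝ) (N : ℕ) (U : Set ℂ) : DifferentiableOn ℂ (PPf n E N) U := by
  unfold PPf
  refine DifferentiableOn.fun_sum fun m _ => ?_
  refine DifferentiableOn.mul_const ?_ _
  rcases Nat.eq_zero_or_pos m with rfl | hm
  · simp only [ArithmeticFunction.map_zero, ofReal_zero, zero_mul]
    exact differentiableOn_const _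
  · refine (differentiableOn_const _).mul ?_
    intro s _
    refine DifferentiableAt.differentiableWithinAt ?_
    refine DifferentiableAt.const_cpow (by fun_prop) (Or.inl ?_)
    exact_mod_cast hm.ne'

lemma QQf_diff {L0 : ℝ} {E : ℝ → ℝ} (hE : Integrable E) : DifferentiableOn ℂ (QQf L0 E) UU := by
  unfold QQf
  refine holo_integral UU_open ?_ ?_ ?_
  · intro s _
    exact (Continuous.mul (by fun_prop) (ftE_cont hE)).aestronglyMeasurable
  · exact Eventually.of_forall fun y => by fun_prop
  · intro s0 hs0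
    obtain ⟨r, hr, hrU, hbox⟩ := UU_box hs0
    refine ⟨r, hr, hrU, fun _ => Real.exp (L0 / 2) * ∫ y, |E y|, integrable_const _, ?_⟩
    refine (ae_restrict_iff' measurableSet_Ioc).2 (Eventually.of_forall fun lam hl s hs => ?_)
    obtain ⟨k1, k2, k3, k4, k5⟩ := hbox s hs
    rw [norm_mul]
    refine mul_le_mul ?_ (ftE_norm lam) (norm_nonneg _) (Real.exp_pos _).le
    rw [Complex.norm_exp, Real.exp_le_exp]
    have : (-(s - 1) * (lam : ℂ)).re = -(s.re - 1) * lam := by simp
    rw [this]
    nlinarith [hl.1, hl.2]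

/-- bound for the integrand of `RRf` -/
lemma RR_int_bound (n : ℕ) {L0 : ℝ} (hL : 0 < L0) {s : ℂ} (hs : 1 / 2 ≤ s.re) (ht : 0 < s.im)
    {u : ℝ} (hu : 0 < u) :
    ‖((u ^ n / n.factorial : ℝ) : ℂ) * (cexp (-((s + u - 1) * L0)) / (s + u - 1))‖ ≤
      Real.exp (L0 / 2) / s.im / n.factorial * (u ^ n * Real.exp (-(L0 * u))) := by
  rw [norm_mul, norm_real, Real.norm_eq_abs, abs_of_nonneg (by positivity), norm_div,
    Complex.norm_exp]
  have e1 : (-((s + u - 1) * (L0 : ℂ))).re = -((s.re + u - 1) * L0) := by simp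
  rw [e1]
  have e2 : Real.exp (-((s.re + u - 1) * L0)) ≤ Real.exp (L0 / 2) * Real.exp (-(L0 * u)) := by
    rw [← Real.exp_add, Real.exp_le_exp]
    nlinarith
  have e3 : s.im ≤ ‖s + u - 1‖ := by
    have h := abs_im_le_norm (s + u - 1)
    have h4 : (s + u - 1).im = s.im := by simp
    rw [h4, abs_of_pos ht] at h
    exact h
  calc u ^ n / n.factorial * (Real.exp (-((s.re + u - 1) * L0)) / ‖s + u - 1‖)
      ≤ u ^ n / n.factorial * (Real.exp (L0 / 2) * Real.exp (-(L0 * u)) / s.im) := by
        refine mul_le_mul_of_nonneg_left ?_ (by positivity)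
        exact div_le_div₀ (by positivity) e2 ht e3
    _ = _ := by ring

lemma RR_meas (n : ℕ) (L0 : ℝ) {s : ℂ} (ht : 0 < s.im) : AEStronglyMeasurable
    (fun u : ℝ => ((u ^ n / n.factorial : ℝ) : ℂ) * (cexp (-((s + u - 1) * L0)) / (s + u - 1)))
      (volume.restrict (Ioi 0)) := by
  refine Continuous.aestronglyMeasurable ?_
  refine Continuous.mul (by fun_prop) ?_
  refine Continuous.div (by fun_prop) (by fun_prop) fun u h => ?_
  have := congrArg im h
  simp at this
  linarith

lemma RRf_diff (n : ℕ) {L0 : ℝ} (hL : 0 < L0) : DifferentiableOn ℂ (RRf n L0) UU := by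
  unfold RRf
  refine holo_integral UU_open ?_ ?_ ?_
  · intro s hs
    exact RR_meas n L0 hs.2.2
  · refine Eventually.of_forall fun u s hs => ?_
    have hne : s + u - 1 ≠ 0 := by
      intro h
      have := congrArg im h
      simp at this
      linarith [hs.2.2]
    refine DifferentiableAt.differentiableWithinAt ?_
    fun_prop (disch := assumption)
  · intro s0 hs0
    obtain ⟨r, hr, hrU, hbox⟩ := UU_box hs0
    refine ⟨r, hr, hrU, fun u => Real.exp (L0 / 2) / r / n.factorial * (u ^ n * Real.exp (-(L0 * u))),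
      (Ext.integrableOn_pow_exp n hL).const_mul _, ?_⟩
    refine (ae_restrict_iff' measurableSet_Ioi).2 (Eventually.of_forall fun u hu s hs => ?_)
    have hu : 0 < u := hu
    obtain ⟨k1, k2, k3, k4, k5⟩ := hbox s hs
    refine (RR_int_bound n hL (by linarith) (by linarith) hu).trans ?_
    refine mul_le_mul_of_nonneg_right ?_ (by positivity)
    apply div_le_div_of_nonneg_right _ (by positivity)
    exact div_le_div_of_nonneg_left (Real.exp_pos _).le hr k3

/-! ### the identity for `Re s > 1` -/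

noncomputable def tm (s : ℂ) (m : ℕ) : ℂ := LSeries.term (fun n => (ArithmeticFunction.vonMangoldt n : ℂ)) s m

lemma tm_summable {s : ℂ} (hs : 1 < s.re) : Summable (fun m => ‖tm s m‖) :=
  (ArithmeticFunction.LSeriesSummable_vonMangoldt hs).norm

lemma Lz_hasSum {s : ℂ} (hs : 1 < s.re) : HasSum (fun m => -tm s m) (Lz s) := by
  rw [Lz_eq_LSeries hs]
  exact (ArithmeticFunction.LSeriesSummable_vonMangoldt hs).hasSum.neg

/-- shift in the exponent -/
lemma tm_shift (s w : ℂ) (m : ℕ) : tm (s + w) m = tm s m * cexp (-(w * Real.log m)) := by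
  unfold tm
  rcases Nat.eq_zero_or_pos m with rfl | hm
  · simp
  · have hm0 : (m : ℂ) ≠ 0 := by exact_mod_cast hm.ne'
    rw [LSeries.term_of_ne_zero hm.ne', LSeries.term_of_ne_zero hm.ne', cpow_add _ _ hm0,
      div_mul_eq_div_div, Complex.exp_neg, div_eq_mul_inv _ ((m : ℂ) ^ w)]
    congr 2
    rw [cpow_def_of_ne_zero hm0, mul_comm w, ← natCast_log]

lemma norm_tm_shift_I (s : ℂ) (y : ℝ) (m : ℕ) : ‖tm (s - I * y) m‖ = ‖tm s m‖ := by
  have : s - I * y = s + (-(I * y)) := by ring
  have e : (-(-(I * (y : ℂ)) * (Real.log m : ℂ))) = ((y * Real.log m : ℝ) : ℂ) * I := by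
    rw [ofReal_mul]; ring
  rw [this, tm_shift, norm_mul, e, norm_exp_ofReal_mul_I, mul_one]

/-- first half: the zeta part -/
lemma id_zeta {E : ℝ → ℝ} (hE : Integrable E) {s : ℂ} (hs : 1 < s.re) :
    Integrable (fun y : ℝ => (E y : ℂ) * Lz (s - I * y)) ∧
    HasSum (fun m : ℕ => -(tm s m * ftE E (Real.log m))) (∫ y : ℝ, (E y : ℂ) * Lz (s - I * y)) := by
  set F : ℕ → ℝ → ℂ := fun m y => (E y : ℂ) * (-tm (s - I * y) m) with hF
  have hFeq : ∀ m y, F m y = -(tm s m) * ((E y : ℂ) * cexp (I * (Real.log m : ℝ) * y)) := by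
    intro m y
    rw [hF]
    have : s - I * y = s + (-(I * y)) := by ring
    simp only
    rw [this, tm_shift]
    have e : -(-(I * (y : ℂ)) * (Real.log m : ℂ)) = I * (Real.log m : ℝ) * y := by ring
    rw [e]
    ring
  have hI : ∀ m, Integrable (F m) := by
    intro m
    have := (ftE_int hE (Real.log m)).const_mul (-(tm s m))
    exact this.congr (Eventually.of_forall fun y => (hFeq m y).symm)
  have hnorm : ∀ m y, ‖F m y‖ = ‖tm s m‖ * |E y| := by
    intro m y
    rw [hF]
    simp only
    rw [norm_mul, norm_neg, norm_tm_shift_I, norm_real, Real.norm_eq_abs]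
    ring
  have hS : Summable fun m => ∫ y, ‖F m y‖ := by
    simp_rw [hnorm]
    simp_rw [integral_const_mul]
    exact (tm_summable hs).mul_right _
  have h := hasSum_integral_of_summable_integral_norm hI hS
  have hts : ∀ y : ℝ, ∑' m, F m y = (E y : ℂ) * Lz (s - I * y) := by
    intro y
    rw [hF]
    simp only
    rw [tsum_mul_left, (Lz_hasSum (s := s - I * y) (by simpa using hs)).tsum_eq]
  constructor
  · have hcont : Continuous (fun y : ℝ => Lz (s - I * y)) := by
      rw [continuous_iff_continuousAt]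
      intro y
      have hne : s - I * y ≠ 1 := by
        intro h
        have := congrArg re h
        simp at this
        linarith
      have h1 : ContinuousAt Lz (s - I * y) := (Lz_an_of_ne hne
        (riemannZeta_ne_zero_of_one_le_re (by simp; linarith))).continuousAt
      exact ContinuousAt.comp (f := fun y : ℝ => s - I * (y : ℂ)) h1 (by fun_prop)
    refine hE.ofReal.mul_bdd (c := ∑' m, ‖tm s m‖) hcont.aestronglyMeasurable
      (Eventually.of_forall fun y => ?_)
    rw [← (Lz_hasSum (s := s - I * y) (by simpa using hs)).tsum_eq]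
    refine tsum_of_norm_bounded (tm_summable hs).hasSum fun m => ?_
    rw [norm_neg, norm_tm_shift_I]
  · simp_rw [hts] at h
    refine h.congr_fun fun m => ?_
    simp_rw [hFeq]
    rw [integral_const_mul, ftE]
    ring

/-- second half: the pole part -/
lemma id_pole {E : ℝ → ℝ} (hE : Integrable E) {s : ℂ} (hs : 1 < s.re) :
    Integrable (fun y : ℝ => (E y : ℂ) * (1 / (s - I * y - 1))) ∧
    ∫ y : ℝ, (E y : ℂ) * (1 / (s - I * y - 1)) = ∫ lam in Ioi (0 : ℝ), cexp (-(s - 1) * lam) * ftE E lam ∧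
    IntegrableOn (fun lam : ℝ => cexp (-(s - 1) * lam) * ftE E lam) (Ioi 0) := by
  have hs1 : 0 < s.re - 1 := by linarith
  have hinv : ∀ y : ℝ, 1 / (s - I * y - 1) = ∫ lam in Ioi (0 : ℝ), cexp (-((s - I * y - 1) * lam)) := by
    intro y
    have := Ext.int_pow_exp 0 (s := s - I * y - 1) (by simp; linarith)
    simp only [pow_zero, one_mul, Nat.factorial_zero, Nat.cast_one, zero_add, pow_one] at this
    exact this.symm
  have hexpI : IntegrableOn (fun lam : ℝ => Real.exp (-((s.re - 1) * lam))) (Ioi 0) := by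
    have := Ext.integrableOn_pow_exp 0 hs1
    simpa using this
  have hP : Integrable (fun p : ℝ × ℝ => (E p.1 : ℂ) * cexp (-((s - I * p.1 - 1) * p.2)))
      (volume.prod (volume.restrict (Ioi 0))) := by
    have hM := hE.norm.mul_prod hexpI
    refine Integrable.mono' hM ?_ ?_
    · refine (hE.ofReal.1.comp_fst).mul ?_
      exact (by fun_prop : Continuous fun p : ℝ × ℝ =>
        cexp (-((s - I * (p.1 : ℂ) - 1) * (p.2 : ℂ)))).aestronglyMeasurable
    · refine Eventually.of_forall fun p => ?_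
      rw [norm_mul, norm_real, Complex.norm_exp]
      simp
  have hint1 := hP.integral_prod_left
  have hint2 := hP.integral_prod_right
  have hsw := integral_integral_swap
    (f := fun (y lam : ℝ) => (E y : ℂ) * cexp (-((s - I * y - 1) * lam))) hP
  have e1 : ∀ y : ℝ, ∫ lam in Ioi (0 : ℝ), (E y : ℂ) * cexp (-((s - I * y - 1) * lam)) =
      (E y : ℂ) * (1 / (s - I * y - 1)) := by
    intro y
    rw [integral_const_mul, hinv]
  have e2 : ∀ lam : ℝ, ∫ y : ℝ, (E y : ℂ) * cexp (-((s - I * y - 1) * lam)) =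
      cexp (-(s - 1) * lam) * ftE E lam := by
    intro lam
    rw [ftE, ← integral_const_mul]
    refine integral_congr_ae (Eventually.of_forall fun y => ?_)
    simp only
    have : cexp (-((s - I * y - 1) * lam)) = cexp (-(s - 1) * lam) * cexp (I * lam * y) := by
      rw [← Complex.exp_add]; congr 1; ring
    rw [this]; ring
  simp_rw [e1, e2] at hsw
  refine ⟨?_, hsw, ?_⟩
  · refine hint1.congr (Eventually.of_forall fun y => ?_)
    exact e1 y
  · refine hint2.congr (Eventually.of_forall fun lam => ?_)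
    exact e2 lam

/-- `F_n` as a Dirichlet series -/
lemma Fn_hasSum (n : ℕ) {s : ℂ} (hs : 1 < s.re) :
    HasSum (fun m : ℕ => tm s m / (Real.log m : ℝ) ^ (n + 1)) (Fn n s) := by
  -- termwise integration
  set F : ℕ → ℝ → ℂ := fun m u => ((u ^ n / n.factorial : ℝ) : ℂ) * (-tm (s + u) m) with hF
  have hFeq : ∀ m u, F m u = -(tm s m / n.factorial) * ((u : ℂ) ^ n * cexp (-((Real.log m : ℝ) * u))) := by
    intro m u
    rw [hF]
    simp only
    rw [tm_shift, mul_comm (u : ℂ) ((Real.log m : ℝ) : ℂ), ofReal_div, ofReal_pow, ofReal_natCast]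
    ring
  have htm0 : ∀ m : ℕ, m < 2 → tm s m = 0 := by
    intro m hm
    interval_cases m <;> simp [tm, LSeries.term]
  have hlog : ∀ m : ℕ, 2 ≤ m → Real.log 2 ≤ Real.log m := by
    intro m hm
    exact Real.log_le_log (by norm_num) (by exact_mod_cast hm)
  have hI : ∀ m, IntegrableOn (F m) (Ioi 0) := by
    intro m
    rcases lt_or_ge m 2 with hm | hm
    · have : F m = fun _ => 0 := by
        funext u
        rw [hFeq, htm0 m hm]; simp
      rw [this]
      exact integrableOn_zero
    · have h1 := (Ext.integrableOn_pow_exp_c n (s := ((Real.log m : ℝ) : ℂ))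
        (by rw [ofReal_re]; exact lt_of_lt_of_le log2_pos (hlog m hm))).const_mul (-(tm s m / n.factorial))
      exact h1.congr (Eventually.of_forall fun u => (hFeq m u).symm)
  have hnorm : ∀ m, ∫ u in Ioi (0 : ℝ), ‖F m u‖ ≤ ‖tm s m‖ * (1 / (Real.log 2) ^ (n + 1)) := by
    intro m
    rcases lt_or_ge m 2 with hm | hm
    · have : F m = fun _ => 0 := by
        funext u
        rw [hFeq, htm0 m hm]; simp
      rw [this, htm0 m hm]
      simp
    · have hlm := lt_of_lt_of_le log2_pos (hlog m hm)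
      have e : ∀ u ∈ Ioi (0 : ℝ), ‖F m u‖ = (‖tm s m‖ / n.factorial) * (u ^ n * Real.exp (-(Real.log m * u))) := by
        intro u hu
        have hu : 0 < u := hu
        rw [hFeq, norm_mul, norm_neg, norm_div, Ext.norm_pow_exp n _ hu.le, ofReal_re,
          Complex.norm_natCast]
      rw [setIntegral_congr_fun measurableSet_Ioi e, integral_const_mul,
        Ext.int_pow_exp_real n hlm]
      have hf : (0 : ℝ) < n.factorial := by exact_mod_cast Nat.factorial_pos n
      have : ‖tm s m‖ / n.factorial * (n.factorial / Real.log m ^ (n + 1)) =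
          ‖tm s m‖ * (1 / Real.log m ^ (n + 1)) := by field_simp
      rw [this]
      refine mul_le_mul_of_nonneg_left ?_ (norm_nonneg _)
      apply one_div_le_one_div_of_le (pow_pos log2_pos _)
      exact pow_le_pow_left₀ log2_pos.le (hlog m hm) _
  have hS : Summable fun m => ∫ u in Ioi (0 : ℝ), ‖F m u‖ :=
    Summable.of_nonneg_of_le (fun m => integral_nonneg fun u => norm_nonneg _) hnorm
      ((tm_summable hs).mul_right _)
  have h := hasSum_integral_of_summable_integral_norm hI hS
  have hts : ∀ u ∈ Ioi (0 : ℝ), ∑' m, F m u = ((u ^ n / n.factorial : ℝ) : ℂ) * Lz (s + u) := by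
    intro u hu
    have hu : 0 < u := hu
    rw [hF]
    simp only
    rw [tsum_mul_left, (Lz_hasSum (s := s + u) (by simp; linarith)).tsum_eq]
  rw [setIntegral_congr_fun measurableSet_Ioi hts] at h
  have h2 := h.neg
  rw [← Fn] at h2
  refine h2.congr_fun fun m => ?_
  rcases lt_or_ge m 2 with hm | hm
  · have : F m = fun _ => 0 := by
      funext u
      rw [hFeq, htm0 m hm]; simp
    rw [this, htm0 m hm]
    simp
  · have hlm := lt_of_lt_of_le log2_pos (hlog m hm)
    simp_rw [hFeq]
    rw [integral_const_mul, Ext.int_pow_exp n (by rw [ofReal_re]; exact hlm)]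
    have hf : (n.factorial : ℂ) ≠ 0 := by exact_mod_cast Nat.factorial_ne_zero n
    have hl : ((Real.log m : ℝ) : ℂ) ≠ 0 := by exact_mod_cast hlm.ne'
    field_simp

end Pool.Agent.H476
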