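import Pool.Agent.H476.HB

open Complex Filter Topology Set Metric MeasureTheory

namespace Pool.Agent.H476

lemma RRf_eq (n : ℕ) {L0 : ℝ} (hL : 0 < L0) {s : ℂ} (hs : 1 < s.re) :
    ∫ lam in Ioi L0, cexp (-(s - 1) * lam) * (1 / (lam : ℂ) ^ (n + 1)) = RRf n L0 s := by
  have hs1 : 0 < s.re - 1 := by linarith
  have hP : Integrable (fun p : ℝ × ℝ => ((p.2 ^ n / n.factorial : ℝ) : ℂ) *
      cexp (-((s + p.2 - 1) * p.1))) ((volume.restrict (Ioi L0)).prod (volume.restrict (Ioi (0 : ℝ)))) := by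
    have hI1 : IntegrableOn (fun lam : ℝ => Real.exp (-((s.re - 1) * lam))) (Ioi L0) := by
      have := Ext.integrableOn_pow_exp 0 hs1
      simp only [pow_zero, one_mul] at this
      exact this.mono_set (Ioi_subset_Ioi hL.le)
    have hI2 : IntegrableOn (fun u : ℝ => u ^ n * Real.exp (-(L0 * u))) (Ioi 0) :=
      Ext.integrableOn_pow_exp n hL
    refine Integrable.mono' (hI1.mul_prod hI2) ?_ ?_
    · exact (by fun_prop : Continuous fun p : ℝ × ℝ => ((p.2 ^ n / n.factorial : ℝ) : ℂ) *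
        cexp (-((s + (p.2 : ℂ) - 1) * (p.1 : ℂ)))).aestronglyMeasurable
    · have f1 : ∀ᵐ u ∂(volume.restrict (Ioi L0)), u ∈ Ioi L0 := ae_restrict_mem measurableSet_Ioi
      have f2 : ∀ᵐ u ∂(volume.restrict (Ioi (0 : ℝ))), u ∈ Ioi (0 : ℝ) := ae_restrict_mem measurableSet_Ioi
      have g1 := (Measure.quasiMeasurePreserving_fst (μ := volume.restrict (Ioi L0))
        (ν := volume.restrict (Ioi (0 : ℝ)))).ae f1
      have g2 := (Measure.quasiMeasurePreserving_snd (μ := volume.restrict (Ioi L0))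
        (ν := volume.restrict (Ioi (0 : ℝ)))).ae f2
      filter_upwards [g1, g2] with p hp1 hp2
      obtain ⟨lam, u⟩ := p
      have hlam : L0 < lam := hp1
      have hu : 0 < u := hp2
      simp only
      have hf : (1 : ℝ) ≤ n.factorial := by exact_mod_cast Nat.one_le_iff_ne_zero.2 (Nat.factorial_ne_zero n)
      rw [norm_mul, norm_real, Real.norm_eq_abs, abs_of_nonneg (by positivity), Complex.norm_exp]
      have e1 : (-((s + u - 1) * (lam : ℂ))).re = -((s.re - 1) * lam) + -(u * lam) := by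
        simp; ring
      rw [e1, Real.exp_add]
      have e2 : u ^ n / n.factorial ≤ u ^ n := div_le_self (by positivity) hf
      have e3 : Real.exp (-(u * lam)) ≤ Real.exp (-(L0 * u)) := by
        rw [Real.exp_le_exp]; nlinarith
      calc u ^ n / n.factorial * (Real.exp (-((s.re - 1) * lam)) * Real.exp (-(u * lam)))
          ≤ u ^ n * (Real.exp (-((s.re - 1) * lam)) * Real.exp (-(L0 * u))) := by
            gcongr
        _ = _ := by ring
  have hsw := integral_integral_swap (f := fun (lam u : ℝ) => ((u ^ n / n.factorial : ℝ) : ℂ) *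
      cexp (-((s + u - 1) * lam))) hP
  have e1 : ∀ lam ∈ Ioi L0, ∫ u in Ioi (0 : ℝ), ((u ^ n / n.factorial : ℝ) : ℂ) *
      cexp (-((s + u - 1) * lam)) = cexp (-(s - 1) * lam) * (1 / (lam : ℂ) ^ (n + 1)) := by
    intro lam hlam
    have hlam : L0 < lam := hlam
    have hl0 : 0 < lam := by linarith
    have h1 := Ext.int_pow_exp n (s := (lam : ℂ)) (by simpa using hl0)
    have e : ∀ u : ℝ, ((u ^ n / n.factorial : ℝ) : ℂ) * cexp (-((s + u - 1) * lam)) =
        (cexp (-(s - 1) * lam) / n.factorial) * ((u : ℂ) ^ n * cexp (-(lam * u))) := by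
      intro u
      have : cexp (-((s + u - 1) * lam)) = cexp (-(s - 1) * lam) * cexp (-(lam * u)) := by
        rw [← Complex.exp_add]; congr 1; ring
      rw [this]
      push_cast
      ring
    simp_rw [e]
    rw [integral_const_mul, h1]
    have hf : (n.factorial : ℂ) ≠ 0 := by exact_mod_cast Nat.factorial_ne_zero n
    have hl : (lam : ℂ) ≠ 0 := by exact_mod_cast hl0.ne'
    field_simp
  have e2 : ∀ u ∈ Ioi (0 : ℝ), ∫ lam in Ioi L0, ((u ^ n / n.factorial : ℝ) : ℂ) *
      cexp (-((s + u - 1) * lam)) = ((u ^ n / n.factorial : ℝ) : ℂ) *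
        (cexp (-((s + u - 1) * L0)) / (s + u - 1)) := by
    intro u hu
    have hu : 0 < u := hu
    rw [integral_const_mul]
    congr 1
    have hre : 0 < (s + u - 1).re := by simp; linarith
    have h1 : ∫ lam in Ioi L0, cexp (-(s + u - 1) * lam) = -cexp (-(s + u - 1) * L0) / (-(s + u - 1)) :=
      integral_exp_mul_complex_Ioi (by rw [neg_re]; linarith) L0
    have h2 : ∀ lam : ℝ, cexp (-((s + u - 1) * lam)) = cexp (-(s + u - 1) * lam) := by
      intro lam; congr 1; ring
    simp_rw [h2]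
    rw [h1, neg_div_neg_eq]
  rw [setIntegral_congr_fun measurableSet_Ioi e1, setIntegral_congr_fun measurableSet_Ioi e2] at hsw
  rw [hsw, RRf]

lemma identity_right {n : ℕ} {L0 : ℝ} (hL : 0 < L0) {E : ℝ → ℝ}
    (hE : Adm n L0 E) {s : ℂ} (hs : 1 < s.re) :
    LHSf E s = I ^ (n + 1) * Fn n s - PPf n E ⌈Real.exp L0⌉₊ s + QQf L0 E s -
      I ^ (n + 1) * RRf n L0 s := by
  obtain ⟨z1, z2⟩ := id_zeta hE.int hs
  obtain ⟨p1, p2, p3⟩ := id_pole hE.int hs
  -- split
  have h1 : LHSf E s = (∫ y : ℝ, (E y : ℂ) * Lz (s - I * y)) + ∫ y : ℝ, (E y : ℂ) * (1 / (s - I * y - 1)) := by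
    rw [← integral_add z1 p1, LHSf]
    refine integral_congr_ae (Eventually.of_forall fun y => ?_)
    simp only
    have hne : s - I * y ≠ 1 := by
      intro h
      have := congrArg re h
      simp at this
      linarith
    rw [gt_eq (by rw [shift_re]; linarith) hne
      (riemannZeta_ne_zero_of_one_le_re (by rw [shift_re]; linarith))]
    ring
  -- the prime sum
  have h2 : ∫ y : ℝ, (E y : ℂ) * Lz (s - I * y) = I ^ (n + 1) * Fn n s - PPf n E ⌈Real.exp L0⌉₊ s := by
    have g1 := (Fn_hasSum n hs).mul_left (I ^ (n + 1))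
    have g2 : HasSum (fun m : ℕ => tm s m * (ftE E (Real.log m) + (I / (Real.log m : ℝ)) ^ (n + 1)))
        (PPf n E ⌈Real.exp L0⌉₊ s) := by
      have e : PPf n E ⌈Real.exp L0⌉₊ s = ∑ m ∈ Finset.range ⌈Real.exp L0⌉₊,
          tm s m * (ftE E (Real.log m) + (I / (Real.log m : ℝ)) ^ (n + 1)) := by
        rw [PPf]
        refine Finset.sum_congr rfl fun m _ => ?_
        congr 1
        unfold tm
        rcases Nat.eq_zero_or_pos m with rfl | hm
        · simp
        · rw [LSeries.term_of_ne_zero hm.ne', cpow_neg, div_eq_mul_inv]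
      rw [e]
      refine hasSum_sum_of_ne_finset_zero fun m hm => ?_
      rw [Finset.mem_range, not_lt] at hm
      have hm1 : Real.exp L0 ≤ m := Nat.ceil_le.1 hm
      have hlog : L0 ≤ Real.log m := by
        rw [Real.le_log_iff_exp_le (lt_of_lt_of_le (Real.exp_pos _) hm1)]
        exact hm1
      have := hE.ft (Real.log m) hlog
      rw [ftE, this, neg_add_cancel, mul_zero]
    have g3 := g1.sub g2
    refine z2.unique (g3.congr_fun fun m => ?_)
    rw [div_pow]
    ring
  -- the pole part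
  have h3 : ∫ lam in Ioi (0 : ℝ), cexp (-(s - 1) * lam) * ftE E lam = QQf L0 E s -
      I ^ (n + 1) * RRf n L0 s := by
    have e : ∫ lam in Ioi L0, cexp (-(s - 1) * lam) * ftE E lam = -(I ^ (n + 1) * RRf n L0 s) := by
      rw [← RRf_eq n hL hs, ← integral_const_mul, ← integral_neg]
      refine setIntegral_congr_fun measurableSet_Ioi fun lam hlam => ?_
      have hlam : L0 < lam := hlam
      rw [ftE, hE.ft lam hlam.le, div_pow]
      ring
    rw [← Ioc_union_Ioi_eq_Ioi hL.le, setIntegral_union (Ioc_disjoint_Ioi le_rfl) measurableSet_Ioi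
      (p3.mono_set Ioc_subset_Ioi_self) (p3.mono_set (Ioi_subset_Ioi hL.le)), QQf, e]
    ring
  rw [h1, h2, p2, h3]
  ring

/-- the identity in the half strip -/
lemma identity (hRH : RiemannHypothesis) {n : ℕ} {L0 : ℝ} (hL : 0 < L0) {E : ℝ → ℝ}
    (hE : Adm n L0 E) {s : ℂ} (hs : s ∈ UU) :
    LHSf E s = I ^ (n + 1) * Fn n s - PPf n E ⌈Real.exp L0⌉₊ s + QQf L0 E s -
      I ^ (n + 1) * RRf n L0 s := by
  set G : ℂ → ℂ := fun s => I ^ (n + 1) * Fn n s - PPf n E ⌈Real.exp L0⌉₊ s + QQf L0 E s -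
      I ^ (n + 1) * RRf n L0 s with hG
  have hd1 : AnalyticOnNhd ℂ (LHSf E) UU := (LHS_diff hRH hE).analyticOnNhd UU_open
  have hd2 : AnalyticOnNhd ℂ G UU := by
    refine DifferentiableOn.analyticOnNhd ?_ UU_open
    exact ((((Fn_diff hRH n).const_mul _).sub (PPf_diff n E _ _)).add (QQf_diff hE.int)).sub
      ((RRf_diff n hL).const_mul _)
  have hz0 : (⟨3 / 2, 1⟩ : ℂ) ∈ UU := by
    refine ⟨?_, ?_, ?_⟩ <;> norm_num
  have hev : LHSf E =ᶠ[𝓝 (⟨3 / 2, 1⟩ : ℂ)] G := by
    have h1 : {z : ℂ | 1 < z.re} ∈ 𝓝 (⟨3 / 2, 1⟩ : ℂ) :=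
      (isOpen_lt continuous_const continuous_re).mem_nhds (by norm_num)
    have h2 : {z : ℂ | 0 < z.im} ∈ 𝓝 (⟨3 / 2, 1⟩ : ℂ) :=
      (isOpen_lt continuous_const continuous_im).mem_nhds (by norm_num)
    filter_upwards [h1, h2] with z hz1 _
    exact identity_right hL hE hz1
  exact hd1.eqOn_of_preconnected_of_eventuallyEq hd2 UU_conv.isPreconnected hz0 hev hs

end Pool.Agent.H476
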