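import Pool.Agent.H476.HC

open Complex Filter Topology Set Metric MeasureTheory

namespace Pool.Agent.H476

lemma sum_rpow_half (N : ℕ) : ∑ m ∈ Finset.range (N + 1), (m : ℝ) ^ (-(1 / 2 : ℝ)) ≤ 2 * Real.sqrt N := by
  induction N with
  | zero => simp
  | succ N ih =>
    rw [Finset.sum_range_succ]
    have h1 : ((N + 1 : ℕ) : ℝ) ^ (-(1 / 2 : ℝ)) = 1 / Real.sqrt ((N + 1 : ℕ) : ℝ) := by
      rw [Real.rpow_neg (by positivity), ← Real.sqrt_eq_rpow, one_div]
    rw [h1]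
    have h2 : 0 < Real.sqrt ((N + 1 : ℕ) : ℝ) := Real.sqrt_pos.2 (by positivity)
    have h3 : 0 ≤ Real.sqrt (N : ℝ) := Real.sqrt_nonneg _
    have h4 : Real.sqrt ((N + 1 : ℕ) : ℝ) ^ 2 = (N : ℝ) + 1 := by
      rw [Real.sq_sqrt (by positivity)]; push_cast; ring
    have h5 : Real.sqrt (N : ℝ) ^ 2 = N := Real.sq_sqrt (by positivity)
    have h6 : 1 / Real.sqrt ((N + 1 : ℕ) : ℝ) ≤ 2 * Real.sqrt ((N + 1 : ℕ) : ℝ) - 2 * Real.sqrt N := by
      rw [div_le_iff₀ h2]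
      nlinarith [sq_nonneg (Real.sqrt ((N + 1 : ℕ) : ℝ) - Real.sqrt N)]
    linarith

lemma PPf_bound {n : ℕ} {E : ℝ → ℝ} {L0 : ℝ} (hL : 0 < L0) {B : ℝ} (hB : ∫ y, |E y| ≤ B) {s : ℂ}
    (hs : 1 / 2 ≤ s.re) : ‖PPf n E ⌈Real.exp L0⌉₊ s‖ ≤
      4 * (B + 1 / (Real.log 2) ^ (n + 1)) * (L0 * Real.exp (L0 / 2)) := by
  have hB0 : 0 ≤ B := (integral_nonneg fun y => abs_nonneg _).trans hB
  set N := ⌈Real.exp L0⌉₊ with hN
  have hterm : ∀ m ∈ Finset.range N, ‖(ArithmeticFunction.vonMangoldt m : ℂ) * (m : ℂ) ^ (-s) *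
      (ftE E (Real.log m) + (I / (Real.log m : ℝ)) ^ (n + 1))‖ ≤
      (L0 * (B + 1 / (Real.log 2) ^ (n + 1))) * (m : ℝ) ^ (-(1 / 2 : ℝ)) := by
    intro m hm
    rw [Finset.mem_range] at hm
    have hK : 0 ≤ L0 * (B + 1 / (Real.log 2) ^ (n + 1)) := by
      have := log2_pos
      positivity
    rcases lt_or_ge m 2 with h | h
    · have h0 : ArithmeticFunction.vonMangoldt m = 0 := by
        interval_cases m <;> simp
      rw [h0]
      simp only [ofReal_zero, zero_mul, norm_zero]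
      positivity
    · have hm0 : (0 : ℝ) < m := by positivity
      have hm1 : (1 : ℝ) ≤ m := by exact_mod_cast (by omega : 1 ≤ m)
      have hml : (m : ℝ) < Real.exp L0 := Nat.lt_ceil.1 hm
      have hlog : Real.log m ≤ L0 := by
        rw [Real.log_le_iff_le_exp hm0]; exact hml.le
      have hlog2 : Real.log 2 ≤ Real.log m := Real.log_le_log (by norm_num) (by exact_mod_cast h)
      have hlm : 0 < Real.log m := lt_of_lt_of_le log2_pos hlog2
      rw [norm_mul, norm_mul]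
      have e1 : ‖(ArithmeticFunction.vonMangoldt m : ℂ)‖ ≤ L0 := by
        rw [norm_real, Real.norm_eq_abs, abs_of_nonneg ArithmeticFunction.vonMangoldt_nonneg]
        exact ArithmeticFunction.vonMangoldt_le_log.trans hlog
      have e2 : ‖(m : ℂ) ^ (-s)‖ ≤ (m : ℝ) ^ (-(1 / 2 : ℝ)) := by
        rw [Complex.norm_natCast_cpow_of_pos (by omega)]
        apply Real.rpow_le_rpow_of_exponent_le hm1
        rw [neg_re]; linarith
      have e3 : ‖ftE E (Real.log m) + (I / (Real.log m : ℝ)) ^ (n + 1)‖ ≤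
          B + 1 / (Real.log 2) ^ (n + 1) := by
        refine (norm_add_le _ _).trans (add_le_add ((ftE_norm _).trans hB) ?_)
        rw [norm_pow, norm_div, norm_I, norm_real, Real.norm_eq_abs, abs_of_pos hlm, div_pow, one_pow]
        apply one_div_le_one_div_of_le (pow_pos log2_pos _)
        exact pow_le_pow_left₀ log2_pos.le hlog2 _
      calc _ ≤ L0 * (m : ℝ) ^ (-(1 / 2 : ℝ)) * (B + 1 / (Real.log 2) ^ (n + 1)) := by
            refine mul_le_mul (mul_le_mul e1 e2 (norm_nonneg _) hL.le) e3 (norm_nonneg _) (by positivity)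
        _ = _ := by ring
  have h1 : ‖PPf n E N s‖ ≤ (L0 * (B + 1 / (Real.log 2) ^ (n + 1))) *
      ∑ m ∈ Finset.range N, (m : ℝ) ^ (-(1 / 2 : ℝ)) := by
    rw [PPf, Finset.mul_sum]
    exact (norm_sum_le _ _).trans (Finset.sum_le_sum hterm)
  have h2 : ∑ m ∈ Finset.range N, (m : ℝ) ^ (-(1 / 2 : ℝ)) ≤ 2 * Real.sqrt N := by
    refine (Finset.sum_le_sum_of_subset_of_nonneg (Finset.range_subset_range.2 (Nat.le_succ N))
      fun m _ _ => by positivity).trans (sum_rpow_half N)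
  have h3 : Real.sqrt N ≤ 2 * Real.exp (L0 / 2) := by
    rw [Real.sqrt_le_left (by positivity), mul_pow, ← Real.exp_nat_mul]
    have h4 : (N : ℝ) < Real.exp L0 + 1 := Nat.ceil_lt_add_one (Real.exp_pos _).le
    have h5 : 1 ≤ Real.exp L0 := Real.one_le_exp hL.le
    have h6 : ((2 : ℕ) : ℝ) * (L0 / 2) = L0 := by push_cast; ring
    rw [h6]
    linarith
  have hK : 0 ≤ L0 * (B + 1 / (Real.log 2) ^ (n + 1)) := by
    have := log2_pos
    positivity
  calc ‖PPf n E N s‖ ≤ (L0 * (B + 1 / (Real.log 2) ^ (n + 1))) * (2 * (2 * Real.exp (L0 / 2))) := by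
        refine h1.trans (mul_le_mul_of_nonneg_left (h2.trans ?_) hK)
        linarith
    _ = _ := by ring

lemma QQf_bound {E : ℝ → ℝ} {L0 : ℝ} (hL : 0 < L0) {B : ℝ} (hB : ∫ y, |E y| ≤ B) {s : ℂ}
    (hs : 1 / 2 ≤ s.re) : ‖QQf L0 E s‖ ≤ B * (L0 * Real.exp (L0 / 2)) := by
  have hB0 : 0 ≤ B := (integral_nonneg fun y => abs_nonneg _).trans hB
  unfold QQf
  have h := norm_setIntegral_le_of_norm_le_const (μ := volume) (s := Ioc (0 : ℝ) L0)
    (f := fun lam : ℝ => cexp (-(s - 1) * lam) * ftE E lam) (C := Real.exp (L0 / 2) * B)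
    (by simp) (by
      intro lam hl
      rw [norm_mul]
      refine mul_le_mul ?_ ((ftE_norm lam).trans hB) (norm_nonneg _) (Real.exp_pos _).le
      rw [Complex.norm_exp, Real.exp_le_exp]
      have : (-(s - 1) * (lam : ℂ)).re = -(s.re - 1) * lam := by simp
      rw [this]
      nlinarith [hl.1, hl.2])
  refine h.trans (le_of_eq ?_)
  rw [Real.volume_real_Ioc_of_le hL.le]
  ring

lemma RRf_bound (n : ℕ) {L0 : ℝ} (hL : 1 ≤ L0) {s : ℂ} (hs : 1 / 2 ≤ s.re) (ht : 1 ≤ s.im) :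
    ‖RRf n L0 s‖ ≤ L0 * Real.exp (L0 / 2) := by
  have hL0 : 0 < L0 := by linarith
  have h1 : ‖RRf n L0 s‖ ≤ ∫ u in Ioi (0 : ℝ),
      Real.exp (L0 / 2) / s.im / n.factorial * (u ^ n * Real.exp (-(L0 * u))) := by
    unfold RRf
    refine norm_integral_le_of_norm_le ((Ext.integrableOn_pow_exp n hL0).const_mul _) ?_
    exact (ae_restrict_iff' measurableSet_Ioi).2 (Eventually.of_forall fun u hu =>
      RR_int_bound n hL0 hs (by linarith) hu)
  rw [integral_const_mul, Ext.int_pow_exp_real n hL0] at h1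
  refine h1.trans ?_
  have hf : (0 : ℝ) < n.factorial := by exact_mod_cast Nat.factorial_pos n
  have hti : 0 < s.im := by linarith
  have e : Real.exp (L0 / 2) / s.im / n.factorial * (n.factorial / L0 ^ (n + 1)) =
      Real.exp (L0 / 2) / (s.im * L0 ^ (n + 1)) := by field_simp
  rw [e]
  have h2 : 1 ≤ L0 ^ (n + 1) := one_le_pow₀ hL
  have h3 : 1 ≤ s.im * L0 ^ (n + 1) := by nlinarith
  calc Real.exp (L0 / 2) / (s.im * L0 ^ (n + 1)) ≤ Real.exp (L0 / 2) :=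
        div_le_self (Real.exp_pos _).le h3
    _ ≤ L0 * Real.exp (L0 / 2) := by
        have := Real.exp_pos (L0 / 2)
        nlinarith

/-! ### scaling -/

/-- scaled function -/
noncomputable def Esc (n : ℕ) (Δ : ℝ) (E : ℝ → ℝ) (y : ℝ) : ℝ := (Δ ^ n)⁻¹ * E (Δ * y)

lemma int_scale {G : Type*} [NormedAddCommGroup G] [NormedSpace ℝ G] {Δ : ℝ} (hΔ : 0 < Δ)
    (g : ℝ → G) : ∫ y, g (Δ * y) = Δ⁻¹ • ∫ x, g x := by
  rw [Measure.integral_comp_mul_left, abs_of_pos (inv_pos.2 hΔ)]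

lemma Esc_adm {n : ℕ} {Δ : ℝ} (hΔ : 1 ≤ Δ) {E : ℝ → ℝ} (hE : Integrable E) {C : ℝ}
    (hC : ∀ x : ℝ, x ≠ 0 → |E x| ≤ C / x ^ 2)
    (hft : ∀ lam : ℝ, 2 * Real.pi ≤ lam →
        ∫ x : ℝ, (E x : ℂ) * cexp (I * lam * x) = -(I / lam) ^ (n + 1)) :
    Adm n (2 * Real.pi * Δ) (Esc n Δ E) := by
  have hΔ0 : 0 < Δ := by linarith
  have hint : Integrable (Esc n Δ E) := (hE.comp_mul_left' hΔ0.ne').const_mul _
  refine ⟨hint, ?_, ?_⟩
  · refine logint_of_decay hint (C := C) fun x hx => ?_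
    have h1 := hC (Δ * x) (mul_ne_zero hΔ0.ne' hx)
    unfold Esc
    have h2 : 1 ≤ Δ ^ n := one_le_pow₀ hΔ
    have hC0 : 0 ≤ C := by
      have := hC 1 one_ne_zero
      simp only [one_pow, div_one] at this
      exact (abs_nonneg _).trans this
    rw [abs_mul, abs_of_pos (inv_pos.2 (by positivity))]
    have h3 : (Δ ^ n)⁻¹ ≤ 1 := inv_le_one_of_one_le₀ h2
    have h4 : C / (Δ * x) ^ 2 ≤ C / x ^ 2 := by
      apply div_le_div_of_nonneg_left hC0 (by positivity)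
      rw [mul_pow]
      have : 1 ≤ Δ ^ 2 := one_le_pow₀ hΔ
      nlinarith [sq_nonneg x]
    calc (Δ ^ n)⁻¹ * |E (Δ * x)| ≤ 1 * (C / x ^ 2) :=
          mul_le_mul h3 (h1.trans h4) (abs_nonneg _) zero_le_one
      _ = _ := one_mul _
  · intro lam hl
    have hl0 : 0 < lam := lt_of_lt_of_le (by have := Real.pi_pos; positivity) hl
    have h1 := hft (lam / Δ) (by rw [le_div_iff₀ hΔ0]; exact hl)
    have e : ∀ y : ℝ, ((Esc n Δ E y : ℝ) : ℂ) * cexp (I * lam * y) =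
        ((Δ ^ n)⁻¹ : ℝ) • ((E (Δ * y) : ℂ) * cexp (I * ((lam / Δ : ℝ) : ℂ) * ((Δ * y : ℝ) : ℂ))) := by
      intro y
      have hΔC : (Δ : ℂ) ≠ 0 := by exact_mod_cast hΔ0.ne'
      have : I * ((lam / Δ : ℝ) : ℂ) * ((Δ * y : ℝ) : ℂ) = I * lam * y := by
        push_cast
        field_simp
      rw [this, real_smul, Esc]
      push_cast
      ring
    simp_rw [e]
    rw [integral_smul, int_scale hΔ0 (fun x : ℝ => (E x : ℂ) * cexp (I * ((lam / Δ : ℝ) : ℂ) * x)), h1,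
      smul_smul, real_smul]
    have hΔC : (Δ : ℂ) ≠ 0 := by exact_mod_cast hΔ0.ne'
    have hlC : (lam : ℂ) ≠ 0 := by exact_mod_cast hl0.ne'
    push_cast
    rw [div_pow, div_pow, div_pow]
    field_simp
    ring

lemma Esc_abs {n : ℕ} {Δ : ℝ} (hΔ : 1 ≤ Δ) (E : ℝ → ℝ) :
    ∫ y, |Esc n Δ E y| ≤ ∫ y, |E y| := by
  have hΔ0 : 0 < Δ := by linarith
  have e : ∀ y, |Esc n Δ E y| = (Δ ^ n)⁻¹ * |E (Δ * y)| := by
    intro y
    unfold Esc
    rw [abs_mul, abs_of_pos (inv_pos.2 (by positivity))]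
  simp_rw [e]
  rw [integral_const_mul, int_scale hΔ0 (fun x => |E x|), smul_eq_mul]
  have h0 : 0 ≤ ∫ y, |E y| := integral_nonneg fun y => abs_nonneg _
  have h1 : (Δ ^ n)⁻¹ ≤ 1 := inv_le_one_of_one_le₀ (one_le_pow₀ hΔ)
  have h2 : Δ⁻¹ ≤ 1 := inv_le_one_of_one_le₀ hΔ
  have h3 : 0 < (Δ ^ n)⁻¹ := by positivity
  have h4 : 0 < Δ⁻¹ := by positivity
  have h5 : Δ⁻¹ * ∫ y, |E y| ≤ ∫ y, |E y| := by nlinarith
  have h6 : 0 ≤ Δ⁻¹ * ∫ y, |E y| := by positivity
  nlinarith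

/-- the limit to the critical line -/
lemma Fn_tendsto (hRH : RiemannHypothesis) {n : ℕ} (hn : 1 ≤ n) {t : ℝ} (ht : 0 < t) :
    Tendsto (fun x : ℝ => Fn n (x + t * I)) (𝓝[>] (1 / 2)) (𝓝 (Fn n (1 / 2 + t * I))) := by
  obtain ⟨C, hC, hb⟩ := Fn_bound hRH
  unfold Fn
  refine Tendsto.neg ?_
  refine tendsto_integral_filter_of_dominated_convergence
    (fun u => C * (Real.log (3 + |t|) + 1 / t) * mj n u) ?_ ?_ ?_ ?_
  · filter_upwards [self_mem_nhdsWithin] with x hx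
    have hx : 1 / 2 < x := hx
    exact Fn_meas hRH n (by simpa using hx.le) (by simpa using ht)
  · filter_upwards [self_mem_nhdsWithin] with x hx
    have hx : 1 / 2 < x := hx
    refine (ae_restrict_iff' measurableSet_Ioi).2 (Eventually.of_forall fun u hu => ?_)
    have h := hb n (x + t * I) u hn (by simpa using hx.le) (by simpa using ht) hu
    simpa using h
  · exact (mj_int n).const_mul _
  · refine (ae_restrict_iff' measurableSet_Ioi).2 (Eventually.of_forall fun u hu => ?_)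
    have hu : 0 < u := hu
    refine Tendsto.const_mul _ ?_
    have h1 : ContinuousAt Lz (((1 / 2 : ℝ) : ℂ) + t * I + u) :=
      (Lz_an hRH (by simp; exact hu) (ne_one_of_im (by simpa using ht))).continuousAt
    have h2 := (ContinuousAt.comp (f := fun x : ℝ => (x : ℂ) + t * I + u) h1 (by fun_prop)).tendsto
    have e : (((1 / 2 : ℝ) : ℂ) + t * I + u) = 1 / 2 + t * I + u := by push_cast; ring
    simp only [Function.comp_def] at h2
    rw [e] at h2
    exact h2.mono_left nhdsWithin_le_nhds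

end Pool.Agent.H476
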