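import Pool.Agent.H476.HD

open Complex Filter Topology Set Metric MeasureTheory

namespace Pool.Agent.H476

/-- the main inequality before optimisation -/
lemma main_bound (hRH : RiemannHypothesis) {n : ℕ} (hn : 2 ≤ n) {E : ℝ → ℝ} {σ : ℝ}
    (hσ : σ = 1 ∨ σ = -1) (hE : Integrable E) (hpos : ∀ x, 0 ≤ σ * E x) {C0 : ℝ}
    (hC0 : ∀ x : ℝ, x ≠ 0 → |E x| ≤ C0 / x ^ 2)
    (hft : ∀ lam : ℝ, 2 * Real.pi ≤ lam →
        ∫ x : ℝ, (E x : ℂ) * cexp (I * lam * x) = -(I / lam) ^ (n + 1)) :
    ∃ C : ℝ, 0 ≤ C ∧ ∀ Δ t : ℝ, 1 ≤ Δ → 1 ≤ t →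
      σ * (Real.pi * Hn n t) ≤ (Δ ^ (n + 1))⁻¹ * ((1 / 2) * Real.log (3 + t) * (∫ x, σ * E x) + C) +
        C * (Δ * Real.exp (Real.pi * Δ)) := by
  obtain ⟨C2, hC2, hL2⟩ := neg_re_gt_le hRH
  set w0 := ∫ x, σ * E x with hw0
  have hw0n : 0 ≤ w0 := integral_nonneg hpos
  set B := ∫ y, |E y| with hB
  have hB0 : 0 ≤ B := integral_nonneg fun y => abs_nonneg _
  have habs : ∀ x, |E x| = σ * E x := by
    intro x
    have h1 := hpos x
    rcases hσ with rfl | rfl
    · rw [one_mul] at h1 ⊢; exact abs_of_nonneg h1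
    · have h2 : E x ≤ 0 := by linarith
      rw [abs_of_nonpos h2]; ring
  have hlogI := logint_of_decay hE hC0
  set K := ∫ y, |E y| * Real.log (1 + |y|) with hK
  have hK0 : 0 ≤ K := integral_nonneg fun y => mul_nonneg (abs_nonneg _)
    (Real.log_nonneg (by linarith [abs_nonneg y]))
  have hl2 := log2_pos
  set C1 := 4 * (B + 1 / (Real.log 2) ^ (n + 1)) + B + 1 with hC1
  have hC1p : 0 ≤ C1 := by positivity
  refine ⟨C2 * w0 + K + 2 * Real.pi * C1, by have := Real.pi_pos; positivity, fun Δ t hΔ ht => ?_⟩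
  have hΔ0 : 0 < Δ := by linarith
  have ht0 : 0 < t := by linarith
  have hpi := Real.pi_gt_three
  set L0 := 2 * Real.pi * Δ with hL0
  have hL0p : 0 < L0 := by positivity
  have hL01 : 1 ≤ L0 := by rw [hL0]; nlinarith
  set E' := Esc n Δ E with hE'
  have hAdm : Adm n L0 E' := Esc_adm hΔ hE hC0 hft
  have hBE' : ∫ y, |E' y| ≤ B := Esc_abs hΔ E
  -- the bound at points to the right of the line
  have key : ∀ x : ℝ, x ∈ Ioo (1 / 2 : ℝ) 1 → σ * (I ^ n * Fn n (x + t * I)).im ≤
      (Δ ^ (n + 1))⁻¹ * ((1 / 2) * Real.log (3 + t) * w0 + (C2 * w0 + K)) +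
        C1 * (L0 * Real.exp (L0 / 2)) := by
    intro x hx
    set s : ℂ := x + t * I with hs
    have hsre : s.re = x := by simp [hs]
    have hsim : s.im = t := by simp [hs]
    have hsU : s ∈ UU := ⟨by rw [hsre]; exact hx.1, by rw [hsre]; linarith [hx.2], by rw [hsim]; exact ht0⟩
    have hid := identity hRH hL0p hAdm hsU
    set P := PPf n E' ⌈Real.exp L0⌉₊ s with hP
    set Q := QQf L0 E' s with hQ
    set R := RRf n L0 s with hR
    have bP : ‖P‖ ≤ 4 * (B + 1 / (Real.log 2) ^ (n + 1)) * (L0 * Real.exp (L0 / 2)) :=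
      PPf_bound hL0p hBE' (by rw [hsre]; exact hx.1.le)
    have bQ : ‖Q‖ ≤ B * (L0 * Real.exp (L0 / 2)) := QQf_bound hL0p hBE' (by rw [hsre]; exact hx.1.le)
    have bR : ‖R‖ ≤ L0 * Real.exp (L0 / 2) :=
      RRf_bound n hL01 (by rw [hsre]; exact hx.1.le) (by rw [hsim]; exact ht)
    have e1 : (I ^ n * Fn n s).im = -(LHSf E' s).re - P.re + Q.re - (I ^ (n + 1) * R).re := by
      have h1 : (I ^ n * Fn n s).im = -(I ^ (n + 1) * Fn n s).re := by
        rw [pow_succ, mul_assoc, mul_comm I (Fn n s), ← mul_assoc, mul_I_re]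
        ring
      rw [h1, hid]
      simp only [sub_re, add_re]
      ring
    -- the main term
    obtain ⟨b, hbI, hbb⟩ := LHS_bound hRH hAdm (r := x - 1 / 2) (a := t) (by linarith [hx.1])
    have hI : Integrable (fun y : ℝ => (E' y : ℂ) * gt (s - I * y)) := by
      refine Integrable.mono' hbI ?_ (Eventually.of_forall fun y => ?_)
      · exact hAdm.int.ofReal.1.mul (gt_line_cont hRH (by rw [hsre]; exact hx.1)).aestronglyMeasurable
      · refine hbb s y ?_ ?_ ?_
        · rw [hsre]; linarith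
        · rw [hsre]; linarith [hx.2]
        · rw [hsim, abs_of_pos ht0]
    have hre : (LHSf E' s).re = ∫ y : ℝ, E' y * (gt (s - I * y)).re := by
      unfold LHSf
      rw [← reCLM_apply, ← ContinuousLinearMap.integral_comp_comm _ hI]
      refine integral_congr_ae (Eventually.of_forall fun y => ?_)
      simp only [reCLM_apply]
      rw [re_ofReal_mul]
    have hmain : σ * (-(LHSf E' s).re) ≤ (Δ ^ (n + 1))⁻¹ *
        ((1 / 2) * Real.log (3 + t) * w0 + (C2 * w0 + K)) := by
      have hpt : ∀ y : ℝ, (σ * E' y) * (-(gt (s - I * y)).re) ≤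
          (Δ ^ n)⁻¹ * ((σ * E (Δ * y)) * ((1 / 2) * Real.log (3 + t) + C2) +
            |E (Δ * y)| * Real.log (1 + |Δ * y|)) := by
        intro y
        have h1 := hL2 (s - I * y) (by rw [shift_re, hsre]; exact hx.1)
          (by rw [shift_re, hsre]; linarith [hx.2])
        rw [shift_im, hsim] at h1
        have h2 := log_shift t y
        rw [abs_of_pos ht0] at h2
        have h3 : Real.log (1 + |y|) ≤ Real.log (1 + |Δ * y|) := by
          apply Real.log_le_log (by positivity)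
          rw [abs_mul, abs_of_pos hΔ0]
          nlinarith [abs_nonneg y]
        have h4 : 0 ≤ Real.log (1 + |Δ * y|) := Real.log_nonneg (by linarith [abs_nonneg (Δ * y)])
        have h5 : σ * E' y = (Δ ^ n)⁻¹ * (σ * E (Δ * y)) := by rw [hE', Esc]; ring
        have h6 : 0 ≤ (Δ ^ n)⁻¹ := by positivity
        rw [h5, mul_assoc]
        refine mul_le_mul_of_nonneg_left ?_ h6
        rw [habs]
        have h7 := hpos (Δ * y)
        nlinarith
      have hI1 : Integrable (fun y : ℝ => (Δ ^ n)⁻¹ * ((σ * E (Δ * y)) * ((1 / 2) * Real.log (3 + t) + C2) +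
            |E (Δ * y)| * Real.log (1 + |Δ * y|))) := by
        refine Integrable.const_mul ?_ _
        refine Integrable.add ?_ ?_
        · exact ((hE.const_mul σ).comp_mul_left' hΔ0.ne').mul_const _
        · exact hlogI.comp_mul_left' (R := Δ) hΔ0.ne'
      have h8 : σ * (-(LHSf E' s).re) = ∫ y : ℝ, (σ * E' y) * (-(gt (s - I * y)).re) := by
        rw [hre, ← integral_neg, ← integral_const_mul]
        refine integral_congr_ae (Eventually.of_forall fun y => ?_)
        simp only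
        ring
      rw [h8]
      have h9 : ∫ y : ℝ, (σ * E' y) * (-(gt (s - I * y)).re) ≤ ∫ y : ℝ, (Δ ^ n)⁻¹ * ((σ * E (Δ * y)) *
          ((1 / 2) * Real.log (3 + t) + C2) + |E (Δ * y)| * Real.log (1 + |Δ * y|)) := by
        have hI2 : Integrable (fun y : ℝ => (σ * E' y) * (-(gt (s - I * y)).re)) := by
          refine (hI.re.const_mul (-σ)).congr (Eventually.of_forall fun y => ?_)
          have e : RCLike.re ((E' y : ℂ) * gt (s - I * y)) = E' y * (gt (s - I * y)).re :=
            re_ofReal_mul _ _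
          simp only
          rw [e]
          ring
        exact integral_mono hI2 hI1 hpt
      refine h9.trans (le_of_eq ?_)
      rw [integral_const_mul, int_scale hΔ0 (fun x => (σ * E x) * ((1 / 2) * Real.log (3 + t) + C2) +
        |E x| * Real.log (1 + |x|)), integral_add ((hE.const_mul σ).mul_const _) hlogI,
        integral_mul_const, ← hw0, ← hK, smul_eq_mul, pow_succ, mul_inv]
      ring
    rw [e1]
    have hσa : ∀ z : ℂ, σ * z.re ≤ ‖z‖ := by
      intro z
      have h := abs_re_le_norm z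
      rw [abs_le] at h
      rcases hσ with rfl | rfl <;> linarith
    have hσb : ∀ z : ℂ, -(σ * z.re) ≤ ‖z‖ := by
      intro z
      have h := abs_re_le_norm z
      rw [abs_le] at h
      rcases hσ with rfl | rfl <;> linarith
    have c1 := hσb P
    have c2 := hσa Q
    have c3 := hσb (I ^ (n + 1) * R)
    rw [norm_mul, norm_pow, norm_I, one_pow, one_mul] at c3
    have e2 : σ * (-(LHSf E' s).re - P.re + Q.re - (I ^ (n + 1) * R).re) =
      σ * (-(LHSf E' s).re) + -(σ * P.re) + σ * Q.re + -(σ * (I ^ (n + 1) * R).re) := by ring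
    rw [e2]
    have e3 : C1 * (L0 * Real.exp (L0 / 2)) = 4 * (B + 1 / (Real.log 2) ^ (n + 1)) *
      (L0 * Real.exp (L0 / 2)) + B * (L0 * Real.exp (L0 / 2)) + L0 * Real.exp (L0 / 2) := by
      rw [hC1]; ring
    rw [e3]
    linarith
  -- pass to the limit
  have hlim : Tendsto (fun x : ℝ => σ * (I ^ n * Fn n (x + t * I)).im) (𝓝[>] (1 / 2))
      (𝓝 (σ * (I ^ n * Fn n (1 / 2 + t * I)).im)) := by
    refine Tendsto.const_mul _ ?_
    exact (continuous_im.tendsto _).comp ((Fn_tendsto hRH (by omega) ht0).const_mul _)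
  have h1 : σ * (I ^ n * Fn n (1 / 2 + t * I)).im ≤
      (Δ ^ (n + 1))⁻¹ * ((1 / 2) * Real.log (3 + t) * w0 + (C2 * w0 + K)) +
        C1 * (L0 * Real.exp (L0 / 2)) := by
    refine le_of_tendsto hlim ?_
    filter_upwards [Ioo_mem_nhdsGT (show (1 / 2 : ℝ) < 1 by norm_num)] with x hx
    exact key x hx
  have h2 : Real.pi * Hn n t = (I ^ n * Fn n (1 / 2 + t * I)).im := by
    unfold Hn
    field_simp
  rw [h2]
  refine h1.trans ?_
  have e4 : L0 / 2 = Real.pi * Δ := by rw [hL0]; ring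
  have e5 : C1 * (L0 * Real.exp (L0 / 2)) = (2 * Real.pi * C1) * (Δ * Real.exp (Real.pi * Δ)) := by
    rw [e4, hL0]; ring
  rw [e5]
  have h3 : 0 < (Δ ^ (n + 1))⁻¹ := by positivity
  have h4 : 0 < Δ * Real.exp (Real.pi * Δ) := by positivity
  have h5 : 0 ≤ 2 * Real.pi * C1 := by positivity
  have h6 : 0 ≤ C2 * w0 + K := by positivity
  nlinarith

end Pool.Agent.H476
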