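import Pool.Agent.H476.HE

open Complex Filter Topology Set Metric MeasureTheory

namespace Pool.Agent.H476

open Sn

lemma asym_alg (n : ℕ) {d l L : ℝ} (hd : d ≠ 0) (hl : l ≠ 0) (hL : L ≠ 0) (M w0 C : ℝ) :
    (d ^ (n + 1))⁻¹ * ((1 / 2) * M * w0 + C) + C * (d * (L / l ^ (n + 4))) =
      ((l / d) ^ (n + 1) * ((1 / 2) * (M / L) * w0 + C / L) + C * ((d / l) * (l ^ 2)⁻¹)) *
        (L / l ^ (n + 1)) := by
  have e3 : l ^ (n + 4) = l ^ (n + 1) * l ^ 2 * l := by ring
  rw [e3, div_pow]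
  have h1 : l ^ (n + 1) ≠ 0 := pow_ne_zero _ hl
  have h2 : d ^ (n + 1) ≠ 0 := pow_ne_zero _ hd
  generalize l ^ (n + 1) = P at *
  generalize d ^ (n + 1) = Q at *
  field_simp

/-- asymptotic optimisation -/
lemma asym (n : ℕ) {w0 C : ℝ} {f : ℝ → ℝ} (hf : ∀ Δ t : ℝ, 1 ≤ Δ → 1 ≤ t → f t ≤
    (Δ ^ (n + 1))⁻¹ * ((1 / 2) * Real.log (3 + t) * w0 + C) + C * (Δ * Real.exp (Real.pi * Δ)))
    {ε : ℝ} (hε : 0 < ε) :
    ∀ᶠ t in atTop, f t ≤ (Real.pi ^ (n + 1) * w0 / 2 + ε) * LamN n t := by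
  have hpi := Real.pi_pos
  set l : ℝ → ℝ := fun t => Real.log (Real.log t) with hl
  set D : ℝ → ℝ := fun t => (l t - (n + 4) * Real.log (l t)) / Real.pi with hD
  have hL : Tendsto Real.log atTop atTop := Real.tendsto_log_atTop
  have h1 : Tendsto l atTop atTop := hL.comp hL
  have h2 : Tendsto (fun t => Real.log (l t) / l t) atTop (𝓝 0) :=
    (Real.isLittleO_log_id_atTop.tendsto_div_nhds_zero).comp h1
  have h3 : Tendsto (fun t => D t / l t) atTop (𝓝 (1 / Real.pi)) := by
    have h4 : Tendsto (fun t => (1 - (n + 4) * (Real.log (l t) / l t)) / Real.pi) atTop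
        (𝓝 ((1 - (n + 4) * 0) / Real.pi)) := (tendsto_const_nhds.sub (h2.const_mul _)).div_const _
    rw [mul_zero, sub_zero] at h4
    refine h4.congr' ?_
    filter_upwards [h1.eventually_gt_atTop 0] with t ht
    rw [hD]
    field_simp
  have h4 : Tendsto D atTop atTop := by
    have h5 : Tendsto (fun t => (D t / l t) * l t) atTop atTop :=
      h3.pos_mul_atTop (by positivity) h1
    refine h5.congr' ?_
    filter_upwards [h1.eventually_gt_atTop 0] with t ht
    field_simp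
  have h5 : Tendsto (fun t => Real.log (3 + t) / Real.log t) atTop (𝓝 1) := by
    have h6 : Tendsto (fun t : ℝ => Real.log (t + 3) - Real.log t) atTop (𝓝 0) :=
      Real.tendsto_log_comp_add_sub_log 3
    have h7 := (h6.div_atTop hL).add_const 1
    rw [zero_add] at h7
    refine h7.congr' ?_
    filter_upwards [hL.eventually_gt_atTop 0] with t ht
    rw [add_comm 3 t]
    field_simp
    ring
  have h6 : Tendsto (fun t => C / Real.log t) atTop (𝓝 0) := tendsto_const_nhds.div_atTop hL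
  have h7 : Tendsto (fun t => (l t / D t) ^ (n + 1)) atTop (𝓝 (Real.pi ^ (n + 1))) := by
    refine Tendsto.pow ?_ _
    have h8 := h3.inv₀ (by positivity)
    rw [one_div, inv_inv] at h8
    refine h8.congr fun t => ?_
    rw [inv_div]
  have h8 : Tendsto (fun t => ((l t) ^ 2)⁻¹) atTop (𝓝 0) := by
    refine Tendsto.inv_tendsto_atTop ?_
    exact (tendsto_pow_atTop (by norm_num)).comp h1
  have h9 : Tendsto (fun t => (l t / D t) ^ (n + 1) * ((1 / 2) * (Real.log (3 + t) / Real.log t) * w0 +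
      C / Real.log t) + C * ((D t / l t) * ((l t) ^ 2)⁻¹)) atTop
      (𝓝 (Real.pi ^ (n + 1) * ((1 / 2) * 1 * w0 + 0) + C * ((1 / Real.pi) * 0))) :=
    (h7.mul (((h5.const_mul _).mul_const _).add h6)).add ((h3.mul h8).const_mul _)
  have e0 : Real.pi ^ (n + 1) * ((1 / 2) * 1 * w0 + 0) + C * ((1 / Real.pi) * 0) =
      Real.pi ^ (n + 1) * w0 / 2 := by ring
  rw [e0] at h9
  have h10 := h9.eventually_lt_const (show Real.pi ^ (n + 1) * w0 / 2 <
    Real.pi ^ (n + 1) * w0 / 2 + ε by linarith)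
  filter_upwards [h10, h4.eventually_ge_atTop 1, eventually_ge_atTop (1 : ℝ),
    h1.eventually_gt_atTop 0, hL.eventually_gt_atTop 0] with t k1 k2 k3 k4 k5
  have hb := hf (D t) t k2 k3
  have hlt : LamN n t = Real.log t / (l t) ^ (n + 1) := rfl
  have hlamp : 0 < LamN n t := by rw [hlt]; positivity
  have hexp : Real.exp (Real.pi * D t) = Real.log t / (l t) ^ (n + 4) := by
    have e1 : Real.pi * D t = l t - (n + 4) * Real.log (l t) := by
      rw [hD]; field_simp
    rw [e1, Real.exp_sub]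
    congr 1
    · rw [hl]; exact Real.exp_log k5
    · have : ((n : ℝ) + 4) * Real.log (l t) = ((n + 4 : ℕ) : ℝ) * Real.log (l t) := by push_cast; ring
      rw [this, Real.exp_nat_mul, Real.exp_log k4]
  have hD0 : 0 < D t := by linarith
  have hfac : (D t ^ (n + 1))⁻¹ * ((1 / 2) * Real.log (3 + t) * w0 + C) +
      C * (D t * Real.exp (Real.pi * D t)) = ((l t / D t) ^ (n + 1) *
        ((1 / 2) * (Real.log (3 + t) / Real.log t) * w0 + C / Real.log t) +
          C * ((D t / l t) * ((l t) ^ 2)⁻¹)) * LamN n t := by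
    rw [hexp, hlt]
    exact asym_alg n hD0.ne' k4.ne' k5.ne' _ _ _
  rw [hfac] at hb
  exact hb.trans (mul_le_mul_of_nonneg_right k1.le hlamp.le)

/-- extreme points of the Bernoulli functions -/
lemma exists_alpha {n : ℕ} (hn : 2 ≤ n) {σ : ℝ} (hσ : σ ≠ 0) : ∃ α x0 : ℝ, x0 ∈ Icc (0 : ℝ) 1 ∧
    Ext.Bt n α = 0 ∧ Ext.Bt (n + 1) α = bernoulliFun (n + 1) x0 ∧
    (∀ y ∈ Icc (0 : ℝ) 1, σ * bernoulliFun (n + 1) x0 ≤ σ * bernoulliFun (n + 1) y) ∧
    (∀ y : ℝ, 0 ≤ σ * (Ext.Bt (n + 1) y - Ext.Bt (n + 1) α)) := by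
  have hcont : ContinuousOn (fun y => σ * bernoulliFun (n + 1) y) (Icc 0 1) :=
    (continuous_const.mul (continuous_bernoulliFun _)).continuousOn
  obtain ⟨x0, hx0, hmin⟩ := isCompact_Icc.exists_isMinOn (nonempty_Icc.2 zero_le_one) hcont
  have hmin' : ∀ y ∈ Icc (0 : ℝ) 1, σ * bernoulliFun (n + 1) x0 ≤ σ * bernoulliFun (n + 1) y :=
    fun y hy => hmin hy
  have hder : ∀ x : ℝ, HasDerivAt (fun y => σ * bernoulliFun (n + 1) y)
      (σ * ((n + 1 : ℕ) * bernoulliFun n x)) x := by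
    intro x
    have := (hasDerivAt_bernoulliFun (n + 1) x).const_mul σ
    simpa using this
  have hn1 : ((n + 1 : ℕ) : ℝ) ≠ 0 := by positivity
  have hglob : ∀ α : ℝ, Ext.Bt (n + 1) α = bernoulliFun (n + 1) x0 →
      ∀ y : ℝ, 0 ≤ σ * (Ext.Bt (n + 1) y - Ext.Bt (n + 1) α) := by
    intro α hα y
    rw [hα]
    have := hmin' (Int.fract y) ⟨Int.fract_nonneg y, (Int.fract_lt_one y).le⟩
    have e : Ext.Bt (n + 1) y = bernoulliFun (n + 1) (Int.fract y) := rfl
    rw [e]
    linarith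
  by_cases hint : x0 ∈ Ioo (0 : ℝ) 1
  · have hfr : Int.fract x0 = x0 := Int.fract_eq_self.2 ⟨hint.1.le, hint.2⟩
    have hα : Ext.Bt (n + 1) x0 = bernoulliFun (n + 1) x0 := by
      unfold Ext.Bt; rw [hfr]
    refine ⟨x0, x0, hx0, ?_, hα, hmin', hglob x0 hα⟩
    have hloc : IsLocalMin (fun y => σ * bernoulliFun (n + 1) y) x0 :=
      hmin.isLocalMin (Icc_mem_nhds hint.1 hint.2)
    have h0 := hloc.hasDerivAt_eq_zero (hder x0)
    have h1 : bernoulliFun n x0 = 0 := by
      rcases mul_eq_zero.1 h0 with h | h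
      · exact absurd h hσ
      · rcases mul_eq_zero.1 h with h | h
        · exact absurd h hn1
        · exact h
    unfold Ext.Bt
    rw [hfr, h1]
  · have hend : bernoulliFun (n + 1) x0 = bernoulliFun (n + 1) 0 := by
      have h1 : x0 = 0 ∨ x0 = 1 := by
        by_contra hcon
        push Not at hcon
        exact hint ⟨lt_of_le_of_ne hx0.1 (Ne.symm hcon.1), lt_of_le_of_ne hx0.2 hcon.2⟩
      rcases h1 with rfl | rfl
      · rfl
      · exact bernoulliFun_endpoints_eq_of_ne_one (by omega)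
    have hα : Ext.Bt (n + 1) 0 = bernoulliFun (n + 1) x0 := by
      unfold Ext.Bt
      rw [Int.fract_zero, hend]
    refine ⟨0, x0, hx0, ?_, hα, hmin', hglob 0 hα⟩
    have h01 : bernoulliFun n 1 = bernoulliFun n 0 := bernoulliFun_endpoints_eq_of_ne_one (by omega)
    have h01' : bernoulliFun (n + 1) 1 = bernoulliFun (n + 1) 0 :=
      bernoulliFun_endpoints_eq_of_ne_one (by omega)
    -- right derivative at 0
    have r0 : 0 ≤ σ * ((n + 1 : ℕ) * bernoulliFun n 0) := by
      have h2 := (hder 0).hasDerivWithinAt (s := Ioi 0)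
      rw [hasDerivWithinAt_iff_tendsto_slope' (by simp)] at h2
      refine ge_of_tendsto h2 ?_
      filter_upwards [Ioo_mem_nhdsGT (show (0 : ℝ) < 1 by norm_num)] with h hh
      rw [slope_def_field]
      have := hmin' h ⟨hh.1.le, hh.2.le⟩
      rw [hend] at this
      exact div_nonneg (by linarith) (by linarith [hh.1])
    have r1 : σ * ((n + 1 : ℕ) * bernoulliFun n 1) ≤ 0 := by
      have h2 := (hder 1).hasDerivWithinAt (s := Iio 1)
      rw [hasDerivWithinAt_iff_tendsto_slope' (by simp)] at h2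
      refine le_of_tendsto h2 ?_
      filter_upwards [Ioo_mem_nhdsLT (show (0 : ℝ) < 1 by norm_num)] with h hh
      rw [slope_def_field]
      have := hmin' h ⟨hh.1.le, hh.2.le⟩
      rw [hend] at this
      rw [h01']
      exact div_nonpos_of_nonneg_of_nonpos (by linarith) (by linarith [hh.2])
    rw [h01] at r1
    have h0 := le_antisymm r1 r0
    unfold Ext.Bt
    rw [Int.fract_zero]
    rcases mul_eq_zero.1 h0 with h | h
    · exact absurd h hσ
    · rcases mul_eq_zero.1 h with h | h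
      · exact absurd h hn1
      · exact h

lemma Hn_upper (hRH : RiemannHypothesis) {n : ℕ} (hn : 2 ≤ n) {ε : ℝ} (hε : 0 < ε) :
    ∀ᶠ t in atTop, Hn n t ≤ (Aplus n + ε) * LamN n t := by
  obtain ⟨α, x0, hx0, hα, hαx, hmin, hglob⟩ := exists_alpha hn (σ := 1) one_ne_zero
  obtain ⟨E, hE, hpos, ⟨C0, hC0p, hC0⟩, hmass, hft⟩ := Ext.extremal hn hα hglob
  obtain ⟨C, hC, hb⟩ := main_bound hRH hn (Or.inl rfl) hE hpos hC0 hft
  have hpi := Real.pi_pos
  have has := asym n (f := fun t => 1 * (Real.pi * Hn n t)) hb (ε := Real.pi * ε) (by positivity)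
  have hw : ∫ x, 1 * E x = -(sInf (bernoulliFun (n + 1) '' Icc 0 1) / (n + 1).factorial) := by
    simp_rw [one_mul]
    rw [hmass, hαx]
    have : IsLeast (bernoulliFun (n + 1) '' Icc 0 1) (bernoulliFun (n + 1) x0) := by
      refine ⟨⟨x0, hx0, rfl⟩, ?_⟩
      rintro _ ⟨y, hy, rfl⟩
      have := hmin y hy
      linarith
    rw [this.csInf_eq]
  rw [hw] at has
  filter_upwards [has] with t ht
  have e : (Real.pi ^ (n + 1) * -(sInf (bernoulliFun (n + 1) '' Icc 0 1) / (n + 1).factorial) / 2 +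
      Real.pi * ε) * LamN n t = Real.pi * ((Aplus n + ε) * LamN n t) := by
    unfold Aplus
    ring
  rw [e, one_mul] at ht
  exact le_of_mul_le_mul_left ht hpi

lemma Hn_lower (hRH : RiemannHypothesis) {n : ℕ} (hn : 2 ≤ n) {ε : ℝ} (hε : 0 < ε) :
    ∀ᶠ t in atTop, -((Aminus n + ε) * LamN n t) ≤ Hn n t := by
  obtain ⟨α, x0, hx0, hα, hαx, hmin, hglob⟩ := exists_alpha hn (σ := -1) (by norm_num)
  obtain ⟨E, hE, hpos, ⟨C0, hC0p, hC0⟩, hmass, hft⟩ := Ext.extremal hn hα hglob
  obtain ⟨C, hC, hb⟩ := main_bound hRH hn (Or.inr rfl) hE hpos hC0 hft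
  have hpi := Real.pi_pos
  have has := asym n (f := fun t => (-1) * (Real.pi * Hn n t)) hb (ε := Real.pi * ε) (by positivity)
  have hw : ∫ x, (-1) * E x = sSup (bernoulliFun (n + 1) '' Icc 0 1) / (n + 1).factorial := by
    rw [integral_const_mul, hmass, hαx]
    have : IsGreatest (bernoulliFun (n + 1) '' Icc 0 1) (bernoulliFun (n + 1) x0) := by
      refine ⟨⟨x0, hx0, rfl⟩, ?_⟩
      rintro _ ⟨y, hy, rfl⟩
      have := hmin y hy
      linarith
    rw [this.csSup_eq]
    ring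
  rw [hw] at has
  filter_upwards [has] with t ht
  have e : (Real.pi ^ (n + 1) * (sSup (bernoulliFun (n + 1) '' Icc 0 1) / (n + 1).factorial) / 2 +
      Real.pi * ε) * LamN n t = Real.pi * ((Aminus n + ε) * LamN n t) := by
    unfold Aminus
    ring
  rw [e] at ht
  have h2 : Real.pi * (-Hn n t) ≤ Real.pi * ((Aminus n + ε) * LamN n t) := by linarith
  have h3 := le_of_mul_le_mul_left h2 hpi
  linarith

/-- mean value zero -/
lemma mean_zero (hRH : RiemannHypothesis) {S : ℝ → ℝ} (hS : IsS S) {n : ℕ} (hn : 1 ≤ n) :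
    Tendsto (fun T : ℝ => (1 / T) * ∫ t in (0 : ℝ)..T, SN S n t) atTop (𝓝 0) := by
  have hup := Hn_upper hRH (n := n + 1) (by omega) one_pos
  have hlo := Hn_lower hRH (n := n + 1) (by omega) one_pos
  have hL : Tendsto Real.log atTop atTop := Real.tendsto_log_atTop
  have hl : Tendsto (fun t => Real.log (Real.log t)) atTop atTop := hL.comp hL
  have hlogT : Tendsto (fun T : ℝ => Real.log T / T) atTop (𝓝 0) :=
    Real.isLittleO_log_id_atTop.tendsto_div_nhds_zero
  set A := |Aplus (n + 1) + 1| + |Aminus (n + 1) + 1| with hA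
  have h0 : Tendsto (fun T : ℝ => A * (Real.log T / T) + |delta (n + 1)| / T) atTop (𝓝 0) := by
    have h1 : Tendsto (fun T : ℝ => |delta (n + 1)| / T) atTop (𝓝 0) :=
      tendsto_const_nhds.div_atTop tendsto_id
    simpa using (hlogT.const_mul A).add h1
  refine squeeze_zero_norm' ?_ h0
  filter_upwards [hup, hlo, hL.eventually_gt_atTop 0, hl.eventually_ge_atTop 1,
    eventually_gt_atTop (0 : ℝ)] with T k1 k2 k3 k4 k5
  have e1 : ∫ t in (0 : ℝ)..T, SN S n t = Hn (n + 1) T - delta (n + 1) := by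
    have h2 := SN_eq hRH hS n T k5
    have h3 : SN S (n + 1) T = (∫ t in (0 : ℝ)..T, SN S n t) + delta (n + 1) := rfl
    linarith
  have hLam : LamN (n + 1) T ≤ Real.log T := by
    unfold LamN
    exact div_le_self k3.le (one_le_pow₀ k4)
  have hLam0 : 0 ≤ LamN (n + 1) T := by
    unfold LamN
    have : 0 < Real.log (Real.log T) := by linarith
    positivity
  have habs : |Hn (n + 1) T| ≤ A * Real.log T := by
    have a1 : (Aplus (n + 1) + 1) * LamN (n + 1) T ≤ |Aplus (n + 1) + 1| * Real.log T :=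
      (mul_le_mul_of_nonneg_right (le_abs_self _) hLam0).trans
        (mul_le_mul_of_nonneg_left hLam (abs_nonneg _))
    have a2 : (Aminus (n + 1) + 1) * LamN (n + 1) T ≤ |Aminus (n + 1) + 1| * Real.log T :=
      (mul_le_mul_of_nonneg_right (le_abs_self _) hLam0).trans
        (mul_le_mul_of_nonneg_left hLam (abs_nonneg _))
    have a3 := mul_nonneg (abs_nonneg (Aplus (n + 1) + 1)) k3.le
    have a4 := mul_nonneg (abs_nonneg (Aminus (n + 1) + 1)) k3.le
    rw [abs_le, hA]
    constructor <;> nlinarith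
  rw [e1, norm_mul, Real.norm_eq_abs, Real.norm_eq_abs, abs_of_pos (by positivity : 0 < 1 / T)]
  calc 1 / T * |Hn (n + 1) T - delta (n + 1)| ≤ 1 / T * (A * Real.log T + |delta (n + 1)|) := by
        refine mul_le_mul_of_nonneg_left ?_ (by positivity)
        exact (abs_sub _ _).trans (add_le_add habs le_rfl)
    _ = _ := by ring

end Pool.Agent.H476
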