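import Mathlib

set_option autoImplicit false

/-! One cosine sum and the Lindelöf hypothesis, part 1: Gaussian kernels on vertical lines and the
positivity lemma for exponential sums. -/

open Complex MeasureTheory Filter Topology

namespace Pool.Agent.H476.LS

/-- the Gaussian kernel `e^{b z²/2 + a z}` -/
noncomputable def gk (b a : ℝ) (z : ℂ) : ℂ := cexp ((b : ℂ) / 2 * z ^ 2 + (a : ℂ) * z)

lemma gk_norm (b a x y : ℝ) : ‖gk b a ((x : ℂ) + (y : ℂ) * I)‖ =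
    Real.exp (b / 2 * x ^ 2 + a * x) * Real.exp (-(b / 2) * y ^ 2) := by
  unfold gk
  rw [Complex.norm_exp, ← Real.exp_add]
  congr 1
  have h : ((b : ℂ) / 2 * ((x : ℂ) + (y : ℂ) * I) ^ 2 + (a : ℂ) * ((x : ℂ) + (y : ℂ) * I)) =
      ((b / 2 * x ^ 2 + a * x + -(b / 2) * y ^ 2 : ℝ) : ℂ) + ((b * x * y + a * y : ℝ) : ℂ) * I := by
    push_cast
    linear_combination (b : ℂ) / 2 * (y : ℂ) ^ 2 * Complex.I_sq
  rw [h, Complex.add_re, Complex.ofReal_re, Complex.re_ofReal_mul, Complex.I_re, mul_zero, add_zero]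

lemma gk_eq (b a x y : ℝ) : gk b a ((x : ℂ) + (y : ℂ) * I) =
    cexp ((((-(b / 2) : ℝ)) : ℂ) * (y : ℂ) ^ 2 + (((b * x + a : ℝ) : ℂ) * I) * (y : ℂ) +
      ((b / 2 * x ^ 2 + a * x : ℝ) : ℂ)) := by
  unfold gk
  congr 1
  push_cast
  linear_combination (b : ℂ) / 2 * (y : ℂ) ^ 2 * Complex.I_sq

lemma gk_integrable (b a x : ℝ) (hb : 0 < b) :
    Integrable (fun y : ℝ => gk b a ((x : ℂ) + (y : ℂ) * I)) := by
  simp_rw [gk_eq]
  apply integrable_cexp_quadratic'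
  rw [Complex.ofReal_re]
  linarith

/-- the integral over a vertical line does not depend on the line -/
lemma gk_integral (b a x : ℝ) (hb : 0 < b) :
    ∫ y : ℝ, gk b a ((x : ℂ) + (y : ℂ) * I) =
      ((Real.sqrt (2 * Real.pi / b) * Real.exp (-(a ^ 2 / (2 * b))) : ℝ) : ℂ) := by
  simp_rw [gk_eq]
  rw [integral_cexp_quadratic (by rw [Complex.ofReal_re]; linarith)]
  have hb' : (b : ℂ) ≠ 0 := by exact_mod_cast hb.ne'
  have h1 : ((Real.pi : ℂ) / -(((-(b / 2) : ℝ)) : ℂ)) = ((2 * Real.pi / b : ℝ) : ℂ) := by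
    push_cast
    field_simp
  have h2 : ((2 * Real.pi / b : ℝ) : ℂ) ^ (1 / 2 : ℂ) = ((Real.sqrt (2 * Real.pi / b) : ℝ) : ℂ) := by
    rw [Real.sqrt_eq_rpow, Complex.ofReal_cpow (by positivity)]
    norm_num
  rw [h1, h2, Complex.ofReal_mul, Complex.ofReal_exp]
  congr 2
  rw [mul_pow, Complex.I_sq]
  push_cast
  field_simp
  ring

/-- the Gaussian integral against an exponential -/
lemma gauss_four (b ξ : ℝ) (hb : 0 < b) :
    ∫ v : ℝ, cexp (((ξ * v : ℝ) : ℂ) * I) * ((Real.exp (-(b / 2) * v ^ 2) : ℝ) : ℂ) =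
      ((Real.sqrt (2 * Real.pi / b) * Real.exp (-(ξ ^ 2 / (2 * b))) : ℝ) : ℂ) := by
  rw [← gk_integral b ξ 0 hb]
  congr 1
  ext v
  rw [gk_eq, Complex.ofReal_exp, ← Complex.exp_add]
  congr 1
  push_cast
  ring

lemma gauss_int (b : ℝ) (hb : 0 < b) :
    Integrable (fun v : ℝ => Real.exp (-(b / 2) * v ^ 2)) :=
  integrable_exp_neg_mul_sq (by linarith)

lemma gauss_val (b : ℝ) : ∫ v : ℝ, Real.exp (-(b / 2) * v ^ 2) = Real.sqrt (2 * Real.pi / b) := by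
  rw [integral_gaussian]
  congr 1
  field_simp

lemma gauss_four_int (b ξ : ℝ) (hb : 0 < b) :
    Integrable (fun v : ℝ => cexp (((ξ * v : ℝ) : ℂ) * I) * ((Real.exp (-(b / 2) * v ^ 2) : ℝ) : ℂ)) := by
  refine (gauss_int b hb).ofReal.bdd_mul (c := 1) ?_ ?_
  · exact (by fun_prop : Continuous fun v : ℝ => cexp (((ξ * v : ℝ) : ℂ) * I)).aestronglyMeasurable
  · refine Eventually.of_forall fun v => ?_
    rw [Complex.norm_exp_ofReal_mul_I]

/-- exponential sums -/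
noncomputable def ES {ι : Type} [Fintype ι] (a : ι → ℂ) (μ : ι → ℝ) (v : ℝ) : ℂ :=
  ∑ i, a i * cexp (((-(μ i * v) : ℝ) : ℂ) * I)

lemma ES_cont {ι : Type} [Fintype ι] (a : ι → ℂ) (μ : ι → ℝ) : Continuous (ES a μ) := by
  unfold ES
  fun_prop

lemma ES_bound {ι : Type} [Fintype ι] (a : ι → ℂ) (μ : ι → ℝ) (v : ℝ) :
    ‖ES a μ v‖ ≤ ∑ i, ‖a i‖ := by
  unfold ES
  refine (norm_sum_le _ _).trans (Finset.sum_le_sum fun i _ => ?_)
  rw [norm_mul, Complex.norm_exp_ofReal_mul_I, mul_one]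

/-- the Gaussian transform of an exponential sum -/
lemma ES_trans {ι : Type} [Fintype ι] (a : ι → ℂ) (μ : ι → ℝ) (b ω : ℝ) (hb : 0 < b) :
    ∫ v : ℝ, ES a μ v * (cexp (((ω * v : ℝ) : ℂ) * I) * ((Real.exp (-(b / 2) * v ^ 2) : ℝ) : ℂ)) =
      ((Real.sqrt (2 * Real.pi / b) : ℝ) : ℂ) *
        ∑ i, a i * ((Real.exp (-((μ i - ω) ^ 2 / (2 * b))) : ℝ) : ℂ) := by
  have h1 : ∀ v : ℝ, ES a μ v * (cexp (((ω * v : ℝ) : ℂ) * I) *
      ((Real.exp (-(b / 2) * v ^ 2) : ℝ) : ℂ)) =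
      ∑ i, a i * (cexp ((((ω - μ i) * v : ℝ) : ℂ) * I) *
        ((Real.exp (-(b / 2) * v ^ 2) : ℝ) : ℂ)) := by
    intro v
    unfold ES
    rw [Finset.sum_mul]
    refine Finset.sum_congr rfl fun i _ => ?_
    have h2 : cexp ((((ω - μ i) * v : ℝ) : ℂ) * I) =
        cexp (((-(μ i * v) : ℝ) : ℂ) * I) * cexp (((ω * v : ℝ) : ℂ) * I) := by
      rw [← Complex.exp_add]
      congr 1
      push_cast
      ring
    rw [h2]
    ring
  simp_rw [h1]
  rw [integral_finsetSum]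
  · rw [Finset.mul_sum]
    refine Finset.sum_congr rfl fun i _ => ?_
    rw [integral_const_mul, gauss_four b _ hb]
    push_cast
    rw [show ((ω : ℂ) - μ i) ^ 2 = ((μ i : ℂ) - ω) ^ 2 by ring]
    ring
  · intro i _
    exact (gauss_four_int b _ hb).const_mul _

lemma ES_int {ι : Type} [Fintype ι] (a : ι → ℂ) (μ : ι → ℝ) (b ω : ℝ) (hb : 0 < b) :
    Integrable (fun v : ℝ => ES a μ v * (cexp (((ω * v : ℝ) : ℂ) * I) *
      ((Real.exp (-(b / 2) * v ^ 2) : ℝ) : ℂ))) :=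
  (gauss_four_int b ω hb).bdd_mul (c := ∑ i, ‖a i‖) (ES_cont a μ).aestronglyMeasurable
    (Eventually.of_forall fun v => ES_bound a μ v)

lemma ES_conj {ι : Type} [Fintype ι] (a : ι → ℂ) (μ : ι → ℝ) (v : ℝ) :
    (starRingEnd ℂ) (ES a μ v) = ES (fun i => (starRingEnd ℂ) (a i)) (fun i => -μ i) v := by
  unfold ES
  rw [map_sum]
  refine Finset.sum_congr rfl fun i _ => ?_
  rw [map_mul, ← Complex.exp_conj, map_mul, Complex.conj_I, Complex.conj_ofReal]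
  congr 2
  push_cast
  ring

/-- **positivity**: the windows of an exponential sum with non-negative frequencies are bounded by
the mean of the positive part of its real part -/
theorem pos_window {ι : Type} [Fintype ι] (a : ι → ℂ) (μ : ι → ℝ) (hμ : ∀ i, 0 ≤ μ i) (b ω : ℝ)
    (hb : 0 < b) (hω : 0 ≤ ω) :
    ‖∑ i, a i * ((Real.exp (-((μ i - ω) ^ 2 / (2 * b))) : ℝ) : ℂ)‖ ≤
      3 * ∑ i, ‖a i‖ * Real.exp (-(μ i ^ 2 / (2 * b))) +
      4 * Real.sqrt (b / (2 * Real.pi)) *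
        ∫ v : ℝ, max (ES a μ v).re 0 * Real.exp (-(b / 2) * v ^ 2) := by
  obtain ⟨H, hH⟩ : ∃ H : ℝ, H = ∑ i, ‖a i‖ * Real.exp (-(μ i ^ 2 / (2 * b))) := ⟨_, rfl⟩
  obtain ⟨c, hc⟩ : ∃ c : ℝ, c = Real.sqrt (2 * Real.pi / b) := ⟨_, rfl⟩
  have hc0 : 0 < c := by rw [hc]; positivity
  have hcinv : Real.sqrt (b / (2 * Real.pi)) = c⁻¹ := by
    rw [hc, ← Real.sqrt_inv, inv_div]
  have hFc : Continuous fun v : ℝ => (ES a μ v).re := Complex.continuous_re.comp (ES_cont a μ)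
  have hGi := gauss_int b hb
  have hFb : ∀ v : ℝ, |(ES a μ v).re| ≤ ∑ i, ‖a i‖ := fun v =>
    (Complex.abs_re_le_norm _).trans (ES_bound a μ v)
  have hFG : Integrable (fun v : ℝ => (ES a μ v).re * Real.exp (-(b / 2) * v ^ 2)) :=
    hGi.bdd_mul (c := ∑ i, ‖a i‖) hFc.aestronglyMeasurable
      (Eventually.of_forall fun v => by rw [Real.norm_eq_abs]; exact hFb v)
  have hPG : Integrable (fun v : ℝ => max (ES a μ v).re 0 * Real.exp (-(b / 2) * v ^ 2)) := by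
    refine hGi.bdd_mul (c := ∑ i, ‖a i‖) (hFc.max continuous_const).aestronglyMeasurable
      (Eventually.of_forall fun v => ?_)
    rw [Real.norm_eq_abs, abs_of_nonneg (le_max_right _ _)]
    exact max_le ((le_abs_self _).trans (hFb v)) (Finset.sum_nonneg fun i _ => norm_nonneg _)
  -- the integral of the absolute value
  have habs : ∫ v : ℝ, |(ES a μ v).re| * Real.exp (-(b / 2) * v ^ 2) =
      2 * (∫ v : ℝ, max (ES a μ v).re 0 * Real.exp (-(b / 2) * v ^ 2)) -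
        ∫ v : ℝ, (ES a μ v).re * Real.exp (-(b / 2) * v ^ 2) := by
    rw [← integral_const_mul, ← integral_sub (hPG.const_mul 2) hFG]
    congr 1
    ext v
    rcases le_total 0 (ES a μ v).re with h | h
    · rw [max_eq_left h, abs_of_nonneg h]; ring
    · rw [max_eq_right h, abs_of_nonpos h]; ring
  have hmean : -(∫ v : ℝ, (ES a μ v).re * Real.exp (-(b / 2) * v ^ 2)) ≤ c * H := by
    have h1 := ES_trans a μ b 0 hb
    have h2 : ((∫ v : ℝ, (ES a μ v).re * Real.exp (-(b / 2) * v ^ 2) : ℝ)) =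
        (∫ v : ℝ, ES a μ v * (cexp (((0 * v : ℝ) : ℂ) * I) *
          ((Real.exp (-(b / 2) * v ^ 2) : ℝ) : ℂ))).re := by
      have h3 := (reCLM.integral_comp_comm (ES_int a μ b 0 hb)).symm
      simp only [reCLM_apply] at h3
      rw [h3]
      congr 1
      ext v
      rw [zero_mul, Complex.ofReal_zero, zero_mul, Complex.exp_zero, one_mul, Complex.re_mul_ofReal]
    rw [h2, h1]
    refine (neg_le_abs _).trans ((Complex.abs_re_le_norm _).trans ?_)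
    rw [norm_mul, Complex.norm_real, Real.norm_of_nonneg (Real.sqrt_nonneg _), ← hc]
    refine mul_le_mul_of_nonneg_left ?_ hc0.le
    rw [hH]
    refine (norm_sum_le _ _).trans (Finset.sum_le_sum fun i _ => ?_)
    rw [norm_mul, Complex.norm_real, Real.norm_of_nonneg (Real.exp_pos _).le, sub_zero]
  -- the transform of the real part
  have htr : ‖∫ v : ℝ, (((ES a μ v).re : ℝ) : ℂ) * (cexp (((ω * v : ℝ) : ℂ) * I) *
      ((Real.exp (-(b / 2) * v ^ 2) : ℝ) : ℂ))‖ ≤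
      ∫ v : ℝ, |(ES a μ v).re| * Real.exp (-(b / 2) * v ^ 2) := by
    refine (norm_integral_le_integral_norm _).trans_eq ?_
    congr 1
    ext v
    rw [norm_mul, norm_mul, Complex.norm_real, Complex.norm_real, Complex.norm_exp_ofReal_mul_I,
      one_mul, Real.norm_eq_abs, Real.norm_of_nonneg (Real.exp_pos _).le]
  have hdec : 2 * (∫ v : ℝ, (((ES a μ v).re : ℝ) : ℂ) * (cexp (((ω * v : ℝ) : ℂ) * I) *
      ((Real.exp (-(b / 2) * v ^ 2) : ℝ) : ℂ))) =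
      (c : ℂ) * (∑ i, a i * ((Real.exp (-((μ i - ω) ^ 2 / (2 * b))) : ℝ) : ℂ)) +
      (c : ℂ) * ∑ i, (starRingEnd ℂ) (a i) * ((Real.exp (-((-μ i - ω) ^ 2 / (2 * b))) : ℝ) : ℂ) := by
    have h1 := ES_trans a μ b ω hb
    have h2 := ES_trans (fun i => (starRingEnd ℂ) (a i)) (fun i => -μ i) b ω hb
    have h3 := ES_int a μ b ω hb
    have h4 := ES_int (fun i => (starRingEnd ℂ) (a i)) (fun i => -μ i) b ω hb
    rw [hc, ← h1, ← h2, ← integral_add h3 h4, ← integral_const_mul]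
    congr 1
    ext v
    rw [← ES_conj, ← add_mul, Complex.add_conj]
    push_cast
    ring
  have hneg : ‖∑ i, (starRingEnd ℂ) (a i) * ((Real.exp (-((-μ i - ω) ^ 2 / (2 * b))) : ℝ) : ℂ)‖ ≤ H := by
    rw [hH]
    refine (norm_sum_le _ _).trans (Finset.sum_le_sum fun i _ => ?_)
    rw [norm_mul, RCLike.norm_conj, Complex.norm_real, Real.norm_of_nonneg (Real.exp_pos _).le]
    refine mul_le_mul_of_nonneg_left (Real.exp_le_exp.2 ?_) (norm_nonneg _)
    have := hμ i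
    refine neg_le_neg (div_le_div_of_nonneg_right ?_ (by positivity))
    nlinarith
  obtain ⟨X, hX⟩ : ∃ X : ℂ, X = ∑ i, a i * ((Real.exp (-((μ i - ω) ^ 2 / (2 * b))) : ℝ) : ℂ) := ⟨_, rfl⟩
  obtain ⟨Y, hY⟩ : ∃ Y : ℂ, Y = ∑ i, (starRingEnd ℂ) (a i) *
    ((Real.exp (-((-μ i - ω) ^ 2 / (2 * b))) : ℝ) : ℂ) := ⟨_, rfl⟩
  obtain ⟨P, hP⟩ : ∃ P : ℝ, P = ∫ v : ℝ, max (ES a μ v).re 0 * Real.exp (-(b / 2) * v ^ 2) := ⟨_, rfl⟩
  rw [← hX, ← hH, hcinv, ← hP]
  rw [← hX, ← hY] at hdec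
  rw [← hY] at hneg
  rw [habs, ← hP] at htr
  have h5 : ‖(c : ℂ) * X‖ ≤ c * H + 2 * (2 * P + c * H) := by
    have h6 : (c : ℂ) * X = 2 * (∫ v : ℝ, (((ES a μ v).re : ℝ) : ℂ) * (cexp (((ω * v : ℝ) : ℂ) * I) *
      ((Real.exp (-(b / 2) * v ^ 2) : ℝ) : ℂ))) - (c : ℂ) * Y := by rw [hdec]; ring
    rw [h6]
    refine (norm_sub_le _ _).trans ?_
    rw [norm_mul, norm_mul, Complex.norm_ofNat, Complex.norm_real, Real.norm_of_nonneg hc0.le]
    have h7 : c * ‖Y‖ ≤ c * H := mul_le_mul_of_nonneg_left hneg hc0.le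
    linarith
  rw [norm_mul, Complex.norm_real, Real.norm_of_nonneg hc0.le] at h5
  have h8 : ‖X‖ ≤ c⁻¹ * (c * H + 2 * (2 * P + c * H)) := by
    rw [inv_mul_eq_div, le_div_iff₀ hc0]
    linarith
  refine h8.trans_eq ?_
  field_simp
  ring

end Pool.Agent.H476.LS
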