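import Pool.Agent.H476.LS1
import Pool.Graph.R_seed8.TH75.AFE1

set_option autoImplicit false

/-! One cosine sum and the Lindelöf hypothesis, part 2: smoothed sums with Gaussian windows. -/

open Complex MeasureTheory Filter Topology

namespace Pool.Agent.H476.LS

/-- the point `3/4 + iy` -/
noncomputable def zp (y : ℝ) : ℂ := ((3 / 4 : ℝ) : ℂ) + (y : ℂ) * I

lemma zp_cont : Continuous zp := by unfold zp; fun_prop

lemma zp_re (y : ℝ) : (zp y).re = 3 / 4 := by unfold zp; simp

lemma zp_ne (y : ℝ) : zp y ≠ 0 := by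
  intro h
  have := congrArg Complex.re h
  rw [zp_re] at this
  norm_num at this

/-- the window at `ω` -/
noncomputable def W (b ω : ℝ) (s : ℂ) : ℂ :=
  (1 / (2 * Real.pi)) * ∫ y : ℝ, riemannZeta (s + zp y) * gk b ω (zp y)

/-- the smoothed sum -/
noncomputable def S (b D : ℝ) (s : ℂ) : ℂ :=
  (1 / (2 * Real.pi)) * ∫ y : ℝ, riemannZeta (s + zp y) * gk b D (zp y) / zp y

lemma zeta_cont (s : ℂ) (hs : 1 / 2 ≤ s.re) : Continuous fun y : ℝ => riemannZeta (s + zp y) := by
  rw [continuous_iff_continuousAt]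
  intro y
  have hne : s + zp y ≠ 1 := by
    intro h
    have := congrArg Complex.re h
    rw [Complex.add_re, zp_re, Complex.one_re] at this
    linarith
  have h2 : ContinuousAt riemannZeta (s + zp y) := (differentiableAt_riemannZeta hne).continuousAt
  have h3 : ContinuousAt (fun y : ℝ => s + zp y) y := (continuous_const.add zp_cont).continuousAt
  exact ContinuousAt.comp (f := fun y : ℝ => s + zp y) (g := riemannZeta) h2 h3

lemma gk_cont (b a : ℝ) : Continuous (gk b a) := by unfold gk; fun_prop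

lemma gk_split (b a : ℝ) (z : ℂ) : gk b a z = gk b 0 z * cexp (z * (a : ℂ)) := by
  unfold gk
  rw [← Complex.exp_add]
  congr 1
  push_cast
  ring

/-- the smoothed sum is the integral of the windows -/
theorem S_eq (b D : ℝ) (hb : 0 < b) (s : ℂ) (hs : 1 / 2 ≤ s.re) :
    S b D s = ∫ ω in Set.Iic D, W b ω s := by
  obtain ⟨Cz, hCz, hz⟩ := Pool.Agent.TH75.AFE1.zeta_bdd54
  have hzb : ∀ y : ℝ, ‖riemannZeta (s + zp y)‖ ≤ Cz := fun y =>
    hz _ (by rw [Complex.add_re, zp_re]; linarith)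
  have h1 : ∀ y : ℝ, riemannZeta (s + zp y) * gk b D (zp y) / zp y =
      ∫ ω in Set.Iic D, riemannZeta (s + zp y) * gk b 0 (zp y) * cexp (zp y * (ω : ℂ)) := by
    intro y
    rw [integral_const_mul, integral_exp_mul_complex_Iic (by rw [zp_re]; norm_num), gk_split b D]
    ring
  unfold S W
  rw [integral_const_mul]
  congr 1
  simp_rw [h1]
  rw [integral_integral_swap]
  · congr 1
    ext ω
    congr 1
    ext y
    rw [gk_split b ω]
    ring
  · have hF : Integrable (fun p : ℝ × ℝ => (Cz * (Real.exp (b / 2 * (3 / 4) ^ 2) *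
        Real.exp (-(b / 2) * p.1 ^ 2))) * Real.exp (3 / 4 * p.2))
        ((volume : Measure ℝ).prod (volume.restrict (Set.Iic D))) := by
      refine Integrable.mul_prod (f := fun y : ℝ => Cz * (Real.exp (b / 2 * (3 / 4) ^ 2) *
        Real.exp (-(b / 2) * y ^ 2))) (g := fun ω : ℝ => Real.exp (3 / 4 * ω)) ?_ ?_
      · exact ((gauss_int b hb).const_mul _).const_mul _
      · exact integrableOn_exp_mul_Iic (by norm_num) D
    refine hF.mono' ?_ ?_
    · apply Continuous.aestronglyMeasurable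
      have h2 := (zeta_cont s hs).comp (continuous_fst (X := ℝ) (Y := ℝ))
      have h3 := (gk_cont b 0).comp (zp_cont.comp (continuous_fst (X := ℝ) (Y := ℝ)))
      have h4 : Continuous fun p : ℝ × ℝ => cexp (zp p.1 * (p.2 : ℂ)) := by
        have := zp_cont
        fun_prop
      exact (h2.mul h3).mul h4
    · refine Eventually.of_forall fun p => ?_
      show ‖riemannZeta (s + zp p.1) * gk b 0 (zp p.1) * cexp (zp p.1 * (p.2 : ℂ))‖ ≤ _
      rw [norm_mul, norm_mul]
      have h5 : ‖gk b 0 (zp p.1)‖ = Real.exp (b / 2 * (3 / 4) ^ 2) * Real.exp (-(b / 2) * p.1 ^ 2) := by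
        unfold zp
        rw [gk_norm]
        simp
      have h6 : ‖cexp (zp p.1 * (p.2 : ℂ))‖ = Real.exp (3 / 4 * p.2) := by
        rw [Complex.norm_exp, Complex.re_mul_ofReal, zp_re]
      rw [h5, h6]
      have := hzb p.1
      gcongr

/-- the windows as Dirichlet series -/
theorem W_hasSum (b ω : ℝ) (hb : 0 < b) (s : ℂ) (hs : 1 / 2 ≤ s.re) :
    HasSum (fun n : ℕ => ((n : ℂ) + 1) ^ (-s) * (((1 / (2 * Real.pi)) * Real.sqrt (2 * Real.pi / b) *
      Real.exp (-((Real.log ((n : ℝ) + 1) - ω) ^ 2 / (2 * b))) : ℝ) : ℂ)) (W b ω s) := by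
  have hlog : ∀ n : ℕ, ∀ y : ℝ, ((n : ℂ) + 1) ^ (-(s + zp y)) * gk b ω (zp y) =
      ((n : ℂ) + 1) ^ (-s) * gk b (ω - Real.log ((n : ℝ) + 1)) (zp y) := by
    intro n y
    have hn : ((n : ℂ) + 1) ≠ 0 := by exact_mod_cast n.succ_ne_zero
    have e1 : Complex.log ((n : ℂ) + 1) = ((Real.log ((n : ℝ) + 1) : ℝ) : ℂ) := by
      rw [Complex.ofReal_log (by positivity)]
      push_cast
      rfl
    rw [neg_add, Complex.cpow_add _ _ hn, Complex.cpow_def_of_ne_zero hn (-zp y), e1, mul_assoc]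
    congr 1
    unfold gk
    rw [← Complex.exp_add]
    congr 1
    push_cast
    ring
  have hint : ∀ n : ℕ, Integrable (fun y : ℝ => ((n : ℂ) + 1) ^ (-(s + zp y)) * gk b ω (zp y)) := by
    intro n
    simp_rw [hlog n]
    exact (gk_integrable b _ (3 / 4) hb).const_mul _
  have hnorm : ∀ n : ℕ, ∀ y : ℝ, ‖((n : ℂ) + 1) ^ (-(s + zp y)) * gk b ω (zp y)‖ =
      ((n : ℝ) + 1) ^ (-(s.re + 3 / 4)) * ‖gk b ω (zp y)‖ := by
    intro n y
    have e1 : ((n : ℂ) + 1) = (((n : ℝ) + 1 : ℝ) : ℂ) := by push_cast; rfl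
    rw [norm_mul, e1, Complex.norm_cpow_eq_rpow_re_of_pos (by positivity)]
    rw [Complex.neg_re, Complex.add_re, zp_re]
  have hsum : Summable (fun n : ℕ => ∫ y : ℝ, ‖((n : ℂ) + 1) ^ (-(s + zp y)) * gk b ω (zp y)‖) := by
    simp_rw [hnorm, integral_const_mul]
    refine Summable.mul_right _ ?_
    have h := (summable_nat_add_iff 1).2 (Real.summable_nat_rpow (p := -(s.re + 3 / 4)) |>.2
      (by linarith))
    simpa using h
  have key := hasSum_integral_of_summable_integral_norm hint hsum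
  have h1 : ∀ y : ℝ, ∑' n : ℕ, ((n : ℂ) + 1) ^ (-(s + zp y)) * gk b ω (zp y) =
      riemannZeta (s + zp y) * gk b ω (zp y) := by
    intro y
    rw [tsum_mul_right, zeta_eq_tsum_one_div_nat_add_one_cpow (by rw [Complex.add_re, zp_re]; linarith)]
    congr 1
    congr 1
    ext n
    rw [Complex.cpow_neg, one_div]
  simp_rw [h1] at key
  have h2 := key.mul_left ((1 / (2 * Real.pi) : ℂ))
  refine h2.congr_fun ?_
  intro n
  simp_rw [hlog n]
  rw [integral_const_mul]
  have h3 := gk_integral b (ω - Real.log ((n : ℝ) + 1)) (3 / 4) hb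
  unfold zp
  rw [h3]
  push_cast
  rw [show ((ω : ℂ) - (Real.log ((n : ℝ) + 1) : ℂ)) ^ 2 = ((Real.log ((n : ℝ) + 1) : ℂ) - ω) ^ 2 by ring]
  ring

end Pool.Agent.H476.LS
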