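import Pool.Agent.H476.LS2

set_option autoImplicit false

/-! One cosine sum and the Lindelöf hypothesis, part 3: the smoothed sum is bounded by the mean of
the positive part of the real part of a long section. -/

open Complex MeasureTheory Filter Topology

namespace Pool.Agent.H476.LS

/-- the section of length `N` of the zeta series on the critical line -/
noncomputable def P (N : ℕ) (t : ℝ) : ℂ :=
  ∑ n ∈ Finset.range N, ((n : ℂ) + 1) ^ (-(1 / 2 + (t : ℂ) * I))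

/-- the section with additional terms of higher frequencies -/
noncomputable def Q (N J : ℕ) (c : Fin J → ℂ) (lam : Fin J → ℝ) (t : ℝ) : ℂ :=
  P N t + ∑ j, c j * cexp (-((lam j : ℂ) * (t : ℂ) * I))

lemma inv_sq_sum (N : ℕ) : ∑ n ∈ Finset.range N, (((n : ℝ) + 1) ^ 2)⁻¹ ≤ 2 := by
  have h := hasSum_zeta_two
  have h0 : Summable (fun n : ℕ => 1 / ((n : ℝ)) ^ 2) := h.summable
  have h1 : ∑ n ∈ Finset.range (N + 1), 1 / ((n : ℝ)) ^ 2 ≤ Real.pi ^ 2 / 6 := by
    rw [← h.tsum_eq]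
    exact h0.sum_le_tsum _ fun i _ => by positivity
  rw [Finset.sum_range_succ'] at h1
  simp only [Nat.cast_zero, ne_eq, OfNat.ofNat_ne_zero, not_false_eq_true, zero_pow, div_zero,
    add_zero, Nat.cast_add, Nat.cast_one, one_div] at h1
  have hpi := Real.pi_lt_d2
  have hpi0 := Real.pi_pos
  nlinarith

lemma inv_sq_summable : Summable (fun n : ℕ => (((n : ℝ) + 1) ^ 2)⁻¹) := by
  have h := (summable_nat_add_iff 1).2 (Real.summable_nat_pow_inv.2 (by norm_num : 1 < 2))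
  simpa using h

lemma inv_sq_tsum : ∑' n : ℕ, (((n : ℝ) + 1) ^ 2)⁻¹ ≤ 2 :=
  Real.tsum_le_of_sum_range_le (fun n => by positivity) inv_sq_sum

lemma sq_eq_exp (n : ℕ) : (((n : ℝ) + 1) ^ 2)⁻¹ = Real.exp (-(2 * Real.log ((n : ℝ) + 1))) := by
  have h0 : (0 : ℝ) < (n : ℝ) + 1 := by positivity
  rw [Real.exp_neg, two_mul, Real.exp_add, Real.exp_log h0]
  ring

lemma half_eq_exp (n : ℕ) : ((n : ℝ) + 1) ^ (-(1 / 2) : ℝ) =
    Real.exp (-(Real.log ((n : ℝ) + 1) / 2)) := by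
  rw [Real.rpow_def_of_pos (by positivity)]
  congr 1
  ring

/-- terms far from the window -/
lemma far_term (b D Y ω : ℝ) (hb : 0 < b) (hY1 : 6 * b ≤ Y) (hY2 : 6 * b * D ≤ Y ^ 2)
    (hω : ω ≤ D) (n : ℕ) (hn : D + Y ≤ Real.log ((n : ℝ) + 1)) :
    ((n : ℝ) + 1) ^ (-(1 / 2) : ℝ) * Real.exp (-((Real.log ((n : ℝ) + 1) - ω) ^ 2 / (2 * b))) ≤
      Real.exp (-((D - ω) ^ 2 / (2 * b))) * (((n : ℝ) + 1) ^ 2)⁻¹ := by
  rw [sq_eq_exp, half_eq_exp, ← Real.exp_add, ← Real.exp_add]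
  apply Real.exp_le_exp.2
  obtain ⟨L, hL⟩ : ∃ L : ℝ, L = Real.log ((n : ℝ) + 1) := ⟨_, rfl⟩
  rw [← hL] at hn ⊢
  have hY0 : 0 < Y := by linarith
  have h1 : (L - ω) ^ 2 ≥ (L - D) ^ 2 + (D - ω) ^ 2 := by nlinarith
  have h2 : 3 * b * L ≤ (L - D) ^ 2 := by nlinarith
  have h3 : (L - ω) ^ 2 / (2 * b) - (D - ω) ^ 2 / (2 * b) ≥ 3 / 2 * L := by
    rw [← sub_div, ge_iff_le, le_div_iff₀ (by positivity)]
    nlinarith
  linarith

/-- terms near zero -/
lemma near_term (b : ℝ) (hb : 0 < b) (n : ℕ) :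
    ((n : ℝ) + 1) ^ (-(1 / 2) : ℝ) * Real.exp (-(Real.log ((n : ℝ) + 1) ^ 2 / (2 * b))) ≤
      Real.exp (9 * b / 8) * (((n : ℝ) + 1) ^ 2)⁻¹ := by
  rw [sq_eq_exp, half_eq_exp, ← Real.exp_add, ← Real.exp_add]
  apply Real.exp_le_exp.2
  obtain ⟨L, hL⟩ : ∃ L : ℝ, L = Real.log ((n : ℝ) + 1) := ⟨_, rfl⟩
  rw [← hL]
  have h1 : 3 / 2 * L - 9 * b / 8 ≤ L ^ 2 / (2 * b) := by
    rw [le_div_iff₀ (by positivity)]
    nlinarith [sq_nonneg (L - 3 * b / 2)]
  linarith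

lemma near_sum (b : ℝ) (hb : 0 < b) (N : ℕ) :
    ∑ n ∈ Finset.range N, ((n : ℝ) + 1) ^ (-(1 / 2) : ℝ) *
      Real.exp (-(Real.log ((n : ℝ) + 1) ^ 2 / (2 * b))) ≤ 2 * Real.exp (9 * b / 8) := by
  calc _ ≤ ∑ n ∈ Finset.range N, Real.exp (9 * b / 8) * (((n : ℝ) + 1) ^ 2)⁻¹ :=
        Finset.sum_le_sum fun n _ => near_term b hb n
    _ = Real.exp (9 * b / 8) * ∑ n ∈ Finset.range N, (((n : ℝ) + 1) ^ 2)⁻¹ := by rw [Finset.mul_sum]
    _ ≤ Real.exp (9 * b / 8) * 2 := by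
        apply mul_le_mul_of_nonneg_left (inv_sq_sum N) (Real.exp_pos _).le
    _ = _ := by ring

lemma term_norm (n : ℕ) (t : ℝ) : ‖((n : ℂ) + 1) ^ (-(1 / 2 + (t : ℂ) * I))‖ =
    ((n : ℝ) + 1) ^ (-(1 / 2) : ℝ) := by
  have h : ((n : ℂ) + 1) = (((n : ℝ) + 1 : ℝ) : ℂ) := by push_cast; ring
  rw [h, Complex.norm_cpow_eq_rpow_re_of_pos (by positivity)]
  simp

/-- the constant `1/√(2πb)` -/
noncomputable def gam (b : ℝ) : ℝ := 1 / (2 * Real.pi) * Real.sqrt (2 * Real.pi / b)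

lemma gam_nonneg (b : ℝ) : 0 ≤ gam b := by unfold gam; positivity

lemma gam_le_one (b : ℝ) (hb : 1 ≤ b) : gam b ≤ 1 := by
  unfold gam
  have hpi := Real.pi_gt_three
  have h1 : Real.sqrt (2 * Real.pi / b) ≤ 2 * Real.pi := by
    apply Real.sqrt_le_iff.2
    refine ⟨by positivity, ?_⟩
    calc 2 * Real.pi / b ≤ 2 * Real.pi := div_le_self (by positivity) hb
      _ ≤ (2 * Real.pi) ^ 2 := by nlinarith
  rw [one_div, inv_mul_eq_div, div_le_one (by positivity)]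
  exact h1

/-- the windows, up to the terms far away -/
theorem W_bound (b D Y ω : ℝ) (hb : 0 < b) (hD : 0 ≤ D) (hY1 : 6 * b ≤ Y) (hY2 : 6 * b * D ≤ Y ^ 2)
    (hω : ω ≤ D) (N : ℕ) (hN : D + Y ≤ Real.log N) (t : ℝ) :
    ‖W b ω (1 / 2 + (t : ℂ) * I)‖ ≤ gam b *
      (‖∑ n ∈ Finset.range N, ((n : ℂ) + 1) ^ (-(1 / 2 + (t : ℂ) * I)) *
        ((Real.exp (-((Real.log ((n : ℝ) + 1) - ω) ^ 2 / (2 * b))) : ℝ) : ℂ)‖ +
      2 * Real.exp (-((D - ω) ^ 2 / (2 * b)))) := by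
  have hs : (1 / 2 : ℝ) ≤ (1 / 2 + (t : ℂ) * I).re := by simp
  have hsum := W_hasSum b ω hb (1 / 2 + (t : ℂ) * I) hs
  have hN0 : 1 ≤ N := by
    by_contra h
    have : N = 0 := by omega
    rw [this] at hN
    simp at hN
    linarith
  rw [← hsum.tsum_eq, ← hsum.summable.sum_add_tsum_nat_add N]
  refine (norm_add_le _ _).trans ?_
  rw [mul_add]
  refine add_le_add ?_ ?_
  · have e : ∑ n ∈ Finset.range N, ((n : ℂ) + 1) ^ (-(1 / 2 + (t : ℂ) * I)) *
        (((1 / (2 * Real.pi)) * Real.sqrt (2 * Real.pi / b) *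
          Real.exp (-((Real.log ((n : ℝ) + 1) - ω) ^ 2 / (2 * b))) : ℝ) : ℂ) =
        ((gam b : ℝ) : ℂ) * ∑ n ∈ Finset.range N, ((n : ℂ) + 1) ^ (-(1 / 2 + (t : ℂ) * I)) *
        ((Real.exp (-((Real.log ((n : ℝ) + 1) - ω) ^ 2 / (2 * b))) : ℝ) : ℂ) := by
      rw [Finset.mul_sum]
      refine Finset.sum_congr rfl fun n _ => ?_
      unfold gam
      push_cast
      ring
    rw [e, norm_mul, Complex.norm_real, Real.norm_of_nonneg (gam_nonneg b)]
  · have hbound : ∀ n : ℕ, ‖(((n + N : ℕ) : ℂ) + 1) ^ (-(1 / 2 + (t : ℂ) * I)) *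
        (((1 / (2 * Real.pi)) * Real.sqrt (2 * Real.pi / b) *
          Real.exp (-((Real.log (((n + N : ℕ) : ℝ) + 1) - ω) ^ 2 / (2 * b))) : ℝ) : ℂ)‖ ≤
        (gam b * Real.exp (-((D - ω) ^ 2 / (2 * b)))) * ((((n + N : ℕ) : ℝ) + 1) ^ 2)⁻¹ := by
      intro n
      rw [norm_mul, term_norm, Complex.norm_real]
      have e : (1 / (2 * Real.pi)) * Real.sqrt (2 * Real.pi / b) *
          Real.exp (-((Real.log (((n + N : ℕ) : ℝ) + 1) - ω) ^ 2 / (2 * b))) =
          gam b * Real.exp (-((Real.log (((n + N : ℕ) : ℝ) + 1) - ω) ^ 2 / (2 * b))) := by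
        unfold gam; rfl
      rw [e, Real.norm_of_nonneg (mul_nonneg (gam_nonneg b) (Real.exp_pos _).le)]
      have hfar := far_term b D Y ω hb hY1 hY2 hω (n + N) (hN.trans (Real.log_le_log
        (by exact_mod_cast hN0) (by push_cast; linarith [n.cast_nonneg (α := ℝ)])))
      calc (((n + N : ℕ) : ℝ) + 1) ^ (-(1 / 2) : ℝ) *
          (gam b * Real.exp (-((Real.log (((n + N : ℕ) : ℝ) + 1) - ω) ^ 2 / (2 * b))))
          = gam b * ((((n + N : ℕ) : ℝ) + 1) ^ (-(1 / 2) : ℝ) *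
            Real.exp (-((Real.log (((n + N : ℕ) : ℝ) + 1) - ω) ^ 2 / (2 * b)))) := by ring
        _ ≤ gam b * (Real.exp (-((D - ω) ^ 2 / (2 * b))) * ((((n + N : ℕ) : ℝ) + 1) ^ 2)⁻¹) :=
            mul_le_mul_of_nonneg_left hfar (gam_nonneg b)
        _ = _ := by ring
    have hs2 : Summable (fun n : ℕ => ((((n + N : ℕ) : ℝ) + 1) ^ 2)⁻¹) :=
      (summable_nat_add_iff (f := fun n : ℕ => (((n : ℝ) + 1) ^ 2)⁻¹) N).2 inv_sq_summable
    refine (tsum_of_norm_bounded (hs2.mul_left _).hasSum hbound).trans ?_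
    rw [tsum_mul_left, mul_assoc, mul_comm 2 (Real.exp _)]
    refine mul_le_mul_of_nonneg_left ?_ (gam_nonneg b)
    refine mul_le_mul_of_nonneg_left ?_ (Real.exp_pos _).le
    have h := inv_sq_summable.sum_add_tsum_nat_add N
    have h3 : 0 ≤ ∑ n ∈ Finset.range N, (((n : ℝ) + 1) ^ 2)⁻¹ :=
      Finset.sum_nonneg fun i _ => by positivity
    linarith [inv_sq_tsum]

/-- the coefficients of the exponential sum `u Q(T + v)` -/
noncomputable def co (N J : ℕ) (c : Fin J → ℂ) (lam : Fin J → ℝ) (u : ℂ) (t : ℝ) :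
    Fin N ⊕ Fin J → ℂ :=
  Sum.elim (fun n => u * (((n : ℕ) : ℂ) + 1) ^ (-(1 / 2 + (t : ℂ) * I)))
    (fun j => u * (c j * cexp (-((lam j : ℂ) * (t : ℂ) * I))))

/-- the frequencies -/
noncomputable def fr (N J : ℕ) (lam : Fin J → ℝ) : Fin N ⊕ Fin J → ℝ :=
  Sum.elim (fun n => Real.log (((n : ℕ) : ℝ) + 1)) lam

lemma ES_eq (N J : ℕ) (c : Fin J → ℂ) (lam : Fin J → ℝ) (u : ℂ) (t v : ℝ) :
    ES (co N J c lam u t) (fr N J lam) v = u * Q N J c lam (t + v) := by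
  unfold ES Q P co fr
  rw [Fintype.sum_sum_type, mul_add, Finset.mul_sum, Finset.mul_sum,
    Finset.sum_range (fun n => u * ((n : ℂ) + 1) ^ (-(1 / 2 + ((t + v : ℝ) : ℂ) * I)))]
  congr 1
  · refine Finset.sum_congr rfl fun n _ => ?_
    simp only [Sum.elim_inl]
    have hn : (((n : ℕ) : ℂ) + 1) ≠ 0 := by exact_mod_cast (n : ℕ).succ_ne_zero
    have e1 : Complex.log (((n : ℕ) : ℂ) + 1) = ((Real.log (((n : ℕ) : ℝ) + 1) : ℝ) : ℂ) := by
      rw [Complex.ofReal_log (by positivity)]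
      push_cast
      rfl
    rw [mul_assoc]
    congr 1
    rw [Complex.cpow_def_of_ne_zero hn, Complex.cpow_def_of_ne_zero hn, e1, ← Complex.exp_add]
    congr 1
    push_cast
    ring
  · refine Finset.sum_congr rfl fun j _ => ?_
    simp only [Sum.elim_inr]
    rw [mul_assoc, mul_assoc, ← Complex.exp_add]
    congr 3
    push_cast
    ring

/-- **the smoothed sum and the positive part of a long section** -/
theorem S_bound (b D Y : ℝ) (hb : 1 ≤ b) (hD : 0 ≤ D) (hY1 : 6 * b ≤ Y) (hY2 : 6 * b * D ≤ Y ^ 2)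
    (N J : ℕ) (hN : D + Y ≤ Real.log N) (c : Fin J → ℂ) (lam : Fin J → ℝ)
    (hlam : ∀ j, D + Y ≤ lam j) (hc : (∑ j, ‖c j‖) * Real.exp (-(Y ^ 2 / (2 * b))) ≤ 1)
    (u : ℂ) (hu : ‖u‖ = 1) (t : ℝ) :
    ‖S b D (1 / 2 + (t : ℂ) * I)‖ ≤
      D * ((∫ v : ℝ, max (u * Q N J c lam (t + v)).re 0 * Real.exp (-(b / 2) * v ^ 2)) +
        9 * Real.exp (9 * b / 8)) + 5 * Real.exp (9 * b / 8) := by
  have hb0 : 0 < b := by linarith
  have hY0 : 0 < Y := by linarith
  have hs : (1 / 2 : ℝ) ≤ (1 / 2 + (t : ℂ) * I).re := by simp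
  obtain ⟨E, hE⟩ : ∃ E : ℝ, E = Real.exp (9 * b / 8) := ⟨_, rfl⟩
  have hE1 : 1 ≤ E := by rw [hE]; exact Real.one_le_exp (by positivity)
  obtain ⟨Ip, hIp⟩ : ∃ Ip : ℝ, Ip = ∫ v : ℝ, max (u * Q N J c lam (t + v)).re 0 *
    Real.exp (-(b / 2) * v ^ 2) := ⟨_, rfl⟩
  have hIp0 : 0 ≤ Ip := by
    rw [hIp]
    exact integral_nonneg fun v => mul_nonneg (le_max_right _ _) (Real.exp_pos _).le
  -- the frequencies are non-negative
  have hfr : ∀ i, 0 ≤ fr N J lam i := by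
    intro i
    rcases i with n | j
    · simp only [fr, Sum.elim_inl]
      exact Real.log_nonneg (by linarith [((n : ℕ).cast_nonneg (α := ℝ))])
    · simp only [fr, Sum.elim_inr]
      have := hlam j
      linarith
  -- bounds of the coefficients
  have hex : ∀ x : ℝ, D + Y ≤ x → ∀ ω : ℝ, ω ≤ D → Real.exp (-((x - ω) ^ 2 / (2 * b))) ≤
      Real.exp (-(Y ^ 2 / (2 * b))) * Real.exp (-((D - ω) ^ 2 / (2 * b))) := by
    intro x hx ω hω
    rw [← Real.exp_add]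
    apply Real.exp_le_exp.2
    have h1 : (x - ω) ^ 2 / (2 * b) ≥ Y ^ 2 / (2 * b) + (D - ω) ^ 2 / (2 * b) := by
      rw [← add_div, ge_iff_le, div_le_div_iff_of_pos_right (by positivity)]
      nlinarith
    linarith
  have hcn : ∀ j : Fin J, ‖c j * cexp (-((lam j : ℂ) * (t : ℂ) * I))‖ = ‖c j‖ := by
    intro j
    have e : -((lam j : ℂ) * (t : ℂ) * I) = ((-(lam j * t) : ℝ) : ℂ) * I := by push_cast; ring
    rw [norm_mul, e, Complex.norm_exp_ofReal_mul_I, mul_one]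
  have hJ : ∀ ω : ℝ, ω ≤ D → ∑ j, ‖c j‖ * Real.exp (-((lam j - ω) ^ 2 / (2 * b))) ≤
      Real.exp (-((D - ω) ^ 2 / (2 * b))) := by
    intro ω hω
    calc ∑ j, ‖c j‖ * Real.exp (-((lam j - ω) ^ 2 / (2 * b)))
        ≤ ∑ j, ‖c j‖ * (Real.exp (-(Y ^ 2 / (2 * b))) * Real.exp (-((D - ω) ^ 2 / (2 * b)))) :=
          Finset.sum_le_sum fun j _ => mul_le_mul_of_nonneg_left (hex _ (hlam j) ω hω) (norm_nonneg _)
      _ = ((∑ j, ‖c j‖) * Real.exp (-(Y ^ 2 / (2 * b)))) * Real.exp (-((D - ω) ^ 2 / (2 * b))) := by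
          rw [← Finset.sum_mul]; ring
      _ ≤ 1 * Real.exp (-((D - ω) ^ 2 / (2 * b))) :=
          mul_le_mul_of_nonneg_right hc (Real.exp_pos _).le
      _ = _ := one_mul _
  have hS0 := near_sum b hb0 N
  rw [← hE] at hS0
  have hH : ∑ i, ‖co N J c lam u t i‖ * Real.exp (-(fr N J lam i ^ 2 / (2 * b))) ≤ 3 * E := by
    rw [Fintype.sum_sum_type]
    have h1 : ∑ n : Fin N, ‖co N J c lam u t (Sum.inl n)‖ *
        Real.exp (-(fr N J lam (Sum.inl n) ^ 2 / (2 * b))) ≤ 2 * E := by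
      rw [Finset.sum_range (fun n => ((n : ℝ) + 1) ^ (-(1 / 2) : ℝ) *
        Real.exp (-(Real.log ((n : ℝ) + 1) ^ 2 / (2 * b))))] at hS0
      refine le_trans (Finset.sum_le_sum fun n _ => ?_) hS0
      simp only [co, fr, Sum.elim_inl]
      rw [norm_mul, hu, one_mul, term_norm]
    have h2 : ∑ j : Fin J, ‖co N J c lam u t (Sum.inr j)‖ *
        Real.exp (-(fr N J lam (Sum.inr j) ^ 2 / (2 * b))) ≤ 1 := by
      have h3 := hJ 0 hD
      refine le_trans (Finset.sum_le_sum fun j _ => ?_) (h3.trans (Real.exp_le_one_iff.2 (by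
        have : 0 ≤ (D - 0) ^ 2 / (2 * b) := by positivity
        linarith)))
      simp only [co, fr, Sum.elim_inr]
      rw [norm_mul, hu, one_mul, hcn, sub_zero]
    linarith
  -- the windows
  have hgam0 := gam_nonneg b
  have hgam1 := gam_le_one b hb
  have hprod : gam b * (4 * Real.sqrt (b / (2 * Real.pi))) ≤ 1 := by
    unfold gam
    have hpi := Real.pi_gt_three
    have h1 : Real.sqrt (2 * Real.pi / b) * Real.sqrt (b / (2 * Real.pi)) = 1 := by
      rw [← Real.sqrt_mul (by positivity)]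
      have : 2 * Real.pi / b * (b / (2 * Real.pi)) = 1 := by field_simp
      rw [this, Real.sqrt_one]
    calc 1 / (2 * Real.pi) * Real.sqrt (2 * Real.pi / b) * (4 * Real.sqrt (b / (2 * Real.pi)))
        = 4 / (2 * Real.pi) * (Real.sqrt (2 * Real.pi / b) * Real.sqrt (b / (2 * Real.pi))) := by ring
      _ = 4 / (2 * Real.pi) := by rw [h1, mul_one]
      _ ≤ 1 := by rw [div_le_one (by positivity)]; linarith
  have hW : ∀ ω : ℝ, ω ≤ D → ‖W b ω (1 / 2 + (t : ℂ) * I)‖ ≤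
      Set.indicator (Set.Icc 0 D) (fun _ => Ip + 9 * E) ω +
      (gam b * (2 * E) * Real.exp (-((ω - 0) ^ 2 / (2 * b))) +
        gam b * 3 * Real.exp (-((ω - D) ^ 2 / (2 * b)))) := by
    intro ω hω
    refine (W_bound b D Y ω hb0 hD hY1 hY2 hω N hN t).trans ?_
    rw [show (ω - D) ^ 2 = (D - ω) ^ 2 by ring, sub_zero]
    obtain ⟨X, hX⟩ : ∃ X : ℂ, X = ∑ n ∈ Finset.range N, ((n : ℂ) + 1) ^ (-(1 / 2 + (t : ℂ) * I)) *
        ((Real.exp (-((Real.log ((n : ℝ) + 1) - ω) ^ 2 / (2 * b))) : ℝ) : ℂ) := ⟨_, rfl⟩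
    rw [← hX]
    obtain ⟨g, hg⟩ : ∃ g : ℝ, g = Real.exp (-((D - ω) ^ 2 / (2 * b))) := ⟨_, rfl⟩
    have hg0 : 0 < g := by rw [hg]; exact Real.exp_pos _
    rw [← hg]
    rcases le_or_gt 0 ω with h0 | h0
    · rw [Set.indicator_of_mem (Set.mem_Icc.2 ⟨h0, hω⟩)]
      have hpw := pos_window (co N J c lam u t) (fr N J lam) hfr b ω hb0 h0
      have e1 : (fun v : ℝ => max (ES (co N J c lam u t) (fr N J lam) v).re 0 *
          Real.exp (-(b / 2) * v ^ 2)) = fun v : ℝ => max (u * Q N J c lam (t + v)).re 0 *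
          Real.exp (-(b / 2) * v ^ 2) := by
        funext v
        rw [ES_eq]
      rw [e1, ← hIp] at hpw
      have e2 : ∑ i, co N J c lam u t i * ((Real.exp (-((fr N J lam i - ω) ^ 2 / (2 * b))) : ℝ) : ℂ) =
          u * X + ∑ j, (u * (c j * cexp (-((lam j : ℂ) * (t : ℂ) * I)))) *
            ((Real.exp (-((lam j - ω) ^ 2 / (2 * b))) : ℝ) : ℂ) := by
        rw [Fintype.sum_sum_type, hX, Finset.mul_sum, Finset.sum_range (fun n => u * (((n : ℂ) + 1) ^
          (-(1 / 2 + (t : ℂ) * I)) * ((Real.exp (-((Real.log ((n : ℝ) + 1) - ω) ^ 2 / (2 * b))) : ℝ) : ℂ)))]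
        congr 1
        refine Finset.sum_congr rfl fun n _ => ?_
        simp only [co, fr, Sum.elim_inl]
        ring
      rw [e2] at hpw
      have h3 : ‖∑ j, (u * (c j * cexp (-((lam j : ℂ) * (t : ℂ) * I)))) *
            ((Real.exp (-((lam j - ω) ^ 2 / (2 * b))) : ℝ) : ℂ)‖ ≤ g := by
        rw [hg]
        refine le_trans ((norm_sum_le _ _).trans (Finset.sum_le_sum fun j _ => ?_)) (hJ ω hω)
        rw [norm_mul, norm_mul, hu, one_mul, hcn, Complex.norm_real,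
          Real.norm_of_nonneg (Real.exp_pos _).le]
      have h4 : ‖X‖ ≤ 3 * (3 * E) + 4 * Real.sqrt (b / (2 * Real.pi)) * Ip + g := by
        have h5 : ‖u * X‖ = ‖X‖ := by rw [norm_mul, hu, one_mul]
        rw [← h5]
        have h6 := norm_sub_le (u * X + ∑ j, (u * (c j * cexp (-((lam j : ℂ) * (t : ℂ) * I)))) *
            ((Real.exp (-((lam j - ω) ^ 2 / (2 * b))) : ℝ) : ℂ))
            (∑ j, (u * (c j * cexp (-((lam j : ℂ) * (t : ℂ) * I)))) *
            ((Real.exp (-((lam j - ω) ^ 2 / (2 * b))) : ℝ) : ℂ))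
        rw [add_sub_cancel_right] at h6
        linarith
      have h7 : gam b * (‖X‖ + 2 * g) ≤ gam b * (9 * E) + gam b * (4 * Real.sqrt (b / (2 * Real.pi))) * Ip +
          gam b * 3 * g := by
        calc gam b * (‖X‖ + 2 * g) ≤ gam b * ((3 * (3 * E) + 4 * Real.sqrt (b / (2 * Real.pi)) * Ip + g) +
            2 * g) := by gcongr
          _ = _ := by ring
      have h8 : gam b * (9 * E) ≤ 1 * (9 * E) := mul_le_mul_of_nonneg_right hgam1 (by positivity)
      have h9 : gam b * (4 * Real.sqrt (b / (2 * Real.pi))) * Ip ≤ 1 * Ip :=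
        mul_le_mul_of_nonneg_right hprod hIp0
      have h10 : 0 ≤ gam b * (2 * E) * Real.exp (-(ω ^ 2 / (2 * b))) := by positivity
      linarith
    · have h1 : 0 ≤ Set.indicator (Set.Icc 0 D) (fun _ => Ip + 9 * E) ω :=
        Set.indicator_nonneg (fun _ _ => by positivity) ω
      have h2 : ‖X‖ ≤ 2 * E * Real.exp (-(ω ^ 2 / (2 * b))) := by
        rw [hX]
        calc _ ≤ ∑ n ∈ Finset.range N, (((n : ℝ) + 1) ^ (-(1 / 2) : ℝ) *
            Real.exp (-(Real.log ((n : ℝ) + 1) ^ 2 / (2 * b)))) * Real.exp (-(ω ^ 2 / (2 * b))) := by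
              refine (norm_sum_le _ _).trans (Finset.sum_le_sum fun n _ => ?_)
              rw [norm_mul, term_norm, Complex.norm_real, Real.norm_of_nonneg (Real.exp_pos _).le,
                mul_assoc, ← Real.exp_add]
              refine mul_le_mul_of_nonneg_left (Real.exp_le_exp.2 ?_) (by positivity)
              have hl : 0 ≤ Real.log ((n : ℝ) + 1) := Real.log_nonneg (by linarith [n.cast_nonneg (α := ℝ)])
              have h3 : (Real.log ((n : ℝ) + 1) - ω) ^ 2 / (2 * b) ≥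
                  Real.log ((n : ℝ) + 1) ^ 2 / (2 * b) + ω ^ 2 / (2 * b) := by
                rw [← add_div, ge_iff_le, div_le_div_iff_of_pos_right (by positivity)]
                nlinarith
              linarith
          _ = (∑ n ∈ Finset.range N, ((n : ℝ) + 1) ^ (-(1 / 2) : ℝ) *
            Real.exp (-(Real.log ((n : ℝ) + 1) ^ 2 / (2 * b)))) * Real.exp (-(ω ^ 2 / (2 * b))) := by
              rw [Finset.sum_mul]
          _ ≤ 2 * E * Real.exp (-(ω ^ 2 / (2 * b))) := by gcongr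
      calc gam b * (‖X‖ + 2 * g) ≤ gam b * (2 * E * Real.exp (-(ω ^ 2 / (2 * b))) + 3 * g) := by
            gcongr
            norm_num
        _ = 0 + (gam b * (2 * E) * Real.exp (-(ω ^ 2 / (2 * b))) + gam b * 3 * g) := by ring
        _ ≤ _ := by linarith
  -- integration over the windows
  have hgi : ∀ x₀ : ℝ, Integrable (fun ω : ℝ => Real.exp (-((ω - x₀) ^ 2 / (2 * b)))) := by
    intro x₀
    have h1 : Integrable (fun ω : ℝ => Real.exp (-(1 / (2 * b)) * ω ^ 2)) :=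
      integrable_exp_neg_mul_sq (by positivity)
    refine (h1.comp_sub_right x₀).congr (Eventually.of_forall fun ω => ?_)
    show Real.exp _ = Real.exp _
    congr 1
    ring
  have hgv : ∀ x₀ : ℝ, gam b * ∫ ω in Set.Iic D, Real.exp (-((ω - x₀) ^ 2 / (2 * b))) ≤ 1 := by
    intro x₀
    have h1 : ∫ ω in Set.Iic D, Real.exp (-((ω - x₀) ^ 2 / (2 * b))) ≤
        ∫ ω : ℝ, Real.exp (-((ω - x₀) ^ 2 / (2 * b))) :=
      setIntegral_le_integral (hgi x₀) (Eventually.of_forall fun ω => (Real.exp_pos _).le)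
    have h2 : ∫ ω : ℝ, Real.exp (-((ω - x₀) ^ 2 / (2 * b))) = Real.sqrt (Real.pi * (2 * b)) := by
      have h3 := integral_sub_right_eq_self (μ := volume)
        (fun ω : ℝ => Real.exp (-(1 / (2 * b)) * ω ^ 2)) x₀
      have h4 : (fun ω : ℝ => Real.exp (-((ω - x₀) ^ 2 / (2 * b)))) =
          fun ω : ℝ => Real.exp (-(1 / (2 * b)) * (ω - x₀) ^ 2) := by
        funext ω
        congr 1
        ring
      rw [h4, h3, integral_gaussian]
      congr 1
      field_simp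
    rw [h2] at h1
    have h5 : gam b * Real.sqrt (Real.pi * (2 * b)) = 1 := by
      unfold gam
      rw [mul_assoc, ← Real.sqrt_mul (by positivity)]
      have : 2 * Real.pi / b * (Real.pi * (2 * b)) = (2 * Real.pi) ^ 2 := by field_simp
      rw [this, Real.sqrt_sq (by positivity)]
      field_simp
    calc gam b * ∫ ω in Set.Iic D, Real.exp (-((ω - x₀) ^ 2 / (2 * b)))
        ≤ gam b * Real.sqrt (Real.pi * (2 * b)) := mul_le_mul_of_nonneg_left h1 hgam0
      _ = 1 := h5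
  rw [S_eq b D hb0 _ hs, ← hE, ← hIp]
  have hi1 : Integrable (Set.indicator (Set.Icc 0 D) (fun _ : ℝ => Ip + 9 * E))
      (volume.restrict (Set.Iic D)) :=
    ((integrableOn_const (by simp)).integrable_indicator measurableSet_Icc).integrableOn
  have hi2 : Integrable (fun ω : ℝ => gam b * (2 * E) * Real.exp (-((ω - 0) ^ 2 / (2 * b))))
      (volume.restrict (Set.Iic D)) := ((hgi 0).const_mul _).integrableOn
  have hi3 : Integrable (fun ω : ℝ => gam b * 3 * Real.exp (-((ω - D) ^ 2 / (2 * b))))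
      (volume.restrict (Set.Iic D)) := ((hgi D).const_mul _).integrableOn
  refine (norm_integral_le_of_norm_le (hi1.add (hi2.add hi3)) ?_).trans ?_
  · refine (ae_restrict_mem measurableSet_Iic).mono fun ω hω => ?_
    exact hW ω hω
  · have hadd : ∫ ω in Set.Iic D, ((Set.indicator (Set.Icc 0 D) (fun _ : ℝ => Ip + 9 * E)) +
        ((fun ω : ℝ => gam b * (2 * E) * Real.exp (-((ω - 0) ^ 2 / (2 * b)))) +
        fun ω : ℝ => gam b * 3 * Real.exp (-((ω - D) ^ 2 / (2 * b))))) ω =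
        (∫ ω in Set.Iic D, Set.indicator (Set.Icc 0 D) (fun _ : ℝ => Ip + 9 * E) ω) +
        ((∫ ω in Set.Iic D, gam b * (2 * E) * Real.exp (-((ω - 0) ^ 2 / (2 * b)))) +
        ∫ ω in Set.Iic D, gam b * 3 * Real.exp (-((ω - D) ^ 2 / (2 * b)))) := by
      rw [integral_add' hi1 (hi2.add hi3), integral_add' hi2 hi3]
    rw [hadd, integral_const_mul, integral_const_mul, setIntegral_indicator measurableSet_Icc]
    have h1 : Set.Iic D ∩ Set.Icc 0 D = Set.Icc 0 D :=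
      Set.inter_eq_right.2 fun x hx => hx.2
    rw [h1, setIntegral_const]
    have h2 : (volume : Measure ℝ).real (Set.Icc 0 D) = D := by
      rw [Real.volume_real_Icc_of_le hD, sub_zero]
    rw [h2, smul_eq_mul]
    have h3 := hgv 0
    have h4 := hgv D
    have h5 : gam b * (2 * E) * (∫ ω in Set.Iic D, Real.exp (-((ω - 0) ^ 2 / (2 * b)))) ≤ 2 * E := by
      calc _ = (2 * E) * (gam b * ∫ ω in Set.Iic D, Real.exp (-((ω - 0) ^ 2 / (2 * b)))) := by ring
        _ ≤ (2 * E) * 1 := mul_le_mul_of_nonneg_left h3 (by positivity)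
        _ = _ := mul_one _
    have h6 : gam b * 3 * (∫ ω in Set.Iic D, Real.exp (-((ω - D) ^ 2 / (2 * b)))) ≤ 3 := by
      calc _ = 3 * (gam b * ∫ ω in Set.Iic D, Real.exp (-((ω - D) ^ 2 / (2 * b)))) := by ring
        _ ≤ 3 * 1 := mul_le_mul_of_nonneg_left h4 (by positivity)
        _ = _ := mul_one _
    linarith

end Pool.Agent.H476.LS
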