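import Pool.Agent.H476.LS3

set_option autoImplicit false

/-! One cosine sum and the Lindelöf hypothesis, part 4: the symmetric approximate functional
equation with Gaussian smoothing. -/

open Complex MeasureTheory Filter Topology

namespace Pool.Agent.H476.LS

open Pool.Agent.H448R2.GC

/-- the point `-3/4 + iy` -/
noncomputable def zm (y : ℝ) : ℂ := ((-(3 / 4) : ℝ) : ℂ) + (y : ℂ) * I

lemma conj_zm (y : ℝ) : (starRingEnd ℂ) (zm y) = -zp y := by
  unfold zm zp
  rw [map_add, map_mul, Complex.conj_I, Complex.conj_ofReal, Complex.conj_ofReal]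
  push_cast
  ring

lemma gk_conj (b a : ℝ) (z : ℂ) : (starRingEnd ℂ) (gk b a z) = gk b a ((starRingEnd ℂ) z) := by
  unfold gk
  rw [← Complex.exp_conj, map_add, map_mul, map_mul, map_pow, map_div₀, Complex.conj_ofReal,
    Complex.conj_ofReal, Complex.conj_ofNat]

lemma gk_neg (b a : ℝ) (z : ℂ) : gk b a (-z) = gk b (-a) z := by
  unfold gk
  congr 1
  push_cast
  ring

lemma gk_add (b a l : ℝ) (z : ℂ) : gk b a z * cexp (z * (l : ℂ)) = gk b (a + l) z := by
  unfold gk
  rw [← Complex.exp_add]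
  congr 1
  push_cast
  ring

/-- a crude bound for polynomial times Gaussian -/
lemma poly_gauss (B : ℕ) (b : ℝ) (hb : 0 < b) : ∃ C : ℝ, 0 < C ∧ ∀ y : ℝ,
    (1 + |y|) ^ B * Real.exp (-(b / 2) * y ^ 2) ≤ C := by
  refine ⟨(B.factorial : ℝ) * Real.exp (1 + 1 / (2 * b)), by positivity, fun y => ?_⟩
  have h0 : 0 ≤ 1 + |y| := by positivity
  have h1 := Real.pow_div_factorial_le_exp (1 + |y|) h0 B
  have h2 : (1 + |y|) ^ B ≤ (B.factorial : ℝ) * Real.exp (1 + |y|) := by
    rw [div_le_iff₀ (by positivity)] at h1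
    linarith
  calc (1 + |y|) ^ B * Real.exp (-(b / 2) * y ^ 2)
      ≤ ((B.factorial : ℝ) * Real.exp (1 + |y|)) * Real.exp (-(b / 2) * y ^ 2) := by gcongr
    _ = (B.factorial : ℝ) * Real.exp (1 + |y| + -(b / 2) * y ^ 2) := by
        rw [mul_assoc, ← Real.exp_add]
    _ ≤ (B.factorial : ℝ) * Real.exp (1 + 1 / (2 * b)) := by
        refine mul_le_mul_of_nonneg_left (Real.exp_le_exp.2 ?_) (by positivity)
        have h3 : |y| - b / 2 * y ^ 2 ≤ 1 / (2 * b) := by
          rw [le_div_iff₀ (by positivity), ← sq_abs y]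
          nlinarith [sq_nonneg (b * |y| - 1)]
        linarith

/-- the shift from `3/4` to `-3/4` -/
theorem shift_gauss (b D : ℝ) (hb : 0 < b) (t : ℝ) :
    riemannZeta (1 / 2 + (t : ℂ) * I) = S b D (1 / 2 + (t : ℂ) * I) -
      (1 / (2 * Real.pi)) * (∫ y : ℝ, riemannZeta ((1 / 2 + (t : ℂ) * I) + zm y) * gk b D (zm y) / zm y) -
      gk b D (1 - (1 / 2 + (t : ℂ) * I)) / (1 - (1 / 2 + (t : ℂ) * I)) := by
  obtain ⟨s, hs⟩ : ∃ s : ℂ, s = 1 / 2 + (t : ℂ) * I := ⟨_, rfl⟩
  rw [← hs]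
  have hsre : s.re = 1 / 2 := by rw [hs]; simp
  have hsim : s.im = t := by rw [hs]; simp
  have hs1 : s ≠ 1 := by
    intro h
    rw [h] at hsre
    norm_num at hsre
  have hs' : (1 : ℂ) - s ≠ 0 := fun h => hs1 (sub_eq_zero.1 h).symm
  obtain ⟨CZ, B, hCZ, hZ⟩ := Pool.Agent.H448R2.GC.zeta_one_growth 1
  obtain ⟨CG, hCG, hPG⟩ := poly_gauss B b hb
  set Z : ℂ → ℂ := Function.update (fun w : ℂ => (w - 1) * riemannZeta w) 1 1 with hZdef
  have hZne : ∀ w : ℂ, w ≠ 1 → Z w = (w - 1) * riemannZeta w := by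
    intro w hw
    rw [hZdef, Function.update_of_ne hw]
  have hZ1 : Z 1 = 1 := by
    rw [hZdef, Function.update_self]
  set G : ℂ → ℂ := fun z => Z (s + z) * gk b D z with hG
  have hGd : Differentiable ℂ G := by
    have h1 : Differentiable ℂ (fun z : ℂ => Z (s + z)) :=
      Pool.Agent.H448R2.GC.zeta_one_entire.comp (by fun_prop)
    have h2 : Differentiable ℂ (gk b D) := by unfold gk; fun_prop
    exact h1.mul h2
  have hline : ∀ x : ℝ, s.re + x ≠ 1 → x ≠ 0 → ∀ y : ℝ,
      G ((x : ℂ) + (y : ℂ) * I) /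
        ((((x : ℂ) + (y : ℂ) * I) - 0) * (((x : ℂ) + (y : ℂ) * I) - (1 - s))) =
      riemannZeta (s + ((x : ℂ) + (y : ℂ) * I)) * gk b D ((x : ℂ) + (y : ℂ) * I) /
        ((x : ℂ) + (y : ℂ) * I) := by
    intro x hx hx0 y
    have hne : s + ((x : ℂ) + (y : ℂ) * I) ≠ 1 := by
      intro h
      apply hx
      have := congrArg Complex.re h
      simpa using this
    have hz0 : ((x : ℂ) + (y : ℂ) * I) ≠ 0 := by
      intro h
      apply hx0
      have := congrArg Complex.re h
      simpa using this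
    have hsub : ((x : ℂ) + (y : ℂ) * I) - (1 - s) = (s + ((x : ℂ) + (y : ℂ) * I)) - 1 := by ring
    have hne' : (s + ((x : ℂ) + (y : ℂ) * I)) - 1 ≠ 0 := sub_ne_zero.2 hne
    rw [hG]
    simp only
    rw [hZne _ hne, hsub, sub_zero]
    field_simp
  have key := Pool.Agent.H448R2.GC.shift2 G 0 (1 - s) (-(3 / 4)) (3 / 4)
    (CZ * (1 + |t|) ^ B * (Real.exp (b / 2 * (3 / 4) ^ 2 + |D| * (3 / 4)) * CG))
    hGd (Ne.symm hs') (by simp) (by simp) (by simp [hsre]; norm_num)
    (by simp [hsre]; norm_num) ?_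
  · have e1 : (∫ y : ℝ, G (((3 / 4 : ℝ) : ℂ) + (y : ℂ) * I) /
        (((((3 / 4 : ℝ) : ℂ) + (y : ℂ) * I) - 0) * ((((3 / 4 : ℝ) : ℂ) + (y : ℂ) * I) - (1 - s)))) =
        ∫ y : ℝ, riemannZeta (s + zp y) * gk b D (zp y) / zp y := by
      congr 1
      ext y
      exact hline (3 / 4) (by rw [hsre]; norm_num) (by norm_num) y
    have e2 : (∫ y : ℝ, G (((-(3 / 4) : ℝ) : ℂ) + (y : ℂ) * I) /
        (((((-(3 / 4) : ℝ) : ℂ) + (y : ℂ) * I) - 0) * ((((-(3 / 4) : ℝ) : ℂ) + (y : ℂ) * I) - (1 - s)))) =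
        ∫ y : ℝ, riemannZeta (s + zm y) * gk b D (zm y) / zm y := by
      congr 1
      ext y
      exact hline (-(3 / 4)) (by rw [hsre]; norm_num) (by norm_num) y
    rw [e1, e2] at key
    have e4 : G 0 / (0 - (1 - s)) = riemannZeta s := by
      rw [hG]
      simp only
      rw [add_zero, hZne s hs1]
      have h1 : gk b D 0 = 1 := by unfold gk; simp
      have : (0 : ℂ) - (1 - s) = s - 1 := by ring
      rw [this, h1]
      have h3 : s - 1 ≠ 0 := sub_ne_zero.2 hs1
      field_simp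
    have e5 : G (1 - s) / (1 - s - 0) = gk b D (1 - s) / (1 - s) := by
      rw [hG]
      simp only
      have : s + (1 - s) = 1 := by ring
      rw [this, hZ1, one_mul, sub_zero]
    rw [e4, e5] at key
    unfold S
    have hpi : (Real.pi : ℂ) ≠ 0 := by exact_mod_cast Real.pi_ne_zero
    have key2 : (∫ y : ℝ, riemannZeta (s + zp y) * gk b D (zp y) / zp y) =
        (∫ y : ℝ, riemannZeta (s + zm y) * gk b D (zm y) / zm y) +
        2 * Real.pi * (riemannZeta s + gk b D (1 - s) / (1 - s)) := by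
      rw [← key]
      ring
    rw [key2, mul_add]
    have h5 : (1 / (2 * (Real.pi : ℂ))) * (2 * Real.pi *
        (riemannZeta s + gk b D (1 - s) / (1 - s))) = riemannZeta s + gk b D (1 - s) / (1 - s) := by
      rw [← mul_assoc]
      rw [one_div, inv_mul_cancel₀ (by simp [Real.pi_ne_zero]), one_mul]
    rw [h5]
    ring
  · intro z hz1 hz2
    have b1 : ‖Z (s + z)‖ ≤ CZ * (1 + |t|) ^ B * (1 + |z.im|) ^ B := by
      refine (hZ (s + z) (by rw [Complex.add_re]; linarith) (by rw [Complex.add_re]; linarith)).trans ?_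
      have e1 : 1 + |(s + z).im| ≤ (1 + |t|) * (1 + |z.im|) := by
        rw [Complex.add_im, hsim]
        exact S4.one_add_abs_le _ _
      calc CZ * (1 + |(s + z).im|) ^ B ≤ CZ * ((1 + |t|) * (1 + |z.im|)) ^ B := by gcongr
        _ = _ := by rw [mul_pow]; ring
    have b2 : ‖gk b D z‖ ≤ Real.exp (b / 2 * (3 / 4) ^ 2 + |D| * (3 / 4)) *
        Real.exp (-(b / 2) * z.im ^ 2) := by
      have h1 := gk_norm b D z.re z.im
      rw [Complex.re_add_im] at h1
      rw [h1]
      refine mul_le_mul_of_nonneg_right (Real.exp_le_exp.2 ?_) (Real.exp_pos _).le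
      have h2 : z.re ^ 2 ≤ (3 / 4) ^ 2 := sq_le_sq' (by linarith) hz2
      have h3 : D * z.re ≤ |D| * (3 / 4) := by
        calc D * z.re ≤ |D * z.re| := le_abs_self _
          _ = |D| * |z.re| := abs_mul _ _
          _ ≤ |D| * (3 / 4) := mul_le_mul_of_nonneg_left (abs_le.2 ⟨by linarith, hz2⟩) (abs_nonneg D)
      have h4 : b / 2 * z.re ^ 2 ≤ b / 2 * (3 / 4) ^ 2 := mul_le_mul_of_nonneg_left h2 (by positivity)
      linarith
    rw [hG]
    simp only
    rw [norm_mul]
    calc ‖Z (s + z)‖ * ‖gk b D z‖ ≤ (CZ * (1 + |t|) ^ B * (1 + |z.im|) ^ B) *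
          (Real.exp (b / 2 * (3 / 4) ^ 2 + |D| * (3 / 4)) * Real.exp (-(b / 2) * z.im ^ 2)) := by gcongr
      _ = (CZ * (1 + |t|) ^ B * Real.exp (b / 2 * (3 / 4) ^ 2 + |D| * (3 / 4))) *
          ((1 + |z.im|) ^ B * Real.exp (-(b / 2) * z.im ^ 2)) := by ring
      _ ≤ (CZ * (1 + |t|) ^ B * Real.exp (b / 2 * (3 / 4) ^ 2 + |D| * (3 / 4))) * CG := by
          apply mul_le_mul_of_nonneg_left (hPG _) (by positivity)
      _ = _ := by ring

/-- **the approximate functional equation with Gaussian windows** -/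
theorem afe_gauss : ∃ C : ℝ, 0 < C ∧ ∀ t : ℝ, 24 ≤ t → ∀ b : ℝ, 1 ≤ b →
    ‖riemannZeta (1 / 2 + (t : ℂ) * I)‖ ≤
      2 * ‖S b (Real.log (t / (2 * Real.pi)) / 2) (1 / 2 + (t : ℂ) * I)‖ + C * Real.exp b := by
  obtain ⟨Cz, hCz, hz⟩ := Pool.Agent.TH75.AFE1.zeta_bdd54
  obtain ⟨CX, hCX, hX⟩ := Pool.Agent.TH75.AFE1.XX_cmp
  have hJi : Integrable (fun y : ℝ => (1 + |y|) ^ 2 * Real.exp (-(1 / 2) * y ^ 2)) := by
    have h1 : Integrable (fun y : ℝ => 2 * Real.exp (-(1 / 2) * y ^ 2) +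
        2 * (y ^ 2 * Real.exp (-(1 / 2) * y ^ 2))) := by
      have h2 : Integrable (fun y : ℝ => Real.exp (-(1 / 2) * y ^ 2)) :=
        integrable_exp_neg_mul_sq (by norm_num)
      have h3 : Integrable (fun y : ℝ => y ^ 2 * Real.exp (-(1 / 2) * y ^ 2)) := by
        have := integrable_rpow_mul_exp_neg_mul_sq (b := 1 / 2) (by norm_num) (s := 2) (by norm_num)
        simpa using this
      exact (h2.const_mul 2).add (h3.const_mul 2)
    refine h1.mono' (by fun_prop) (Eventually.of_forall fun y => ?_)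
    rw [Real.norm_of_nonneg (by positivity)]
    have h4 : (1 + |y|) ^ 2 ≤ 2 + 2 * y ^ 2 := by
      rw [← sq_abs y]
      nlinarith [sq_nonneg (1 - |y|)]
    calc (1 + |y|) ^ 2 * Real.exp (-(1 / 2) * y ^ 2) ≤ (2 + 2 * y ^ 2) * Real.exp (-(1 / 2) * y ^ 2) :=
          mul_le_mul_of_nonneg_right h4 (Real.exp_pos _).le
      _ = _ := by ring
  obtain ⟨J, hJ⟩ : ∃ J : ℝ, J = ∫ y : ℝ, (1 + |y|) ^ 2 * Real.exp (-(1 / 2) * y ^ 2) := ⟨_, rfl⟩
  have hJ0 : 0 ≤ J := by rw [hJ]; exact integral_nonneg fun y => by positivity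
  refine ⟨CX * Cz * 2 * J + 1, by positivity, fun t ht b hb => ?_⟩
  have hb0 : 0 < b := by linarith
  have hpi := Real.pi_gt_three
  have hpi4 : Real.pi < 4 := by linarith [Real.pi_lt_d2]
  obtain ⟨l, hl⟩ : ∃ l : ℝ, l = Real.log (t / (2 * Real.pi)) := ⟨_, rfl⟩
  have hl0 : 0 ≤ l := by
    rw [hl]
    apply Real.log_nonneg
    rw [le_div_iff₀ (by positivity)]
    linarith
  have hlt : l ≤ t := by
    rw [hl]
    have h1 : Real.log (t / (2 * Real.pi)) ≤ t / (2 * Real.pi) := by
      have := Real.log_le_sub_one_of_pos (x := t / (2 * Real.pi)) (by positivity)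
      linarith
    exact h1.trans (div_le_self (by linarith) (by linarith))
  obtain ⟨D, hD⟩ : ∃ D : ℝ, D = l / 2 := ⟨_, rfl⟩
  rw [← hl, ← hD]
  obtain ⟨s, hs⟩ : ∃ s : ℂ, s = 1 / 2 + (t : ℂ) * I := ⟨_, rfl⟩
  have hshift := shift_gauss b D hb0 t
  rw [← hs] at hshift ⊢
  have hsre : s.re = 1 / 2 := by rw [hs]; simp
  obtain ⟨L, hL⟩ : ∃ L : ℂ, L = ∫ y : ℝ, riemannZeta (s + zm y) * gk b D (zm y) / zm y := ⟨_, rfl⟩
  rw [← hL] at hshift
  -- the conjugate of the left integral
  have hconj : (starRingEnd ℂ) L = -∫ y : ℝ, XX (s + zp y) * riemannZeta (s + zp y) *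
      gk b (-D) (zp y) / zp y := by
    rw [hL, ← integral_conj, ← integral_neg]
    congr 1
    ext y
    have e1 : riemannZeta ((starRingEnd ℂ) (s + zm y)) = XX (s + zp y) * riemannZeta (s + zp y) := by
      have e2 : (starRingEnd ℂ) (s + zm y) = 1 - (s + zp y) := by
        rw [map_add, conj_zm, hs]
        simp only [map_add, map_div₀, map_one, map_mul, conj_ofReal, conj_I, Complex.conj_ofNat]
        ring
      rw [e2, Pool.Agent.H448R2.GC.zeta_fe]
      · rw [Complex.add_re, zp_re, hsre]; norm_num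
      · intro h
        have := congrArg Complex.re h
        rw [Complex.add_re, zp_re, hsre] at this
        norm_num at this
    have e3 : (starRingEnd ℂ) (riemannZeta (s + zm y)) = riemannZeta ((starRingEnd ℂ) (s + zm y)) :=
      (riemannZeta_conj _).symm
    rw [map_div₀, map_mul, e3, e1, gk_conj, conj_zm, gk_neg, div_neg]
  -- comparison
  have hcmp : ‖(starRingEnd ℂ) L + XX s * (2 * Real.pi * S b D s)‖ ≤
      CX * Cz * 2 * J * Real.exp b := by
    have hSe : XX s * (2 * Real.pi * S b D s) = ∫ y : ℝ, XX s * cexp (zp y * (l : ℂ)) *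
        riemannZeta (s + zp y) * gk b (-D) (zp y) / zp y := by
      unfold S
      have hpi' : (Real.pi : ℂ) ≠ 0 := by exact_mod_cast Real.pi_ne_zero
      rw [← mul_assoc (2 * (Real.pi : ℂ)), show (2 * (Real.pi : ℂ)) * (1 / (2 * Real.pi)) = 1 by
        field_simp, one_mul, ← integral_const_mul]
      congr 1
      ext y
      have e1 : gk b D (zp y) = gk b (-D) (zp y) * cexp (zp y * (l : ℂ)) := by
        rw [gk_add]
        congr 1
        rw [hD]
        ring
      rw [e1]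
      ring
    have hzn : ∀ y : ℝ, 3 / 4 ≤ ‖zp y‖ := by
      intro y
      have := Complex.abs_re_le_norm (zp y)
      rw [zp_re, abs_of_pos (by norm_num)] at this
      exact this
    have hpt : ∀ y : ℝ, ‖-(XX (s + zp y) * riemannZeta (s + zp y) * gk b (-D) (zp y) / zp y) +
        XX s * cexp (zp y * (l : ℂ)) * riemannZeta (s + zp y) * gk b (-D) (zp y) / zp y‖ ≤
        (CX * Cz * 2 * Real.exp b) * ((1 + |y|) ^ 2 * Real.exp (-(1 / 2) * y ^ 2)) := by
      intro y
      have e1 : -(XX (s + zp y) * riemannZeta (s + zp y) * gk b (-D) (zp y) / zp y) +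
        XX s * cexp (zp y * (l : ℂ)) * riemannZeta (s + zp y) * gk b (-D) (zp y) / zp y =
        -(XX (s + zp y) - XX s * cexp (zp y * (l : ℂ))) * riemannZeta (s + zp y) *
          gk b (-D) (zp y) / zp y := by ring
      rw [e1, norm_div, norm_mul, norm_mul, norm_neg]
      have a1 : ‖XX (s + zp y) - XX s * cexp (zp y * (l : ℂ))‖ ≤ CX * (1 + |y|) ^ 2 := by
        have h1 := hX t ht y
        have e2 : s + zp y = (5 / 4 : ℂ) + ((t + y : ℝ) : ℂ) * I := by
          rw [hs]; unfold zp; push_cast; ring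
        have e3 : zp y * (l : ℂ) = ((3 / 4 : ℂ) + (y : ℂ) * I) *
            ((Real.log (t / (2 * Real.pi)) : ℝ) : ℂ) := by
          rw [hl]; unfold zp; push_cast; ring
        rw [e2, e3, hs]
        refine h1.trans ?_
        have h2 : t ^ (-(1 / 4) : ℝ) ≤ 1 := Real.rpow_le_one_of_one_le_of_nonpos (by linarith) (by norm_num)
        calc CX * (1 + |y|) ^ 2 * t ^ (-(1 / 4) : ℝ) ≤ CX * (1 + |y|) ^ 2 * 1 := by gcongr
          _ = _ := mul_one _
      have a2 : ‖riemannZeta (s + zp y)‖ ≤ Cz := hz _ (by rw [Complex.add_re, zp_re, hsre]; norm_num)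
      have a3 : ‖gk b (-D) (zp y)‖ ≤ Real.exp b * Real.exp (-(1 / 2) * y ^ 2) := by
        unfold zp
        rw [gk_norm]
        refine mul_le_mul (Real.exp_le_exp.2 ?_) (Real.exp_le_exp.2 ?_) (Real.exp_pos _).le
          (Real.exp_pos _).le
        · have : 0 ≤ D := by rw [hD]; linarith
          nlinarith
        · nlinarith [sq_nonneg y]
      rw [div_le_iff₀ (by linarith [hzn y])]
      have a4 : 1 ≤ 2 * ‖zp y‖ := by linarith [hzn y]
      calc ‖XX (s + zp y) - XX s * cexp (zp y * (l : ℂ))‖ * ‖riemannZeta (s + zp y)‖ *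
          ‖gk b (-D) (zp y)‖ ≤ (CX * (1 + |y|) ^ 2) * Cz * (Real.exp b * Real.exp (-(1 / 2) * y ^ 2)) := by
            gcongr
        _ = (CX * Cz * Real.exp b * ((1 + |y|) ^ 2 * Real.exp (-(1 / 2) * y ^ 2))) * 1 := by ring
        _ ≤ (CX * Cz * Real.exp b * ((1 + |y|) ^ 2 * Real.exp (-(1 / 2) * y ^ 2))) * (2 * ‖zp y‖) := by
            gcongr
        _ = _ := by ring
    have hI1 : Integrable (fun y : ℝ => XX s * cexp (zp y * (l : ℂ)) *
        riemannZeta (s + zp y) * gk b (-D) (zp y) / zp y) := by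
      have h1 : (fun y : ℝ => XX s * cexp (zp y * (l : ℂ)) *
        riemannZeta (s + zp y) * gk b (-D) (zp y) / zp y) = fun y : ℝ =>
        (XX s * riemannZeta (s + zp y) / zp y) * gk b D (zp y) := by
        funext y
        have e1 : gk b D (zp y) = gk b (-D) (zp y) * cexp (zp y * (l : ℂ)) := by
          rw [gk_add]
          congr 1
          rw [hD]
          ring
        rw [e1]
        ring
      rw [h1]
      refine (gk_integrable b D (3 / 4) hb0).bdd_mul (c := ‖XX s‖ * Cz * 2) ?_ ?_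
      · have h2 := zeta_cont s (by rw [hsre])
        exact ((continuous_const.mul h2).div zp_cont zp_ne).aestronglyMeasurable
      · refine Eventually.of_forall fun y => ?_
        rw [norm_div, norm_mul, div_le_iff₀ (by linarith [hzn y])]
        have a2 : ‖riemannZeta (s + zp y)‖ ≤ Cz := hz _ (by rw [Complex.add_re, zp_re, hsre]; norm_num)
        have a4 : 1 ≤ 2 * ‖zp y‖ := by linarith [hzn y]
        calc ‖XX s‖ * ‖riemannZeta (s + zp y)‖ ≤ ‖XX s‖ * Cz * 1 := by rw [mul_one]; gcongr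
          _ ≤ ‖XX s‖ * Cz * (2 * ‖zp y‖) := by gcongr
          _ = _ := by ring
    have hdiffI : Integrable (fun y : ℝ => -(XX (s + zp y) * riemannZeta (s + zp y) * gk b (-D) (zp y) / zp y) +
        XX s * cexp (zp y * (l : ℂ)) * riemannZeta (s + zp y) * gk b (-D) (zp y) / zp y) := by
      refine (hJi.const_mul (CX * Cz * 2 * Real.exp b)).mono' ?_ (Eventually.of_forall hpt)
      apply Continuous.aestronglyMeasurable
      have h2 := zeta_cont s (by rw [hsre])
      have h3 : Continuous fun y : ℝ => XX (s + zp y) := by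
        rw [continuous_iff_continuousAt]
        intro y
        have h4 : ContinuousAt XX (s + zp y) :=
          (S4.XX_diff _ (by rw [Complex.add_re, zp_re, hsre]; norm_num)).continuousAt
        have h5 : ContinuousAt (fun y : ℝ => s + zp y) y := (continuous_const.add zp_cont).continuousAt
        exact ContinuousAt.comp (f := fun y : ℝ => s + zp y) (g := XX) h4 h5
      have h6 := (gk_cont b (-D)).comp zp_cont
      have h7 : Continuous fun y : ℝ => cexp (zp y * (l : ℂ)) := by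
        have := zp_cont
        fun_prop
      exact ((((h3.mul h2).mul h6).div zp_cont zp_ne).neg).add
        ((((continuous_const.mul h7).mul h2).mul h6).div zp_cont zp_ne)
    rw [hconj, hSe]
    have hI0 : Integrable (fun y : ℝ => XX (s + zp y) * riemannZeta (s + zp y) *
      gk b (-D) (zp y) / zp y) := by
      have h1 := (hI1.sub hdiffI)
      refine h1.congr (Eventually.of_forall fun y => ?_)
      simp only [Pi.sub_apply]
      ring
    have hI0n : Integrable (fun y : ℝ => -(XX (s + zp y) * riemannZeta (s + zp y) *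
      gk b (-D) (zp y) / zp y)) := hI0.neg
    rw [← integral_neg, ← integral_add hI0n hI1]
    refine (norm_integral_le_of_norm_le (hJi.const_mul (CX * Cz * 2 * Real.exp b))
      (Eventually.of_forall hpt)).trans_eq ?_
    rw [integral_const_mul, ← hJ]
    ring
  have hXX : ‖XX s‖ = 1 := by
    rw [hs]
    exact H345.norm_XX_half t
  have hLn : ‖L‖ ≤ 2 * Real.pi * ‖S b D s‖ + CX * Cz * 2 * J * Real.exp b := by
    have h1 : ‖L‖ = ‖(starRingEnd ℂ) L‖ := by rw [RCLike.norm_conj]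
    rw [h1]
    have h2 : (starRingEnd ℂ) L = ((starRingEnd ℂ) L + XX s * (2 * Real.pi * S b D s)) -
        XX s * (2 * Real.pi * S b D s) := by ring
    rw [h2]
    refine (norm_sub_le _ _).trans ?_
    have h3 : ‖XX s * (2 * Real.pi * S b D s)‖ = 2 * Real.pi * ‖S b D s‖ := by
      rw [norm_mul, hXX, one_mul, norm_mul, norm_mul, Complex.norm_ofNat, Complex.norm_real,
        Real.norm_of_nonneg Real.pi_pos.le]
    rw [h3]
    linarith
  have hpole : ‖gk b D (1 - s) / (1 - s)‖ ≤ Real.exp b := by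
    have hne : 1 ≤ ‖1 - s‖ := by
      have h1 := Complex.abs_im_le_norm (1 - s)
      have h2 : (1 - s).im = -t := by rw [hs]; simp
      rw [h2, abs_neg, abs_of_pos (by linarith)] at h1
      linarith
    rw [norm_div, div_le_iff₀ (by linarith)]
    have h3 : ‖gk b D (1 - s)‖ ≤ Real.exp b := by
      have e1 : (1 : ℂ) - s = ((1 / 2 : ℝ) : ℂ) + ((-t : ℝ) : ℂ) * I := by
        rw [hs]; push_cast; ring
      rw [e1, gk_norm, ← Real.exp_add]
      apply Real.exp_le_exp.2
      have h4 : D ≤ t := by rw [hD]; linarith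
      nlinarith [mul_le_mul_of_nonneg_right hb (sq_nonneg t)]
    calc ‖gk b D (1 - s)‖ ≤ Real.exp b * 1 := by rw [mul_one]; exact h3
      _ ≤ Real.exp b * ‖1 - s‖ := by gcongr
  rw [hshift]
  refine (norm_sub_le _ _).trans ?_
  have h8 : ‖S b D s - (1 / (2 * Real.pi)) * L‖ ≤ ‖S b D s‖ + (1 / (2 * Real.pi)) * ‖L‖ := by
    refine (norm_sub_le _ _).trans ?_
    rw [norm_mul]
    have : ‖(1 / (2 * (Real.pi : ℂ)))‖ = 1 / (2 * Real.pi) := by
      rw [norm_div, norm_one, norm_mul, Complex.norm_real, Real.norm_of_nonneg Real.pi_pos.le,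
        Complex.norm_ofNat]
    rw [this]
  have h9 : (1 / (2 * Real.pi)) * ‖L‖ ≤ ‖S b D s‖ + CX * Cz * 2 * J * Real.exp b := by
    calc (1 / (2 * Real.pi)) * ‖L‖ ≤ (1 / (2 * Real.pi)) *
          (2 * Real.pi * ‖S b D s‖ + CX * Cz * 2 * J * Real.exp b) := by gcongr
      _ = ‖S b D s‖ + (1 / (2 * Real.pi)) * (CX * Cz * 2 * J * Real.exp b) := by field_simp
      _ ≤ ‖S b D s‖ + 1 * (CX * Cz * 2 * J * Real.exp b) := by
          have h10 : 1 / (2 * Real.pi) ≤ 1 := by rw [div_le_one (by positivity)]; linarith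
          gcongr
      _ = _ := by rw [one_mul]
  have h11 : (CX * Cz * 2 * J + 1) * Real.exp b = CX * Cz * 2 * J * Real.exp b + Real.exp b := by ring
  rw [h11]
  linarith

end Pool.Agent.H476.LS
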