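import Pool.Agent.H476.LS4

set_option autoImplicit false

/-! One cosine sum and the Lindelöf hypothesis, part 5: the main inequality and its local form. -/

open Complex MeasureTheory Filter Topology

namespace Pool.Agent.H476.LS

/-- the absolute value of zeta on the critical line -/
noncomputable def Z (t : ℝ) : ℝ := ‖riemannZeta (1 / 2 + (t : ℂ) * I)‖

/-- **the main inequality** -/
theorem main_ineq (A : ℝ) (hA : 0 ≤ A) : ∃ K T₀ : ℝ, 0 < K ∧ 24 ≤ T₀ ∧ ∀ T : ℝ, T₀ ≤ T → ∀ b : ℝ,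
    1 ≤ b → b ≤ Real.log T → ∀ (N J : ℕ) (c : Fin J → ℂ) (lam : Fin J → ℝ),
    Real.log T / 2 + K * Real.sqrt (b * Real.log T) ≤ Real.log N → (∀ j, Real.log N ≤ lam j) →
    ∑ j, ‖c j‖ ≤ T ^ A → ∀ u : ℂ, ‖u‖ = 1 →
    Z T ≤ Real.log T * ((∫ v : ℝ, max (u * Q N J c lam (T + v)).re 0 *
      Real.exp (-(b / 2) * v ^ 2)) + K * Real.exp (9 * b / 8)) := by
  obtain ⟨C, hC, hafe⟩ := afe_gauss
  refine ⟨19 + C + 2 * A, 24, by positivity, le_refl _, ?_⟩
  intro T hT b hb hbT N J c lam hN hlam hc u hu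
  obtain ⟨l, hl⟩ : ∃ l : ℝ, l = Real.log T := ⟨_, rfl⟩
  rw [← hl] at hbT hN ⊢
  have hpi := Real.pi_gt_three
  have hT0 : 0 < T := by linarith
  have hl1 : 1 ≤ l := le_trans hb hbT
  have hb0 : 0 < b := by linarith
  obtain ⟨K, hK⟩ : ∃ K : ℝ, K = 19 + C + 2 * A := ⟨_, rfl⟩
  rw [← hK] at hN ⊢
  obtain ⟨D, hD⟩ : ∃ D : ℝ, D = Real.log (T / (2 * Real.pi)) / 2 := ⟨_, rfl⟩
  have hD0 : 0 ≤ D := by
    rw [hD]
    have : 0 ≤ Real.log (T / (2 * Real.pi)) := by
      apply Real.log_nonneg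
      rw [le_div_iff₀ (by positivity)]
      linarith [Real.pi_lt_d2]
    linarith
  have hDl : D ≤ l / 2 := by
    rw [hD, hl]
    have : Real.log (T / (2 * Real.pi)) ≤ Real.log T :=
      Real.log_le_log (by positivity) (div_le_self hT0.le (by linarith))
    linarith
  obtain ⟨Y, hY⟩ : ∃ Y : ℝ, Y = K * Real.sqrt (b * l) := ⟨_, rfl⟩
  rw [← hY] at hN
  have hK19 : 19 ≤ K := by rw [hK]; linarith
  have hsq : Real.sqrt (b * l) ^ 2 = b * l := Real.sq_sqrt (by positivity)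
  have hbs : b ≤ Real.sqrt (b * l) := by
    apply Real.le_sqrt_of_sq_le
    nlinarith
  have hY1 : 6 * b ≤ Y := by
    rw [hY]
    nlinarith [Real.sqrt_nonneg (b * l)]
  have hYsq : Y ^ 2 = K ^ 2 * (b * l) := by rw [hY, mul_pow, hsq]
  have hbl : 0 ≤ b * l := by positivity
  have hY2 : 6 * b * D ≤ Y ^ 2 := by
    rw [hYsq]
    have h1 : 6 * b * D ≤ 3 * (b * l) := by nlinarith
    have h2 : 3 * (b * l) ≤ K ^ 2 * (b * l) := mul_le_mul_of_nonneg_right (by nlinarith) hbl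
    linarith
  have hcY : (∑ j, ‖c j‖) * Real.exp (-(Y ^ 2 / (2 * b))) ≤ 1 := by
    have h1 : Y ^ 2 / (2 * b) = K ^ 2 * l / 2 := by rw [hYsq]; field_simp
    have h2 : T ^ A = Real.exp (l * A) := by rw [hl, Real.rpow_def_of_pos hT0]
    calc (∑ j, ‖c j‖) * Real.exp (-(Y ^ 2 / (2 * b))) ≤ T ^ A * Real.exp (-(Y ^ 2 / (2 * b))) := by
          gcongr
      _ = Real.exp (l * A + -(K ^ 2 * l / 2)) := by rw [h2, h1, ← Real.exp_add]
      _ ≤ 1 := by
        apply Real.exp_le_one_iff.2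
        have h3 : 2 * A ≤ K ^ 2 := by
          have : 2 * A ≤ K := by rw [hK]; linarith
          nlinarith
        nlinarith
  have hSb := S_bound b D Y hb hD0 hY1 hY2 N J (by linarith) c lam
    (fun j => by linarith [hlam j]) hcY u hu T
  have hz := hafe T hT b hb
  rw [← hD] at hz
  obtain ⟨Ip, hIp⟩ : ∃ Ip : ℝ, Ip = ∫ v : ℝ, max (u * Q N J c lam (T + v)).re 0 *
    Real.exp (-(b / 2) * v ^ 2) := ⟨_, rfl⟩
  have hIp0 : 0 ≤ Ip := by
    rw [hIp]
    exact integral_nonneg fun v => mul_nonneg (le_max_right _ _) (Real.exp_pos _).le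
  rw [← hIp] at hSb ⊢
  obtain ⟨E, hE⟩ : ∃ E : ℝ, E = Real.exp (9 * b / 8) := ⟨_, rfl⟩
  rw [← hE] at hSb ⊢
  have hE0 : 0 < E := by rw [hE]; exact Real.exp_pos _
  have hEb : Real.exp b ≤ E := by rw [hE]; exact Real.exp_le_exp.2 (by linarith)
  unfold Z
  refine hz.trans ?_
  have h1 : 2 * (D * (Ip + 9 * E)) ≤ l * (Ip + 9 * E) := by
    have : 0 ≤ Ip + 9 * E := by positivity
    nlinarith
  have h2 : C * Real.exp b ≤ C * E := mul_le_mul_of_nonneg_left hEb hC.le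
  have h3 : (10 + C) * E ≤ l * ((10 + C) * E) := by
    have : 0 ≤ (10 + C) * E := by positivity
    nlinarith
  have h4 : l * (Ip + K * E) = l * (Ip + 9 * E) + l * ((10 + C) * E) + l * (2 * A * E) := by
    rw [hK]; ring
  have h5 : 0 ≤ l * (2 * A * E) := by positivity
  rw [h4]
  linarith

lemma P_crude (N : ℕ) (t : ℝ) : ‖P N t‖ ≤ N := by
  unfold P
  refine (norm_sum_le _ _).trans ?_
  calc ∑ n ∈ Finset.range N, ‖((n : ℂ) + 1) ^ (-(1 / 2 + (t : ℂ) * I))‖
      ≤ ∑ n ∈ Finset.range N, (1 : ℝ) := by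
        refine Finset.sum_le_sum fun n _ => ?_
        rw [term_norm]
        exact Real.rpow_le_one_of_one_le_of_nonpos (by linarith [n.cast_nonneg (α := ℝ)]) (by norm_num)
    _ = N := by simp

lemma Q_crude (N J : ℕ) (c : Fin J → ℂ) (lam : Fin J → ℝ) (t : ℝ) :
    ‖Q N J c lam t‖ ≤ N + ∑ j, ‖c j‖ := by
  unfold Q
  refine (norm_add_le _ _).trans (add_le_add (P_crude N t) ((norm_sum_le _ _).trans ?_))
  refine Finset.sum_le_sum fun j _ => ?_
  have e : -((lam j : ℂ) * (t : ℂ) * I) = ((-(lam j * t) : ℝ) : ℂ) * I := by push_cast; ring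
  rw [norm_mul, e, Complex.norm_exp_ofReal_mul_I, mul_one]

/-- **the local form**: one-sided bounds of a long section on an interval of bounded length -/
theorem local_form (A ε : ℝ) (hε : 0 < ε) : ∃ R T₀ : ℝ, 0 < R ∧ 24 ≤ T₀ ∧ ∀ T : ℝ, T₀ ≤ T →
    ∀ (N J : ℕ) (c : Fin J → ℂ) (lam : Fin J → ℝ), T ^ (1 / 2 + ε) ≤ N → (N : ℝ) ≤ T ^ A →
    (∀ j, Real.log N ≤ lam j) → ∑ j, ‖c j‖ ≤ T ^ A → ∀ u : ℂ, ‖u‖ = 1 → ∀ M : ℝ, 1 ≤ M →
    (∀ t : ℝ, |t - T| ≤ R → (u * Q N J c lam t).re ≤ M) → Z T ≤ T ^ ε * M := by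
  obtain ⟨K, T₁, hK, hT₁, hmain⟩ := main_ineq |A| (abs_nonneg A)
  obtain ⟨β, hβ⟩ : ∃ β : ℝ, β = min (min 1 (ε / 4)) ((ε / K) ^ 2) := ⟨_, rfl⟩
  have hβ0 : 0 < β := by rw [hβ]; positivity
  have hβ1 : β ≤ 1 := by rw [hβ]; exact (min_le_left _ _).trans (min_le_left _ _)
  have hβ2 : β ≤ ε / 4 := by rw [hβ]; exact (min_le_left _ _).trans (min_le_right _ _)
  have hβ3 : β ≤ (ε / K) ^ 2 := by rw [hβ]; exact min_le_right _ _
  obtain ⟨R, hR⟩ : ∃ R : ℝ, R = Real.sqrt (4 * |A| / β) + 1 := ⟨_, rfl⟩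
  have hR0 : 0 < R := by rw [hR]; positivity
  have hRsq : 4 * |A| / β ≤ R ^ 2 := by
    have h1 : Real.sqrt (4 * |A| / β) ^ 2 = 4 * |A| / β := Real.sq_sqrt (by positivity)
    have h2 : Real.sqrt (4 * |A| / β) ≤ R := by rw [hR]; linarith
    calc 4 * |A| / β = Real.sqrt (4 * |A| / β) ^ 2 := h1.symm
      _ ≤ R ^ 2 := pow_le_pow_left₀ (Real.sqrt_nonneg _) h2 2
  -- the growth of the error terms
  have hlim : ∀ᶠ T : ℝ in atTop, Real.log T * (16 + K) ≤ T ^ (ε / 2) := by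
    have h1 := isLittleO_log_rpow_atTop (r := ε / 2) (by positivity)
    have h2 := h1.def (c := 1 / (16 + K)) (by positivity)
    filter_upwards [h2, eventually_ge_atTop 1] with T h3 h4
    rw [Real.norm_of_nonneg (Real.log_nonneg h4), Real.norm_of_nonneg (by positivity)] at h3
    calc Real.log T * (16 + K) ≤ (1 / (16 + K) * T ^ (ε / 2)) * (16 + K) := by gcongr
      _ = T ^ (ε / 2) := by field_simp
  obtain ⟨T₂, hT₂⟩ := eventually_atTop.1 hlim
  refine ⟨R, max (max T₁ T₂) (Real.exp (1 / β)), hR0, hT₁.trans ((le_max_left _ _).trans (le_max_left _ _)), ?_⟩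
  intro T hT N J c lam hN1 hN2 hlam hc u hu M hM hle
  have hTT1 : T₁ ≤ T := (le_max_left _ _).trans ((le_max_left _ _).trans hT)
  have hTT2 : T₂ ≤ T := (le_max_right _ _).trans ((le_max_left _ _).trans hT)
  have hTT3 : Real.exp (1 / β) ≤ T := (le_max_right _ _).trans hT
  have hT0 : 0 < T := by linarith
  obtain ⟨l, hl⟩ : ∃ l : ℝ, l = Real.log T := ⟨_, rfl⟩
  have hlβ : 1 / β ≤ l := by
    rw [hl, Real.le_log_iff_exp_le hT0]
    exact hTT3
  have hl0 : 0 < l := lt_of_lt_of_le (by positivity) hlβ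
  obtain ⟨b, hb⟩ : ∃ b : ℝ, b = β * l := ⟨_, rfl⟩
  have hb1 : 1 ≤ b := by
    rw [hb]
    calc 1 = β * (1 / β) := by field_simp
      _ ≤ β * l := mul_le_mul_of_nonneg_left hlβ hβ0.le
  have hbl : b ≤ l := by rw [hb]; nlinarith
  have hTA : T ^ A ≤ T ^ |A| := Real.rpow_le_rpow_of_exponent_le (by linarith) (le_abs_self A)
  have hN0 : (0 : ℝ) < N := lt_of_lt_of_le (by positivity) hN1
  have hlogN : l / 2 + K * Real.sqrt (b * l) ≤ Real.log N := by
    have h1 : Real.sqrt (b * l) ≤ ε / K * l := by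
      apply Real.sqrt_le_iff.2
      refine ⟨by positivity, ?_⟩
      rw [hb, mul_pow]
      calc β * l * l = β * l ^ 2 := by ring
        _ ≤ (ε / K) ^ 2 * l ^ 2 := by gcongr
    have h2 : K * Real.sqrt (b * l) ≤ ε * l := by
      calc K * Real.sqrt (b * l) ≤ K * (ε / K * l) := by gcongr
        _ = ε * l := by field_simp
    have h3 : Real.log (T ^ (1 / 2 + ε)) ≤ Real.log N := Real.log_le_log (by positivity) hN1
    rw [Real.log_rpow hT0, ← hl] at h3
    linarith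
  have key := hmain T hTT1 b hb1 (by rw [← hl]; exact hbl) N J c lam (by rw [← hl]; exact hlogN)
    hlam (hc.trans hTA) u hu
  -- the integral
  have hQb : ∀ t : ℝ, ‖u * Q N J c lam t‖ ≤ 2 * T ^ |A| := by
    intro t
    rw [norm_mul, hu, one_mul]
    have := Q_crude N J c lam t
    linarith
  have hgi := gauss_int b (by linarith)
  have hgi2 : Integrable (fun v : ℝ => Real.exp (-(b / 4) * v ^ 2)) :=
    integrable_exp_neg_mul_sq (by linarith)
  have hexpR : T ^ |A| * Real.exp (-(b / 4) * R ^ 2) ≤ 1 := by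
    rw [Real.rpow_def_of_pos hT0, ← hl, ← Real.exp_add]
    apply Real.exp_le_one_iff.2
    have h1 : |A| * l ≤ b / 4 * R ^ 2 := by
      calc |A| * l = β * l / 4 * (4 * |A| / β) := by field_simp
        _ ≤ β * l / 4 * R ^ 2 := by gcongr
        _ = b / 4 * R ^ 2 := by rw [hb]
    linarith
  have hpt : ∀ v : ℝ, max (u * Q N J c lam (T + v)).re 0 * Real.exp (-(b / 2) * v ^ 2) ≤
      M * Real.exp (-(b / 2) * v ^ 2) + 2 * Real.exp (-(b / 4) * v ^ 2) := by
    intro v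
    have hM0 : 0 ≤ M := by linarith
    rcases le_or_gt |v| R with h | h
    · have h1 : max (u * Q N J c lam (T + v)).re 0 ≤ M :=
        max_le (hle (T + v) (by rw [add_sub_cancel_left]; exact h)) hM0
      have h2 : 0 ≤ 2 * Real.exp (-(b / 4) * v ^ 2) := by positivity
      have h3 : max (u * Q N J c lam (T + v)).re 0 * Real.exp (-(b / 2) * v ^ 2) ≤
        M * Real.exp (-(b / 2) * v ^ 2) := by gcongr
      linarith
    · have h1 : max (u * Q N J c lam (T + v)).re 0 ≤ 2 * T ^ |A| :=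
        max_le (((le_abs_self _).trans (Complex.abs_re_le_norm _)).trans (hQb _)) (by positivity)
      have h2 : Real.exp (-(b / 2) * v ^ 2) ≤ Real.exp (-(b / 4) * R ^ 2) * Real.exp (-(b / 4) * v ^ 2) := by
        rw [← Real.exp_add]
        apply Real.exp_le_exp.2
        have h3 : R ^ 2 ≤ v ^ 2 := by
          rw [← sq_abs v]
          exact pow_le_pow_left₀ hR0.le h.le 2
        nlinarith
      calc max (u * Q N J c lam (T + v)).re 0 * Real.exp (-(b / 2) * v ^ 2)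
          ≤ (2 * T ^ |A|) * (Real.exp (-(b / 4) * R ^ 2) * Real.exp (-(b / 4) * v ^ 2)) := by gcongr
        _ = 2 * (T ^ |A| * Real.exp (-(b / 4) * R ^ 2)) * Real.exp (-(b / 4) * v ^ 2) := by ring
        _ ≤ 2 * 1 * Real.exp (-(b / 4) * v ^ 2) := by gcongr
        _ ≤ M * Real.exp (-(b / 2) * v ^ 2) + 2 * Real.exp (-(b / 4) * v ^ 2) := by
            have : 0 ≤ M * Real.exp (-(b / 2) * v ^ 2) := by positivity
            linarith
  have hI : ∫ v : ℝ, max (u * Q N J c lam (T + v)).re 0 * Real.exp (-(b / 2) * v ^ 2) ≤ 16 * M := by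
    have h1 := integral_mono_of_nonneg (μ := volume) (f := fun v : ℝ =>
        max (u * Q N J c lam (T + v)).re 0 * Real.exp (-(b / 2) * v ^ 2))
        (g := fun v : ℝ => M * Real.exp (-(b / 2) * v ^ 2) + 2 * Real.exp (-(b / 4) * v ^ 2))
        (Eventually.of_forall fun v => mul_nonneg (le_max_right _ _) (Real.exp_pos _).le)
        ((hgi.const_mul M).add (hgi2.const_mul 2)) (Eventually.of_forall hpt)
    refine h1.trans ?_
    rw [integral_add (hgi.const_mul M) (hgi2.const_mul 2), integral_const_mul, integral_const_mul,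
      gauss_val b, integral_gaussian]
    have hpi4 : Real.pi < 4 := by linarith [Real.pi_lt_d2]
    have hpi0 := Real.pi_pos
    have h2 : Real.sqrt (2 * Real.pi / b) ≤ 3 := by
      apply Real.sqrt_le_iff.2
      refine ⟨by norm_num, ?_⟩
      rw [div_le_iff₀ (by linarith)]
      linarith
    have h3 : Real.sqrt (Real.pi / (b / 4)) ≤ 4 := by
      apply Real.sqrt_le_iff.2
      refine ⟨by norm_num, ?_⟩
      rw [div_le_iff₀ (by linarith)]
      linarith
    have h4 : M * Real.sqrt (2 * Real.pi / b) ≤ M * 3 :=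
      mul_le_mul_of_nonneg_left h2 (by linarith)
    linarith
  have hexpb : Real.exp (9 * b / 8) ≤ T ^ (ε / 2) := by
    rw [Real.rpow_def_of_pos hT0, ← hl]
    apply Real.exp_le_exp.2
    rw [hb]
    nlinarith
  have hT2' : Real.log T * (16 + K) ≤ T ^ (ε / 2) := hT₂ T hTT2
  have hTε : 1 ≤ T ^ (ε / 2) := Real.one_le_rpow (by linarith) (by positivity)
  rw [← hl] at key hT2'
  calc Z T ≤ l * ((∫ v : ℝ, max (u * Q N J c lam (T + v)).re 0 * Real.exp (-(b / 2) * v ^ 2)) +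
        K * Real.exp (9 * b / 8)) := key
    _ ≤ l * (16 * M + K * T ^ (ε / 2)) := by gcongr
    _ ≤ l * (16 * (M * T ^ (ε / 2)) + K * (M * T ^ (ε / 2))) := by
        have h1 : M ≤ M * T ^ (ε / 2) := le_mul_of_one_le_right (by linarith) hTε
        have h2 : T ^ (ε / 2) ≤ M * T ^ (ε / 2) := le_mul_of_one_le_left (by positivity) hM
        gcongr
    _ = (l * (16 + K)) * (M * T ^ (ε / 2)) := by ring
    _ ≤ T ^ (ε / 2) * (M * T ^ (ε / 2)) := by gcongr
    _ = (T ^ (ε / 2) * T ^ (ε / 2)) * M := by ring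
    _ = T ^ ε * M := by
        rw [← Real.rpow_add hT0]
        congr 2
        ring

end Pool.Agent.H476.LS
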