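import Pool.Agent.H476.LS5

set_option autoImplicit false

/-! One cosine sum and the Lindelöf hypothesis, part 6: the sections of the zeta series are bounded
by the bounds for zeta, with the same exponent. -/

open Complex MeasureTheory Filter Topology

namespace Pool.Agent.H476.LS

open Pool.Agent.H448R2.GC

/-- the entire function `∫_{D₀}^{D₀ + Δ} e^{ω z} dω` -/
noncomputable def HH (D₀ Δ : ℝ) (z : ℂ) : ℂ := (Δ : ℂ) * cexp ((D₀ : ℂ) * z) * K2.J Δ z

lemma HH_diff (D₀ Δ : ℝ) : Differentiable ℂ (HH D₀ Δ) := by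
  unfold HH
  have := K2.J_diff Δ
  fun_prop

lemma HH_eq (D₀ Δ : ℝ) (hΔ : 0 < Δ) (z : ℂ) (hz : z ≠ 0) :
    HH D₀ Δ z = (cexp (((D₀ + Δ : ℝ) : ℂ) * z) - cexp ((D₀ : ℂ) * z)) / z := by
  unfold HH
  rw [K2.J_eq Δ hΔ.ne' z hz]
  have h1 : cexp (((D₀ + Δ : ℝ) : ℂ) * z) = cexp ((D₀ : ℂ) * z) * cexp ((Δ : ℂ) * z) := by
    rw [← Complex.exp_add]
    congr 1
    push_cast
    ring
  have hΔ' : (Δ : ℂ) ≠ 0 := by exact_mod_cast hΔ.ne'
  rw [h1]
  field_simp

lemma HH_bound (D₀ Δ : ℝ) (hΔ : 0 < Δ) (z : ℂ) :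
    ‖HH D₀ Δ z‖ ≤ Δ * Real.exp (D₀ * z.re) * (Real.exp (Δ * max z.re 0) * (3 / (1 + Δ * ‖z‖))) := by
  unfold HH
  rw [norm_mul, norm_mul, Complex.norm_real, Real.norm_of_nonneg hΔ.le, Complex.norm_exp]
  have h1 : ((D₀ : ℂ) * z).re = D₀ * z.re := by simp
  rw [h1]
  exact mul_le_mul_of_nonneg_left (K2.J_bound Δ hΔ z) (by positivity)

/-- the difference of two smoothed sums as an integral over the critical line -/
theorem shift_line : ∃ k₀ : ℕ, 1 ≤ k₀ ∧ ∀ k : ℕ, k₀ ≤ k → ∀ (c D₀ Δ : ℝ), 0 < c → 0 < Δ → ∀ t : ℝ,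
    cs k c (D₀ + Δ) (1 / 2 + (t : ℂ) * I) - cs k c D₀ (1 / 2 + (t : ℂ) * I) =
      (1 / (2 * Real.pi)) * (∫ y : ℝ, riemannZeta ((1 / 2 + (t : ℂ) * I) + (y : ℂ) * I) *
        Ps k c ((y : ℂ) * I) * HH D₀ Δ ((y : ℂ) * I)) +
      Ps k c (1 - (1 / 2 + (t : ℂ) * I)) * HH D₀ Δ (1 - (1 / 2 + (t : ℂ) * I)) := by
  obtain ⟨CZ, B, hCZ, hZ⟩ := Pool.Agent.H448R2.GC.zeta_one_growth 0
  refine ⟨B + 1, by omega, ?_⟩
  intro k hk c D₀ Δ hc hΔ t
  obtain ⟨s, hs⟩ : ∃ s : ℂ, s = 1 / 2 + (t : ℂ) * I := ⟨_, rfl⟩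
  rw [← hs]
  have hsre : s.re = 1 / 2 := by rw [hs]; simp
  have hsim : s.im = t := by rw [hs]; simp
  have hm : 0 < min 1 c := lt_min one_pos hc
  set Z : ℂ → ℂ := Function.update (fun w : ℂ => (w - 1) * riemannZeta w) 1 1 with hZdef
  have hZne : ∀ w : ℂ, w ≠ 1 → Z w = (w - 1) * riemannZeta w := by
    intro w hw
    rw [hZdef, Function.update_of_ne hw]
  have hZ1 : Z 1 = 1 := by
    rw [hZdef, Function.update_self]
  set G : ℂ → ℂ := fun z => Z (s + z) * (Ps k c z * ((z + 1) * HH D₀ Δ z)) with hG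
  have hGd : Differentiable ℂ G := by
    have h1 : Differentiable ℂ (fun z : ℂ => Z (s + z)) :=
      Pool.Agent.H448R2.GC.zeta_one_entire.comp (by fun_prop)
    have h2 : Differentiable ℂ (fun z : ℂ => z + 1) := by fun_prop
    exact h1.mul ((Pool.Agent.H448R2.GC.Ps_entire k c).mul (h2.mul (HH_diff D₀ Δ)))
  have hline : ∀ x : ℝ, s.re + x ≠ 1 → x ≠ -1 → ∀ y : ℝ,
      G ((x : ℂ) + (y : ℂ) * I) /
        ((((x : ℂ) + (y : ℂ) * I) - (-1)) * (((x : ℂ) + (y : ℂ) * I) - (1 - s))) =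
      riemannZeta (s + ((x : ℂ) + (y : ℂ) * I)) * Ps k c ((x : ℂ) + (y : ℂ) * I) *
        HH D₀ Δ ((x : ℂ) + (y : ℂ) * I) := by
    intro x hx hx0 y
    have hne : s + ((x : ℂ) + (y : ℂ) * I) ≠ 1 := by
      intro h
      apply hx
      have := congrArg Complex.re h
      simpa using this
    have hz0 : ((x : ℂ) + (y : ℂ) * I) + 1 ≠ 0 := by
      intro h
      apply hx0
      have := congrArg Complex.re h
      simp at this
      linarith
    have hsub : ((x : ℂ) + (y : ℂ) * I) - (1 - s) = (s + ((x : ℂ) + (y : ℂ) * I)) - 1 := by ring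
    have hne' : (s + ((x : ℂ) + (y : ℂ) * I)) - 1 ≠ 0 := sub_ne_zero.2 hne
    rw [hG]
    simp only
    rw [hZne _ hne, hsub, sub_neg_eq_add]
    field_simp
  have key := Pool.Agent.H448R2.GC.shift1 G (-1) (1 - s) 0 1
    (CZ * (1 + |t|) ^ B * (Real.exp (k * c) * (3 / min 1 c) ^ k *
      (Δ * Real.exp |D₀| * (Real.exp Δ * 3))))
    hGd (by simp) (by rw [Complex.sub_re, Complex.one_re, hsre]; norm_num)
    (by rw [Complex.sub_re, Complex.one_re, hsre]; norm_num) ?_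
  · have e1 : (∫ y : ℝ, G (((1 : ℝ) : ℂ) + (y : ℂ) * I) /
        (((((1 : ℝ) : ℂ) + (y : ℂ) * I) - (-1)) * ((((1 : ℝ) : ℂ) + (y : ℂ) * I) - (1 - s)))) =
        2 * Real.pi * (cs k c (D₀ + Δ) s - cs k c D₀ s) := by
      have h1 : ∀ y : ℝ, G (((1 : ℝ) : ℂ) + (y : ℂ) * I) /
        (((((1 : ℝ) : ℂ) + (y : ℂ) * I) - (-1)) * ((((1 : ℝ) : ℂ) + (y : ℂ) * I) - (1 - s))) =
        riemannZeta (s + (((1 : ℝ) : ℂ) + (y : ℂ) * I)) * ker k c (D₀ + Δ) 1 y -
        riemannZeta (s + (((1 : ℝ) : ℂ) + (y : ℂ) * I)) * ker k c D₀ 1 y := by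
        intro y
        rw [hline 1 (by rw [hsre]; norm_num) (by norm_num) y]
        have hz : (((1 : ℝ) : ℂ) + (y : ℂ) * I) ≠ 0 := K2.z_ne 1 y one_ne_zero
        rw [HH_eq D₀ Δ hΔ _ hz]
        unfold Pool.Agent.H448R2.GC.ker
        field_simp
      simp_rw [h1]
      obtain ⟨Cz, hCz, hz54⟩ := Pool.Agent.TH75.AFE1.zeta_bdd54
      have hcont : Continuous fun y : ℝ => riemannZeta (s + (((1 : ℝ) : ℂ) + (y : ℂ) * I)) := by
        rw [continuous_iff_continuousAt]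
        intro y
        have hne : s + (((1 : ℝ) : ℂ) + (y : ℂ) * I) ≠ 1 := by
          intro h
          have := congrArg Complex.re h
          simp [hsre] at this
        have h2 : ContinuousAt riemannZeta (s + (((1 : ℝ) : ℂ) + (y : ℂ) * I)) :=
          (differentiableAt_riemannZeta hne).continuousAt
        have h3 : ContinuousAt (fun y : ℝ => s + (((1 : ℝ) : ℂ) + (y : ℂ) * I)) y := by fun_prop
        exact ContinuousAt.comp (f := fun y : ℝ => s + (((1 : ℝ) : ℂ) + (y : ℂ) * I))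
          (g := riemannZeta) h2 h3
      have hint : ∀ D : ℝ, Integrable (fun y : ℝ =>
          riemannZeta (s + (((1 : ℝ) : ℂ) + (y : ℂ) * I)) * ker k c D 1 y) := by
        intro D
        refine (Pool.Agent.H448R2.GC.ker_integrable k (by omega) c D 1 hc one_ne_zero).bdd_mul (c := Cz)
          hcont.aestronglyMeasurable (Eventually.of_forall fun y => ?_)
        apply hz54
        simp [hsre]
        norm_num
      rw [integral_sub (hint _) (hint _), Pool.Agent.H448R2.GC.cs_line k (by omega) c (D₀ + Δ) 1 hc one_pos s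
        (by rw [hsre]; norm_num), Pool.Agent.H448R2.GC.cs_line k (by omega) c D₀ 1 hc one_pos s
        (by rw [hsre]; norm_num)]
      have hpi : (Real.pi : ℂ) ≠ 0 := by exact_mod_cast Real.pi_ne_zero
      have h7 : ∀ X Y : ℂ, X - Y = 2 * Real.pi * ((1 / (2 * Real.pi)) * X - (1 / (2 * Real.pi)) * Y) := by
        intro X Y
        field_simp
      exact h7 _ _
    have e2 : (∫ y : ℝ, G (((0 : ℝ) : ℂ) + (y : ℂ) * I) /
        (((((0 : ℝ) : ℂ) + (y : ℂ) * I) - (-1)) * ((((0 : ℝ) : ℂ) + (y : ℂ) * I) - (1 - s)))) =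
        ∫ y : ℝ, riemannZeta (s + (y : ℂ) * I) * Ps k c ((y : ℂ) * I) * HH D₀ Δ ((y : ℂ) * I) := by
      congr 1
      ext y
      rw [hline 0 (by rw [hsre]; norm_num) (by norm_num) y]
      simp
    have e5 : G (1 - s) / (1 - s - (-1)) = Ps k c (1 - s) * HH D₀ Δ (1 - s) := by
      rw [hG]
      simp only
      have h1 : s + (1 - s) = 1 := by ring
      have h2 : (1 : ℂ) - s - (-1) = 1 - s + 1 := by ring
      have h3 : (1 : ℂ) - s + 1 ≠ 0 := by
        intro h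
        have := congrArg Complex.re h
        simp [hsre] at this
        norm_num at this
      rw [h1, h2, hZ1, one_mul]
      field_simp
    rw [e1, e2, e5] at key
    have hpi : (Real.pi : ℂ) ≠ 0 := by exact_mod_cast Real.pi_ne_zero
    have h6 : (1 / (2 * (Real.pi : ℂ))) * (∫ y : ℝ, riemannZeta (s + (y : ℂ) * I) *
        Ps k c ((y : ℂ) * I) * HH D₀ Δ ((y : ℂ) * I)) =
        (1 / (2 * (Real.pi : ℂ))) * (2 * Real.pi * (cs k c (D₀ + Δ) s - cs k c D₀ s) -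
          2 * Real.pi * (Ps k c (1 - s) * HH D₀ Δ (1 - s))) := by
      rw [← key]
      ring
    rw [h6]
    field_simp
    ring
  · intro z hz1 hz2
    have b1 : ‖Z (s + z)‖ ≤ CZ * (1 + |t|) ^ B * (1 + ‖z‖) ^ B := by
      refine (hZ (s + z) (by rw [Complex.add_re]; linarith) (by rw [Complex.add_re]; linarith)).trans ?_
      have e1 : 1 + |(s + z).im| ≤ (1 + |t|) * (1 + ‖z‖) := by
        rw [Complex.add_im, hsim]
        refine (S4.one_add_abs_le _ _).trans ?_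
        apply mul_le_mul_of_nonneg_left _ (by positivity)
        linarith [Complex.abs_im_le_norm z]
      calc CZ * (1 + |(s + z).im|) ^ B ≤ CZ * ((1 + |t|) * (1 + ‖z‖)) ^ B := by gcongr
        _ = _ := by rw [mul_pow]; ring
    have b3 : ‖Ps k c z‖ ≤ Real.exp (k * c) * (3 / min 1 c) ^ k * ((1 + ‖z‖) ^ k)⁻¹ := by
      refine (Pool.Agent.H448R2.GC.Ps_bound k c hc z).trans ?_
      rw [mul_assoc (Real.exp (k * c))]
      apply mul_le_mul _ (S4.ratio k c hc ‖z‖ (norm_nonneg z)) (by positivity) (Real.exp_pos _).le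
      apply Real.exp_le_exp.2
      have : max z.re 0 ≤ 1 := max_le hz2 zero_le_one
      have h2 : 0 ≤ (k : ℝ) * c := by positivity
      nlinarith
    have b5 : ‖z + 1‖ ≤ 1 + ‖z‖ := by
      refine (norm_add_le _ _).trans ?_
      rw [norm_one]
      linarith
    have b6 : ‖HH D₀ Δ z‖ ≤ Δ * Real.exp |D₀| * (Real.exp Δ * 3) := by
      refine (HH_bound D₀ Δ hΔ z).trans ?_
      have h1 : Real.exp (D₀ * z.re) ≤ Real.exp |D₀| := by
        apply Real.exp_le_exp.2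
        calc D₀ * z.re ≤ |D₀ * z.re| := le_abs_self _
          _ = |D₀| * |z.re| := abs_mul _ _
          _ ≤ |D₀| * 1 := mul_le_mul_of_nonneg_left (abs_le.2 ⟨by linarith, hz2⟩) (abs_nonneg _)
          _ = _ := mul_one _
      have h2 : Real.exp (Δ * max z.re 0) ≤ Real.exp Δ := by
        apply Real.exp_le_exp.2
        have : max z.re 0 ≤ 1 := max_le hz2 zero_le_one
        nlinarith
      have h3 : 3 / (1 + Δ * ‖z‖) ≤ 3 := by
        apply div_le_self (by norm_num)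
        have : 0 ≤ Δ * ‖z‖ := by positivity
        linarith
      gcongr
    have b4 : (1 + ‖z‖) ^ B * ((1 + ‖z‖) ^ k)⁻¹ * (1 + ‖z‖) ≤ 1 := by
      have h1 : 1 ≤ 1 + ‖z‖ := by linarith [norm_nonneg z]
      rw [mul_right_comm, ← pow_succ, ← div_eq_mul_inv]
      apply div_le_one_of_le₀ _ (by positivity)
      exact pow_le_pow_right₀ h1 hk
    rw [hG]
    simp only
    rw [norm_mul, norm_mul, norm_mul]
    calc ‖Z (s + z)‖ * (‖Ps k c z‖ * (‖z + 1‖ * ‖HH D₀ Δ z‖))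
        ≤ (CZ * (1 + |t|) ^ B * (1 + ‖z‖) ^ B) *
          ((Real.exp (k * c) * (3 / min 1 c) ^ k * ((1 + ‖z‖) ^ k)⁻¹) *
          ((1 + ‖z‖) * (Δ * Real.exp |D₀| * (Real.exp Δ * 3)))) := by gcongr
      _ = (CZ * (1 + |t|) ^ B * (Real.exp (k * c) * (3 / min 1 c) ^ k *
          (Δ * Real.exp |D₀| * (Real.exp Δ * 3)))) *
          ((1 + ‖z‖) ^ B * ((1 + ‖z‖) ^ k)⁻¹ * (1 + ‖z‖)) := by ring
      _ ≤ (CZ * (1 + |t|) ^ B * (Real.exp (k * c) * (3 / min 1 c) ^ k *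
          (Δ * Real.exp |D₀| * (Real.exp Δ * 3)))) * 1 := by
          apply mul_le_mul_of_nonneg_left b4 (by positivity)
      _ = _ := mul_one _

end Pool.Agent.H476.LS
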