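import Pool.Agent.H476.LS6

set_option autoImplicit false

/-! One cosine sum and the Lindelöf hypothesis, part 7: bounds for the sections. -/

open Complex MeasureTheory Filter Topology

namespace Pool.Agent.H476.LS

open Pool.Agent.H448R2.GC

/-- `ζ(1/2 + it) = O(t^(κ + ε))` for every `ε > 0` -/
def Exponent (κ : ℝ) : Prop :=
  ∀ ε : ℝ, 0 < ε → ∃ C : ℝ, ∀ t : ℝ, Z t ≤ C * (1 + |t|) ^ (κ + ε)

lemma P_eq_Icc (N : ℕ) (t : ℝ) : P N t = ∑ m ∈ Finset.Icc 1 N, (m : ℂ) ^ (-(1 / 2 + (t : ℂ) * I)) := by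
  unfold P
  rw [Finset.sum_bij (fun n _ => n + 1)]
  · intro n hn
    rw [Finset.mem_range] at hn
    rw [Finset.mem_Icc]; omega
  · intro a _ b _ h
    omega
  · intro m hm
    rw [Finset.mem_Icc] at hm
    exact ⟨m - 1, by rw [Finset.mem_range]; omega, by omega⟩
  · intro n _
    push_cast
    rfl

/-- the smoothed sum with a short transition is close to the section -/
lemma cs_near (k N : ℕ) (hN : 1 ≤ N) (c t τ : ℝ) (hc : 0 < c) (hτ : 0 < τ) (hkc : (k : ℝ) * c = 1 / τ)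
    (hτ1 : 1 ≤ τ) : ‖P N t - cs k c (Real.log N) (1 / 2 + (t : ℂ) * I)‖ ≤ 2 * Real.sqrt N / τ := by
  have hN0 : (0 : ℝ) < N := by exact_mod_cast hN
  have hx1 : 1 / τ ≤ 1 := by rw [div_le_one hτ]; exact hτ1
  have hx0 : 0 < 1 / τ := by positivity
  obtain ⟨N', hN'⟩ : ∃ N' : ℕ, N' = ⌊Real.exp (Real.log N + k * c)⌋₊ := ⟨_, rfl⟩
  have hexp : Real.exp (Real.log N + k * c) = N * Real.exp (1 / τ) := by
    rw [Real.exp_add, Real.exp_log hN0, hkc]
  have hle : N ≤ N' := by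
    rw [hN', hexp]
    apply Nat.le_floor
    exact le_mul_of_one_le_right hN0.le (Real.one_le_exp hx0.le)
  have hN'2 : (N' : ℝ) ≤ N * Real.exp (1 / τ) := by
    rw [hN', hexp]
    exact Nat.floor_le (by positivity)
  have hexp2 : Real.exp (1 / τ) ≤ 1 + 2 * (1 / τ) := by
    have h1 := Real.exp_bound' hx0.le hx1 (n := 1) (by norm_num)
    simp at h1
    rw [one_div]
    linarith
  have hsplit : P N t - cs k c (Real.log N) (1 / 2 + (t : ℂ) * I) =
      -∑ m ∈ Finset.Ioc N N', (cu k c (Real.log m - Real.log N) : ℂ) *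
        (m : ℂ) ^ (-(1 / 2 + (t : ℂ) * I)) := by
    unfold cs
    rw [← hN', P_eq_Icc]
    have h1 : Finset.Icc 1 N' = Finset.Icc 1 N ∪ Finset.Ioc N N' := by
      ext m
      rw [Finset.mem_union, Finset.mem_Icc, Finset.mem_Icc, Finset.mem_Ioc]
      omega
    have h2 : Disjoint (Finset.Icc 1 N) (Finset.Ioc N N') := by
      rw [Finset.disjoint_left]
      intro m hm hm'
      rw [Finset.mem_Icc] at hm
      rw [Finset.mem_Ioc] at hm'
      omega
    rw [h1, Finset.sum_union h2]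
    have h3 : ∑ m ∈ Finset.Icc 1 N, (cu k c (Real.log m - Real.log N) : ℂ) *
        (m : ℂ) ^ (-(1 / 2 + (t : ℂ) * I)) = ∑ m ∈ Finset.Icc 1 N, (m : ℂ) ^ (-(1 / 2 + (t : ℂ) * I)) := by
      refine Finset.sum_congr rfl fun m hm => ?_
      rw [Finset.mem_Icc] at hm
      have h4 : Real.log m ≤ Real.log N :=
        Real.log_le_log (by exact_mod_cast hm.1) (by exact_mod_cast hm.2)
      rw [Pool.Agent.H448R2.GC.cu_one k c _ hc (by linarith)]
      push_cast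
      ring
    rw [h3]
    ring
  rw [hsplit, norm_neg]
  have hterm : ∀ m ∈ Finset.Ioc N N', ‖(cu k c (Real.log m - Real.log N) : ℂ) *
        (m : ℂ) ^ (-(1 / 2 + (t : ℂ) * I))‖ ≤ (Real.sqrt N)⁻¹ := by
    intro m hm
    rw [Finset.mem_Ioc] at hm
    have hm0 : (0 : ℝ) < m := by exact_mod_cast (by omega : 0 < m)
    rw [norm_mul, Complex.norm_real, Real.norm_of_nonneg (Pool.Agent.H448R2.GC.cu_nonneg k c _ hc)]
    have h1 : ‖(m : ℂ) ^ (-(1 / 2 + (t : ℂ) * I))‖ = (m : ℝ) ^ (-(1 / 2) : ℝ) := by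
      have := Complex.norm_cpow_eq_rpow_re_of_pos hm0 (-(1 / 2 + (t : ℂ) * I))
      rw [Complex.ofReal_natCast] at this
      rw [this]
      simp
    rw [h1]
    have h2 : (m : ℝ) ^ (-(1 / 2) : ℝ) ≤ (N : ℝ) ^ (-(1 / 2) : ℝ) :=
      Real.rpow_le_rpow_of_nonpos hN0 (by exact_mod_cast hm.1.le) (by norm_num)
    have h3 : (N : ℝ) ^ (-(1 / 2) : ℝ) = (Real.sqrt N)⁻¹ := by
      rw [Real.rpow_neg hN0.le, ← Real.sqrt_eq_rpow]
    calc cu k c (Real.log m - Real.log N) * (m : ℝ) ^ (-(1 / 2) : ℝ) ≤ 1 * (N : ℝ) ^ (-(1 / 2) : ℝ) := by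
          have := Pool.Agent.H448R2.GC.cu_le_one k c (Real.log m - Real.log N) hc
          gcongr
      _ = _ := by rw [one_mul, h3]
  refine (norm_sum_le _ _).trans ((Finset.sum_le_sum hterm).trans ?_)
  rw [Finset.sum_const, Nat.card_Ioc, nsmul_eq_mul, Nat.cast_sub hle]
  have hsq : Real.sqrt N * Real.sqrt N = N := Real.mul_self_sqrt hN0.le
  have hs0 : 0 < Real.sqrt N := Real.sqrt_pos.2 hN0
  rw [← div_eq_mul_inv, div_le_div_iff₀ hs0 hτ]
  have h5 : ((N' : ℝ) - N) ≤ N * (2 * (1 / τ)) := by nlinarith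
  calc ((N' : ℝ) - N) * τ ≤ (N * (2 * (1 / τ))) * τ := by gcongr
    _ = 2 * N := by field_simp
    _ = 2 * Real.sqrt N * Real.sqrt N := by rw [mul_assoc, hsq]

/-- **the sections are bounded with the exponent of zeta** -/
theorem sec_bound (κ : ℝ) (hκ : 0 ≤ κ) (hE : Exponent κ) (A ε : ℝ) (hε : 0 < ε) :
    ∃ C : ℝ, 0 < C ∧ ∀ t : ℝ, 1 ≤ t → ∀ N : ℕ, 1 ≤ N → (N : ℝ) ≤ t ^ A →
      ‖P N t‖ ≤ C * (t ^ (κ + ε) + Real.sqrt N / t) := by
  obtain ⟨k₀, hk₀, hshift⟩ := shift_line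
  obtain ⟨η, hη⟩ : ∃ η : ℝ, η = min (ε / 3) 1 := ⟨_, rfl⟩
  have hη0 : 0 < η := by rw [hη]; positivity
  have hηε : 3 * η ≤ ε := by
    have : η ≤ ε / 3 := by rw [hη]; exact min_le_left _ _
    linarith
  have hη1 : η ≤ 1 := by rw [hη]; exact min_le_right _ _
  obtain ⟨C₀, hC₀⟩ := hE η hη0
  obtain ⟨C₁, hC₁⟩ : ∃ C₁ : ℝ, C₁ = |C₀| + 1 := ⟨_, rfl⟩
  have hC₁0 : 0 < C₁ := by rw [hC₁]; positivity
  obtain ⟨k', hk'⟩ : ∃ k' : ℝ, k' = κ + η := ⟨_, rfl⟩
  have hk'0 : 0 < k' := by rw [hk']; positivity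
  have hz : ∀ v : ℝ, Z v ≤ C₁ * (1 + |v|) ^ k' := by
    intro v
    refine (hC₀ v).trans ?_
    rw [← hk']
    apply mul_le_mul_of_nonneg_right _ (by positivity)
    rw [hC₁]
    linarith [le_abs_self C₀]
  obtain ⟨k, hk⟩ : ∃ k : ℕ, k = k₀ + ⌈κ⌉₊ + 2 := ⟨_, rfl⟩
  have hk1 : 1 ≤ k := by omega
  have hkκ : k' + η ≤ k := by
    have h1 := Nat.le_ceil κ
    rw [hk, hk']
    push_cast
    have : (0 : ℝ) ≤ k₀ := by positivity
    linarith
  have hk0 : (0 : ℝ) < k := by exact_mod_cast hk1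
  have hk1' : (1 : ℝ) ≤ k := by exact_mod_cast hk1
  have hint : Integrable (fun y : ℝ => (1 + |y|) ^ (-(1 + η))) := by
    have h1 := integrable_one_add_norm (E := ℝ) (μ := volume) (r := 1 + η) (by simp; linarith)
    simpa using h1
  obtain ⟨J, hJ⟩ : ∃ J : ℝ, J = ∫ y : ℝ, (1 + |y|) ^ (-(1 + η)) := ⟨_, rfl⟩
  have hJ0 : 0 ≤ J := by rw [hJ]; exact integral_nonneg fun y => by positivity
  obtain ⟨W, hW⟩ : ∃ W : ℝ, W = C₁ * (2 * k) ^ k' * 3 ^ (k + 1) * (k : ℝ) ^ η := ⟨_, rfl⟩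
  have hW0 : 0 < W := by rw [hW]; positivity
  refine ⟨W * J * (|A| / η + 2) + 6 * 3 ^ k + 2, by positivity, fun t ht N hN1 hNA => ?_⟩
  have ht0 : 0 < t := by linarith
  have hN0 : (0 : ℝ) < N := by exact_mod_cast hN1
  have hN1' : (1 : ℝ) ≤ N := by exact_mod_cast hN1
  obtain ⟨c, hc⟩ : ∃ c : ℝ, c = 1 / (k * t) := ⟨_, rfl⟩
  have hc0 : 0 < c := by rw [hc]; positivity
  have hkc : (k : ℝ) * c = 1 / t := by rw [hc]; field_simp
  have hc1 : c ≤ 1 := by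
    rw [hc, div_le_one (by positivity)]
    nlinarith
  have hkc1 : (k : ℝ) * c ≤ 1 := by rw [hkc, div_le_one ht0]; exact ht
  obtain ⟨D₀, hD₀⟩ : ∃ D₀ : ℝ, D₀ = -1 - k * c := ⟨_, rfl⟩
  obtain ⟨Δ, hΔ⟩ : ∃ Δ : ℝ, Δ = Real.log N - D₀ := ⟨_, rfl⟩
  have hlogN : 0 ≤ Real.log N := Real.log_nonneg hN1'
  have hkcp : 0 < (k : ℝ) * c := by positivity
  have hΔ1 : 1 ≤ Δ := by rw [hΔ, hD₀]; linarith
  have hΔ0 : 0 < Δ := by linarith
  have hDD : D₀ + Δ = Real.log N := by rw [hΔ]; ring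
  have hmain := hshift k (by omega) c D₀ Δ hc0 hΔ0 t
  have hcs0 : cs k c D₀ (1 / 2 + (t : ℂ) * I) = 0 := by
    unfold cs
    have h1 : ⌊Real.exp (D₀ + k * c)⌋₊ = 0 := by
      rw [Nat.floor_eq_zero]
      rw [← Real.exp_zero]
      apply Real.exp_lt_exp.2
      rw [hD₀]
      linarith
    rw [h1]
    simp
  rw [hcs0, sub_zero, hDD] at hmain
  -- the bound of `Δ`
  have hΔb : Δ ≤ (|A| / η + 2) * t ^ η := by
    have h1 : Real.log N ≤ |A| * Real.log t := by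
      calc Real.log N ≤ Real.log (t ^ A) := Real.log_le_log hN0 hNA
        _ = A * Real.log t := Real.log_rpow ht0 A
        _ ≤ |A| * Real.log t := mul_le_mul_of_nonneg_right (le_abs_self A) (Real.log_nonneg ht)
    have h2 : Real.log t ≤ t ^ η / η := Real.log_le_rpow_div ht0.le hη0
    have h3 : 1 ≤ t ^ η := Real.one_le_rpow ht hη0.le
    calc Δ ≤ |A| * Real.log t + 2 := by rw [hΔ, hD₀]; linarith
      _ ≤ |A| * (t ^ η / η) + 2 * t ^ η := by
          have := mul_le_mul_of_nonneg_left h2 (abs_nonneg A)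
          linarith
      _ = _ := by ring
  -- the integrand
  have hpt : ∀ y : ℝ, ‖riemannZeta ((1 / 2 + (t : ℂ) * I) + (y : ℂ) * I) *
        Ps k c ((y : ℂ) * I) * HH D₀ Δ ((y : ℂ) * I)‖ ≤
      (W * t ^ (k' + η) * Δ) * (1 + |y|) ^ (-(1 + η)) := by
    intro y
    have hy0 := abs_nonneg y
    have hyn : ‖(y : ℂ) * I‖ = |y| := by rw [norm_mul, Complex.norm_I, mul_one, Complex.norm_real]; rfl
    have hyre : ((y : ℂ) * I).re = 0 := by simp
    have hcy : 0 < 1 + c * |y| := by positivity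
    have hcy1 : 1 ≤ 1 + c * |y| := by
      have : 0 ≤ c * |y| := by positivity
      linarith
    rw [norm_mul, norm_mul]
    have e1 : (1 / 2 + (t : ℂ) * I) + (y : ℂ) * I = 1 / 2 + ((t + y : ℝ) : ℂ) * I := by
      push_cast; ring
    have a1 : ‖riemannZeta ((1 / 2 + (t : ℂ) * I) + (y : ℂ) * I)‖ ≤
        C₁ * ((2 * k) ^ k' * t ^ k' * (1 + c * |y|) ^ k') := by
      rw [e1]
      refine (hz (t + y)).trans (mul_le_mul_of_nonneg_left ?_ hC₁0.le)
      calc (1 + |t + y|) ^ k' ≤ ((2 * k) * t * (1 + c * |y|)) ^ k' := by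
            apply Real.rpow_le_rpow (by positivity) _ hk'0.le
            have h1 : |t + y| ≤ t + |y| := by
              have := abs_add_le t y
              rwa [abs_of_pos ht0] at this
            have h2 : (2 * k) * t * (1 + c * |y|) = 2 * (k * t) + 2 * |y| := by
              rw [hc]; field_simp
            rw [h2]
            nlinarith
        _ = _ := by
            rw [Real.mul_rpow (by positivity) (by positivity), Real.mul_rpow (by positivity) (by positivity)]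
    have a2 : ‖Ps k c ((y : ℂ) * I)‖ ≤ 3 ^ k * (1 + c * |y|) ^ (-(k : ℝ)) := by
      refine (Pool.Agent.H448R2.GC.Ps_bound k c hc0 _).trans_eq ?_
      rw [hyre, hyn, max_self, mul_zero, Real.exp_zero, one_mul, div_pow, Real.rpow_neg hcy.le,
        Real.rpow_natCast, div_eq_mul_inv]
    have a3 : ‖HH D₀ Δ ((y : ℂ) * I)‖ ≤ 3 * Δ * (1 + |y|)⁻¹ := by
      refine (HH_bound D₀ Δ hΔ0 _).trans ?_
      rw [hyre, hyn, max_self, mul_zero, mul_zero, Real.exp_zero, mul_one, one_mul, div_eq_mul_inv]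
      have h1 : (1 + Δ * |y|)⁻¹ ≤ (1 + |y|)⁻¹ := by
        apply inv_anti₀ (by positivity)
        nlinarith
      calc Δ * (3 * (1 + Δ * |y|)⁻¹) ≤ Δ * (3 * (1 + |y|)⁻¹) := by gcongr
        _ = _ := by ring
    have a4 : (1 + c * |y|) ^ k' * (1 + c * |y|) ^ (-(k : ℝ)) ≤
        ((k : ℝ) ^ η * t ^ η) * (1 + |y|) ^ (-η) := by
      rw [← Real.rpow_add hcy]
      calc (1 + c * |y|) ^ (k' + -(k : ℝ)) ≤ (1 + c * |y|) ^ (-η) :=
            Real.rpow_le_rpow_of_exponent_le hcy1 (by linarith)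
        _ ≤ (c * (1 + |y|)) ^ (-η) := by
            apply Real.rpow_le_rpow_of_nonpos (by positivity) _ (by linarith)
            nlinarith
        _ = c ^ (-η) * (1 + |y|) ^ (-η) := Real.mul_rpow hc0.le (by positivity)
        _ = ((k : ℝ) ^ η * t ^ η) * (1 + |y|) ^ (-η) := by
            congr 1
            rw [hc, one_div, Real.inv_rpow (by positivity), Real.rpow_neg (by positivity), inv_inv,
              Real.mul_rpow hk0.le ht0.le]
    have a5 : (1 + |y|) ^ (-η) * (1 + |y|)⁻¹ = (1 + |y|) ^ (-(1 + η)) := by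
      rw [← Real.rpow_neg_one, ← Real.rpow_add (by positivity)]
      congr 1
      ring
    have a6 : t ^ k' * t ^ η = t ^ (k' + η) := by rw [← Real.rpow_add ht0]
    calc ‖riemannZeta ((1 / 2 + (t : ℂ) * I) + (y : ℂ) * I)‖ * ‖Ps k c ((y : ℂ) * I)‖ *
        ‖HH D₀ Δ ((y : ℂ) * I)‖
        ≤ (C₁ * ((2 * k) ^ k' * t ^ k' * (1 + c * |y|) ^ k')) *
          (3 ^ k * (1 + c * |y|) ^ (-(k : ℝ))) * (3 * Δ * (1 + |y|)⁻¹) := by gcongr
      _ = (C₁ * (2 * k) ^ k' * 3 ^ (k + 1)) * t ^ k' * Δ *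
          ((1 + c * |y|) ^ k' * (1 + c * |y|) ^ (-(k : ℝ))) * (1 + |y|)⁻¹ := by ring
      _ ≤ (C₁ * (2 * k) ^ k' * 3 ^ (k + 1)) * t ^ k' * Δ *
          (((k : ℝ) ^ η * t ^ η) * (1 + |y|) ^ (-η)) * (1 + |y|)⁻¹ := by gcongr
      _ = (C₁ * (2 * k) ^ k' * 3 ^ (k + 1) * (k : ℝ) ^ η) * (t ^ k' * t ^ η) * Δ *
          ((1 + |y|) ^ (-η) * (1 + |y|)⁻¹) := by ring
      _ = _ := by rw [a5, a6, hW]
  have hI : ‖(1 / (2 * (Real.pi : ℂ))) * ∫ y : ℝ, riemannZeta ((1 / 2 + (t : ℂ) * I) + (y : ℂ) * I) *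
        Ps k c ((y : ℂ) * I) * HH D₀ Δ ((y : ℂ) * I)‖ ≤ W * t ^ (k' + η) * Δ * J := by
    rw [norm_mul]
    have h2 : ‖(1 / (2 * (Real.pi : ℂ)))‖ ≤ 1 := by
      rw [norm_div, norm_one, norm_mul, Complex.norm_real, Real.norm_of_nonneg Real.pi_pos.le]
      rw [Complex.norm_ofNat, div_le_one (by positivity)]
      linarith [Real.pi_gt_three]
    have h3 : ‖∫ y : ℝ, riemannZeta ((1 / 2 + (t : ℂ) * I) + (y : ℂ) * I) *
        Ps k c ((y : ℂ) * I) * HH D₀ Δ ((y : ℂ) * I)‖ ≤ W * t ^ (k' + η) * Δ * J := by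
      refine (norm_integral_le_of_norm_le (hint.const_mul _) (Eventually.of_forall hpt)).trans_eq ?_
      rw [integral_const_mul, hJ]
    calc _ ≤ 1 * (W * t ^ (k' + η) * Δ * J) := by gcongr
      _ = _ := one_mul _
  -- the pole
  have hpole : ‖Ps k c (1 - (1 / 2 + (t : ℂ) * I)) * HH D₀ Δ (1 - (1 / 2 + (t : ℂ) * I))‖ ≤
      6 * 3 ^ k * (Real.sqrt N / t) := by
    obtain ⟨w, hw⟩ : ∃ w : ℂ, w = 1 - (1 / 2 + (t : ℂ) * I) := ⟨_, rfl⟩
    rw [← hw]
    have hwre : w.re = 1 / 2 := by rw [hw]; simp; norm_num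
    have hwn : t ≤ ‖w‖ := by
      have h1 := Complex.abs_im_le_norm w
      have h2 : w.im = -t := by rw [hw]; simp
      rw [h2, abs_neg, abs_of_pos ht0] at h1
      exact h1
    have hw0 : w ≠ 0 := by
      intro h
      rw [h] at hwre
      norm_num at hwre
    have b1 : ‖Ps k c w‖ ≤ 3 * 3 ^ k := by
      refine (Pool.Agent.H448R2.GC.Ps_bound k c hc0 w).trans ?_
      rw [hwre, max_eq_left (by norm_num)]
      have h1 : Real.exp (k * c * (1 / 2)) ≤ 3 := by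
        calc Real.exp (k * c * (1 / 2)) ≤ Real.exp 1 := Real.exp_le_exp.2 (by linarith)
          _ ≤ 3 := by linarith [Real.exp_one_lt_d9]
      have h4 : (3 / (1 + c * ‖w‖)) ^ k ≤ 3 ^ k := by
        apply pow_le_pow_left₀ (by positivity)
        apply div_le_self (by norm_num)
        have : 0 ≤ c * ‖w‖ := by positivity
        linarith
      exact mul_le_mul h1 h4 (by positivity) (by norm_num)
    have b2 : ‖HH D₀ Δ w‖ ≤ 2 * (Real.sqrt N / t) := by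
      rw [HH_eq D₀ Δ hΔ0 w hw0, norm_div, hDD]
      have h1 : ‖cexp (((Real.log N : ℝ) : ℂ) * w) - cexp ((D₀ : ℂ) * w)‖ ≤ 2 * Real.sqrt N := by
        refine (norm_sub_le _ _).trans ?_
        rw [Complex.norm_exp, Complex.norm_exp, Complex.re_ofReal_mul, Complex.re_ofReal_mul, hwre]
        have h2 : Real.exp (Real.log N * (1 / 2)) = Real.sqrt N := by
          rw [Real.sqrt_eq_rpow, Real.rpow_def_of_pos hN0]
        have h3 : Real.exp (D₀ * (1 / 2)) ≤ 1 := by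
          apply Real.exp_le_one_iff.2
          rw [hD₀]
          linarith
        have h4 : 1 ≤ Real.sqrt N := Real.one_le_sqrt.2 hN1'
        rw [h2]
        linarith
      calc ‖cexp (((Real.log N : ℝ) : ℂ) * w) - cexp ((D₀ : ℂ) * w)‖ / ‖w‖
          ≤ (2 * Real.sqrt N) / t := by gcongr
        _ = _ := by ring
    rw [norm_mul]
    calc ‖Ps k c w‖ * ‖HH D₀ Δ w‖ ≤ (3 * 3 ^ k) * (2 * (Real.sqrt N / t)) := by gcongr
      _ = _ := by ring
  have hnear := cs_near k N hN1 c t t hc0 ht0 hkc ht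
  have hcsb : ‖cs k c (Real.log N) (1 / 2 + (t : ℂ) * I)‖ ≤
      W * t ^ (k' + η) * Δ * J + 6 * 3 ^ k * (Real.sqrt N / t) := by
    rw [hmain]
    exact (norm_add_le _ _).trans (add_le_add hI hpole)
  have hfin : ‖P N t‖ ≤ ‖P N t - cs k c (Real.log N) (1 / 2 + (t : ℂ) * I)‖ +
      ‖cs k c (Real.log N) (1 / 2 + (t : ℂ) * I)‖ := by
    have := norm_add_le (P N t - cs k c (Real.log N) (1 / 2 + (t : ℂ) * I))
      (cs k c (Real.log N) (1 / 2 + (t : ℂ) * I))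
    rwa [sub_add_cancel] at this
  have hTt : t ^ (k' + η) * t ^ η ≤ t ^ (κ + ε) := by
    rw [← Real.rpow_add ht0]
    apply Real.rpow_le_rpow_of_exponent_le ht
    rw [hk']
    linarith
  have h10 : W * t ^ (k' + η) * Δ * J ≤ W * J * (|A| / η + 2) * t ^ (κ + ε) := by
    calc W * t ^ (k' + η) * Δ * J ≤ W * t ^ (k' + η) * ((|A| / η + 2) * t ^ η) * J := by gcongr
      _ = W * J * (|A| / η + 2) * (t ^ (k' + η) * t ^ η) := by ring
      _ ≤ _ := by gcongr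
  obtain ⟨q, hq⟩ : ∃ q : ℝ, q = Real.sqrt N / t := ⟨_, rfl⟩
  have hq0 : 0 ≤ q := by rw [hq]; positivity
  have hp0 : 0 ≤ t ^ (κ + ε) := by positivity
  have h11 : 2 * Real.sqrt N / t = 2 * q := by rw [hq]; ring
  rw [h11] at hnear
  rw [← hq] at hcsb ⊢
  have h12 : 0 ≤ W * J * (|A| / η + 2) * q := by positivity
  have h13 : 0 ≤ (6 * 3 ^ k + 2) * t ^ (κ + ε) := by positivity
  calc ‖P N t‖ ≤ 2 * q + (W * J * (|A| / η + 2) * t ^ (κ + ε) + 6 * 3 ^ k * q) := by linarith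
    _ ≤ (W * J * (|A| / η + 2) + 6 * 3 ^ k + 2) * (t ^ (κ + ε) + q) := by
        have : (W * J * (|A| / η + 2) + 6 * 3 ^ k + 2) * (t ^ (κ + ε) + q) =
          W * J * (|A| / η + 2) * t ^ (κ + ε) + (6 * 3 ^ k + 2) * t ^ (κ + ε) +
          W * J * (|A| / η + 2) * q + (6 * 3 ^ k + 2) * q := by ring
        rw [this]
        linarith

end Pool.Agent.H476.LS
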