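import Pool.Agent.H476.LS7

set_option autoImplicit false

/-! One cosine sum and the Lindelöf hypothesis, part 8: the criteria. -/

open Complex MeasureTheory Filter Topology

namespace Pool.Agent.H476.LS

/-- one section `P (⌊t^θ⌋, t)` for each height `t` is `O(t^(κ + ε))` -/
def SectionBound (κ θ : ℝ) : Prop :=
  ∀ ε : ℝ, 0 < ε → ∃ C : ℝ, ∀ t : ℝ, 1 ≤ t → ‖P ⌊t ^ θ⌋₊ t‖ ≤ C * t ^ (κ + ε)

/-- the one-sided bound in the direction `u` -/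
def OneSided (κ θ : ℝ) (u : ℂ) : Prop :=
  ∀ ε : ℝ, 0 < ε → ∃ C : ℝ, ∀ t : ℝ, 1 ≤ t → (u * P ⌊t ^ θ⌋₊ t).re ≤ C * t ^ (κ + ε)

/-- a one-sided bound, near each height, for some continuation of the section of length
`T^(1/2 + δ)` by arbitrary terms of higher frequencies -/
def SomeContinuation (κ : ℝ) : Prop :=
  ∀ ε : ℝ, 0 < ε → ∃ δ A : ℝ, 0 < δ ∧ ∀ R : ℝ, ∃ T₀ : ℝ, ∀ T : ℝ, T₀ ≤ T →
    ∃ (N J : ℕ) (c : Fin J → ℂ) (lam : Fin J → ℝ) (u : ℂ), T ^ (1 / 2 + δ) ≤ N ∧ (N : ℝ) ≤ T ^ A ∧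
      (∀ j, Real.log N ≤ lam j) ∧ ∑ j, ‖c j‖ ≤ T ^ A ∧ ‖u‖ = 1 ∧
      ∀ t : ℝ, |t - T| ≤ R → (u * Q N J c lam t).re ≤ T ^ (κ + ε)

lemma Z_neg (t : ℝ) : Z (-t) = Z t := by
  unfold Z
  have h1 : (1 / 2 + ((-t : ℝ) : ℂ) * I) = (starRingEnd ℂ) (1 / 2 + (t : ℂ) * I) := by
    simp only [map_add, map_div₀, map_one, map_mul, conj_ofReal, conj_I, Complex.conj_ofNat]
    push_cast
    ring
  rw [h1, riemannZeta_conj, RCLike.norm_conj]

lemma Z_abs (t : ℝ) : Z |t| = Z t := by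
  rcases abs_choice t with h | h
  · rw [h]
  · rw [h, Z_neg]

lemma Z_nonneg (t : ℝ) : 0 ≤ Z t := norm_nonneg _

lemma Z_cont : Continuous Z := by
  unfold Z
  refine Continuous.norm ?_
  rw [continuous_iff_continuousAt]
  intro t
  have hne : (1 / 2 + (t : ℂ) * I : ℂ) ≠ 1 := by
    intro h
    have := congrArg Complex.re h
    norm_num at this
  have h2 : ContinuousAt riemannZeta (1 / 2 + (t : ℂ) * I) := (differentiableAt_riemannZeta hne).continuousAt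
  have h3 : ContinuousAt (fun t : ℝ => (1 / 2 + (t : ℂ) * I : ℂ)) t := by fun_prop
  exact ContinuousAt.comp (f := fun t : ℝ => (1 / 2 + (t : ℂ) * I : ℂ)) (g := riemannZeta) h2 h3

/-- large heights are enough -/
lemma exponent_of_large (κ : ℝ) (hκ : 0 ≤ κ)
    (h : ∀ ε : ℝ, 0 < ε → ∃ C T₀ : ℝ, ∀ T : ℝ, T₀ ≤ T → Z T ≤ C * T ^ (κ + ε)) : Exponent κ := by
  intro ε hε
  obtain ⟨C, T₀, hC⟩ := h ε hε
  obtain ⟨K, hK⟩ := (isCompact_Icc (a := (0 : ℝ)) (b := max T₀ 1)).exists_bound_of_continuousOn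
    Z_cont.continuousOn
  refine ⟨|C| + |K|, fun t => ?_⟩
  rw [← Z_abs t]
  have h0 := abs_nonneg t
  obtain ⟨x, hx⟩ : ∃ x : ℝ, x = |t| := ⟨_, rfl⟩
  rw [← hx] at h0 ⊢
  have h1 : 1 ≤ (1 + x) ^ (κ + ε) := Real.one_le_rpow (by linarith) (by positivity)
  rcases le_or_gt x (max T₀ 1) with h2 | h2
  · have h3 := hK x ⟨h0, h2⟩
    rw [Real.norm_of_nonneg (Z_nonneg _)] at h3
    calc Z x ≤ K := h3
      _ ≤ |K| * 1 := by rw [mul_one]; exact le_abs_self K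
      _ ≤ (|C| + |K|) * (1 + x) ^ (κ + ε) := by
          apply mul_le_mul (by linarith [abs_nonneg C]) h1 zero_le_one (by positivity)
  · have h3 : T₀ ≤ x := (le_max_left _ _).trans h2.le
    calc Z x ≤ C * x ^ (κ + ε) := hC x h3
      _ ≤ |C| * (1 + x) ^ (κ + ε) := by
          apply mul_le_mul (le_abs_self C) _ (by positivity) (abs_nonneg C)
          exact Real.rpow_le_rpow h0 (by linarith) (by positivity)
      _ ≤ (|C| + |K|) * (1 + x) ^ (κ + ε) := by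
          apply mul_le_mul_of_nonneg_right _ (by positivity)
          linarith [abs_nonneg K]

/-- the difference of two sections -/
lemma P_sub_le {M N : ℕ} (hMN : M ≤ N) (t : ℝ) :
    ‖P N t - P M t‖ ≤ ((N : ℝ) - M) * ((M : ℝ) + 1) ^ (-(1 / 2) : ℝ) := by
  have h1 : P N t - P M t = ∑ n ∈ Finset.Ico M N, ((n : ℂ) + 1) ^ (-(1 / 2 + (t : ℂ) * I)) := by
    unfold P
    rw [Finset.sum_Ico_eq_sub _ hMN]
  rw [h1]
  refine (norm_sum_le _ _).trans ?_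
  calc ∑ n ∈ Finset.Ico M N, ‖((n : ℂ) + 1) ^ (-(1 / 2 + (t : ℂ) * I))‖
      ≤ ∑ n ∈ Finset.Ico M N, ((M : ℝ) + 1) ^ (-(1 / 2) : ℝ) := by
        refine Finset.sum_le_sum fun n hn => ?_
        rw [Finset.mem_Ico] at hn
        rw [term_norm]
        have hn' : (M : ℝ) ≤ n := by exact_mod_cast hn.1
        have hM0 : (0 : ℝ) ≤ M := M.cast_nonneg
        exact Real.rpow_le_rpow_of_nonpos (by linarith) (by linarith) (by norm_num)
    _ = _ := by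
        rw [Finset.sum_const, Nat.card_Ico, nsmul_eq_mul, Nat.cast_sub hMN]

/-- sections of slightly different lengths -/
lemma P_floor_sub (θ u v t : ℝ) (hθ : 0 < θ) (hv : 1 ≤ v) (hvu : v ≤ u) (huv : u ≤ 2 * v) :
    ‖P ⌊u ^ θ⌋₊ t - P ⌊v ^ θ⌋₊ t‖ ≤ θ * Real.exp θ * (u - v) * v ^ (θ / 2 - 1) + 1 := by
  have hv0 : 0 < v := by linarith
  have hle : v ^ θ ≤ u ^ θ := Real.rpow_le_rpow hv0.le hvu hθ.le
  refine (P_sub_le (Nat.floor_le_floor hle) t).trans ?_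
  have hu0 : 0 < u := by linarith
  have hN : ((⌊u ^ θ⌋₊ : ℕ) : ℝ) ≤ u ^ θ := Nat.floor_le (by positivity)
  have hM : v ^ θ < ((⌊v ^ θ⌋₊ : ℕ) : ℝ) + 1 := Nat.lt_floor_add_one _
  have h1 : (((⌊v ^ θ⌋₊ : ℕ) : ℝ) + 1) ^ (-(1 / 2) : ℝ) ≤ (v ^ θ) ^ (-(1 / 2) : ℝ) :=
    Real.rpow_le_rpow_of_nonpos (by positivity) hM.le (by norm_num)
  have h2 : (v ^ θ) ^ (-(1 / 2) : ℝ) = v ^ (-(θ / 2)) := by
    rw [← Real.rpow_mul (by linarith)]; congr 1; ring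
  -- `u^θ - v^θ ≤ θ e^θ (u - v) v^(θ - 1)`
  obtain ⟨x, hx⟩ : ∃ x : ℝ, x = (u - v) / v := ⟨_, rfl⟩
  have hx0 : 0 ≤ x := by rw [hx]; apply div_nonneg <;> linarith
  have hx1 : x ≤ 1 := by rw [hx, div_le_one hv0]; linarith
  have hu : u = v * (1 + x) := by rw [hx]; field_simp; ring
  have h3 : u ^ θ ≤ v ^ θ * Real.exp (θ * x) := by
    rw [hu, Real.mul_rpow hv0.le (by linarith)]
    apply mul_le_mul_of_nonneg_left _ (by positivity)
    have h4 : 1 + x ≤ Real.exp x := by linarith [Real.add_one_le_exp x]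
    calc (1 + x) ^ θ ≤ (Real.exp x) ^ θ := Real.rpow_le_rpow (by linarith) h4 hθ.le
      _ = Real.exp (θ * x) := by rw [← Real.exp_mul]; congr 1; ring
  have h5 : Real.exp (θ * x) - 1 ≤ θ * x * Real.exp θ := by
    have h6 : 1 - θ * x ≤ Real.exp (-(θ * x)) := by linarith [Real.add_one_le_exp (-(θ * x))]
    have h7 : Real.exp (θ * x) * Real.exp (-(θ * x)) = 1 := by rw [← Real.exp_add]; simp
    have h8 : 0 < Real.exp (θ * x) := Real.exp_pos _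
    have h9 : Real.exp (θ * x) - 1 ≤ θ * x * Real.exp (θ * x) := by nlinarith
    have h10 : Real.exp (θ * x) ≤ Real.exp θ := Real.exp_le_exp.2 (by nlinarith)
    have h11 : 0 ≤ θ * x := by positivity
    calc Real.exp (θ * x) - 1 ≤ θ * x * Real.exp (θ * x) := h9
      _ ≤ θ * x * Real.exp θ := mul_le_mul_of_nonneg_left h10 h11
  have hvθ : 0 < v ^ θ := by positivity
  have h12 : u ^ θ - v ^ θ ≤ v ^ θ * (θ * x * Real.exp θ) := by
    have := mul_le_mul_of_nonneg_left h5 hvθ.le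
    nlinarith
  have h13 : ((⌊u ^ θ⌋₊ : ℕ) : ℝ) - ((⌊v ^ θ⌋₊ : ℕ) : ℝ) ≤ v ^ θ * (θ * x * Real.exp θ) + 1 := by
    linarith
  have hp : 0 < v ^ (-(θ / 2)) := by positivity
  have h14 : v ^ θ * v ^ (-(θ / 2)) * x = (u - v) * v ^ (θ / 2 - 1) := by
    rw [← Real.rpow_add hv0, hx]
    have h15 : v ^ (θ / 2 - 1) = v ^ (θ + -(θ / 2)) / v := by
      rw [Real.rpow_sub_one hv0.ne']
      congr 2
      ring
    rw [h15]
    ring
  have h16 : v ^ (-(θ / 2)) ≤ 1 := Real.rpow_le_one_of_one_le_of_nonpos hv (by linarith)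
  rw [h2] at h1
  have h17 : 0 ≤ ((⌊u ^ θ⌋₊ : ℕ) : ℝ) - ((⌊v ^ θ⌋₊ : ℕ) : ℝ) := by
    have : ((⌊v ^ θ⌋₊ : ℕ) : ℝ) ≤ ((⌊u ^ θ⌋₊ : ℕ) : ℝ) := by exact_mod_cast Nat.floor_le_floor hle
    linarith
  calc (((⌊u ^ θ⌋₊ : ℕ) : ℝ) - ((⌊v ^ θ⌋₊ : ℕ) : ℝ)) * (((⌊v ^ θ⌋₊ : ℕ) : ℝ) + 1) ^ (-(1 / 2) : ℝ)
      ≤ (v ^ θ * (θ * x * Real.exp θ) + 1) * v ^ (-(θ / 2)) :=
        mul_le_mul h13 h1 (by positivity) (by positivity)
    _ = θ * Real.exp θ * (v ^ θ * v ^ (-(θ / 2)) * x) + v ^ (-(θ / 2)) := by ring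
    _ ≤ θ * Real.exp θ * (u - v) * v ^ (θ / 2 - 1) + 1 := by rw [h14]; linarith

lemma Q_zero (N : ℕ) (c : Fin 0 → ℂ) (lam : Fin 0 → ℝ) (t : ℝ) : Q N 0 c lam t = P N t := by
  unfold Q
  simp

/-- from the one-sided bound to zeta -/
theorem exponent_of_oneSided (κ θ : ℝ) (u : ℂ) (hκ : 0 ≤ κ) (hθ : 1 / 2 < θ) (hθ2 : θ ≤ 2 + 2 * κ)
    (hu : ‖u‖ = 1) (h : OneSided κ θ u) : Exponent κ := by
  apply exponent_of_large κ hκ
  intro ε hε
  obtain ⟨δ, hδ⟩ : ∃ δ : ℝ, δ = min (ε / 2) ((θ - 1 / 2) / 2) := ⟨_, rfl⟩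
  have hδ0 : 0 < δ := by rw [hδ]; exact lt_min (by positivity) (by linarith)
  have hδε : δ ≤ ε / 2 := by rw [hδ]; exact min_le_left _ _
  have hδθ : δ ≤ (θ - 1 / 2) / 2 := by rw [hδ]; exact min_le_right _ _
  obtain ⟨R, T₀, hR, hT₀, hloc⟩ := local_form θ δ hδ0
  obtain ⟨C, hC⟩ := h δ hδ0
  obtain ⟨K, hK⟩ : ∃ K : ℝ, K = |C| * 2 ^ (κ + δ) + θ * Real.exp θ * R * 2 ^ κ + 2 := ⟨_, rfl⟩
  have hθ0 : 0 < θ := by linarith
  have hK1 : 1 ≤ K := by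
    rw [hK]
    have : 0 ≤ |C| * 2 ^ (κ + δ) := by positivity
    have : 0 ≤ θ * Real.exp θ * R * 2 ^ κ := by positivity
    linarith
  -- `T^(1/2 + δ) ≤ ⌊T^θ⌋` for large `T`
  have hlim : ∀ᶠ T : ℝ in atTop, 2 ≤ T ^ (θ - (1 / 2 + δ)) :=
    (tendsto_rpow_atTop (by linarith : 0 < θ - (1 / 2 + δ))).eventually_ge_atTop 2
  obtain ⟨T₁, hT₁⟩ := eventually_atTop.1 hlim
  refine ⟨K, max (max T₀ T₁) (2 * R + 2), fun T hT => ?_⟩
  have hTT0 : T₀ ≤ T := (le_max_left _ _).trans ((le_max_left _ _).trans hT)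
  have hTT1 : T₁ ≤ T := (le_max_right _ _).trans ((le_max_left _ _).trans hT)
  have hTR : 2 * R + 2 ≤ T := (le_max_right _ _).trans hT
  have hT0 : 0 < T := by linarith
  have hT1 : 1 ≤ T := by linarith
  obtain ⟨N, hN⟩ : ∃ N : ℕ, N = ⌊T ^ θ⌋₊ := ⟨_, rfl⟩
  have hN1 : T ^ (1 / 2 + δ) ≤ N := by
    have h1 := hT₁ T hTT1
    have h2 : T ^ θ = T ^ (θ - (1 / 2 + δ)) * T ^ (1 / 2 + δ) := by
      rw [← Real.rpow_add hT0]; congr 1; ring
    have h3 : 1 ≤ T ^ (1 / 2 + δ) := Real.one_le_rpow hT1 (by linarith)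
    have h4 : 2 * T ^ (1 / 2 + δ) ≤ T ^ θ := by
      rw [h2]
      exact mul_le_mul_of_nonneg_right h1 (by positivity)
    have h5 := Nat.lt_floor_add_one (T ^ θ)
    rw [← hN] at h5
    linarith
  have hN2 : (N : ℝ) ≤ T ^ θ := by rw [hN]; exact Nat.floor_le (by positivity)
  have hTκ : 1 ≤ T ^ (κ + δ) := Real.one_le_rpow hT1 (by positivity)
  have key := hloc T hTT0 N 0 (fun _ => 0) (fun _ => 0) hN1 hN2 (fun j => j.elim0)
    (by simp; positivity) u hu (K * T ^ (κ + δ)) (by nlinarith) ?_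
  · refine key.trans ?_
    calc T ^ δ * (K * T ^ (κ + δ)) = K * (T ^ δ * T ^ (κ + δ)) := by ring
      _ = K * T ^ (δ + (κ + δ)) := by rw [← Real.rpow_add hT0]
      _ ≤ K * T ^ (κ + ε) := by
          apply mul_le_mul_of_nonneg_left _ (by linarith)
          apply Real.rpow_le_rpow_of_exponent_le hT1
          linarith
  · intro t ht
    rw [Q_zero]
    have ht' := abs_le.1 ht
    have ht1 : 1 ≤ t := by linarith [ht'.1]
    have ht2 : t ≤ 2 * T := by linarith [ht'.2]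
    have h1 := hC t ht1
    have h2 : ‖P ⌊t ^ θ⌋₊ t - P N t‖ ≤ θ * Real.exp θ * R * (2 ^ κ * T ^ κ) + 1 := by
      have hpow : ∀ v : ℝ, 1 ≤ v → v ≤ 2 * T → v ^ (θ / 2 - 1) ≤ 2 ^ κ * T ^ κ := by
        intro v hv hv2
        calc v ^ (θ / 2 - 1) ≤ v ^ κ := Real.rpow_le_rpow_of_exponent_le hv (by linarith)
          _ ≤ (2 * T) ^ κ := Real.rpow_le_rpow (by linarith) hv2 hκ
          _ = 2 ^ κ * T ^ κ := Real.mul_rpow (by norm_num) hT0.le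
      rcases le_total T t with h3 | h3
      · have h4 := P_floor_sub θ t T t hθ0 hT1 h3 ht2
        rw [← hN] at h4
        refine h4.trans ?_
        have h5 := hpow T hT1 (by linarith)
        have h6 : t - T ≤ R := by linarith [ht'.2]
        have h7 : 0 ≤ t - T := by linarith
        gcongr
      · have h4 := P_floor_sub θ T t t hθ0 ht1 h3 (by linarith [ht'.1])
        rw [← hN] at h4
        rw [norm_sub_rev]
        refine h4.trans ?_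
        have h5 := hpow t ht1 ht2
        have h6 : T - t ≤ R := by linarith [ht'.1]
        have h7 : 0 ≤ T - t := by linarith
        gcongr
    have h3 : (u * P N t).re ≤ (u * P ⌊t ^ θ⌋₊ t).re + ‖P ⌊t ^ θ⌋₊ t - P N t‖ := by
      have h4 : u * P N t = u * P ⌊t ^ θ⌋₊ t - u * (P ⌊t ^ θ⌋₊ t - P N t) := by ring
      have h5 : -(u * (P ⌊t ^ θ⌋₊ t - P N t)).re ≤ ‖P ⌊t ^ θ⌋₊ t - P N t‖ := by
        calc -(u * (P ⌊t ^ θ⌋₊ t - P N t)).re ≤ |(u * (P ⌊t ^ θ⌋₊ t - P N t)).re| := neg_le_abs _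
          _ ≤ ‖u * (P ⌊t ^ θ⌋₊ t - P N t)‖ := Complex.abs_re_le_norm _
          _ = _ := by rw [norm_mul, hu, one_mul]
      rw [h4, Complex.sub_re]
      linarith
    have h6 : C * t ^ (κ + δ) ≤ |C| * 2 ^ (κ + δ) * T ^ (κ + δ) := by
      calc C * t ^ (κ + δ) ≤ |C| * (2 * T) ^ (κ + δ) := by
            apply mul_le_mul (le_abs_self C) _ (by positivity) (abs_nonneg C)
            exact Real.rpow_le_rpow (by linarith) ht2 (by positivity)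
        _ = _ := by rw [Real.mul_rpow (by norm_num) hT0.le]; ring
    have h7 : T ^ κ ≤ T ^ (κ + δ) := Real.rpow_le_rpow_of_exponent_le hT1 (by linarith)
    have h8 : θ * Real.exp θ * R * (2 ^ κ * T ^ κ) ≤ θ * Real.exp θ * R * 2 ^ κ * T ^ (κ + δ) := by
      calc θ * Real.exp θ * R * (2 ^ κ * T ^ κ) ≤ θ * Real.exp θ * R * (2 ^ κ * T ^ (κ + δ)) := by
            gcongr
        _ = _ := by ring
    have h9 : K * T ^ (κ + δ) = |C| * 2 ^ (κ + δ) * T ^ (κ + δ) +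
        θ * Real.exp θ * R * 2 ^ κ * T ^ (κ + δ) + 2 * T ^ (κ + δ) := by rw [hK]; ring
    rw [h9]
    linarith

/-- from some continuation to zeta -/
theorem exponent_of_some (κ : ℝ) (hκ : 0 ≤ κ) (h : SomeContinuation κ) : Exponent κ := by
  apply exponent_of_large κ hκ
  intro ε hε
  obtain ⟨δ, A, hδ, hA⟩ := h (ε / 2) (by positivity)
  obtain ⟨R, T₀, hR, hT₀, hloc⟩ := local_form A (min δ (ε / 2)) (by positivity)
  obtain ⟨T₁, hT₁⟩ := hA R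
  refine ⟨1, max T₀ T₁, fun T hT => ?_⟩
  have hTT0 : T₀ ≤ T := (le_max_left _ _).trans hT
  obtain ⟨N, J, c, lam, u, h1, h2, h3, h4, h5, h6⟩ := hT₁ T ((le_max_right _ _).trans hT)
  have hT0 : 0 < T := by linarith
  have hT1 : 1 ≤ T := by linarith
  have h7 := hloc T hTT0 N J c lam
    ((Real.rpow_le_rpow_of_exponent_le hT1 (by linarith [min_le_left δ (ε / 2)])).trans h1) h2 h3 h4 u h5
    (T ^ (κ + ε / 2)) (Real.one_le_rpow hT1 (by positivity)) h6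
  refine h7.trans ?_
  rw [one_mul, ← Real.rpow_add hT0]
  apply Real.rpow_le_rpow_of_exponent_le hT1
  linarith [min_le_right δ (ε / 2)]

/-- from zeta to the sections -/
theorem sectionBound_of_exponent (κ θ : ℝ) (hκ : 0 ≤ κ) (hθ : 0 ≤ θ) (hθ2 : θ ≤ 2 + 2 * κ)
    (h : Exponent κ) : SectionBound κ θ := by
  intro ε hε
  obtain ⟨C, hC, hb⟩ := sec_bound κ hκ h θ ε hε
  refine ⟨2 * C, fun t ht => ?_⟩
  have ht0 : 0 < t := by linarith
  have hN1 : 1 ≤ ⌊t ^ θ⌋₊ := (Nat.one_le_floor_iff _).2 (Real.one_le_rpow ht hθ)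
  have hN2 : ((⌊t ^ θ⌋₊ : ℕ) : ℝ) ≤ t ^ θ := Nat.floor_le (by positivity)
  have h1 := hb t ht _ hN1 hN2
  have h2 : Real.sqrt ((⌊t ^ θ⌋₊ : ℕ) : ℝ) / t ≤ t ^ (κ + ε) := by
    rw [div_le_iff₀ ht0]
    calc Real.sqrt ((⌊t ^ θ⌋₊ : ℕ) : ℝ) ≤ Real.sqrt (t ^ θ) := Real.sqrt_le_sqrt hN2
      _ = t ^ (θ / 2) := by
          rw [Real.sqrt_eq_rpow, ← Real.rpow_mul ht0.le]; congr 1; ring
      _ ≤ t ^ (κ + ε + 1) := Real.rpow_le_rpow_of_exponent_le ht (by linarith)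
      _ = t ^ (κ + ε) * t := by rw [Real.rpow_add_one ht0.ne']
  calc ‖P ⌊t ^ θ⌋₊ t‖ ≤ C * (t ^ (κ + ε) + Real.sqrt ((⌊t ^ θ⌋₊ : ℕ) : ℝ) / t) := h1
    _ ≤ C * (t ^ (κ + ε) + t ^ (κ + ε)) := by gcongr
    _ = _ := by ring

theorem oneSided_of_sectionBound (κ θ : ℝ) (u : ℂ) (hu : ‖u‖ = 1) (h : SectionBound κ θ) :
    OneSided κ θ u := by
  intro ε hε
  obtain ⟨C, hC⟩ := h ε hε
  refine ⟨C, fun t ht => ?_⟩
  calc (u * P ⌊t ^ θ⌋₊ t).re ≤ ‖u * P ⌊t ^ θ⌋₊ t‖ := (le_abs_self _).trans (Complex.abs_re_le_norm _)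
    _ = ‖P ⌊t ^ θ⌋₊ t‖ := by rw [norm_mul, hu, one_mul]
    _ ≤ _ := hC t ht

/-- from zeta to some continuation -/
theorem some_of_exponent (κ : ℝ) (hκ : 0 ≤ κ) (h : Exponent κ) : SomeContinuation κ := by
  intro ε hε
  refine ⟨1 / 4, 1, by norm_num, fun R => ?_⟩
  obtain ⟨C, hC, hb⟩ := sec_bound κ hκ h 2 (ε / 2) (by positivity)
  have hlim : ∀ᶠ T : ℝ in atTop, C * (2 ^ (κ + ε / 2) + 2) ≤ T ^ (ε / 2) :=
    (tendsto_rpow_atTop (by positivity : 0 < ε / 2)).eventually_ge_atTop _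
  have hlim2 : ∀ᶠ T : ℝ in atTop, 2 ≤ T ^ (1 / 4 : ℝ) :=
    (tendsto_rpow_atTop (by norm_num : (0 : ℝ) < 1 / 4)).eventually_ge_atTop _
  obtain ⟨T₁, hT₁⟩ := eventually_atTop.1 (hlim.and hlim2)
  refine ⟨max T₁ (2 * |R| + 4), fun T hT => ?_⟩
  obtain ⟨hT₂, hT₃⟩ := hT₁ T ((le_max_left _ _).trans hT)
  have hTR : 2 * |R| + 4 ≤ T := (le_max_right _ _).trans hT
  have hR0 := abs_nonneg R
  have hT0 : 0 < T := by linarith
  have hT1 : 1 ≤ T := by linarith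
  obtain ⟨N, hN⟩ : ∃ N : ℕ, N = ⌊T⌋₊ := ⟨_, rfl⟩
  have hN2 : (N : ℝ) ≤ T := by rw [hN]; exact Nat.floor_le hT0.le
  have hN1 : 1 ≤ N := by rw [hN]; exact (Nat.one_le_floor_iff _).2 hT1
  have hN3 : T ^ (1 / 2 + 1 / 4 : ℝ) ≤ N := by
    have h1 : T = T ^ (1 / 4 : ℝ) * T ^ (1 / 2 + 1 / 4 : ℝ) := by
      rw [← Real.rpow_add hT0]
      norm_num
    have h3 : 1 ≤ T ^ (1 / 2 + 1 / 4 : ℝ) := Real.one_le_rpow hT1 (by norm_num)
    have h4 : 2 * T ^ (1 / 2 + 1 / 4 : ℝ) ≤ T := by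
      calc 2 * T ^ (1 / 2 + 1 / 4 : ℝ) ≤ T ^ (1 / 4 : ℝ) * T ^ (1 / 2 + 1 / 4 : ℝ) := by gcongr
        _ = T := h1.symm
    have h5 := Nat.lt_floor_add_one T
    rw [← hN] at h5
    linarith
  refine ⟨N, 0, fun _ => 0, fun _ => 0, 1, hN3, by rw [Real.rpow_one]; exact hN2, fun j => j.elim0,
    by simp; positivity, norm_one, fun t ht => ?_⟩
  rw [Q_zero, one_mul]
  have ht' := abs_le.1 ht
  have hRR := le_abs_self R
  have ht1 : T / 2 ≤ t := by linarith [ht'.1]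
  have ht2 : t ≤ 2 * T := by linarith [ht'.2]
  have ht3 : 1 ≤ t := by linarith
  have ht4 : 2 ≤ t := by linarith
  have h1 := hb t ht3 N hN1 (by
    rw [Real.rpow_two]
    nlinarith)
  have h2 : Real.sqrt (N : ℝ) / t ≤ 2 := by
    rw [div_le_iff₀ (by linarith)]
    have h3 : Real.sqrt (N : ℝ) ≤ T := by
      apply Real.sqrt_le_iff.2
      exact ⟨hT0.le, by nlinarith⟩
    linarith
  have h3 : t ^ (κ + ε / 2) ≤ 2 ^ (κ + ε / 2) * T ^ (κ + ε / 2) := by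
    rw [← Real.mul_rpow (by norm_num) hT0.le]
    exact Real.rpow_le_rpow (by linarith) ht2 (by positivity)
  have h4 : 1 ≤ T ^ (κ + ε / 2) := Real.one_le_rpow hT1 (by positivity)
  calc (P N t).re ≤ ‖P N t‖ := (le_abs_self _).trans (Complex.abs_re_le_norm _)
    _ ≤ C * (t ^ (κ + ε / 2) + Real.sqrt (N : ℝ) / t) := h1
    _ ≤ C * (2 ^ (κ + ε / 2) * T ^ (κ + ε / 2) + 2 * T ^ (κ + ε / 2)) := by
        gcongr
        linarith
    _ = C * (2 ^ (κ + ε / 2) + 2) * T ^ (κ + ε / 2) := by ring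
    _ ≤ T ^ (ε / 2) * T ^ (κ + ε / 2) := by gcongr
    _ = T ^ (κ + ε) := by
        rw [← Real.rpow_add hT0]
        congr 1
        ring

/-- the real part of a section is a cosine sum -/
lemma P_re (N : ℕ) (t : ℝ) : (P N t).re =
    ∑ n ∈ Finset.range N, Real.cos (t * Real.log ((n : ℝ) + 1)) / Real.sqrt ((n : ℝ) + 1) := by
  unfold P
  rw [Complex.re_sum]
  refine Finset.sum_congr rfl fun n _ => ?_
  have hn : ((n : ℂ) + 1) ≠ 0 := by exact_mod_cast n.succ_ne_zero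
  have hn0 : (0 : ℝ) < (n : ℝ) + 1 := by positivity
  have e1 : Complex.log ((n : ℂ) + 1) = ((Real.log ((n : ℝ) + 1) : ℝ) : ℂ) := by
    rw [Complex.ofReal_log (by positivity)]
    push_cast
    rfl
  rw [Complex.cpow_def_of_ne_zero hn, e1, Complex.exp_re]
  have h1 : (((Real.log ((n : ℝ) + 1) : ℝ) : ℂ) * -(1 / 2 + (t : ℂ) * I)).re =
      Real.log ((n : ℝ) + 1) * (-(1 / 2)) := by
    rw [Complex.re_ofReal_mul]
    simp
  have h2 : (((Real.log ((n : ℝ) + 1) : ℝ) : ℂ) * -(1 / 2 + (t : ℂ) * I)).im =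
      -(t * Real.log ((n : ℝ) + 1)) := by
    rw [Complex.im_ofReal_mul]
    simp
    ring
  rw [h1, h2, Real.cos_neg, ← Real.rpow_def_of_pos hn0, Real.rpow_neg hn0.le, ← Real.sqrt_eq_rpow]
  rw [div_eq_mul_inv, mul_comm]

end Pool.Agent.H476.LS
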