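import Pool.Agent.H476.LS8

set_option autoImplicit false

/-! One-sided moments of one section, part 1: the moment form of the main inequality. -/

open Complex MeasureTheory Filter Topology ProbabilityTheory

namespace Pool.Agent.H476.OM

open Pool.Agent.H476.LS

/-- the standard Gaussian -/
noncomputable def γ : Measure ℝ := gaussianReal 0 1

instance : IsProbabilityMeasure γ := by unfold γ; infer_instance

lemma γ_int (f : ℝ → ℝ) : ∫ v, f v * Real.exp (-(1 / 2) * v ^ 2) =
    Real.sqrt (2 * Real.pi) * ∫ v, f v ∂γ := by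
  have hne : Real.sqrt (2 * Real.pi) ≠ 0 := by positivity
  unfold γ
  rw [integral_gaussianReal_eq_integral_smul (by norm_num)]
  rw [← integral_const_mul]
  congr 1
  funext v
  simp only [gaussianPDFReal, smul_eq_mul, NNReal.coe_one, mul_one, sub_zero]
  have : -(1 / 2) * v ^ 2 = -v ^ 2 / 2 := by ring
  rw [this]
  field_simp

lemma γ_exp : Integrable (fun v : ℝ => Real.exp (v ^ 2 / 4)) γ := by
  unfold γ
  rw [gaussianReal_of_var_ne_zero _ (by norm_num)]
  rw [integrable_withDensity_iff (measurable_gaussianPDF _ _) (by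
    refine Filter.Eventually.of_forall fun x => ?_
    exact gaussianPDF_lt_top)]
  have h := integrable_exp_neg_mul_sq (show (0 : ℝ) < 1 / 4 by norm_num)
  refine (h.const_mul (Real.sqrt (2 * Real.pi))⁻¹).congr (Filter.Eventually.of_forall fun v => ?_)
  simp only [toReal_gaussianPDF, gaussianPDFReal, NNReal.coe_one, mul_one, sub_zero]
  have : Real.exp (-(1 / 4) * v ^ 2) = Real.exp (v ^ 2 / 4) * Real.exp (-v ^ 2 / 2) := by
    rw [← Real.exp_add]; congr 1; ring
  rw [this]; ring

lemma two_pow (x y p : ℝ) (hx : 0 ≤ x) (hy : 0 ≤ y) (hp : 0 ≤ p) :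
    (x + y) ^ p ≤ 2 ^ p * (x ^ p + y ^ p) := by
  have h1 : x + y ≤ 2 * max x y := by
    have := le_max_left x y
    have := le_max_right x y
    linarith
  have h2 : (x + y) ^ p ≤ (2 * max x y) ^ p := Real.rpow_le_rpow (by positivity) h1 hp
  rw [Real.mul_rpow (by norm_num) (le_max_of_le_left hx)] at h2
  refine h2.trans (mul_le_mul_of_nonneg_left ?_ (by positivity))
  have hxp : 0 ≤ x ^ p := Real.rpow_nonneg hx p
  have hyp : 0 ≤ y ^ p := Real.rpow_nonneg hy p
  rcases max_cases x y with ⟨h, _⟩ | ⟨h, _⟩ <;> rw [h] <;> linarith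

/-- Jensen for the Gaussian mean of a bounded continuous function -/
lemma jensen (g : ℝ → ℝ) (hg : Continuous g) (B : ℝ) (h0 : ∀ t, 0 ≤ g t) (hB : ∀ t, g t ≤ B)
    (p : ℝ) (hp : 1 ≤ p) (t : ℝ) : (∫ v, g (t + v) ∂γ) ^ p ≤ ∫ v, g (t + v) ^ p ∂γ := by
  have hc : Continuous fun v => g (t + v) := by fun_prop
  have hB0 : 0 ≤ B := (h0 0).trans (hB 0)
  refine ConvexOn.map_integral_le (convexOn_rpow hp) ?_ isClosed_Ici
    (Filter.Eventually.of_forall fun v => h0 _) ?_ ?_
  · exact fun x _ => (Real.continuousAt_rpow_const x p (Or.inr (by linarith))).continuousWithinAt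
  · refine Integrable.of_bound hc.aestronglyMeasurable B (Filter.Eventually.of_forall fun v => ?_)
    rw [Real.norm_of_nonneg (h0 _)]; exact hB _
  · have hc2 : Continuous ((fun x : ℝ => x ^ p) ∘ fun v => g (t + v)) :=
      (Real.continuous_rpow_const (by linarith)).comp hc
    refine Integrable.of_bound hc2.aestronglyMeasurable (B ^ p) (Filter.Eventually.of_forall fun v => ?_)
    simp only [Function.comp]
    rw [Real.norm_of_nonneg (Real.rpow_nonneg (h0 _) p)]
    exact Real.rpow_le_rpow (h0 _) (hB _) (by linarith)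

/-- the mean over `[T, 2T]` of the Gaussian means -/
lemma fub (g : ℝ → ℝ) (hg : Continuous g) (B : ℝ) (h0 : ∀ t, 0 ≤ g t) (hB : ∀ t, g t ≤ B)
    (a b L : ℝ) (hab : a ≤ b) (hL : 0 ≤ L) :
    Integrable (fun t => ∫ v, g (t + v) ∂γ) (volume.restrict (Set.Ioc a b)) ∧
    ∫ t in Set.Ioc a b, (∫ v, g (t + v) ∂γ) ≤
      (∫ t in (a - L)..(b + L), g t) + (b - a) * B * Real.exp (-(L ^ 2 / 4)) *
        ∫ v, Real.exp (v ^ 2 / 4) ∂γ := by
  have hB0 : 0 ≤ B := (h0 0).trans (hB 0)
  have hint : Integrable (Function.uncurry fun t v : ℝ => g (t + v))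
      ((volume.restrict (Set.Ioc a b)).prod γ) := by
    have hc : Continuous (Function.uncurry fun t v : ℝ => g (t + v)) := by
      unfold Function.uncurry; fun_prop
    refine Integrable.of_bound hc.aestronglyMeasurable B (Filter.Eventually.of_forall fun v => ?_)
    simp only [Function.uncurry]
    rw [Real.norm_of_nonneg (h0 _)]; exact hB _
  refine ⟨hint.integral_prod_left, ?_⟩
  rw [integral_integral_swap hint]
  have hI0 : 0 ≤ ∫ t in (a - L)..(b + L), g t :=
    intervalIntegral.integral_nonneg (by linarith) fun t _ => h0 t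
  have hin : ∀ v : ℝ, (∫ t in Set.Ioc a b, g (t + v)) ≤ (∫ t in (a - L)..(b + L), g t) +
      (b - a) * B * Real.exp (-(L ^ 2 / 4)) * Real.exp (v ^ 2 / 4) := by
    intro v
    rw [← intervalIntegral.integral_of_le hab]
    rw [intervalIntegral.integral_comp_add_right (fun t => g t) v]
    rcases le_or_gt |v| L with hv | hv
    · have hv1 := abs_le.1 hv
      have : ∫ t in (a + v)..(b + v), g t ≤ ∫ t in (a - L)..(b + L), g t := by
        refine intervalIntegral.integral_mono_interval (by linarith) (by linarith) (by linarith)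
          (Filter.Eventually.of_forall fun t => h0 t) (hg.intervalIntegrable _ _)
      have h2 : 0 ≤ (b - a) * B * Real.exp (-(L ^ 2 / 4)) * Real.exp (v ^ 2 / 4) := by
        have : 0 ≤ b - a := by linarith
        positivity
      linarith
    · have h1 : ∫ t in (a + v)..(b + v), g t ≤ ∫ t in (a + v)..(b + v), B := by
        refine intervalIntegral.integral_mono_on (by linarith) (hg.intervalIntegrable _ _)
          intervalIntegrable_const fun t _ => hB t
      rw [intervalIntegral.integral_const, smul_eq_mul] at h1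
      have h2 : 1 ≤ Real.exp (-(L ^ 2 / 4)) * Real.exp (v ^ 2 / 4) := by
        rw [← Real.exp_add]
        apply Real.one_le_exp
        have : L ^ 2 ≤ v ^ 2 := by
          rw [← sq_abs v]; exact pow_le_pow_left₀ hL hv.le 2
        linarith
      have h3 : (b - a) * B ≤ (b - a) * B * (Real.exp (-(L ^ 2 / 4)) * Real.exp (v ^ 2 / 4)) :=
        le_mul_of_one_le_right (mul_nonneg (by linarith) hB0) h2
      have h4 : b + v - (a + v) = b - a := by ring
      rw [h4] at h1
      nlinarith
  have hswap : Integrable (fun v => ∫ t in Set.Ioc a b, g (t + v)) γ := hint.integral_prod_right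
  calc ∫ v, (∫ t in Set.Ioc a b, g (t + v)) ∂γ
      ≤ ∫ v, ((∫ t in (a - L)..(b + L), g t) +
      (b - a) * B * Real.exp (-(L ^ 2 / 4)) * Real.exp (v ^ 2 / 4)) ∂γ := by
        refine integral_mono hswap ?_ hin
        exact (integrable_const _).add (γ_exp.const_mul _)
    _ = _ := by
        rw [integral_add (integrable_const _) (γ_exp.const_mul _), integral_const,
          integral_const_mul]
        simp

end Pool.Agent.H476.OM
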