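import Pool.Agent.H476.OM1

set_option autoImplicit false

/-! One-sided moments of one section, part 2: the moment form of the main inequality. -/

open Complex MeasureTheory Filter Topology ProbabilityTheory

namespace Pool.Agent.H476.OM

open Pool.Agent.H476.LS

lemma Q_cont (N J : ℕ) (c : Fin J → ℂ) (lam : Fin J → ℝ) : Continuous (Q N J c lam) := by
  unfold Q P
  refine Continuous.add ?_ ?_
  · refine continuous_finsetSum _ fun n _ => ?_
    refine Continuous.const_cpow (by fun_prop) (Or.inl ?_)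
    exact_mod_cast Nat.succ_ne_zero n
  · fun_prop

lemma g_cont (u : ℂ) (N J : ℕ) (c : Fin J → ℂ) (lam : Fin J → ℝ) :
    Continuous fun t : ℝ => max (u * Q N J c lam t).re 0 := by
  exact (Complex.continuous_re.comp (continuous_const.mul (Q_cont N J c lam))).max continuous_const

/-- **the moment form of the main inequality**, uniform in the order `p` -/
theorem moment_ineq (A : ℝ) (hA : 0 ≤ A) : ∃ K C T₀ : ℝ, 0 < K ∧ 0 < C ∧ 24 ≤ T₀ ∧
    ∀ T : ℝ, T₀ ≤ T → ∀ p : ℝ, 1 ≤ p → 4 * A * p ≤ Real.log T →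
    ∀ (N J : ℕ) (c : Fin J → ℂ) (lam : Fin J → ℝ),
    Real.log (2 * T) / 2 + K * Real.sqrt (Real.log (2 * T)) ≤ Real.log N → (N : ℝ) ≤ T ^ A →
    (∀ j, Real.log N ≤ lam j) → ∑ j, ‖c j‖ ≤ T ^ A → ∀ u : ℂ, ‖u‖ = 1 →
    ∫ t in T..(2 * T), Z t ^ p ≤ (C * Real.log T) ^ p *
      ((∫ t in (T - Real.log T)..(2 * T + Real.log T), max (u * Q N J c lam t).re 0 ^ p) + T) := by
  obtain ⟨K, T₁, hK, hT₁, hmain⟩ := main_ineq A hA
  obtain ⟨M, hM⟩ : ∃ M : ℝ, M = ∫ v, Real.exp (v ^ 2 / 4) ∂γ := ⟨_, rfl⟩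
  have hM0 : 0 ≤ M := by rw [hM]; exact integral_nonneg fun v => (Real.exp_pos _).le
  obtain ⟨K', hK'⟩ : ∃ K' : ℝ, K' = K * Real.exp (9 / 8) := ⟨_, rfl⟩
  have hK'0 : 0 < K' := by rw [hK']; positivity
  obtain ⟨C, hC⟩ : ∃ C : ℝ, C = 4 * (2 * (Real.sqrt (2 * Real.pi) * (2 * (1 + M)) + K')) := ⟨_, rfl⟩
  have hC0 : 0 < C := by rw [hC]; positivity
  refine ⟨K, C, T₁, hK, hC0, hT₁, ?_⟩
  intro T hT₁' p hp hL4 N J c lam hN hNA hlam hc u hu
  obtain ⟨s, hs⟩ : ∃ s : ℝ, s = Real.sqrt (2 * Real.pi) ^ p := ⟨_, rfl⟩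
  have hs0 : 0 < s := by rw [hs]; have := Real.pi_pos; positivity
  have hT24 : 24 ≤ T := hT₁.trans hT₁'
  have hT0 : 0 < T := by linarith
  have hL1 : 1 ≤ Real.log T := by
    rw [Real.le_log_iff_exp_le hT0]
    have := Real.exp_one_lt_d9
    linarith
  obtain ⟨L, hL⟩ : ∃ L : ℝ, L = Real.log T := ⟨_, rfl⟩
  rw [← hL] at hL1 hL4 ⊢
  obtain ⟨g, hg⟩ : ∃ g : ℝ → ℝ, g = fun t => max (u * Q N J c lam t).re 0 := ⟨_, rfl⟩
  have hgc : Continuous g := by rw [hg]; exact g_cont u N J c lam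
  have hg0 : ∀ t, 0 ≤ g t := fun t => by rw [hg]; exact le_max_right _ _
  have hgB : ∀ t, g t ≤ 2 * T ^ A := by
    intro t
    rw [hg]
    refine max_le ?_ (by positivity)
    refine (Complex.re_le_norm _).trans ?_
    rw [norm_mul, hu, one_mul]
    refine (Q_crude N J c lam t).trans ?_
    linarith
  have hp0 : 0 < p := by linarith
  -- the p-th power
  have hgp : Continuous fun t => g t ^ p := hgc.rpow_const fun t => Or.inr hp0.le
  have hgpB : ∀ t, g t ^ p ≤ (2 * T ^ A) ^ p := fun t => Real.rpow_le_rpow (hg0 t) (hgB t) hp0.le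
  obtain ⟨hI, hfub⟩ := fub (fun t => g t ^ p) hgp ((2 * T ^ A) ^ p)
    (fun t => Real.rpow_nonneg (hg0 t) p) hgpB T (2 * T) L (by linarith) (by linarith)
  rw [← hM] at hfub
  -- the tail
  have htail : (2 * T ^ A) ^ p * Real.exp (-(L ^ 2 / 4)) ≤ 2 ^ p := by
    rw [Real.mul_rpow (by norm_num) (by positivity), ← Real.rpow_mul hT0.le, mul_assoc]
    have h1 : T ^ (A * p) * Real.exp (-(L ^ 2 / 4)) ≤ 1 := by
      rw [Real.rpow_def_of_pos hT0, ← hL, ← Real.exp_add, ← Real.exp_zero]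
      apply Real.exp_le_exp.2
      nlinarith
    calc (2 : ℝ) ^ p * (T ^ (A * p) * Real.exp (-(L ^ 2 / 4))) ≤ 2 ^ p * 1 :=
          mul_le_mul_of_nonneg_left h1 (by positivity)
      _ = 2 ^ p := mul_one _
  -- the pointwise bound
  have hpt : ∀ t ∈ Set.Ioc T (2 * T), Z t ^ p ≤ (4 * L) ^ p * (s * (∫ v, g (t + v) ^ p ∂γ) + K' ^ p) := by
    intro t ht
    have htT : T ≤ t := ht.1.le
    have ht2 : t ≤ 2 * T := ht.2
    have ht0 : 0 < t := by linarith
    have hlt : Real.log t ≤ Real.log (2 * T) := Real.log_le_log ht0 ht2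
    have hlog2 : Real.log (2 * T) ≤ 2 * L := by
      rw [Real.log_mul (by norm_num) hT0.ne', ← hL]
      have : Real.log 2 ≤ 1 := by
        have := Real.log_two_lt_d9
        linarith
      linarith
    have hlt1 : 1 ≤ Real.log t := by
      have := Real.log_le_log hT0 htT
      rw [← hL] at this
      linarith
    have h1 := hmain t (hT₁'.trans htT) 1 le_rfl hlt1 N J c lam (by
      rw [one_mul]
      have hsq : Real.sqrt (Real.log t) ≤ Real.sqrt (Real.log (2 * T)) := Real.sqrt_le_sqrt hlt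
      have : K * Real.sqrt (Real.log t) ≤ K * Real.sqrt (Real.log (2 * T)) :=
        mul_le_mul_of_nonneg_left hsq hK.le
      linarith) hlam (hc.trans (Real.rpow_le_rpow hT0.le htT hA)) u hu
    have e1 : (9 * (1 : ℝ) / 8) = 9 / 8 := by ring
    rw [e1, ← hK'] at h1
    have e2 : (∫ v : ℝ, max (u * Q N J c lam (t + v)).re 0 * Real.exp (-(1 / 2) * v ^ 2)) =
        Real.sqrt (2 * Real.pi) * ∫ v, g (t + v) ∂γ := by
      rw [hg]
      exact γ_int (fun v => max (u * Q N J c lam (t + v)).re 0)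
    rw [e2] at h1
    have hm0 : 0 ≤ ∫ v, g (t + v) ∂γ := integral_nonneg fun v => hg0 _
    have hX0 : 0 ≤ Real.sqrt (2 * Real.pi) * ∫ v, g (t + v) ∂γ := by positivity
    have h2 : Z t ≤ (2 * L) * (Real.sqrt (2 * Real.pi) * (∫ v, g (t + v) ∂γ) + K') := by
      refine h1.trans (mul_le_mul_of_nonneg_right (hlt.trans hlog2) (by positivity))
    have h3 := Real.rpow_le_rpow (Z_nonneg t) h2 hp0.le
    rw [Real.mul_rpow (by linarith) (by positivity)] at h3
    have h4 := two_pow (Real.sqrt (2 * Real.pi) * ∫ v, g (t + v) ∂γ) K' p hX0 hK'0.le hp0.le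
    have h5 : (Real.sqrt (2 * Real.pi) * ∫ v, g (t + v) ∂γ) ^ p ≤ s * ∫ v, g (t + v) ^ p ∂γ := by
      rw [Real.mul_rpow (by positivity) hm0, ← hs]
      exact mul_le_mul_of_nonneg_left
        (jensen g hgc (2 * T ^ A) hg0 hgB p hp t) hs0.le
    calc Z t ^ p ≤ (2 * L) ^ p * (Real.sqrt (2 * Real.pi) * (∫ v, g (t + v) ∂γ) + K') ^ p := h3
      _ ≤ (2 * L) ^ p * (2 ^ p * (s * (∫ v, g (t + v) ^ p ∂γ) + K' ^ p)) := by
          refine mul_le_mul_of_nonneg_left (h4.trans ?_) (by positivity)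
          exact mul_le_mul_of_nonneg_left (by linarith) (by positivity)
      _ = (4 * L) ^ p * (s * (∫ v, g (t + v) ^ p ∂γ) + K' ^ p) := by
          rw [← mul_assoc, ← Real.mul_rpow (by positivity) (by norm_num)]
          congr 2; ring
  -- integrate
  have hZp : Continuous fun t => Z t ^ p := Z_cont.rpow_const fun t => Or.inr hp0.le
  rw [intervalIntegral.integral_of_le (by linarith)]
  have hstep : ∫ t in Set.Ioc T (2 * T), Z t ^ p ≤
      ∫ t in Set.Ioc T (2 * T), (4 * L) ^ p * (s * (∫ v, g (t + v) ^ p ∂γ) + K' ^ p) := by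
    refine setIntegral_mono_on ?_ ?_ measurableSet_Ioc hpt
    · exact (hZp.integrableOn_Icc (a := T) (b := 2 * T)).mono_set Set.Ioc_subset_Icc_self
    · exact ((hI.const_mul s).add (integrable_const _)).const_mul _
  have hcalc : ∫ t in Set.Ioc T (2 * T), (4 * L) ^ p * (s * (∫ v, g (t + v) ^ p ∂γ) + K' ^ p) =
      (4 * L) ^ p * (s * (∫ t in Set.Ioc T (2 * T), (∫ v, g (t + v) ^ p ∂γ)) + T * K' ^ p) := by
    rw [integral_const_mul, integral_add (hI.const_mul s) (integrable_const _), integral_const_mul,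
      integral_const]
    congr 2
    simp only [measureReal_restrict_apply_univ, Real.volume_real_Ioc, smul_eq_mul]
    rw [max_eq_left (by linarith)]
    ring
  have hI0 : 0 ≤ ∫ t in (T - L)..(2 * T + L), g t ^ p :=
    intervalIntegral.integral_nonneg (by linarith) fun t _ => Real.rpow_nonneg (hg0 t) p
  have hgoal : (∫ t in (T - L)..(2 * T + L), max (u * Q N J c lam t).re 0 ^ p) =
      ∫ t in (T - L)..(2 * T + L), g t ^ p := by rw [hg]
  rw [hgoal]
  obtain ⟨I, hIdef⟩ : ∃ I : ℝ, I = ∫ t in (T - L)..(2 * T + L), g t ^ p := ⟨_, rfl⟩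
  rw [← hIdef] at hI0 hfub ⊢
  have hfub2 : ∫ t in Set.Ioc T (2 * T), (∫ v, g (t + v) ^ p ∂γ) ≤ I + T * 2 ^ p * M := by
    refine hfub.trans ?_
    have h1 : (2 * T - T) * (2 * T ^ A) ^ p * Real.exp (-(L ^ 2 / 4)) * M =
        T * ((2 * T ^ A) ^ p * Real.exp (-(L ^ 2 / 4))) * M := by ring
    rw [h1]
    have h2 := mul_le_mul_of_nonneg_right (mul_le_mul_of_nonneg_left htail hT0.le) hM0
    linarith
  calc ∫ t in Set.Ioc T (2 * T), Z t ^ p
      ≤ (4 * L) ^ p * (s * (∫ t in Set.Ioc T (2 * T), (∫ v, g (t + v) ^ p ∂γ)) + T * K' ^ p) := by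
        rw [← hcalc]; exact hstep
    _ ≤ (4 * L) ^ p * (s * (I + T * 2 ^ p * M) + T * K' ^ p) := by
        refine mul_le_mul_of_nonneg_left ?_ (by positivity)
        have := mul_le_mul_of_nonneg_left hfub2 hs0.le
        linarith
    _ ≤ (4 * L) ^ p * ((s * (1 + 2 ^ p * M) + K' ^ p) * (I + T)) := by
        refine mul_le_mul_of_nonneg_left ?_ (by positivity)
        have a1 : 0 ≤ s * T := by positivity
        have a2 : 0 ≤ s * (2 ^ p * M) * I := by positivity
        have a3 : 0 ≤ K' ^ p * I := by positivity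
        nlinarith
    _ ≤ (4 * L) ^ p * ((2 * (Real.sqrt (2 * Real.pi) * (2 * (1 + M)) + K')) ^ p * (I + T)) := by
        refine mul_le_mul_of_nonneg_left ?_ (by positivity)
        refine mul_le_mul_of_nonneg_right ?_ (by positivity)
        have b1 : (1 : ℝ) ≤ 2 ^ p := Real.one_le_rpow (by norm_num) hp0.le
        have b2 : 1 + M ≤ (1 + M) ^ p := by
          calc 1 + M = (1 + M) ^ (1 : ℝ) := (Real.rpow_one _).symm
            _ ≤ (1 + M) ^ p := Real.rpow_le_rpow_of_exponent_le (by linarith) hp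
        have b3 : 1 + 2 ^ p * M ≤ (2 * (1 + M)) ^ p := by
          rw [Real.mul_rpow (by norm_num) (by linarith)]
          have : (2 : ℝ) ^ p * (1 + M) ≤ 2 ^ p * (1 + M) ^ p :=
            mul_le_mul_of_nonneg_left b2 (by positivity)
          nlinarith
        have b4 : s * (1 + 2 ^ p * M) ≤ (Real.sqrt (2 * Real.pi) * (2 * (1 + M))) ^ p := by
          rw [Real.mul_rpow (by positivity) (by positivity), ← hs]
          exact mul_le_mul_of_nonneg_left b3 hs0.le
        obtain ⟨x, hx⟩ : ∃ x : ℝ, x = Real.sqrt (2 * Real.pi) * (2 * (1 + M)) := ⟨_, rfl⟩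
        rw [← hx] at b4 ⊢
        have hx0 : 0 ≤ x := by rw [hx]; positivity
        have b5 : x ^ p ≤ (x + K') ^ p := Real.rpow_le_rpow hx0 (by linarith) hp0.le
        have b6 : K' ^ p ≤ (x + K') ^ p := Real.rpow_le_rpow hK'0.le (by linarith) hp0.le
        have b7 : (2 : ℝ) ≤ 2 ^ p := by
          calc (2 : ℝ) = 2 ^ (1 : ℝ) := by norm_num
            _ ≤ 2 ^ p := Real.rpow_le_rpow_of_exponent_le (by norm_num) hp
        rw [Real.mul_rpow (by norm_num) (by positivity)]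
        have b8 : 0 ≤ (x + K') ^ p := by positivity
        nlinarith
    _ = (C * L) ^ p * (I + T) := by
        rw [← mul_assoc, ← Real.mul_rpow (by positivity) (by positivity), hC]
        congr 2
        ring

end Pool.Agent.H476.OM
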