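import Pool.Agent.H476.OM2

set_option autoImplicit false

/-! One-sided moments of one section, part 3: from one-sided moments of a continuation of a section
to the moments of zeta. -/

open Complex MeasureTheory Filter Topology

namespace Pool.Agent.H476.OM

open Pool.Agent.H476.LS

/-- `∫_0^T |ζ(1/2 + it)|^p dt = O(T^(μ + ε))` for every `ε > 0` -/
def MomExp (p μ : ℝ) : Prop :=
  ∀ ε : ℝ, 0 < ε → ∃ C : ℝ, ∀ T : ℝ, 1 ≤ T → ∫ t in (0 : ℝ)..T, Z t ^ p ≤ C * T ^ (μ + ε)

/-- one-sided moments of some continuation of some section -/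
def SomeCont (p μ : ℝ) : Prop :=
  ∀ ε : ℝ, 0 < ε → ∃ δ A T₀ : ℝ, 0 < δ ∧ ∀ T : ℝ, T₀ ≤ T →
    ∃ (N J : ℕ) (c : Fin J → ℂ) (lam : Fin J → ℝ) (u : ℂ), T ^ (1 / 2 + δ) ≤ N ∧ (N : ℝ) ≤ T ^ A ∧
      (∀ j, Real.log N ≤ lam j) ∧ ∑ j, ‖c j‖ ≤ T ^ A ∧ ‖u‖ = 1 ∧
      ∫ t in T..(4 * T), max (u * Q N J c lam t).re 0 ^ p ≤ T ^ (μ + ε)

lemma Zp_cont (p : ℝ) (hp : 0 ≤ p) : Continuous fun t => Z t ^ p :=
  Z_cont.rpow_const fun _ => Or.inr hp

/-- from dyadic blocks to the whole interval -/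
lemma dyadic (p μ' C X₀ : ℝ) (hp : 0 ≤ p) (hμ : 1 ≤ μ') (hX₀ : 1 ≤ X₀)
    (h : ∀ X : ℝ, X₀ ≤ X → ∫ t in X..(2 * X), Z t ^ p ≤ C * X ^ μ') :
    ∃ D : ℝ, ∀ T : ℝ, 1 ≤ T → ∫ t in (0 : ℝ)..T, Z t ^ p ≤ D * T ^ μ' := by
  have hc := Zp_cont p hp
  obtain ⟨F, hF⟩ : ∃ F : ℝ → ℝ, F = fun T => ∫ t in (0 : ℝ)..T, Z t ^ p := ⟨_, rfl⟩
  have hmono : ∀ a b : ℝ, 0 ≤ a → a ≤ b → F a ≤ F b := by
    intro a b ha hab
    rw [hF]
    exact intervalIntegral.integral_mono_interval le_rfl ha hab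
      (Eventually.of_forall fun t => Real.rpow_nonneg (Z_nonneg t) p) (hc.intervalIntegrable _ _)
  have hF0 : 0 ≤ F (2 * X₀) := by
    rw [hF]
    exact intervalIntegral.integral_nonneg (by linarith) fun t _ => Real.rpow_nonneg (Z_nonneg t) p
  obtain ⟨D, hD⟩ : ∃ D : ℝ, D = max (F (2 * X₀)) C := ⟨_, rfl⟩
  have hD0 : 0 ≤ D := by rw [hD]; exact le_max_of_le_left hF0
  have hDF : F (2 * X₀) ≤ D := by rw [hD]; exact le_max_left _ _
  have hDC : C ≤ D := by rw [hD]; exact le_max_right _ _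
  have key : ∀ n : ℕ, ∀ T : ℝ, 1 ≤ T → T ≤ 2 ^ (n + 1) * X₀ → F T ≤ D * T ^ μ' := by
    intro n
    induction n with
    | zero =>
      intro T hT1 hT2
      have h1 : F T ≤ F (2 * X₀) := hmono _ _ (by linarith) (by simpa using hT2)
      have h2 : 1 ≤ T ^ μ' := Real.one_le_rpow hT1 (by linarith)
      nlinarith
    | succ n ih =>
      intro T hT1 hT2
      rcases le_or_gt T (2 * X₀) with h2 | h2
      · have h1 : F T ≤ F (2 * X₀) := hmono _ _ (by linarith) h2
        have h2 : 1 ≤ T ^ μ' := Real.one_le_rpow hT1 (by linarith)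
        nlinarith
      · have h3 := ih (T / 2) (by linarith) (by rw [pow_succ] at hT2 ⊢; rw [pow_succ] at hT2; linarith)
        have h4 := h (T / 2) (by linarith)
        have h5 : F T = F (T / 2) + ∫ t in (T / 2)..(2 * (T / 2)), Z t ^ p := by
          rw [hF]
          simp only
          rw [intervalIntegral.integral_add_adjacent_intervals (hc.intervalIntegrable _ _)
            (hc.intervalIntegrable _ _)]
          congr 1
          ring
        have h6 : 2 * (T / 2) ^ μ' ≤ T ^ μ' := by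
          have e1 : T ^ μ' = 2 ^ μ' * (T / 2) ^ μ' := by
            rw [← Real.mul_rpow (by norm_num) (by linarith)]; congr 1; ring
          rw [e1]
          apply mul_le_mul_of_nonneg_right _ (by have : 0 ≤ T / 2 := by linarith
                                                 positivity)
          calc (2 : ℝ) = 2 ^ (1 : ℝ) := by norm_num
            _ ≤ 2 ^ μ' := Real.rpow_le_rpow_of_exponent_le (by norm_num) hμ
        have h7 : 0 ≤ (T / 2) ^ μ' := by
          have : 0 ≤ T / 2 := by linarith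
          positivity
        rw [h5]
        nlinarith
  refine ⟨D, fun T hT => ?_⟩
  obtain ⟨n, hn⟩ := pow_unbounded_of_one_lt T (by norm_num : (1 : ℝ) < 2)
  have h1 := key n T hT (by
    rw [pow_succ]
    have : 0 < (2 : ℝ) ^ n := by positivity
    nlinarith)
  rw [hF] at h1
  exact h1

/-- **from one-sided moments to the moments of zeta** -/
theorem momExp_of_some (p μ : ℝ) (hp : 1 ≤ p) (hμ : 1 ≤ μ) (h : SomeCont p μ) : MomExp p μ := by
  intro ε hε
  obtain ⟨δ, A, T₀, hδ, hsome⟩ := h (ε / 2) (by positivity)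
  obtain ⟨K, C, T₁', hK, hC, hT₁', hmom'⟩ := moment_ineq |A| (abs_nonneg A)
  obtain ⟨T₁, hT₁def⟩ : ∃ T₁ : ℝ, T₁ = max T₁' (Real.exp (4 * |A| * p)) := ⟨_, rfl⟩
  have hT₁ : 24 ≤ T₁ := by rw [hT₁def]; exact le_max_of_le_left hT₁'
  have hp0 : 0 < p := by linarith
  obtain ⟨η, hη⟩ : ∃ η : ℝ, η = ε / (2 * p) := ⟨_, rfl⟩
  have hη0 : 0 < η := by rw [hη]; positivity
  have hηp : η * p = ε / 2 := by rw [hη]; field_simp
  refine dyadic p (μ + ε) (2 * C ^ p / η ^ p)
    (2 * max (max T₀ T₁) (Real.exp (8 * K ^ 2 / δ ^ 2 + 2 / δ + 2))) (by linarith) (by linarith) ?_ ?_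
  · have : T₁ ≤ max (max T₀ T₁) (Real.exp (8 * K ^ 2 / δ ^ 2 + 2 / δ + 2)) :=
      (le_max_right _ _).trans (le_max_left _ _)
    linarith
  intro X hX
  obtain ⟨S, hS⟩ : ∃ S : ℝ, S = X / (3 / 2) := ⟨_, rfl⟩
  obtain ⟨m, hm⟩ : ∃ m : ℝ, m = max (max T₀ T₁) (Real.exp (8 * K ^ 2 / δ ^ 2 + 2 / δ + 2)) := ⟨_, rfl⟩
  rw [← hm] at hX
  have hmT1 : T₁ ≤ m := by rw [hm]; exact (le_max_right _ _).trans (le_max_left _ _)
  have hmT0 : T₀ ≤ m := by rw [hm]; exact (le_max_left _ _).trans (le_max_left _ _)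
  have hme : Real.exp (8 * K ^ 2 / δ ^ 2 + 2 / δ + 2) ≤ m := by rw [hm]; exact le_max_right _ _
  have hm24 : 24 ≤ m := hT₁.trans hmT1
  have hXS : X = 3 / 2 * S := by rw [hS]; ring
  have hSm : m ≤ S := by linarith
  have hS24 : 24 ≤ S := by linarith
  have hS0 : 0 < S := by linarith
  have hX0 : 0 < X := by linarith
  have hX1 : 1 ≤ X := by linarith
  obtain ⟨N, J, c, lam, u, hN1, hN2, hlam, hc, hu, hI⟩ := hsome S (by linarith)
  -- the logarithm
  obtain ⟨l, hl⟩ : ∃ l : ℝ, l = Real.log S := ⟨_, rfl⟩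
  have hle : 8 * K ^ 2 / δ ^ 2 + 2 / δ + 2 ≤ l := by
    rw [hl, Real.le_log_iff_exp_le hS0]; linarith
  have hl0 : 0 < l := by
    have : 0 ≤ 8 * K ^ 2 / δ ^ 2 + 2 / δ := by positivity
    linarith
  have hl1 : 8 * K ^ 2 / δ ^ 2 ≤ l := by
    have : 0 ≤ 2 / δ := by positivity
    linarith
  have hl2 : 2 / δ ≤ l := by
    have : 0 ≤ 8 * K ^ 2 / δ ^ 2 := by positivity
    linarith
  have hlog3 : Real.log 3 ≤ 2 := by
    rw [Real.log_le_iff_le_exp (by norm_num)]
    have h1 := Real.add_one_le_exp (2 : ℝ)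
    linarith
  have hNS : (1 / 2 + δ) * l ≤ Real.log N := by
    rw [hl, ← Real.log_rpow hS0]
    exact Real.log_le_log (by positivity) hN1
  have hlog2X : Real.log (2 * X) = Real.log 3 + l := by
    rw [hXS, hl, ← Real.log_mul (by norm_num) hS0.ne']
    congr 1; ring
  have hl2' : 2 ≤ l := by
    have : 0 ≤ 8 * K ^ 2 / δ ^ 2 + 2 / δ := by positivity
    linarith
  have hcond : Real.log (2 * X) / 2 + K * Real.sqrt (Real.log (2 * X)) ≤ Real.log N := by
    refine le_trans ?_ hNS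
    rw [hlog2X]
    have h1 : Real.sqrt (Real.log 3 + l) ≤ δ / (2 * K) * l := by
      rw [← Real.sqrt_sq (show 0 ≤ δ / (2 * K) * l by positivity)]
      apply Real.sqrt_le_sqrt
      have h2 : (δ / (2 * K) * l) ^ 2 = (δ ^ 2 / (8 * K ^ 2) * l) * (2 * l) := by ring
      rw [h2]
      have h3 : 1 ≤ δ ^ 2 / (8 * K ^ 2) * l := by
        rw [div_le_iff₀ (by positivity)] at hl1
        rw [div_mul_eq_mul_div, le_div_iff₀ (by positivity)]
        linarith
      nlinarith
    have h4 : K * Real.sqrt (Real.log 3 + l) ≤ δ / 2 * l := by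
      calc K * Real.sqrt (Real.log 3 + l) ≤ K * (δ / (2 * K) * l) :=
            mul_le_mul_of_nonneg_left h1 hK.le
        _ = δ / 2 * l := by field_simp
    have h5 : 1 ≤ δ / 2 * l := by
      rw [div_le_iff₀ hδ] at hl2
      linarith
    linarith
  have hSX : S ≤ X := by linarith
  have hpowA : S ^ A ≤ X ^ |A| := by
    calc S ^ A ≤ S ^ |A| := Real.rpow_le_rpow_of_exponent_le (by linarith) (le_abs_self A)
      _ ≤ X ^ |A| := Real.rpow_le_rpow hS0.le hSX (abs_nonneg A)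
  have hXT₁ : T₁ ≤ X := by linarith
  have hmain := hmom' X ((le_max_left _ _).trans (hT₁def ▸ hXT₁)) p hp (by
    rw [Real.le_log_iff_exp_le hX0]
    exact (le_max_right _ _).trans (hT₁def ▸ hXT₁)) N J c lam hcond (hN2.trans hpowA) hlam
    (hc.trans hpowA) u hu
  rw [Real.mul_rpow hC.le (Real.log_nonneg hX1)] at hmain
  -- the interval
  have hlogX : Real.log X ≤ S / 2 := by
    have h1 := Real.log_le_sub_one_of_pos (show 0 < X / 8 by positivity)
    rw [Real.log_div hX0.ne' (by norm_num)] at h1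
    have h2 : Real.log 8 ≤ 8 - 1 := Real.log_le_sub_one_of_pos (by norm_num)
    have h3 : Real.log 8 ≤ 3 := by
      rw [show (8 : ℝ) = 2 ^ 3 by norm_num, Real.log_pow]
      have := Real.log_two_lt_d9
      push_cast
      linarith
    linarith
  have hlogX0 : 0 ≤ Real.log X := Real.log_nonneg hX1
  have hgc : Continuous fun t : ℝ => max (u * Q N J c lam t).re 0 ^ p :=
    (g_cont u N J c lam).rpow_const fun _ => Or.inr hp0.le
  have hmono : ∫ t in (X - Real.log X)..(2 * X + Real.log X), max (u * Q N J c lam t).re 0 ^ p ≤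
      ∫ t in S..(4 * S), max (u * Q N J c lam t).re 0 ^ p := by
    refine intervalIntegral.integral_mono_interval (by linarith) (by linarith) (by linarith)
      (Eventually.of_forall fun t => Real.rpow_nonneg (le_max_right _ _) p)
      (hgc.intervalIntegrable _ _)
  have hpX : S ^ (μ + ε / 2) ≤ X ^ (μ + ε / 2) := Real.rpow_le_rpow hS0.le hSX (by linarith)
  have hXX : X ≤ X ^ (μ + ε / 2) := by
    calc X = X ^ (1 : ℝ) := (Real.rpow_one X).symm
      _ ≤ X ^ (μ + ε / 2) := Real.rpow_le_rpow_of_exponent_le hX1 (by linarith)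
  have hlogp : Real.log X ^ p ≤ X ^ (ε / 2) / η ^ p := by
    have h1 : Real.log X ≤ X ^ η / η := Real.log_le_rpow_div hX0.le hη0
    have h2 := Real.rpow_le_rpow hlogX0 h1 hp0.le
    rw [Real.div_rpow (by positivity) hη0.le, ← Real.rpow_mul hX0.le, hηp] at h2
    exact h2
  calc ∫ t in X..(2 * X), Z t ^ p
      ≤ C ^ p * Real.log X ^ p * ((∫ t in (X - Real.log X)..(2 * X + Real.log X),
        max (u * Q N J c lam t).re 0 ^ p) + X) := hmain
    _ ≤ C ^ p * (X ^ (ε / 2) / η ^ p) * (2 * X ^ (μ + ε / 2)) := by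
        apply mul_le_mul _ _ _ (by positivity)
        · exact mul_le_mul_of_nonneg_left hlogp (by positivity)
        · linarith
        · have : 0 ≤ ∫ t in (X - Real.log X)..(2 * X + Real.log X), max (u * Q N J c lam t).re 0 ^ p :=
            intervalIntegral.integral_nonneg (by linarith)
              fun t _ => Real.rpow_nonneg (le_max_right _ _) p
          linarith
    _ = 2 * C ^ p / η ^ p * (X ^ (ε / 2) * X ^ (μ + ε / 2)) := by ring
    _ = 2 * C ^ p / η ^ p * X ^ (μ + ε) := by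
        rw [← Real.rpow_add hX0]
        congr 2
        ring

end Pool.Agent.H476.OM
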