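import Pool.Agent.H476.OM3

set_option autoImplicit false

/-! One-sided moments of one section, part 4: a section as a mean of zeta. -/

open Complex MeasureTheory Filter Topology
open scoped ENNReal

namespace Pool.Agent.H476.OM

open Pool.Agent.H476.LS Pool.Agent.H448R2.GC

/-- the weight -/
noncomputable def w (k : ℕ) (c y : ℝ) : ℝ := (1 + c * |y|) ^ (-(k : ℝ)) * (1 + |y|)⁻¹

lemma w_nonneg (k : ℕ) (c y : ℝ) (hc : 0 ≤ c) : 0 ≤ w k c y := by
  unfold w; positivity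

lemma w_meas (k : ℕ) (c : ℝ) : Measurable (w k c) := by
  unfold w
  have h1 : Measurable fun y : ℝ => (1 + c * |y|) ^ (-(k : ℝ)) := by
    have : Measurable fun y : ℝ => 1 + c * |y| := by fun_prop
    exact this.pow_const _
  have h2 : Measurable fun y : ℝ => (1 + |y|)⁻¹ := by fun_prop
  exact h1.mul h2

/-- pointwise -/
theorem sec_pt : ∃ k₀ : ℕ, 1 ≤ k₀ ∧ ∀ k : ℕ, k₀ ≤ k → ∀ T : ℝ, 1 ≤ T → ∀ N : ℕ, 1 ≤ N →
    ∀ t : ℝ, T ≤ t → ‖P N t‖ₑ ≤ ENNReal.ofReal ((6 * 3 ^ k + 2) * (Real.sqrt N / T)) +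
      ENNReal.ofReal (3 ^ (k + 1) * (Real.log N + 2)) *
        ∫⁻ y, ‖Z (t + y)‖ₑ * ENNReal.ofReal (w k (1 / (k * T)) y) := by
  obtain ⟨k₀, hk₀, hshift⟩ := shift_line
  refine ⟨k₀, hk₀, fun k hk T hT N hN1 t htT => ?_⟩
  have hk1 : 1 ≤ k := by omega
  have hk0 : (0 : ℝ) < k := by exact_mod_cast hk1
  have hk1' : (1 : ℝ) ≤ k := by exact_mod_cast hk1
  have hT0 : 0 < T := by linarith
  have ht0 : 0 < t := by linarith
  have hN0 : (0 : ℝ) < N := by exact_mod_cast hN1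
  have hN1' : (1 : ℝ) ≤ N := by exact_mod_cast hN1
  obtain ⟨c, hc⟩ : ∃ c : ℝ, c = 1 / (k * T) := ⟨_, rfl⟩
  rw [← hc]
  have hc0 : 0 < c := by rw [hc]; positivity
  have hkc : (k : ℝ) * c = 1 / T := by rw [hc]; field_simp
  have hkc1 : (k : ℝ) * c ≤ 1 := by rw [hkc, div_le_one hT0]; exact hT
  obtain ⟨D₀, hD₀⟩ : ∃ D₀ : ℝ, D₀ = -1 - k * c := ⟨_, rfl⟩
  obtain ⟨Δ, hΔ⟩ : ∃ Δ : ℝ, Δ = Real.log N - D₀ := ⟨_, rfl⟩
  have hlogN : 0 ≤ Real.log N := Real.log_nonneg hN1'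
  have hkcp : 0 < (k : ℝ) * c := by positivity
  have hΔ1 : 1 ≤ Δ := by rw [hΔ, hD₀]; linarith
  have hΔ2 : Δ ≤ Real.log N + 2 := by rw [hΔ, hD₀]; linarith
  have hΔ0 : 0 < Δ := by linarith
  have hDD : D₀ + Δ = Real.log N := by rw [hΔ]; ring
  have hmain := hshift k hk c D₀ Δ hc0 hΔ0 t
  have hcs0 : cs k c D₀ (1 / 2 + (t : ℂ) * I) = 0 := by
    unfold cs
    have h1 : ⌊Real.exp (D₀ + k * c)⌋₊ = 0 := by
      rw [Nat.floor_eq_zero]
      rw [← Real.exp_zero]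
      apply Real.exp_lt_exp.2
      rw [hD₀]
      linarith
    rw [h1]
    simp
  rw [hcs0, sub_zero, hDD] at hmain
  -- the integrand
  have hpt : ∀ y : ℝ, ‖riemannZeta ((1 / 2 + (t : ℂ) * I) + (y : ℂ) * I) *
        Ps k c ((y : ℂ) * I) * HH D₀ Δ ((y : ℂ) * I)‖ₑ ≤
      ENNReal.ofReal (3 ^ (k + 1) * (Real.log N + 2)) * (‖Z (t + y)‖ₑ * ENNReal.ofReal (w k c y)) := by
    intro y
    have hy0 := abs_nonneg y
    have hyn : ‖(y : ℂ) * I‖ = |y| := by rw [norm_mul, Complex.norm_I, mul_one, Complex.norm_real]; rfl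
    have hyre : ((y : ℂ) * I).re = 0 := by simp
    have hcy : 0 < 1 + c * |y| := by positivity
    have e1 : (1 / 2 + (t : ℂ) * I) + (y : ℂ) * I = 1 / 2 + ((t + y : ℝ) : ℂ) * I := by
      push_cast; ring
    have a1 : ‖riemannZeta ((1 / 2 + (t : ℂ) * I) + (y : ℂ) * I)‖ = Z (t + y) := by
      rw [e1]; rfl
    have a2 : ‖Ps k c ((y : ℂ) * I)‖ ≤ 3 ^ k * (1 + c * |y|) ^ (-(k : ℝ)) := by
      refine (Pool.Agent.H448R2.GC.Ps_bound k c hc0 _).trans_eq ?_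
      rw [hyre, hyn, max_self, mul_zero, Real.exp_zero, one_mul, div_pow, Real.rpow_neg hcy.le,
        Real.rpow_natCast, div_eq_mul_inv]
    have a3 : ‖HH D₀ Δ ((y : ℂ) * I)‖ ≤ 3 * Δ * (1 + |y|)⁻¹ := by
      refine (HH_bound D₀ Δ hΔ0 _).trans ?_
      rw [hyre, hyn, max_self, mul_zero, mul_zero, Real.exp_zero, mul_one, one_mul, div_eq_mul_inv]
      have h1 : (1 + Δ * |y|)⁻¹ ≤ (1 + |y|)⁻¹ := by
        apply inv_anti₀ (by positivity)
        nlinarith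
      calc Δ * (3 * (1 + Δ * |y|)⁻¹) ≤ Δ * (3 * (1 + |y|)⁻¹) := by gcongr
        _ = _ := by ring
    have hZ0 := Z_nonneg (t + y)
    have hw0 := w_nonneg k c y hc0.le
    rw [← ofReal_norm, ← ofReal_norm, Real.norm_of_nonneg hZ0,
      ← ENNReal.ofReal_mul hZ0, ← ENNReal.ofReal_mul (by positivity)]
    apply ENNReal.ofReal_le_ofReal
    rw [norm_mul, norm_mul, a1]
    calc Z (t + y) * ‖Ps k c ((y : ℂ) * I)‖ * ‖HH D₀ Δ ((y : ℂ) * I)‖
        ≤ Z (t + y) * (3 ^ k * (1 + c * |y|) ^ (-(k : ℝ))) * (3 * (Real.log N + 2) * (1 + |y|)⁻¹) := by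
          have a4 : 3 * Δ * (1 + |y|)⁻¹ ≤ 3 * (Real.log N + 2) * (1 + |y|)⁻¹ := by gcongr
          gcongr
          exact a3.trans a4
      _ = 3 ^ (k + 1) * (Real.log N + 2) * (Z (t + y) * w k c y) := by unfold w; ring
  have hI : ‖(1 / (2 * (Real.pi : ℂ))) * ∫ y : ℝ, riemannZeta ((1 / 2 + (t : ℂ) * I) + (y : ℂ) * I) *
        Ps k c ((y : ℂ) * I) * HH D₀ Δ ((y : ℂ) * I)‖ₑ ≤
      ENNReal.ofReal (3 ^ (k + 1) * (Real.log N + 2)) *
        ∫⁻ y, ‖Z (t + y)‖ₑ * ENNReal.ofReal (w k c y) := by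
    rw [enorm_mul]
    have h2 : ‖(1 / (2 * (Real.pi : ℂ)))‖ₑ ≤ 1 := by
      rw [← ofReal_norm, ← ENNReal.ofReal_one]
      apply ENNReal.ofReal_le_ofReal
      rw [norm_div, norm_one, norm_mul, Complex.norm_real, Real.norm_of_nonneg Real.pi_pos.le]
      rw [Complex.norm_ofNat, div_le_one (by positivity)]
      linarith [Real.pi_gt_three]
    have h3 : ‖∫ y : ℝ, riemannZeta ((1 / 2 + (t : ℂ) * I) + (y : ℂ) * I) *
        Ps k c ((y : ℂ) * I) * HH D₀ Δ ((y : ℂ) * I)‖ₑ ≤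
      ENNReal.ofReal (3 ^ (k + 1) * (Real.log N + 2)) *
        ∫⁻ y, ‖Z (t + y)‖ₑ * ENNReal.ofReal (w k c y) := by
      refine (enorm_integral_le_lintegral_enorm _).trans ?_
      rw [← lintegral_const_mul' _ _ ENNReal.ofReal_ne_top]
      exact lintegral_mono hpt
    calc _ ≤ 1 * (ENNReal.ofReal (3 ^ (k + 1) * (Real.log N + 2)) *
        ∫⁻ y, ‖Z (t + y)‖ₑ * ENNReal.ofReal (w k c y)) := mul_le_mul' h2 h3
      _ = _ := one_mul _
  -- the pole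
  have hpole : ‖Ps k c (1 - (1 / 2 + (t : ℂ) * I)) * HH D₀ Δ (1 - (1 / 2 + (t : ℂ) * I))‖ ≤
      6 * 3 ^ k * (Real.sqrt N / T) := by
    obtain ⟨w, hw⟩ : ∃ w : ℂ, w = 1 - (1 / 2 + (t : ℂ) * I) := ⟨_, rfl⟩
    rw [← hw]
    have hwre : w.re = 1 / 2 := by rw [hw]; simp; norm_num
    have hwn : T ≤ ‖w‖ := by
      have h1 := Complex.abs_im_le_norm w
      have h2 : w.im = -t := by rw [hw]; simp
      rw [h2, abs_neg, abs_of_pos ht0] at h1
      exact htT.trans h1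
    have hw0 : w ≠ 0 := by
      intro h
      rw [h] at hwre
      norm_num at hwre
    have b1 : ‖Ps k c w‖ ≤ 3 * 3 ^ k := by
      refine (Pool.Agent.H448R2.GC.Ps_bound k c hc0 w).trans ?_
      rw [hwre, max_eq_left (by norm_num)]
      have h1 : Real.exp (k * c * (1 / 2)) ≤ 3 := by
        calc Real.exp (k * c * (1 / 2)) ≤ Real.exp 1 := Real.exp_le_exp.2 (by linarith)
          _ ≤ 3 := by linarith [Real.exp_one_lt_d9]
      have h4 : (3 / (1 + c * ‖w‖)) ^ k ≤ 3 ^ k := by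
        apply pow_le_pow_left₀ (by positivity)
        apply div_le_self (by norm_num)
        have : 0 ≤ c * ‖w‖ := by positivity
        linarith
      exact mul_le_mul h1 h4 (by positivity) (by norm_num)
    have b2 : ‖HH D₀ Δ w‖ ≤ 2 * (Real.sqrt N / T) := by
      rw [HH_eq D₀ Δ hΔ0 w hw0, norm_div, hDD]
      have h1 : ‖cexp (((Real.log N : ℝ) : ℂ) * w) - cexp ((D₀ : ℂ) * w)‖ ≤ 2 * Real.sqrt N := by
        refine (norm_sub_le _ _).trans ?_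
        rw [Complex.norm_exp, Complex.norm_exp, Complex.re_ofReal_mul, Complex.re_ofReal_mul, hwre]
        have h2 : Real.exp (Real.log N * (1 / 2)) = Real.sqrt N := by
          rw [Real.sqrt_eq_rpow, Real.rpow_def_of_pos hN0]
        have h3 : Real.exp (D₀ * (1 / 2)) ≤ 1 := by
          apply Real.exp_le_one_iff.2
          rw [hD₀]
          linarith
        have h4 : 1 ≤ Real.sqrt N := Real.one_le_sqrt.2 hN1'
        rw [h2]
        linarith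
      calc ‖cexp (((Real.log N : ℝ) : ℂ) * w) - cexp ((D₀ : ℂ) * w)‖ / ‖w‖
          ≤ (2 * Real.sqrt N) / T := by gcongr
        _ = _ := by ring
    rw [norm_mul]
    calc ‖Ps k c w‖ * ‖HH D₀ Δ w‖ ≤ (3 * 3 ^ k) * (2 * (Real.sqrt N / T)) := by gcongr
      _ = _ := by ring
  have hnear := cs_near k N hN1 c t T hc0 hT0 hkc hT
  have hpe : ‖Ps k c (1 - (1 / 2 + (t : ℂ) * I)) * HH D₀ Δ (1 - (1 / 2 + (t : ℂ) * I))‖ₑ ≤
      ENNReal.ofReal (6 * 3 ^ k * (Real.sqrt N / T)) := by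
    rw [← ofReal_norm]
    exact ENNReal.ofReal_le_ofReal hpole
  have hne : ‖P N t - cs k c (Real.log N) (1 / 2 + (t : ℂ) * I)‖ₑ ≤
      ENNReal.ofReal (2 * (Real.sqrt N / T)) := by
    rw [← ofReal_norm]
    apply ENNReal.ofReal_le_ofReal
    refine hnear.trans_eq ?_
    ring
  calc ‖P N t‖ₑ = ‖(P N t - cs k c (Real.log N) (1 / 2 + (t : ℂ) * I)) +
        cs k c (Real.log N) (1 / 2 + (t : ℂ) * I)‖ₑ := by rw [sub_add_cancel]
    _ ≤ ‖P N t - cs k c (Real.log N) (1 / 2 + (t : ℂ) * I)‖ₑ +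
        ‖cs k c (Real.log N) (1 / 2 + (t : ℂ) * I)‖ₑ := enorm_add_le _ _
    _ ≤ ENNReal.ofReal (2 * (Real.sqrt N / T)) +
        (ENNReal.ofReal (3 ^ (k + 1) * (Real.log N + 2)) *
        (∫⁻ y, ‖Z (t + y)‖ₑ * ENNReal.ofReal (w k c y)) +
        ENNReal.ofReal (6 * 3 ^ k * (Real.sqrt N / T))) := by
        refine add_le_add hne ?_
        rw [hmain]
        exact (enorm_add_le _ _).trans (add_le_add hI hpe)
    _ = _ := by
        have h1 : ENNReal.ofReal ((6 * 3 ^ k + 2) * (Real.sqrt N / T)) =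
            ENNReal.ofReal (2 * (Real.sqrt N / T)) + ENNReal.ofReal (6 * 3 ^ k * (Real.sqrt N / T)) := by
          rw [← ENNReal.ofReal_add (by positivity) (by positivity)]
          congr 1; ring
        rw [h1]
        ring

/-- Jensen in the form needed -/
lemma jensen_enn (f : ℝ → ℝ) (hf : Continuous f) (ν : Measure ℝ) (p : ℝ) (hp : 1 ≤ p) :
    (∫⁻ y, ‖f y‖ₑ ∂ν) ^ p ≤ (∫⁻ y, ‖f y‖ₑ ^ p ∂ν) * ν Set.univ ^ (p - 1) := by
  have hp0 : 0 < p := by linarith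
  have h := eLpNorm'_le_eLpNorm'_mul_rpow_measure_univ (μ := ν) (f := f) zero_lt_one hp
    hf.aestronglyMeasurable
  unfold eLpNorm' at h
  simp only [ENNReal.rpow_one, div_one] at h
  have h2 := ENNReal.rpow_le_rpow h hp0.le
  rw [ENNReal.mul_rpow_of_nonneg _ _ hp0.le, ← ENNReal.rpow_mul, ← ENNReal.rpow_mul] at h2
  have e1 : 1 / p * p = 1 := by field_simp
  have e2 : (1 - 1 / p) * p = p - 1 := by field_simp
  rw [e1, e2, ENNReal.rpow_one] at h2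
  exact h2

end Pool.Agent.H476.OM
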