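import Pool.Agent.H476.OM4

set_option autoImplicit false

/-! One-sided moments of one section, part 5: from the moments of zeta to the moments of the
sections. -/

open Complex MeasureTheory Filter Topology
open scoped ENNReal

namespace Pool.Agent.H476.OM

open Pool.Agent.H476.LS Pool.Agent.H448R2.GC

lemma Z_neg' (t : ℝ) : Z (-t) = Z t := by
  rw [← Z_abs (-t), abs_neg, Z_abs]

/-- the shifted block -/
lemma block (p μ' C₁ : ℝ) (hp : 0 ≤ p) (hF : ∀ T : ℝ, 1 ≤ T → ∫ t in (0 : ℝ)..T, Z t ^ p ≤ C₁ * T ^ μ')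
    (T : ℝ) (hT : 1 ≤ T) (y : ℝ) : ∫⁻ t in Set.Ioc T (4 * T), ‖Z (t + y)‖ₑ ^ p ≤
      ENNReal.ofReal (2 * C₁ * (4 * T + |y|) ^ μ') := by
  have hc := Zp_cont p hp
  have hcy : Continuous fun t => Z (t + y) ^ p := hc.comp (by fun_prop : Continuous fun t : ℝ => t + y)
  have h0 : ∀ t, 0 ≤ Z t ^ p := fun t => Real.rpow_nonneg (Z_nonneg t) p
  have e1 : ∀ t, ‖Z (t + y)‖ₑ ^ p = ENNReal.ofReal (Z (t + y) ^ p) := by
    intro t
    rw [← ofReal_norm, Real.norm_of_nonneg (Z_nonneg _),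
      ENNReal.ofReal_rpow_of_nonneg (Z_nonneg _) hp]
  simp_rw [e1]
  rw [← ofReal_integral_eq_lintegral_ofReal
    ((hcy.integrableOn_Icc (a := T) (b := 4 * T)).mono_set Set.Ioc_subset_Icc_self)
    (Eventually.of_forall fun t => h0 _)]
  apply ENNReal.ofReal_le_ofReal
  rw [← intervalIntegral.integral_of_le (by linarith),
    intervalIntegral.integral_comp_add_right (fun t => Z t ^ p) y]
  obtain ⟨X, hX⟩ : ∃ X : ℝ, X = 4 * T + |y| := ⟨_, rfl⟩
  rw [← hX]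
  have hy1 := neg_abs_le y
  have hy2 := le_abs_self y
  have hy0 := abs_nonneg y
  have h1 : ∫ t in (T + y)..(4 * T + y), Z t ^ p ≤ ∫ t in (-X)..X, Z t ^ p := by
    refine intervalIntegral.integral_mono_interval (by linarith) (by linarith) (by linarith)
      (Eventually.of_forall h0) (hc.intervalIntegrable _ _)
  have h2 : ∫ t in (-X)..X, Z t ^ p = 2 * ∫ t in (0 : ℝ)..X, Z t ^ p := by
    rw [← intervalIntegral.integral_add_adjacent_intervals (hc.intervalIntegrable (-X) 0)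
      (hc.intervalIntegrable 0 X)]
    have h3 : ∫ t in (-X)..0, Z t ^ p = ∫ t in (0 : ℝ)..X, Z t ^ p := by
      have h4 := intervalIntegral.integral_comp_neg (a := 0) (b := X) (fun t => Z t ^ p)
      simp only [Z_neg', neg_zero] at h4
      exact h4.symm
    rw [h3]; ring
  rw [h2] at h1
  have h3 := hF X (by linarith)
  linarith

/-- **the moments of the sections** -/
theorem sec_mom (p μ : ℝ) (hp : 1 ≤ p) (hμ : 1 ≤ μ) (hM : MomExp p μ) (A ε : ℝ) (hε : 0 < ε) :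
    ∃ C : ℝ, 0 < C ∧ ∀ T : ℝ, 1 ≤ T → ∀ N : ℕ, 1 ≤ N → (N : ℝ) ≤ T ^ A →
      ∫ t in T..(4 * T), ‖P N t‖ ^ p ≤ C * (T ^ (μ + ε) + T * (Real.sqrt N / T) ^ p) := by
  obtain ⟨k₀, hk₀, hsec⟩ := sec_pt
  have hp0 : 0 < p := by linarith
  have hp1 : 0 ≤ p - 1 := by linarith
  obtain ⟨η, hη⟩ : ∃ η : ℝ, η = min (ε / (2 * p + 1)) 1 := ⟨_, rfl⟩
  have hη0 : 0 < η := by rw [hη]; positivity
  have hηε : η * (2 * p + 1) ≤ ε := by
    have : η ≤ ε / (2 * p + 1) := by rw [hη]; exact min_le_left _ _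
    rwa [le_div_iff₀ (by positivity)] at this
  have hη1 : η ≤ 1 := by rw [hη]; exact min_le_right _ _
  obtain ⟨C₀, hC₀⟩ := hM η hη0
  obtain ⟨μ', hμ'⟩ : ∃ μ' : ℝ, μ' = μ + η := ⟨_, rfl⟩
  have hμ'0 : 0 < μ' := by rw [hμ']; positivity
  obtain ⟨C₁, hC₁⟩ : ∃ C₁ : ℝ, C₁ = |C₀| + 1 := ⟨_, rfl⟩
  have hC₁0 : 0 < C₁ := by rw [hC₁]; positivity
  have hF : ∀ T : ℝ, 1 ≤ T → ∫ t in (0 : ℝ)..T, Z t ^ p ≤ C₁ * T ^ μ' := by
    intro T hT
    refine (hC₀ T hT).trans ?_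
    rw [← hμ']
    apply mul_le_mul_of_nonneg_right _ (by positivity)
    rw [hC₁]
    linarith [le_abs_self C₀]
  obtain ⟨k, hk⟩ : ∃ k : ℕ, k = k₀ + ⌈μ⌉₊ + 2 := ⟨_, rfl⟩
  have hk1 : 1 ≤ k := by omega
  have hkμ : μ' + η ≤ k := by
    have h1 := Nat.le_ceil μ
    rw [hk, hμ']
    push_cast
    have : (0 : ℝ) ≤ k₀ := by positivity
    linarith
  have hk0 : (0 : ℝ) < k := by exact_mod_cast hk1
  have hk1' : (1 : ℝ) ≤ k := by exact_mod_cast hk1
  have hint : Integrable (fun y : ℝ => (1 + |y|) ^ (-(1 + η))) := by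
    have h1 := integrable_one_add_norm (E := ℝ) (μ := volume) (r := 1 + η) (by simp; linarith)
    simpa using h1
  obtain ⟨J, hJ⟩ : ∃ J : ℝ, J = ∫ y : ℝ, (1 + |y|) ^ (-(1 + η)) := ⟨_, rfl⟩
  have hJ0 : 0 ≤ J := by rw [hJ]; exact integral_nonneg fun y => by positivity
  have hJe : ∀ D : ℝ, 0 ≤ D → ∫⁻ y : ℝ, ENNReal.ofReal (D * (1 + |y|) ^ (-(1 + η))) =
      ENNReal.ofReal (D * J) := by
    intro D hD
    rw [← ofReal_integral_eq_lintegral_ofReal (hint.const_mul D)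
      (Eventually.of_forall fun y => by positivity), integral_const_mul, hJ]
  obtain ⟨V, hV⟩ : ∃ V : ℝ, V = (3 ^ (k + 1) * (|A| / η + 2)) ^ p * ((k : ℝ) ^ η * J) ^ (p - 1) *
    (2 * C₁ * (4 * k) ^ μ' * ((k : ℝ) ^ η * J)) := ⟨_, rfl⟩
  have hV0 : 0 ≤ V := by rw [hV]; positivity
  refine ⟨2 ^ (p - 1) * (V + (6 * 3 ^ k + 2) ^ p * 3), by positivity, fun T hT N hN1 hNA => ?_⟩
  have hT0 : 0 < T := by linarith
  have hN0 : (0 : ℝ) < N := by exact_mod_cast hN1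
  have hN1' : (1 : ℝ) ≤ N := by exact_mod_cast hN1
  have hlogN : 0 ≤ Real.log N := Real.log_nonneg hN1'
  obtain ⟨c, hc⟩ : ∃ c : ℝ, c = 1 / (k * T) := ⟨_, rfl⟩
  have hc0 : 0 < c := by rw [hc]; positivity
  have hc1 : c ≤ 1 := by
    rw [hc, div_le_one (by positivity)]
    nlinarith
  have hckT : c * (k * T) = 1 := by rw [hc]; field_simp
  -- the weight
  have hwη : ∀ y : ℝ, (1 + c * |y|) ^ (-η) ≤ ((k : ℝ) * T) ^ η * (1 + |y|) ^ (-η) := by
    intro y
    have hy0 := abs_nonneg y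
    calc (1 + c * |y|) ^ (-η) ≤ (c * (1 + |y|)) ^ (-η) := by
          apply Real.rpow_le_rpow_of_nonpos (by positivity) _ (by linarith)
          nlinarith
      _ = c ^ (-η) * (1 + |y|) ^ (-η) := Real.mul_rpow hc0.le (by positivity)
      _ = _ := by
          congr 1
          rw [hc, one_div, Real.inv_rpow (by positivity), Real.rpow_neg (by positivity), inv_inv]
  have ha5 : ∀ y : ℝ, (1 + |y|) ^ (-η) * (1 + |y|)⁻¹ = (1 + |y|) ^ (-(1 + η)) := by
    intro y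
    rw [← Real.rpow_neg_one, ← Real.rpow_add (by positivity)]
    congr 1
    ring
  have hw1 : ∀ y : ℝ, w k c y ≤ ((k : ℝ) * T) ^ η * (1 + |y|) ^ (-(1 + η)) := by
    intro y
    have hy0 := abs_nonneg y
    have hcy1 : 1 ≤ 1 + c * |y| := by
      have : 0 ≤ c * |y| := by positivity
      linarith
    unfold w
    calc (1 + c * |y|) ^ (-(k : ℝ)) * (1 + |y|)⁻¹ ≤ (1 + c * |y|) ^ (-η) * (1 + |y|)⁻¹ := by
          apply mul_le_mul_of_nonneg_right _ (by positivity)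
          exact Real.rpow_le_rpow_of_exponent_le hcy1 (by linarith)
      _ ≤ (((k : ℝ) * T) ^ η * (1 + |y|) ^ (-η)) * (1 + |y|)⁻¹ :=
          mul_le_mul_of_nonneg_right (hwη y) (by positivity)
      _ = _ := by rw [mul_assoc, ha5]
  have hw2 : ∀ y : ℝ, w k c y * (2 * C₁ * (4 * T + |y|) ^ μ') ≤
      (2 * C₁ * (4 * k * T) ^ μ' * ((k : ℝ) * T) ^ η) * (1 + |y|) ^ (-(1 + η)) := by
    intro y
    have hy0 := abs_nonneg y
    have hcy : 0 < 1 + c * |y| := by positivity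
    have hcy1 : 1 ≤ 1 + c * |y| := by
      have : 0 ≤ c * |y| := by positivity
      linarith
    have h1 : (4 * T + |y|) ^ μ' ≤ (4 * k * T) ^ μ' * (1 + c * |y|) ^ μ' := by
      rw [← Real.mul_rpow (by positivity) (by positivity)]
      apply Real.rpow_le_rpow (by positivity) _ hμ'0.le
      have h2 : 4 * k * T * (1 + c * |y|) = 4 * (k * T) + 4 * (c * (k * T)) * |y| := by ring
      rw [h2, hckT]
      nlinarith
    have h3 : (1 + c * |y|) ^ (-(k : ℝ)) * (1 + c * |y|) ^ μ' ≤ (1 + c * |y|) ^ (-η) := by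
      rw [← Real.rpow_add hcy]
      exact Real.rpow_le_rpow_of_exponent_le hcy1 (by linarith)
    unfold w
    calc (1 + c * |y|) ^ (-(k : ℝ)) * (1 + |y|)⁻¹ * (2 * C₁ * (4 * T + |y|) ^ μ')
        ≤ (1 + c * |y|) ^ (-(k : ℝ)) * (1 + |y|)⁻¹ *
          (2 * C₁ * ((4 * k * T) ^ μ' * (1 + c * |y|) ^ μ')) := by gcongr
      _ = 2 * C₁ * (4 * k * T) ^ μ' * ((1 + c * |y|) ^ (-(k : ℝ)) * (1 + c * |y|) ^ μ') *
          (1 + |y|)⁻¹ := by ring
      _ ≤ 2 * C₁ * (4 * k * T) ^ μ' * (((k : ℝ) * T) ^ η * (1 + |y|) ^ (-η)) * (1 + |y|)⁻¹ := by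
          have := h3.trans (hwη y)
          gcongr
      _ = 2 * C₁ * (4 * k * T) ^ μ' * ((k : ℝ) * T) ^ η * ((1 + |y|) ^ (-η) * (1 + |y|)⁻¹) := by ring
      _ = _ := by rw [ha5]
  -- the measure
  obtain ⟨ν, hν⟩ : ∃ ν : Measure ℝ, ν = volume.withDensity (fun y => ENNReal.ofReal (w k c y)) :=
    ⟨_, rfl⟩
  have hwm : Measurable fun y => ENNReal.ofReal (w k c y) := (w_meas k c).ennreal_ofReal
  have hsf : SFinite ν := by rw [hν]; infer_instance
  have hνint : ∀ g : ℝ → ℝ≥0∞, Measurable g → ∫⁻ y, g y ∂ν = ∫⁻ y, g y * ENNReal.ofReal (w k c y) := by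
    intro g hg
    rw [hν, lintegral_withDensity_eq_lintegral_mul _ hwm hg]
    refine lintegral_congr fun y => ?_
    rw [Pi.mul_apply, mul_comm]
  have hνu : ν Set.univ ≤ ENNReal.ofReal (((k : ℝ) * T) ^ η * J) := by
    rw [← lintegral_one, hνint _ measurable_const, ← hJe _ (by positivity)]
    refine lintegral_mono fun y => ?_
    rw [one_mul]
    exact ENNReal.ofReal_le_ofReal (hw1 y)
  have hZm : Measurable Z := Z_cont.measurable
  have hmeas2 : Measurable (Function.uncurry fun t y : ℝ => ‖Z (t + y)‖ₑ ^ p) := by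
    have h1 : Measurable fun q : ℝ × ℝ => Z (q.1 + q.2) := hZm.comp (by fun_prop)
    exact (h1.enorm).pow_const p
  -- the double integral
  have hdouble : ∫⁻ t in Set.Ioc T (4 * T), (∫⁻ y, ‖Z (t + y)‖ₑ ^ p ∂ν) ≤
      ENNReal.ofReal (2 * C₁ * (4 * k * T) ^ μ' * ((k : ℝ) * T) ^ η * J) := by
    rw [lintegral_lintegral_swap hmeas2.aemeasurable]
    calc ∫⁻ y, (∫⁻ t in Set.Ioc T (4 * T), ‖Z (t + y)‖ₑ ^ p) ∂ν
        ≤ ∫⁻ y, ENNReal.ofReal (2 * C₁ * (4 * T + |y|) ^ μ') ∂ν :=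
          lintegral_mono fun y => block p μ' C₁ hp0.le hF T hT y
      _ = ∫⁻ y, ENNReal.ofReal (2 * C₁ * (4 * T + |y|) ^ μ') * ENNReal.ofReal (w k c y) := by
          apply hνint
          apply Measurable.ennreal_ofReal
          apply Measurable.const_mul
          have : Measurable fun y : ℝ => 4 * T + |y| := by fun_prop
          exact this.pow_const _
      _ ≤ ∫⁻ y, ENNReal.ofReal ((2 * C₁ * (4 * k * T) ^ μ' * ((k : ℝ) * T) ^ η) *
          (1 + |y|) ^ (-(1 + η))) := by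
          refine lintegral_mono fun y => ?_
          simp only
          rw [← ENNReal.ofReal_mul (by positivity), mul_comm]
          exact ENNReal.ofReal_le_ofReal (hw2 y)
      _ = _ := hJe _ (by positivity)
  -- the pointwise bound
  obtain ⟨q, hq⟩ : ∃ q : ℝ, q = Real.sqrt N / T := ⟨_, rfl⟩
  have hq0 : 0 ≤ q := by rw [hq]; positivity
  obtain ⟨a', ha'⟩ : ∃ a' : ℝ, a' = (6 * 3 ^ k + 2) * q := ⟨_, rfl⟩
  have ha'0 : 0 ≤ a' := by rw [ha']; positivity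
  obtain ⟨b', hb'⟩ : ∃ b' : ℝ, b' = 3 ^ (k + 1) * (Real.log N + 2) := ⟨_, rfl⟩
  have hb'0 : 0 ≤ b' := by rw [hb']; positivity
  have hPt : ∀ t ∈ Set.Ioc T (4 * T), ‖P N t‖ₑ ^ p ≤ 2 ^ (p - 1) * (ENNReal.ofReal (a' ^ p) +
      ENNReal.ofReal (b' ^ p) * ENNReal.ofReal ((((k : ℝ) * T) ^ η * J) ^ (p - 1)) *
        ∫⁻ y, ‖Z (t + y)‖ₑ ^ p ∂ν) := by
    intro t ht
    have h1 := hsec k (by omega) T hT N hN1 t ht.1.le
    rw [← hc, ← hq, ← ha', ← hb'] at h1
    have hm1 : Measurable fun y => ‖Z (t + y)‖ₑ := (hZm.comp (measurable_const_add t)).enorm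
    rw [← hνint _ hm1] at h1
    have h2 := ENNReal.rpow_le_rpow h1 hp0.le
    refine h2.trans ((ENNReal.rpow_add_le_mul_rpow_add_rpow _ _ hp).trans ?_)
    refine mul_le_mul_right ?_ _
    rw [ENNReal.mul_rpow_of_nonneg _ _ hp0.le, ENNReal.ofReal_rpow_of_nonneg ha'0 hp0.le,
      ENNReal.ofReal_rpow_of_nonneg hb'0 hp0.le]
    refine add_le_add le_rfl ?_
    rw [mul_assoc]
    refine mul_le_mul_right ?_ _
    have h3 := jensen_enn (fun y => Z (t + y)) (Z_cont.comp (by fun_prop)) ν p hp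
    refine h3.trans ?_
    rw [mul_comm]
    refine mul_le_mul_left ?_ _
    rw [← ENNReal.ofReal_rpow_of_nonneg (by positivity) hp1]
    exact ENNReal.rpow_le_rpow hνu hp1
  -- integrate
  have hPc : Continuous fun t => ‖P N t‖ ^ p := by
    have h1 : Continuous (P N) := by
      have := Q_cont N 0 (fun _ => 0) (fun _ => 0)
      have h2 : Q N 0 (fun _ => 0) (fun _ => 0) = P N := by funext t; exact Q_zero N _ _ t
      rwa [h2] at this
    exact h1.norm.rpow_const fun _ => Or.inr hp0.le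
  have hconv : ENNReal.ofReal (∫ t in T..(4 * T), ‖P N t‖ ^ p) =
      ∫⁻ t in Set.Ioc T (4 * T), ‖P N t‖ₑ ^ p := by
    rw [intervalIntegral.integral_of_le (by linarith), ofReal_integral_eq_lintegral_ofReal
      ((hPc.integrableOn_Icc (a := T) (b := 4 * T)).mono_set Set.Ioc_subset_Icc_self)
      (Eventually.of_forall fun t => by positivity)]
    refine lintegral_congr fun t => ?_
    rw [← ofReal_norm, ENNReal.ofReal_rpow_of_nonneg (norm_nonneg _) hp0.le]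
  obtain ⟨R, hR⟩ : ∃ R : ℝ, R = 2 ^ (p - 1) * (a' ^ p * (3 * T) +
      b' ^ p * (((k : ℝ) * T) ^ η * J) ^ (p - 1) *
        (2 * C₁ * (4 * k * T) ^ μ' * ((k : ℝ) * T) ^ η * J)) := ⟨_, rfl⟩
  have hR0 : 0 ≤ R := by rw [hR]; positivity
  have hbig : ENNReal.ofReal (∫ t in T..(4 * T), ‖P N t‖ ^ p) ≤ ENNReal.ofReal R := by
    rw [hconv]
    have h1 : ∫⁻ t in Set.Ioc T (4 * T), ‖P N t‖ₑ ^ p ≤ ∫⁻ t in Set.Ioc T (4 * T),
        2 ^ (p - 1) * (ENNReal.ofReal (a' ^ p) +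
      ENNReal.ofReal (b' ^ p) * ENNReal.ofReal ((((k : ℝ) * T) ^ η * J) ^ (p - 1)) *
        ∫⁻ y, ‖Z (t + y)‖ₑ ^ p ∂ν) := setLIntegral_mono' measurableSet_Ioc hPt
    refine h1.trans ?_
    have hne1 : (2 : ℝ≥0∞) ^ (p - 1) ≠ ⊤ := ENNReal.rpow_ne_top_of_nonneg hp1 (by norm_num)
    rw [lintegral_const_mul' _ _ hne1, lintegral_add_left measurable_const,
      lintegral_const_mul' _ _ (ENNReal.mul_ne_top ENNReal.ofReal_ne_top ENNReal.ofReal_ne_top),
      lintegral_const, Measure.restrict_apply_univ, Real.volume_Ioc]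
    have e1 : (2 : ℝ≥0∞) ^ (p - 1) = ENNReal.ofReal (2 ^ (p - 1)) := by
      rw [← ENNReal.ofReal_rpow_of_nonneg (by norm_num) hp1]
      norm_num
    rw [e1, hR, ENNReal.ofReal_mul (by positivity), ENNReal.ofReal_add (by positivity) (by positivity)]
    refine mul_le_mul_right (add_le_add ?_ ?_) _
    · rw [← ENNReal.ofReal_mul (by positivity)]
      apply ENNReal.ofReal_le_ofReal
      apply le_of_eq
      ring
    · rw [ENNReal.ofReal_mul (by positivity), ENNReal.ofReal_mul (by positivity)]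
      exact mul_le_mul_right hdouble _
  have hreal := (ENNReal.ofReal_le_ofReal_iff hR0).1 hbig
  refine hreal.trans ?_
  -- the real bound
  have hb'2 : b' ^ p ≤ (3 ^ (k + 1) * (|A| / η + 2)) ^ p * T ^ (η * p) := by
    have h1 : Real.log N ≤ |A| * Real.log T := by
      calc Real.log N ≤ Real.log (T ^ A) := Real.log_le_log hN0 hNA
        _ = A * Real.log T := Real.log_rpow hT0 A
        _ ≤ |A| * Real.log T := mul_le_mul_of_nonneg_right (le_abs_self A) (Real.log_nonneg hT)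
    have h2 : Real.log T ≤ T ^ η / η := Real.log_le_rpow_div hT0.le hη0
    have h3 : 1 ≤ T ^ η := Real.one_le_rpow hT hη0.le
    have h4 : Real.log N + 2 ≤ (|A| / η + 2) * T ^ η := by
      calc Real.log N + 2 ≤ |A| * (T ^ η / η) + 2 * T ^ η := by
            have := mul_le_mul_of_nonneg_left h2 (abs_nonneg A)
            linarith
        _ = _ := by ring
    have h5 : b' ≤ (3 ^ (k + 1) * (|A| / η + 2)) * T ^ η := by
      rw [hb', mul_assoc]
      exact mul_le_mul_of_nonneg_left h4 (by positivity)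
    have h6 := Real.rpow_le_rpow hb'0 h5 hp0.le
    rw [Real.mul_rpow (by positivity) (by positivity), ← Real.rpow_mul hT0.le] at h6
    exact h6
  have hJ2 : (((k : ℝ) * T) ^ η * J) ^ (p - 1) = ((k : ℝ) ^ η * J) ^ (p - 1) * T ^ (η * (p - 1)) := by
    rw [Real.mul_rpow hk0.le hT0.le, mul_right_comm, Real.mul_rpow (by positivity) (by positivity),
      ← Real.rpow_mul hT0.le]
  have hμ2 : (4 * k * T) ^ μ' = (4 * k) ^ μ' * T ^ μ' := Real.mul_rpow (by positivity) hT0.le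
  have hkη : ((k : ℝ) * T) ^ η = (k : ℝ) ^ η * T ^ η := Real.mul_rpow hk0.le hT0.le
  have hTpow : T ^ (η * p) * T ^ (η * (p - 1)) * (T ^ μ' * T ^ η) ≤ T ^ (μ + ε) := by
    rw [← Real.rpow_add hT0, ← Real.rpow_add hT0, ← Real.rpow_add hT0]
    apply Real.rpow_le_rpow_of_exponent_le hT
    rw [hμ']
    linarith
  have hterm2 : b' ^ p * (((k : ℝ) * T) ^ η * J) ^ (p - 1) *
        (2 * C₁ * (4 * k * T) ^ μ' * ((k : ℝ) * T) ^ η * J) ≤ V * T ^ (μ + ε) := by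
    rw [hJ2, hμ2, hkη]
    calc b' ^ p * (((k : ℝ) ^ η * J) ^ (p - 1) * T ^ (η * (p - 1))) *
        (2 * C₁ * ((4 * k) ^ μ' * T ^ μ') * ((k : ℝ) ^ η * T ^ η) * J)
        ≤ ((3 ^ (k + 1) * (|A| / η + 2)) ^ p * T ^ (η * p)) *
          (((k : ℝ) ^ η * J) ^ (p - 1) * T ^ (η * (p - 1))) *
        (2 * C₁ * ((4 * k) ^ μ' * T ^ μ') * ((k : ℝ) ^ η * T ^ η) * J) := by gcongr
      _ = V * (T ^ (η * p) * T ^ (η * (p - 1)) * (T ^ μ' * T ^ η)) := by rw [hV]; ring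
      _ ≤ V * T ^ (μ + ε) := mul_le_mul_of_nonneg_left hTpow hV0
  have hterm1 : a' ^ p * (3 * T) = (6 * 3 ^ k + 2) ^ p * 3 * (T * q ^ p) := by
    rw [ha', Real.mul_rpow (by positivity) hq0]; ring
  rw [hR, hterm1, ← hq]
  have hq1 : 0 ≤ T * q ^ p := by positivity
  have hT1 : 0 ≤ T ^ (μ + ε) := by positivity
  rw [mul_assoc (2 ^ (p - 1) : ℝ)]
  apply mul_le_mul_of_nonneg_left _ (by positivity)
  have h8 : 0 ≤ V * (T * q ^ p) := by positivity
  have h9 : 0 ≤ (6 * 3 ^ k + 2) ^ p * 3 * T ^ (μ + ε) := by positivity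
  linarith

end Pool.Agent.H476.OM
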