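import Pool.Agent.H476.OM5

set_option autoImplicit false

/-! One-sided moments of one section, part 6: the criteria. -/

open Complex MeasureTheory Filter Topology

namespace Pool.Agent.H476.OM

open Pool.Agent.H476.LS

/-- the moments of the section of length `⌊T^θ⌋` on `[T, 4T]` -/
def SecMom (p μ θ : ℝ) : Prop :=
  ∀ ε : ℝ, 0 < ε → ∃ C : ℝ, ∀ T : ℝ, 1 ≤ T → ∫ t in T..(4 * T), ‖P ⌊T ^ θ⌋₊ t‖ ^ p ≤ C * T ^ (μ + ε)

/-- the one-sided moments of this section -/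
def OneSidedMom (p μ θ : ℝ) (u : ℂ) : Prop :=
  ∀ ε : ℝ, 0 < ε → ∃ C : ℝ, ∀ T : ℝ, 1 ≤ T →
    ∫ t in T..(4 * T), max (u * P ⌊T ^ θ⌋₊ t).re 0 ^ p ≤ C * T ^ (μ + ε)

lemma P_cont (N : ℕ) : Continuous (P N) := by
  have := Q_cont N 0 (fun _ => 0) (fun _ => 0)
  have h2 : Q N 0 (fun _ => 0) (fun _ => 0) = P N := by funext t; exact Q_zero N _ _ t
  rwa [h2] at this

theorem secMom_of_momExp (p μ θ : ℝ) (hp : 1 ≤ p) (hμ : 1 ≤ μ) (hθ : 0 ≤ θ)
    (hθ2 : θ ≤ 2 + 2 * (μ - 1) / p) (h : MomExp p μ) : SecMom p μ θ := by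
  intro ε hε
  obtain ⟨C, hC, hsec⟩ := sec_mom p μ hp hμ h θ ε hε
  refine ⟨2 * C, fun T hT => ?_⟩
  have hT0 : 0 < T := by linarith
  have hp0 : 0 < p := by linarith
  obtain ⟨N, hN⟩ : ∃ N : ℕ, N = ⌊T ^ θ⌋₊ := ⟨_, rfl⟩
  rw [← hN]
  have hN1 : 1 ≤ N := by
    rw [hN]
    exact Nat.le_floor (by simpa using Real.one_le_rpow hT hθ)
  have hN2 : (N : ℝ) ≤ T ^ θ := by rw [hN]; exact Nat.floor_le (by positivity)
  have h1 := hsec T hT N hN1 hN2
  have h2 : T * (Real.sqrt N / T) ^ p ≤ T ^ (μ + ε) := by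
    have h3 : Real.sqrt N / T ≤ T ^ (θ / 2 - 1) := by
      have h4 : Real.sqrt N ≤ T ^ (θ / 2) := by
        calc Real.sqrt N ≤ Real.sqrt (T ^ θ) := Real.sqrt_le_sqrt hN2
          _ = T ^ (θ / 2) := by rw [Real.sqrt_eq_rpow, ← Real.rpow_mul hT0.le]; congr 1; ring
      rw [Real.rpow_sub hT0, Real.rpow_one]
      gcongr
    calc T * (Real.sqrt N / T) ^ p ≤ T * (T ^ (θ / 2 - 1)) ^ p := by
          apply mul_le_mul_of_nonneg_left _ hT0.le
          exact Real.rpow_le_rpow (by positivity) h3 hp0.le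
      _ = T ^ (1 + (θ / 2 - 1) * p) := by
          rw [← Real.rpow_mul hT0.le, Real.rpow_add hT0, Real.rpow_one]
      _ ≤ T ^ (μ + ε) := by
          apply Real.rpow_le_rpow_of_exponent_le hT
          have h5 : (θ / 2 - 1) * p ≤ μ - 1 := by
            have h6 : θ / 2 - 1 ≤ (μ - 1) / p := by
              have : 2 * (μ - 1) / p = 2 * ((μ - 1) / p) := by ring
              linarith
            calc (θ / 2 - 1) * p ≤ (μ - 1) / p * p := mul_le_mul_of_nonneg_right h6 hp0.le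
              _ = μ - 1 := by field_simp
          linarith
  refine h1.trans ?_
  nlinarith

theorem oneSidedMom_of_secMom (p μ θ : ℝ) (u : ℂ) (hp : 1 ≤ p) (hu : ‖u‖ = 1)
    (h : SecMom p μ θ) : OneSidedMom p μ θ u := by
  intro ε hε
  obtain ⟨C, hC⟩ := h ε hε
  refine ⟨C, fun T hT => ?_⟩
  have hp0 : 0 < p := by linarith
  refine le_trans ?_ (hC T hT)
  have hc : Continuous (P ⌊T ^ θ⌋₊) := P_cont _
  refine intervalIntegral.integral_mono_on (by linarith) ?_ ?_ ?_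
  · refine Continuous.intervalIntegrable ?_ _ _
    exact ((Complex.continuous_re.comp (continuous_const.mul hc)).max continuous_const).rpow_const
      fun _ => Or.inr hp0.le
  · exact (hc.norm.rpow_const fun _ => Or.inr hp0.le).intervalIntegrable _ _
  · intro t _
    refine Real.rpow_le_rpow (le_max_right _ _) (max_le ?_ (norm_nonneg _)) hp0.le
    calc (u * P ⌊T ^ θ⌋₊ t).re ≤ ‖u * P ⌊T ^ θ⌋₊ t‖ := Complex.re_le_norm _
      _ = _ := by rw [norm_mul, hu, one_mul]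

theorem someCont_of_oneSidedMom (p μ θ : ℝ) (u : ℂ) (hθ : 1 / 2 < θ) (hu : ‖u‖ = 1)
    (h : OneSidedMom p μ θ u) : SomeCont p μ := by
  intro ε hε
  obtain ⟨C, hC⟩ := h (ε / 2) (by positivity)
  obtain ⟨δ, hδ⟩ : ∃ δ : ℝ, δ = (θ - 1 / 2) / 2 := ⟨_, rfl⟩
  have hδ0 : 0 < δ := by rw [hδ]; linarith
  have hlim : ∀ᶠ T : ℝ in atTop, 2 ≤ T ^ (θ - (1 / 2 + δ)) :=
    (tendsto_rpow_atTop (by rw [hδ]; linarith : 0 < θ - (1 / 2 + δ))).eventually_ge_atTop 2
  have hlim2 : ∀ᶠ T : ℝ in atTop, |C| ≤ T ^ (ε / 2) :=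
    (tendsto_rpow_atTop (by positivity : 0 < ε / 2)).eventually_ge_atTop _
  obtain ⟨T₁, hT₁⟩ := eventually_atTop.1 (hlim.and hlim2)
  refine ⟨δ, θ, max T₁ 1, hδ0, fun T hT => ?_⟩
  have hTT1 : T₁ ≤ T := (le_max_left _ _).trans hT
  have hT1 : 1 ≤ T := (le_max_right _ _).trans hT
  have hT0 : 0 < T := by linarith
  obtain ⟨h1, h1'⟩ := hT₁ T hTT1
  refine ⟨⌊T ^ θ⌋₊, 0, fun _ => 0, fun _ => 0, u, ?_, Nat.floor_le (by positivity),
    fun j => j.elim0, by simp; positivity, hu, ?_⟩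
  · have h2 : T ^ θ = T ^ (θ - (1 / 2 + δ)) * T ^ (1 / 2 + δ) := by
      rw [← Real.rpow_add hT0]; congr 1; ring
    have h3 : 1 ≤ T ^ (1 / 2 + δ) := Real.one_le_rpow hT1 (by linarith)
    have h4 : 2 * T ^ (1 / 2 + δ) ≤ T ^ θ := by
      rw [h2]
      exact mul_le_mul_of_nonneg_right h1 (by positivity)
    have h5 := Nat.lt_floor_add_one (T ^ θ)
    linarith
  · simp_rw [Q_zero]
    refine (hC T hT1).trans ?_
    calc C * T ^ (μ + ε / 2) ≤ T ^ (ε / 2) * T ^ (μ + ε / 2) := by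
          apply mul_le_mul_of_nonneg_right _ (by positivity)
          exact (le_abs_self C).trans h1'
      _ = T ^ (μ + ε) := by rw [← Real.rpow_add hT0]; congr 1; ring

end Pool.Agent.H476.OM
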