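import Pool.Agent.H476.OM7
import Pool.Graph.R_pool_sql_team_seeded_b0a926ef.Results.MP_80d0cf_nt.HighMomentsInSectors

set_option autoImplicit false

/-! One-sided moments of one section, part 8: extreme values of the real part of every continuation
of every section, in short intervals. -/

open Complex MeasureTheory Filter Topology

namespace Pool.Agent.H476.OM

open Pool.Agent.H476.LS

/-- pointwise: a bound for the real part near `t₀` bounds zeta -/
lemma point_bound (A : ℝ) (hA : 0 ≤ A) : ∃ K C T₀ : ℝ, 0 < K ∧ 0 < C ∧ 24 ≤ T₀ ∧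
    ∀ T : ℝ, T₀ ≤ T → ∀ (N J : ℕ) (c : Fin J → ℂ) (lam : Fin J → ℝ),
    Real.log (2 * T) / 2 + K * Real.sqrt (Real.log (2 * T)) ≤ Real.log N → (N : ℝ) ≤ T ^ A →
    (∀ j, Real.log N ≤ lam j) → ∑ j, ‖c j‖ ≤ T ^ A → ∀ u : ℂ, ‖u‖ = 1 →
    ∀ t : ℝ, T ≤ t → t ≤ 2 * T → ∀ M : ℝ, 1 ≤ M →
    (∀ v : ℝ, |v| ≤ Real.log T → (u * Q N J c lam (t + v)).re ≤ M) →
    Z t ≤ C * Real.log T * M := by
  obtain ⟨K, T₁, hK, hT₁, hmain⟩ := main_ineq A hA
  obtain ⟨Mγ, hMγ⟩ : ∃ M : ℝ, M = ∫ v, Real.exp (v ^ 2 / 4) ∂γ := ⟨_, rfl⟩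
  have hM0 : 0 ≤ Mγ := by rw [hMγ]; exact integral_nonneg fun v => (Real.exp_pos _).le
  obtain ⟨K', hK'⟩ : ∃ K' : ℝ, K' = K * Real.exp (9 / 8) := ⟨_, rfl⟩
  have hK'0 : 0 < K' := by rw [hK']; positivity
  refine ⟨K, 2 * (Real.sqrt (2 * Real.pi) * (1 + 2 * Mγ) + K'), max T₁ (Real.exp (4 * A)), hK,
    by positivity, le_max_of_le_left hT₁, ?_⟩
  intro T hT N J c lam hN hNA hlam hc u hu t htT ht2 M hM hre
  have hT₁' : T₁ ≤ T := (le_max_left _ _).trans hT
  have hT2 : Real.exp (4 * A) ≤ T := (le_max_right _ _).trans hT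
  have hT24 : 24 ≤ T := hT₁.trans hT₁'
  have hT0 : 0 < T := by linarith
  have hL4 : 4 * A ≤ Real.log T := by rwa [Real.le_log_iff_exp_le hT0]
  have hL1 : 1 ≤ Real.log T := by
    rw [Real.le_log_iff_exp_le hT0]
    have := Real.exp_one_lt_d9
    linarith
  obtain ⟨L, hL⟩ : ∃ L : ℝ, L = Real.log T := ⟨_, rfl⟩
  rw [← hL] at hL1 hL4 hre ⊢
  have ht0 : 0 < t := by linarith
  have hlt : Real.log t ≤ Real.log (2 * T) := Real.log_le_log ht0 ht2
  have hlog2 : Real.log (2 * T) ≤ 2 * L := by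
    rw [Real.log_mul (by norm_num) hT0.ne', ← hL]
    have : Real.log 2 ≤ 1 := by
      have := Real.log_two_lt_d9
      linarith
    linarith
  have hlt1 : 1 ≤ Real.log t := by
    have := Real.log_le_log hT0 htT
    rw [← hL] at this
    linarith
  have h1 := hmain t (hT₁'.trans htT) 1 le_rfl hlt1 N J c lam (by
    rw [one_mul]
    have hsq : Real.sqrt (Real.log t) ≤ Real.sqrt (Real.log (2 * T)) := Real.sqrt_le_sqrt hlt
    have : K * Real.sqrt (Real.log t) ≤ K * Real.sqrt (Real.log (2 * T)) :=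
      mul_le_mul_of_nonneg_left hsq hK.le
    linarith) hlam (hc.trans (Real.rpow_le_rpow hT0.le htT hA)) u hu
  have e1 : (9 * (1 : ℝ) / 8) = 9 / 8 := by ring
  rw [e1, ← hK'] at h1
  have e2 := γ_int (fun v => max (u * Q N J c lam (t + v)).re 0)
  rw [e2] at h1
  have htail : 2 * T ^ A * Real.exp (-(L ^ 2 / 4)) ≤ 2 := by
    have h1 : T ^ A * Real.exp (-(L ^ 2 / 4)) ≤ 1 := by
      rw [Real.rpow_def_of_pos hT0, ← hL, ← Real.exp_add, ← Real.exp_zero]
      apply Real.exp_le_exp.2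
      nlinarith
    linarith
  have hg : ∀ v : ℝ, max (u * Q N J c lam (t + v)).re 0 ≤ M + 2 * Real.exp (v ^ 2 / 4) := by
    intro v
    have he : 0 < Real.exp (v ^ 2 / 4) := Real.exp_pos _
    rcases le_or_gt |v| L with hv | hv
    · have := hre v hv
      refine max_le ?_ ?_ <;> linarith
    · refine max_le ?_ (by linarith)
      have h3 : (u * Q N J c lam (t + v)).re ≤ 2 * T ^ A := by
        refine (Complex.re_le_norm _).trans ?_
        rw [norm_mul, hu, one_mul]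
        refine (Q_crude N J c lam (t + v)).trans ?_
        linarith
      have h4 : 1 ≤ Real.exp (-(L ^ 2 / 4)) * Real.exp (v ^ 2 / 4) := by
        rw [← Real.exp_add]
        apply Real.one_le_exp
        have : L ^ 2 ≤ v ^ 2 := by
          rw [← sq_abs v]; exact pow_le_pow_left₀ (by linarith) hv.le 2
        linarith
      have h5 : 0 ≤ 2 * T ^ A := by positivity
      calc (u * Q N J c lam (t + v)).re ≤ 2 * T ^ A := h3
        _ ≤ 2 * T ^ A * (Real.exp (-(L ^ 2 / 4)) * Real.exp (v ^ 2 / 4)) :=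
            le_mul_of_one_le_right h5 h4
        _ = (2 * T ^ A * Real.exp (-(L ^ 2 / 4))) * Real.exp (v ^ 2 / 4) := by ring
        _ ≤ 2 * Real.exp (v ^ 2 / 4) := mul_le_mul_of_nonneg_right htail he.le
        _ ≤ M + 2 * Real.exp (v ^ 2 / 4) := by linarith
  have hint : Integrable (fun v : ℝ => M + 2 * Real.exp (v ^ 2 / 4)) γ :=
    (integrable_const _).add (γ_exp.const_mul _)
  have hI : ∫ v, max (u * Q N J c lam (t + v)).re 0 ∂γ ≤ M + 2 * Mγ := by
    calc ∫ v, max (u * Q N J c lam (t + v)).re 0 ∂γ ≤ ∫ v, (M + 2 * Real.exp (v ^ 2 / 4)) ∂γ :=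
          integral_mono_of_nonneg (Eventually.of_forall fun v => le_max_right _ _) hint
            (Eventually.of_forall hg)
      _ = M + 2 * Mγ := by
          rw [integral_add (integrable_const _) (γ_exp.const_mul _), integral_const,
            integral_const_mul, ← hMγ]
          simp
  have hs0 : 0 < Real.sqrt (2 * Real.pi) := by positivity
  have hfin : Real.sqrt (2 * Real.pi) * (∫ v, max (u * Q N J c lam (t + v)).re 0 ∂γ) + K' ≤
      (Real.sqrt (2 * Real.pi) * (1 + 2 * Mγ) + K') * M := by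
    have h3 := mul_le_mul_of_nonneg_left hI hs0.le
    have h4 : Real.sqrt (2 * Real.pi) * (M + 2 * Mγ) ≤ Real.sqrt (2 * Real.pi) * ((1 + 2 * Mγ) * M) := by
      apply mul_le_mul_of_nonneg_left _ hs0.le
      nlinarith
    nlinarith
  have hnn : 0 ≤ (Real.sqrt (2 * Real.pi) * (1 + 2 * Mγ) + K') * M := by positivity
  calc Z t ≤ Real.log t * (Real.sqrt (2 * Real.pi) *
        (∫ v, max (u * Q N J c lam (t + v)).re 0 ∂γ) + K') := h1
    _ ≤ Real.log t * ((Real.sqrt (2 * Real.pi) * (1 + 2 * Mγ) + K') * M) :=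
        mul_le_mul_of_nonneg_left hfin (by linarith)
    _ ≤ (2 * L) * ((Real.sqrt (2 * Real.pi) * (1 + 2 * Mγ) + K') * M) :=
        mul_le_mul_of_nonneg_right (hlt.trans hlog2) hnn
    _ = 2 * (Real.sqrt (2 * Real.pi) * (1 + 2 * Mγ) + K') * L * M := by ring

/-- extreme values of zeta in short intervals (library) -/
lemma zeta_extreme (ε : ℝ) (hε : 0 < ε) : ∃ c : ℝ, 0 < c ∧ ∀ᶠ T : ℝ in atTop, ∀ H : ℝ, T ^ ε ≤ H →
    H ≤ T → ∃ t : ℝ, T ≤ t ∧ t ≤ T + H ∧
      Real.exp (c * Real.sqrt (Real.log T / Real.log (Real.log T))) ≤ Z t := by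
  obtain ⟨c, hc, h⟩ := Pool.Agent.Results.MP_80d0cf_nt.HighMomentsInSectors.result ε 0 hε (by norm_num)
  refine ⟨c, hc, ?_⟩
  filter_upwards [h] with T hT H h1 h2
  obtain ⟨⟨t, ht, ht2⟩, -⟩ := hT H h1 h2 1 norm_one
  exact ⟨t, ht.1.1, ht.1.2, ht2⟩

/-- **extreme values of the real part of every continuation of every section** -/
theorem extreme (A ε : ℝ) (hA : 0 ≤ A) (hε : 0 < ε) : ∃ K c₀ T₀ : ℝ, 0 < c₀ ∧ 24 ≤ T₀ ∧
    ∀ T : ℝ, T₀ ≤ T → ∀ H : ℝ, T ^ ε ≤ H → H ≤ T →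
    ∀ (N J : ℕ) (c : Fin J → ℂ) (lam : Fin J → ℝ),
    Real.log (2 * T) / 2 + K * Real.sqrt (Real.log (2 * T)) ≤ Real.log N → (N : ℝ) ≤ T ^ A →
    (∀ j, Real.log N ≤ lam j) → ∑ j, ‖c j‖ ≤ T ^ A → ∀ u : ℂ, ‖u‖ = 1 →
    ∃ t : ℝ, T ≤ t ∧ t ≤ T + H ∧
      Real.exp (c₀ * Real.sqrt (Real.log T / Real.log (Real.log T))) ≤ (u * Q N J c lam t).re := by
  obtain ⟨K, C, T₁, hK, hC, hT₁, hpt⟩ := point_bound A hA
  obtain ⟨c, hc, hz⟩ := zeta_extreme (ε / 2) (by positivity)
  obtain ⟨T₂, hT₂⟩ := eventually_atTop.1 hz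
  have E2 : ∀ᶠ T : ℝ in atTop, 2 * 2 ^ (ε / 2) ≤ T ^ (ε / 2) :=
    (tendsto_rpow_atTop (by positivity)).eventually_ge_atTop _
  have E3 : ∀ᶠ T : ℝ in atTop, Real.log T ≤ 1 / 4 * T ^ ε := by
    have h1 := (isLittleO_log_rpow_atTop hε).def (show (0 : ℝ) < 1 / 4 by norm_num)
    filter_upwards [h1, eventually_ge_atTop 1] with T h2 h3
    rw [Real.norm_of_nonneg (Real.log_nonneg h3), Real.norm_of_nonneg (by positivity)] at h2
    exact h2
  obtain ⟨D, hD⟩ : ∃ D : ℝ, D = |Real.log C| + 1 := ⟨_, rfl⟩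
  have hD1 : 1 ≤ D := by rw [hD]; linarith [abs_nonneg (Real.log C)]
  have E4 : ∀ᶠ x : ℝ in atTop, 64 / c ^ 2 * Real.log x ^ 3 ≤ x ∧ D ≤ Real.log x := by
    have h1 := (Real.isLittleO_pow_log_id_atTop (n := 3)).def (show (0 : ℝ) < c ^ 2 / 64 by positivity)
    filter_upwards [h1, Real.tendsto_log_atTop.eventually_ge_atTop D, eventually_ge_atTop 1]
      with x h2 h3 h4
    refine ⟨?_, h3⟩
    rw [Real.norm_of_nonneg (by have := Real.log_nonneg h4; positivity), id,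
      Real.norm_of_nonneg (by linarith)] at h2
    rw [div_mul_eq_mul_div, div_le_iff₀ (by positivity)]
    rw [div_mul_eq_mul_div, le_div_iff₀ (by norm_num)] at h2
    linarith
  obtain ⟨T₃, hT₃⟩ := eventually_atTop.1 (E2.and (E3.and (Real.tendsto_log_atTop.eventually E4)))
  refine ⟨K, c / 4, max T₁ (max T₂ T₃), by positivity, le_max_of_le_left hT₁, ?_⟩
  intro T hT H hH1 hH2 N J c' lam hN hNA hlam hc' u hu
  have h1 : T₁ ≤ T := (le_max_left _ _).trans hT
  have h2 : T₂ ≤ T := (le_max_left _ _).trans ((le_max_right _ _).trans hT)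
  have h3 : T₃ ≤ T := (le_max_right _ _).trans ((le_max_right _ _).trans hT)
  have hT24 : 24 ≤ T := hT₁.trans h1
  have hT0 : 0 < T := by linarith
  obtain ⟨e2, e3, e4, e5⟩ := hT₃ T h3
  obtain ⟨x, hx⟩ : ∃ x : ℝ, x = Real.log T := ⟨_, rfl⟩
  obtain ⟨y, hy⟩ : ∃ y : ℝ, y = Real.log x := ⟨_, rfl⟩
  rw [← hx] at e3 e4 e5 ⊢
  rw [← hy] at e4 e5 ⊢
  have hy1 : 1 ≤ y := hD1.trans e5
  have hy0 : 0 < y := by linarith
  have hx0 : 0 < x := by
    by_contra hcon
    have : T ≤ 1 := by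
      by_contra h4
      have := Real.log_pos (lt_of_not_ge h4)
      rw [← hx] at this
      exact hcon this
    linarith
  have hx2 : 2 ≤ x := by
    have h4 := Real.log_le_sub_one_of_pos hx0
    rw [← hy] at h4
    linarith
  obtain ⟨s, hs⟩ : ∃ s : ℝ, s = Real.sqrt (x / y) := ⟨_, rfl⟩
  rw [← hs]
  have hs0 : 0 ≤ s := by rw [hs]; exact Real.sqrt_nonneg _
  have hsy : 8 / c * y ≤ s := by
    rw [hs]
    apply Real.le_sqrt_of_sq_le
    rw [le_div_iff₀ hy0]
    calc (8 / c * y) ^ 2 * y = 64 / c ^ 2 * y ^ 3 := by ring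
      _ ≤ x := e4
  by_contra hcon
  push Not at hcon
  -- the point
  have hxT : x ≤ T := by
    have := Real.log_le_sub_one_of_pos hT0
    rw [← hx] at this
    linarith
  have hTε : T ^ ε = T ^ (ε / 2) * T ^ (ε / 2) := by
    rw [← Real.rpow_add hT0]; congr 1; ring
  have hT' : T ≤ T + x := by linarith
  have hT'2 : T + x ≤ 2 * T := by linarith
  have hc1 : (T + x) ^ (ε / 2) ≤ H / 2 := by
    have h4 : (T + x) ^ (ε / 2) ≤ 2 ^ (ε / 2) * T ^ (ε / 2) := by
      rw [← Real.mul_rpow (by norm_num) hT0.le]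
      exact Real.rpow_le_rpow (by linarith) hT'2 (by positivity)
    have h5 : 2 * 2 ^ (ε / 2) * T ^ (ε / 2) ≤ T ^ (ε / 2) * T ^ (ε / 2) :=
      mul_le_mul_of_nonneg_right e2 (by positivity)
    linarith
  obtain ⟨t, ht1, ht2, ht3⟩ := hT₂ (T + x) (by linarith) (H / 2) hc1 (by linarith)
  have hxH : x ≤ H / 4 := by linarith
  have hZ := hpt T h1 N J c' lam hN hNA hlam hc' u hu t (by linarith) (by linarith)
    (Real.exp (c / 4 * s)) (Real.one_le_exp (by positivity)) (fun v hv => by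
      rw [← hx] at hv
      have hv' := abs_le.1 hv
      exact (hcon (t + v) (by linarith [hv'.1]) (by linarith [hv'.2])).le)
  rw [← hx] at hZ
  have h6 := ht3.trans hZ
  -- comparison of the two heights
  have hx' : x ≤ Real.log (T + x) := by rw [hx]; exact Real.log_le_log hT0 (by rw [← hx]; linarith)
  have hx'2 : Real.log (T + x) ≤ x ^ 2 := by
    have h7 : Real.log (T + x) ≤ Real.log (2 * T) := Real.log_le_log (by linarith) hT'2
    rw [Real.log_mul (by norm_num) hT0.ne', ← hx] at h7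
    have h8 : Real.log 2 ≤ 1 := by
      have := Real.log_two_lt_d9
      linarith
    nlinarith
  have hy'1 : y ≤ Real.log (Real.log (T + x)) := by rw [hy]; exact Real.log_le_log hx0 hx'
  have hy' : Real.log (Real.log (T + x)) ≤ 2 * y := by
    have h7 := Real.log_le_log (by linarith) hx'2
    rw [Real.log_pow, ← hy] at h7
    push_cast at h7
    exact h7
  have hs' : s / 2 ≤ Real.sqrt (Real.log (T + x) / Real.log (Real.log (T + x))) := by
    apply Real.le_sqrt_of_sq_le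
    rw [le_div_iff₀ (by linarith)]
    have h7 : (s / 2) ^ 2 = x / y / 4 := by
      rw [div_pow, hs, Real.sq_sqrt (by positivity)]
      norm_num
    rw [h7]
    calc x / y / 4 * Real.log (Real.log (T + x)) ≤ x / y / 4 * (2 * y) :=
          mul_le_mul_of_nonneg_left hy' (by positivity)
      _ = x / 2 := by field_simp; ring
      _ ≤ Real.log (T + x) := by linarith
  have h8 : Real.exp (c * (s / 2)) ≤ C * x * Real.exp (c / 4 * s) :=
    (Real.exp_le_exp.2 (mul_le_mul_of_nonneg_left hs' hc.le)).trans h6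
  have h9 : C * x = Real.exp (Real.log C + y) := by
    rw [Real.exp_add, Real.exp_log hC, hy, Real.exp_log hx0]
  rw [h9, ← Real.exp_add, Real.exp_le_exp] at h8
  have h10 : c / 4 * (8 / c * y) ≤ c / 4 * s := mul_le_mul_of_nonneg_left hsy (by positivity)
  have h11 : c / 4 * (8 / c * y) = 2 * y := by field_simp; ring
  have h12 : Real.log C + 1 ≤ y := by
    have := le_abs_self (Real.log C)
    linarith
  linarith

end Pool.Agent.H476.OM
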