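import Mathlib

open Complex Filter Topology Set

namespace Pool.Agent.H476

/-- `s (s-1) Λ(s)`, entire -/
noncomputable def X (s : ℂ) : ℂ := s * (s - 1) * completedRiemannZeta₀ s + 1

/-- `(s-1) ζ(s)` -/
noncomputable def Z1 (s : ℂ) : ℂ := X s / (s * Gammaℝ s)

/-- logarithmic derivative of `(s-1) ζ(s)` -/
noncomputable def gt (s : ℂ) : ℂ := logDeriv Z1 s

lemma X_diff : Differentiable ℂ X := by
  unfold X
  exact ((differentiable_id.mul (differentiable_id.sub_const 1)).mul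
    differentiable_completedZeta₀).add_const 1

lemma X_eq {s : ℂ} (h0 : s ≠ 0) (h1 : s ≠ 1) : X s = s * (s - 1) * completedRiemannZeta s := by
  unfold X
  rw [completedRiemannZeta_eq]
  have h2 : (1 : ℂ) - s ≠ 0 := sub_ne_zero.2 (Ne.symm h1)
  field_simp
  ring

lemma X_symm (s : ℂ) : X (1 - s) = X s := by
  unfold X
  rw [completedRiemannZeta₀_one_sub]
  ring

lemma X_one : X 1 = 1 := by simp [X]

lemma Gammaℝ_ne {s : ℂ} (hs : 0 < s.re) : Gammaℝ s ≠ 0 := Gammaℝ_ne_zero_of_re_pos hs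

lemma sG_ne {s : ℂ} (hs : 0 < s.re) : s * Gammaℝ s ≠ 0 :=
  mul_ne_zero (by rintro rfl; simp at hs) (Gammaℝ_ne hs)

lemma Z1_eq {s : ℂ} (hs : 0 < s.re) (h1 : s ≠ 1) : Z1 s = (s - 1) * riemannZeta s := by
  have h0 : s ≠ 0 := by rintro rfl; simp at hs
  unfold Z1
  rw [X_eq h0 h1, riemannZeta_def_of_ne_zero h0]
  have := Gammaℝ_ne hs
  field_simp

lemma Z1_one : Z1 1 = 1 := by simp [Z1, X_one, Gammaℝ_one]

lemma Gammaℝ_an {s : ℂ} (hs : 0 < s.re) : AnalyticAt ℂ Gammaℝ s := by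
  have h : DifferentiableOn ℂ Gammaℝ {z : ℂ | 0 < z.re} := by
    intro z hz
    have hz : 0 < z.re := hz
    unfold Gammaℝ
    refine DifferentiableAt.differentiableWithinAt ?_
    refine DifferentiableAt.mul ?_ ?_
    · refine DifferentiableAt.const_cpow ?_ (Or.inl (by exact_mod_cast Real.pi_ne_zero))
      fun_prop
    · refine DifferentiableAt.comp z (f := fun z : ℂ => z / 2) (g := Gamma) ?_ (by fun_prop)
      refine differentiableAt_Gamma _ fun m h => ?_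
      have := congrArg re h
      simp at this
      have hm : (0 : ℝ) ≤ m := Nat.cast_nonneg m
      linarith
  exact h.analyticAt ((isOpen_lt continuous_const continuous_re).mem_nhds hs)

lemma Z1_an {s : ℂ} (hs : 0 < s.re) : AnalyticAt ℂ Z1 s :=
  (X_diff.analyticAt s).div (analyticAt_id.mul (Gammaℝ_an hs)) (sG_ne hs)

lemma X_eq_Z1 {s : ℂ} (hs : 0 < s.re) : X s = s * Gammaℝ s * Z1 s := by
  unfold Z1
  rw [mul_div_cancel₀ _ (sG_ne hs)]

lemma X_zero_iff {s : ℂ} (hs : 0 < s.re) : X s = 0 ↔ Z1 s = 0 := by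
  rw [X_eq_Z1 hs]
  simp [sG_ne hs]

/-- under RH the zeros of `Z1` in `Re s > 0` lie on the line -/
lemma Z1_zero_re (hRH : RiemannHypothesis) {s : ℂ} (hs : 0 < s.re) (h : Z1 s = 0) :
    s.re = 1 / 2 := by
  have h1 : s ≠ 1 := by
    rintro rfl
    rw [Z1_one] at h
    exact one_ne_zero h
  rw [Z1_eq hs h1] at h
  have h2 : riemannZeta s = 0 := (mul_eq_zero.1 h).resolve_left (sub_ne_zero.2 h1)
  refine hRH s h2 ?_ h1
  rintro ⟨n, rfl⟩
  simp at hs
  have hm : (0 : ℝ) ≤ n := Nat.cast_nonneg n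
  linarith

lemma Z1_ne (hRH : RiemannHypothesis) {s : ℂ} (hs : 1 / 2 < s.re) : Z1 s ≠ 0 := by
  intro h
  have := Z1_zero_re hRH (by linarith) h
  linarith

lemma X_ne (hRH : RiemannHypothesis) {s : ℂ} (hs : 1 / 2 < s.re) : X s ≠ 0 := by
  rw [Ne, X_zero_iff (by linarith)]
  exact Z1_ne hRH hs

lemma X_ne' (hRH : RiemannHypothesis) {s : ℂ} (hs : s.re ≠ 1 / 2) : X s ≠ 0 := by
  rcases lt_or_gt_of_ne hs with h | h
  · rw [← X_symm]
    exact X_ne hRH (by simp; linarith)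
  · exact X_ne hRH h

lemma zeta_ne (hRH : RiemannHypothesis) {s : ℂ} (hs : 1 / 2 < s.re) (h1 : s ≠ 1) :
    riemannZeta s ≠ 0 := by
  intro h
  apply Z1_ne hRH hs
  rw [Z1_eq (by linarith) h1, h, mul_zero]

/-! ### conjugation -/

lemma zeta_conj_of_one_lt {s : ℂ} (hs : 1 < s.re) :
    riemannZeta ((starRingEnd ℂ) s) = (starRingEnd ℂ) (riemannZeta s) := by
  rw [zeta_eq_tsum_one_div_nat_cpow hs, zeta_eq_tsum_one_div_nat_cpow (by simpa using hs),
    conj_tsum]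
  refine tsum_congr fun n => ?_
  rw [map_div₀, map_one]
  congr 1
  have h : ((n : ℂ)).arg ≠ Real.pi := by
    rw [natCast_arg]
    exact Real.pi_ne_zero.symm
  rw [cpow_conj _ _ h]
  simp

lemma Gammaℝ_conj (s : ℂ) : Gammaℝ ((starRingEnd ℂ) s) = (starRingEnd ℂ) (Gammaℝ s) := by
  unfold Gammaℝ
  rw [map_mul, ← Gamma_conj]
  congr 1
  · have h : ((Real.pi : ℂ)).arg ≠ Real.pi := by
      rw [arg_ofReal_of_nonneg Real.pi_pos.le]
      exact Real.pi_ne_zero.symm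
    have h2 : (starRingEnd ℂ) (Real.pi : ℂ) = (Real.pi : ℂ) := conj_ofReal _
    have := cpow_conj (Real.pi : ℂ) (-s / 2) h
    rw [h2] at this
    rw [← this]
    simp [conj_ofNat]
  · simp [conj_ofNat]

lemma Z1_conj_of_one_lt {s : ℂ} (hs : 1 < s.re) :
    Z1 ((starRingEnd ℂ) s) = (starRingEnd ℂ) (Z1 s) := by
  have h1 : s ≠ 1 := by rintro rfl; simp at hs
  have h1' : (starRingEnd ℂ) s ≠ 1 := by
    intro h
    apply h1
    have := congrArg (starRingEnd ℂ) h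
    simpa using this
  rw [Z1_eq (by linarith) h1, Z1_eq (by simp; linarith) h1', zeta_conj_of_one_lt hs]
  simp

lemma X_conj (s : ℂ) : X ((starRingEnd ℂ) s) = (starRingEnd ℂ) (X s) := by
  have hd : Differentiable ℂ (fun z => (starRingEnd ℂ) (X ((starRingEnd ℂ) z))) := fun z => by
    have := (X_diff ((starRingEnd ℂ) z)).conj_conj
    rw [Complex.conj_conj] at this
    exact this
  have h1 : (fun z => (starRingEnd ℂ) (X ((starRingEnd ℂ) z))) = X := by
    refine AnalyticOnNhd.eq_of_eventuallyEq (𝕜 := ℂ) (z₀ := 2) (fun z _ => hd.analyticAt z)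
      (fun z _ => X_diff.analyticAt z) ?_
    have : {z : ℂ | 1 < z.re} ∈ 𝓝 (2 : ℂ) :=
      (isOpen_lt continuous_const continuous_re).mem_nhds (by simp)
    filter_upwards [this] with z hz
    have hz : 1 < z.re := hz
    rw [X_eq_Z1 (s := (starRingEnd ℂ) z) (by simp; linarith), X_eq_Z1 (by linarith : 0 < z.re),
      Z1_conj_of_one_lt hz, Gammaℝ_conj]
    simp
  have h2 := congrFun h1 ((starRingEnd ℂ) s)
  rw [← h2, Complex.conj_conj]

lemma Z1_conj (s : ℂ) : Z1 ((starRingEnd ℂ) s) = (starRingEnd ℂ) (Z1 s) := by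
  unfold Z1
  rw [X_conj, Gammaℝ_conj]
  simp

lemma deriv_conj_of {f : ℂ → ℂ} (hf : ∀ s, f ((starRingEnd ℂ) s) = (starRingEnd ℂ) (f s)) (s : ℂ) :
    deriv f ((starRingEnd ℂ) s) = (starRingEnd ℂ) (deriv f s) := by
  have h : f = (starRingEnd ℂ) ∘ f ∘ (starRingEnd ℂ) := by
    funext z
    simp [hf]
  have h2 := deriv_conj_conj (f := f)
  conv_lhs => rw [h, h2]
  simp

lemma gt_conj (s : ℂ) : gt ((starRingEnd ℂ) s) = (starRingEnd ℂ) (gt s) := by
  unfold gt
  rw [logDeriv_apply, logDeriv_apply, deriv_conj_of Z1_conj, Z1_conj]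
  simp

end Pool.Agent.H476
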