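import Pool.Agent.H476.ZA
import Pool.Graph.R_seed8.H370R2.DirGood
import Pool.Graph.R_seed8.H370R2.Local

open Complex Filter Topology Set Metric

namespace Pool.Agent.H476

lemma compact_strip (a b c d : ℝ) : IsCompact (Icc a b ×ℂ Icc c d) :=
  isCompact_Icc.reProdIm isCompact_Icc

/-- polynomial growth of `(s-1) ζ(s)` -/
lemma Z1_growth : ∃ C A : ℝ, 1 ≤ C ∧ 0 < A ∧ ∀ s : ℂ, (1 / 16 : ℝ) ≤ s.re → s.re ≤ 4 →
    ‖Z1 s‖ ≤ C * (3 + |s.im|) ^ A := by
  obtain ⟨C, A, hC, hA, hg⟩ := H370.good_zeta.growth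
  have hK : IsCompact (Icc (1 / 16 : ℝ) 4 ×ℂ Icc (-1 : ℝ) 1) := compact_strip _ _ _ _
  have hcont : ContinuousOn Z1 (Icc (1 / 16 : ℝ) 4 ×ℂ Icc (-1 : ℝ) 1) := by
    intro z hz
    have hz1 : (1 / 16 : ℝ) ≤ z.re := hz.1.1
    exact (Z1_an (by linarith)).continuousAt.continuousWithinAt
  obtain ⟨B, hB⟩ := hK.exists_bound_of_continuousOn hcont
  refine ⟨3 * C + |B| + 1, A + 1, by linarith [abs_nonneg B, hC.le], by linarith, ?_⟩
  -- upper part
  have hup : ∀ s : ℂ, (1 / 16 : ℝ) ≤ s.re → s.re ≤ 4 → 1 ≤ s.im →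
      ‖Z1 s‖ ≤ 3 * C * (3 + |s.im|) ^ (A + 1) := by
    intro s h1 h2 h3
    have hs1 : s ≠ 1 := by
      rintro rfl
      norm_num at h3
    rw [Z1_eq (by linarith) hs1, norm_mul]
    have e1 : ‖s - 1‖ ≤ 3 * (3 + |s.im|) := by
      have := norm_le_abs_re_add_abs_im (s - 1)
      simp only [sub_re, one_re, sub_im, one_im, sub_zero] at this
      have h4 : |s.re - 1| ≤ 3 := by rw [abs_le]; constructor <;> linarith
      have h5 := abs_nonneg s.im
      linarith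
    have e2 : ‖riemannZeta s‖ ≤ C * (3 + |s.im|) ^ A := by
      refine (hg s h1 h2 h3).trans ?_
      have : s.im ≤ 3 + |s.im| := by have := le_abs_self s.im; linarith
      have h6 : s.im ^ A ≤ (3 + |s.im|) ^ A := Real.rpow_le_rpow (by linarith) this hA.le
      exact mul_le_mul_of_nonneg_left h6 hC.le
    have h7 : 0 < 3 + |s.im| := by positivity
    calc ‖s - 1‖ * ‖riemannZeta s‖ ≤ (3 * (3 + |s.im|)) * (C * (3 + |s.im|) ^ A) :=
          mul_le_mul e1 e2 (norm_nonneg _) (by positivity)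
      _ = 3 * C * (3 + |s.im|) ^ (A + 1) := by
          rw [Real.rpow_add h7, Real.rpow_one]; ring
  intro s h1 h2
  have h7 : 0 < 3 + |s.im| := by positivity
  have h8 : 1 ≤ (3 + |s.im|) ^ (A + 1) := Real.one_le_rpow (by linarith [abs_nonneg s.im])
    (by linarith)
  have hbig : 3 * C * (3 + |s.im|) ^ (A + 1) ≤ (3 * C + |B| + 1) * (3 + |s.im|) ^ (A + 1) := by
    have := abs_nonneg B
    nlinarith
  rcases le_or_gt 1 s.im with h | h
  · exact (hup s h1 h2 h).trans hbig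
  · rcases le_or_gt s.im (-1) with h' | h'
    · have := hup ((starRingEnd ℂ) s) (by simpa using h1) (by simpa using h2)
        (by simp; linarith)
      rw [Z1_conj, RCLike.norm_conj] at this
      simp only [conj_im, abs_neg] at this
      exact this.trans hbig
    · have := hB s ⟨⟨h1, h2⟩, ⟨h'.le, h.le⟩⟩
      have h9 : B ≤ |B| := le_abs_self B
      have h10 := abs_nonneg B
      nlinarith

lemma Z1_ne_one_le {s : ℂ} (hs : 1 ≤ s.re) : Z1 s ≠ 0 := by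
  by_cases h : s = 1
  · rw [h, Z1_one]; exact one_ne_zero
  · rw [Z1_eq (by linarith) h]
    exact mul_ne_zero (sub_ne_zero.2 h) (riemannZeta_ne_zero_of_one_le_re hs)

lemma Z1_lower : ∃ c : ℝ, 0 < c ∧ ∀ t : ℝ, c ≤ ‖Z1 (⟨2, t⟩ : ℂ)‖ := by
  obtain ⟨c, hc, hl⟩ := H370.good_zeta.lower
  have hK : IsCompact (Icc (-1 : ℝ) 1) := isCompact_Icc
  have hcont : ContinuousOn (fun t : ℝ => ‖Z1 (⟨2, t⟩ : ℂ)‖) (Icc (-1 : ℝ) 1) := by
    intro t _
    refine ContinuousAt.continuousWithinAt ?_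
    have h1 : ContinuousAt Z1 (⟨2, t⟩ : ℂ) := (Z1_an (by simp)).continuousAt
    have h2 : ContinuousAt (fun t : ℝ => (⟨2, t⟩ : ℂ)) t := by
      have : (fun t : ℝ => (⟨2, t⟩ : ℂ)) = fun t : ℝ => (2 : ℂ) + t * I := by
        funext u; apply Complex.ext <;> simp
      rw [this]; fun_prop
    exact (h1.comp h2).norm
  obtain ⟨t0, ht0, hmin⟩ := hK.exists_isMinOn (nonempty_Icc.2 (by norm_num)) hcont
  have hpos : 0 < ‖Z1 (⟨2, t0⟩ : ℂ)‖ := norm_pos_iff.2 (Z1_ne_one_le (by norm_num))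
  have hup : ∀ t : ℝ, 1 ≤ t → c ≤ ‖Z1 (⟨2, t⟩ : ℂ)‖ := by
    intro t ht
    have h1 : (⟨2, t⟩ : ℂ) ≠ 1 := by
      intro h
      have := congrArg re h
      norm_num at this
    rw [Z1_eq (by norm_num) h1, norm_mul]
    have e1 : 1 ≤ ‖(⟨2, t⟩ : ℂ) - 1‖ := by
      have := abs_re_le_norm ((⟨2, t⟩ : ℂ) - 1)
      norm_num at this
      exact this
    have e2 := hl t ht
    nlinarith [norm_nonneg (riemannZeta (⟨2, t⟩ : ℂ))]
  refine ⟨min c ‖Z1 (⟨2, t0⟩ : ℂ)‖, lt_min hc hpos, fun t => ?_⟩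
  rcases le_or_gt 1 t with h | h
  · exact (min_le_left _ _).trans (hup t h)
  · rcases le_or_gt t (-1) with h' | h'
    · have h2 := hup (-t) (by linarith)
      have h3 : (⟨2, -t⟩ : ℂ) = (starRingEnd ℂ) (⟨2, t⟩ : ℂ) := by apply Complex.ext <;> simp
      rw [h3, Z1_conj, RCLike.norm_conj] at h2
      exact (min_le_left _ _).trans h2
    · exact (min_le_right _ _).trans (hmin ⟨h'.le, h.le⟩)

/-- zeros in the ball about `2+it` -/
lemma ball_sub {t : ℝ} {z : ℂ} {r : ℝ} (hz : z ∈ closedBall (⟨2, t⟩ : ℂ) r) :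
    2 - r ≤ z.re ∧ z.re ≤ 2 + r ∧ |z.im| ≤ |t| + r := by
  rw [mem_closedBall, dist_eq_norm] at hz
  have h1 := (Complex.abs_re_le_norm (z - ⟨2, t⟩)).trans hz
  have h2 := (Complex.abs_im_le_norm (z - ⟨2, t⟩)).trans hz
  simp only [sub_re, sub_im] at h1 h2
  have h3 : |z.im| ≤ |t| + |z.im - t| := by
    have := abs_add_le t (z.im - t)
    rwa [add_sub_cancel] at this
  rw [abs_le] at h1
  exact ⟨by linarith, by linarith, by linarith⟩

/-- data in the ball of radius 1.9 -/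
lemma Z1_ball : ∃ K : ℝ, 0 < K ∧ ∀ t : ℝ, ∃ M : ℝ, 1 ≤ M ∧
    AnalyticOnNhd ℂ Z1 (closedBall (⟨2, t⟩ : ℂ) 1.9) ∧ Z1 ⟨2, t⟩ ≠ 0 ∧
      (∀ z ∈ closedBall (⟨2, t⟩ : ℂ) 1.9, ‖Z1 z‖ ≤ M) ∧ ‖Z1 ⟨2, t⟩‖ ≤ M ∧
      0 ≤ Real.log (M / ‖Z1 ⟨2, t⟩‖) ∧ Real.log (M / ‖Z1 ⟨2, t⟩‖) ≤ K * Real.log (3 + |t|) := by
  obtain ⟨C, A, hC, hA, hg⟩ := Z1_growth
  obtain ⟨c, hc, hl⟩ := Z1_lower
  refine ⟨|Real.log (C / c)| + 2 * A, by positivity, fun t => ?_⟩
  have ht := abs_nonneg t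
  set M : ℝ := C * (3 + |t| + 2) ^ A with hM
  have hM1 : 1 ≤ M := by
    have : 1 ≤ (3 + |t| + 2) ^ A := Real.one_le_rpow (by linarith) hA.le
    nlinarith
  have hb : ∀ z ∈ closedBall (⟨2, t⟩ : ℂ) 1.9, ‖Z1 z‖ ≤ M := by
    intro z hz
    obtain ⟨h1, h2, h3⟩ := ball_sub hz
    refine (hg z (by norm_num at h1 ⊢; linarith) (by norm_num at h2 ⊢; linarith)).trans ?_
    have h4 : (3 + |z.im|) ^ A ≤ (3 + |t| + 2) ^ A :=
      Real.rpow_le_rpow (by positivity) (by norm_num at h3 ⊢; linarith) hA.le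
    exact mul_le_mul_of_nonneg_left h4 (by linarith)
  have hne : Z1 ⟨2, t⟩ ≠ 0 := Z1_ne_one_le (by norm_num)
  have hpos : 0 < ‖Z1 ⟨2, t⟩‖ := norm_pos_iff.2 hne
  have hcM : ‖Z1 ⟨2, t⟩‖ ≤ M := hb _ (mem_closedBall_self (by norm_num))
  refine ⟨M, hM1, ?_, hne, hb, hcM, Real.log_nonneg (by rw [le_div_iff₀ hpos]; linarith), ?_⟩
  · intro z hz
    obtain ⟨h1, -, -⟩ := ball_sub hz
    exact Z1_an (by norm_num at h1 ⊢; linarith)
  · have hc0 := hl t
    have hl1 : 1 ≤ Real.log (3 + |t|) := by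
      rw [Real.le_log_iff_exp_le (by linarith)]
      linarith [Real.exp_one_lt_d9]
    calc Real.log (M / ‖Z1 ⟨2, t⟩‖) ≤ Real.log (M / c) := by
          apply Real.log_le_log (by positivity)
          exact div_le_div_of_nonneg_left (by linarith) hc hc0
      _ = Real.log (C / c) + A * Real.log (3 + |t| + 2) := by
          rw [hM, mul_div_right_comm, Real.log_mul (by positivity) (by positivity),
            Real.log_rpow (by positivity)]
      _ ≤ |Real.log (C / c)| * Real.log (3 + |t|) + A * (2 * Real.log (3 + |t|)) := by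
          have e1 : Real.log (3 + |t| + 2) ≤ 2 * Real.log (3 + |t|) := by
            have : Real.log (3 + |t| + 2) ≤ Real.log ((3 + |t|) ^ 2) :=
              Real.log_le_log (by linarith) (by nlinarith)
            rwa [Real.log_pow] at this
          have e2 := le_abs_self (Real.log (C / c))
          have e3 := abs_nonneg (Real.log (C / c))
          have e4 := mul_le_mul_of_nonneg_left e1 hA.le
          nlinarith
      _ = _ := by ring

lemma one_le_log3 (t : ℝ) : 1 ≤ Real.log (3 + |t|) := by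
  rw [Real.le_log_iff_exp_le (by positivity)]
  linarith [Real.exp_one_lt_d9, abs_nonneg t]

/-- (L1') -/
lemma gt_bound (hRH : RiemannHypothesis) : ∃ C : ℝ, 0 < C ∧ ∀ s : ℂ, 1 / 2 < s.re → s.re ≤ 2 →
    ‖gt s‖ ≤ C * Real.log (3 + |s.im|) / (s.re - 1 / 2) := by
  obtain ⟨K, hK, hdata⟩ := Z1_ball
  set q : ℝ := Real.log (1.9 / 1.8) with hq
  have hq0 : 0 < q := Real.log_pos (by norm_num)
  set ℓ : ℝ := Real.log (1.8 / (1.9 - 1.8)) with hℓ
  have hℓ0 : 0 < ℓ := Real.log_pos (by norm_num)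
  set D : ℝ := K / q + 3 / 2 * (2 * (K + K / q * ℓ + 1) * 1.7 / (1.8 - 1.7) / (1.7 - 1.5)) with hD
  have hD0 : 0 < D := by
    have : (0 : ℝ) < 1.8 - 1.7 := by norm_num
    have : (0 : ℝ) < 1.7 - 1.5 := by norm_num
    positivity
  refine ⟨D, hD0, fun s h1 h2 => ?_⟩
  obtain ⟨M, hM1, han, hF0, hb, hMc, hL0, hLM⟩ := hdata s.im
  set L := Real.log (M / ‖Z1 ⟨2, s.im⟩‖) with hL
  have hδ : 0 < s.re - 1 / 2 := by linarith
  have hland := H370.Loc.landau (f := Z1) (c := ⟨2, s.im⟩) (r := 1.8) (r1 := 1.7) (r2 := 1.5)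
      (R := 1.9) (M := M) (by norm_num) (by norm_num) (by norm_num) (by norm_num) (by norm_num)
      hM1 hMc han hF0 hb s (by
        rw [mem_closedBall, dist_eq_norm]
        apply abs_le_of_sq_le_sq' _ (by norm_num) |>.2
        rw [← Complex.normSq_eq_norm_sq, Complex.normSq_apply]
        simp only [sub_re, sub_im]
        nlinarith) (s.re - 1 / 2) hδ (by
        intro ρ hρ hFρ
        obtain ⟨h3, -, -⟩ := ball_sub hρ
        have h4 := Z1_zero_re hRH (by norm_num at h3 ⊢; linarith) hFρ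
        have h5 := Complex.abs_re_le_norm (s - ρ)
        rw [sub_re, h4] at h5
        exact (le_abs_self _).trans h5)
  have e0 : gt s = deriv Z1 s / Z1 s := by rw [gt, logDeriv_apply]
  rw [e0]
  refine hland.2.trans ?_
  rw [← hL, ← hq, ← hℓ]
  have hlog := one_le_log3 s.im
  set ll := Real.log (3 + |s.im|) with hll
  have e1 : L / q / (s.re - 1 / 2) ≤ K / q * ll / (s.re - 1 / 2) := by
    apply div_le_div_of_nonneg_right _ hδ.le
    rw [div_mul_eq_mul_div]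
    exact div_le_div_of_nonneg_right hLM hq0.le
  have e2 : L + L / q * ℓ + 1 ≤ (K + K / q * ℓ + 1) * ll := by
    have f1 : L / q ≤ K / q * ll := by
      rw [div_mul_eq_mul_div]
      exact div_le_div_of_nonneg_right hLM hq0.le
    have f2 := mul_le_mul_of_nonneg_right f1 hℓ0.le
    nlinarith
  have e3 : 2 * (L + L / q * ℓ + 1) * 1.7 / (1.8 - 1.7) / (1.7 - 1.5) ≤
      2 * ((K + K / q * ℓ + 1) * ll) * 1.7 / (1.8 - 1.7) / (1.7 - 1.5) := by
    have g1 : (0 : ℝ) < 1.8 - 1.7 := by norm_num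
    have g2 : (0 : ℝ) < 1.7 - 1.5 := by norm_num
    gcongr
  have e4 : 2 * ((K + K / q * ℓ + 1) * ll) * 1.7 / (1.8 - 1.7) / (1.7 - 1.5) ≤
      3 / 2 * (2 * (K + K / q * ℓ + 1) * 1.7 / (1.8 - 1.7) / (1.7 - 1.5)) * ll /
        (s.re - 1 / 2) := by
    rw [le_div_iff₀ hδ]
    have g1 : (0 : ℝ) < 1.8 - 1.7 := by norm_num
    have g2 : (0 : ℝ) < 1.7 - 1.5 := by norm_num
    have g3 : 0 ≤ 2 * ((K + K / q * ℓ + 1) * ll) * 1.7 / (1.8 - 1.7) / (1.7 - 1.5) := by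
      positivity
    calc _ ≤ 2 * ((K + K / q * ℓ + 1) * ll) * 1.7 / (1.8 - 1.7) / (1.7 - 1.5) * (3 / 2) := by
          gcongr
          linarith
      _ = _ := by ring
  calc _ ≤ K / q * ll / (s.re - 1 / 2) + 3 / 2 * (2 * (K + K / q * ℓ + 1) * 1.7 / (1.8 - 1.7) /
        (1.7 - 1.5)) * ll / (s.re - 1 / 2) := add_le_add e1 (e3.trans e4)
    _ = D * ll / (s.re - 1 / 2) := by rw [hD]; ring

end Pool.Agent.H476
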