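import Pool.Agent.H476.ZB

open Complex Filter Topology Set Metric MeasureTheory

namespace Pool.Agent.H476

/-- `ζ'/ζ` -/
noncomputable def Lz (s : ℂ) : ℂ := logDeriv riemannZeta s

lemma gt_eq {s : ℂ} (hs : 0 < s.re) (h1 : s ≠ 1) (hz : riemannZeta s ≠ 0) :
    gt s = Lz s + 1 / (s - 1) := by
  have h2 : Z1 =ᶠ[𝓝 s] fun z => (z - 1) * riemannZeta z := by
    have a1 : {z : ℂ | 0 < z.re} ∈ 𝓝 s := (isOpen_lt continuous_const continuous_re).mem_nhds hs
    have a2 : {z : ℂ | z ≠ 1} ∈ 𝓝 s := isOpen_ne.mem_nhds h1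
    filter_upwards [a1, a2] with z hz1 hz2
    exact Z1_eq hz1 hz2
  have h3 : gt s = logDeriv (fun z => (z - 1) * riemannZeta z) s := by
    rw [gt, logDeriv_apply, logDeriv_apply, h2.deriv_eq, h2.eq_of_nhds]
  have h4 : logDeriv (fun z : ℂ => z - 1) s = 1 / (s - 1) := by
    rw [logDeriv_apply]
    congr 1
    simp
  have h5 : logDeriv (fun z => (z - 1) * riemannZeta z) s =
      logDeriv (fun z : ℂ => z - 1) s + logDeriv riemannZeta s :=
    logDeriv_mul (f := fun z : ℂ => z - 1) s (sub_ne_zero.2 h1) hz (by fun_prop)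
      (differentiableAt_riemannZeta h1)
  rw [h3, h5, h4, Lz]
  ring

lemma Lz_eq_LSeries {s : ℂ} (hs : 1 < s.re) :
    Lz s = - LSeries (fun n => (ArithmeticFunction.vonMangoldt n : ℂ)) s := by
  have := ArithmeticFunction.LSeries_vonMangoldt_eq_deriv_riemannZeta_div hs
  rw [Lz, logDeriv_apply, this]
  ring

lemma norm_term_LV {s : ℂ} (hs : 3 / 2 ≤ s.re) (n : ℕ) :
    ‖LSeries.term (fun n => (ArithmeticFunction.vonMangoldt n : ℂ)) s n‖ ≤
      (2 : ℝ) ^ (-(s.re - 3 / 2)) *
        ‖LSeries.term (fun n => (ArithmeticFunction.vonMangoldt n : ℂ)) (3 / 2 : ℝ) n‖ := by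
  rcases Nat.lt_or_ge n 2 with h | h
  · interval_cases n
    · simp
    · simp
  · rw [LSeries.norm_term_eq, LSeries.norm_term_eq]
    have h0 : n ≠ 0 := by omega
    simp only [h0, if_false, ofReal_re]
    have hn : (2 : ℝ) ≤ n := by exact_mod_cast h
    have hn0 : (0 : ℝ) < n := by linarith
    have e1 : (n : ℝ) ^ s.re = (n : ℝ) ^ (3 / 2 : ℝ) * (n : ℝ) ^ (s.re - 3 / 2) := by
      rw [← Real.rpow_add hn0]; congr 1; ring
    rw [e1, Real.rpow_neg (by norm_num), ← div_eq_inv_mul, div_div,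
      mul_comm ((n : ℝ) ^ (3 / 2 : ℝ))]
    have e2 : (2 : ℝ) ^ (s.re - 3 / 2) ≤ (n : ℝ) ^ (s.re - 3 / 2) :=
      Real.rpow_le_rpow (by norm_num) hn (by linarith)
    have e3 : (0 : ℝ) < (2 : ℝ) ^ (s.re - 3 / 2) := by positivity
    have e4 : (0 : ℝ) < (n : ℝ) ^ (3 / 2 : ℝ) := by positivity
    rw [mul_comm ((n : ℝ) ^ (s.re - 3 / 2)), div_mul_eq_div_div]
    rw [← div_div]
    exact div_le_div_of_nonneg_left (by positivity) e3 e2

/-- exponential decay of `ζ'/ζ` to the right -/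
lemma Lz_decay : ∃ C : ℝ, 0 < C ∧ ∀ s : ℂ, 3 / 2 ≤ s.re → ‖Lz s‖ ≤ C * (2 : ℝ) ^ (-s.re) := by
  set A : ℝ := ∑' n, ‖LSeries.term (fun n => (ArithmeticFunction.vonMangoldt n : ℂ))
    (3 / 2 : ℝ) n‖ with hA
  have hA0 : 0 ≤ A := tsum_nonneg fun n => norm_nonneg _
  have hsum : Summable fun n => ‖LSeries.term (fun n => (ArithmeticFunction.vonMangoldt n : ℂ))
      (3 / 2 : ℝ) n‖ :=
    (ArithmeticFunction.LSeriesSummable_vonMangoldt (s := (3 / 2 : ℝ)) (by simp; norm_num)).norm
  refine ⟨(A + 1) * (2 : ℝ) ^ (3 / 2 : ℝ), by positivity, fun s hs => ?_⟩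
  rw [Lz_eq_LSeries (by linarith), norm_neg, LSeries]
  have h1 : ‖∑' n, LSeries.term (fun n => (ArithmeticFunction.vonMangoldt n : ℂ)) s n‖ ≤
      (2 : ℝ) ^ (-(s.re - 3 / 2)) * A := by
    refine tsum_of_norm_bounded (hsum.hasSum.mul_left _) fun n => norm_term_LV hs n
  refine h1.trans ?_
  have h2 : (2 : ℝ) ^ (-(s.re - 3 / 2)) = (2 : ℝ) ^ (3 / 2 : ℝ) * (2 : ℝ) ^ (-s.re) := by
    rw [← Real.rpow_add (by norm_num)]; congr 1; ring
  rw [h2]
  have h3 : (0 : ℝ) < (2 : ℝ) ^ (3 / 2 : ℝ) * (2 : ℝ) ^ (-s.re) := by positivity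
  nlinarith

/-- real variable exponential formula -/
lemma exp_int {F F' : ℝ → ℂ} {a b : ℝ} (hab : a ≤ b)
    (hF : ∀ x ∈ Icc a b, HasDerivAt F (F' x) x) (hne : ∀ x ∈ Icc a b, F x ≠ 0)
    (hc : ContinuousOn (fun x => F' x / F x) (Icc a b)) :
    F a = F b * cexp (-∫ x in a..b, F' x / F x) := by
  set q : ℝ → ℂ := fun x => F' x / F x with hq
  have hint : ∀ x ∈ Icc a b, IntervalIntegrable q volume a x := fun x hx =>
    (hc.mono (by rw [uIcc_of_le hx.1]; exact Icc_subset_Icc_right hx.2)).intervalIntegrable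
  have hIc : ContinuousOn (fun x => ∫ y in a..x, q y) (Icc a b) := by
    have := intervalIntegral.continuousOn_primitive_interval (μ := volume) (f := q) (a := a) (b := b)
      (by rw [uIcc_of_le hab]; exact hc.integrableOn_Icc)
    rwa [uIcc_of_le hab] at this
  have hG : ∀ x ∈ Icc a b, F x * cexp (-∫ y in a..x, q y) = F a * cexp (-∫ y in a..a, q y) := by
    refine constant_of_has_deriv_right_zero (f := fun x => F x * cexp (-∫ y in a..x, q y)) ?_ ?_
    · refine ContinuousOn.mul (fun x hx => (hF x hx).continuousAt.continuousWithinAt) ?_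
      exact (hIc.neg).cexp
    · intro x hx
      have hx' : x ∈ Icc a b := ⟨hx.1, hx.2.le⟩
      have h1 : HasDerivWithinAt (fun u => ∫ y in a..u, q y) (q x) (Ici x) x := by
        refine intervalIntegral.integral_hasDerivWithinAt_right (hint x hx') (t := Ioi x) ?_ ?_
        · refine ⟨Ioo x b, Ioo_mem_nhdsGT hx.2, ?_⟩
          exact ((hc.mono (fun y hy => ⟨hx.1.trans hy.1.le, hy.2.le⟩)).aestronglyMeasurable
            measurableSet_Ioo)
        · have h2 : ContinuousWithinAt q (Icc a b) x := hc x hx'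
          refine h2.mono_of_mem_nhdsWithin ?_
          refine mem_nhdsWithin.2 ⟨Iio b, isOpen_Iio, hx.2, ?_⟩
          rintro y ⟨hy1, hy2⟩
          exact ⟨hx.1.trans (le_of_lt hy2), le_of_lt hy1⟩
      have h3 : HasDerivWithinAt (fun u => cexp (-∫ y in a..u, q y))
          (cexp (-∫ y in a..x, q y) * (-q x)) (Ici x) x := (h1.neg).cexp
      have h4 := (hF x hx').hasDerivWithinAt (s := Ici x) |>.mul h3
      have h5 : F' x * cexp (-∫ y in a..x, q y) + F x * (cexp (-∫ y in a..x, q y) * (-q x)) = 0 := by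
        simp only [hq]
        have := hne x hx'
        field_simp
        ring
      rw [h5] at h4
      exact h4
  have := hG b ⟨hab, le_rfl⟩
  simp only [intervalIntegral.integral_same, neg_zero, Complex.exp_zero, mul_one] at this
  exact this.symm

lemma hasDerivAt_line (y x : ℝ) : HasDerivAt (fun x : ℝ => (x : ℂ) + y * I) 1 x := by
  simpa using (ofRealCLM.hasDerivAt (x := x)).add_const ((y : ℂ) * I)

lemma mk_eq (x y : ℝ) : (⟨x, y⟩ : ℂ) = (x : ℂ) + y * I := by apply Complex.ext <;> simp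

/-- lower bound for `Z1` inside the half plane -/
lemma Z1_lower_in (hRH : RiemannHypothesis) : ∃ c A : ℝ, 0 < c ∧ 0 < A ∧
    ∀ (h : ℝ) (s : ℂ), 0 < h → 1 / 2 + h ≤ s.re → s.re ≤ 2 →
      c * (3 + |s.im|) ^ (-(A / h)) ≤ ‖Z1 s‖ := by
  obtain ⟨C, hC, hb⟩ := gt_bound hRH
  obtain ⟨c, hc, hl⟩ := Z1_lower
  refine ⟨c, 2 * C, hc, by positivity, fun h s hh h1 h2 => ?_⟩
  have key := exp_int (F := fun x : ℝ => Z1 (x + s.im * I))
    (F' := fun x : ℝ => deriv Z1 (x + s.im * I)) (a := s.re) (b := 2) h2 ?_ ?_ ?_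
  · have e1 : ((s.re : ℝ) : ℂ) + s.im * I = s := re_add_im s
    simp only [e1] at key
    rw [key, norm_mul, Complex.norm_exp]
    have e2 : c ≤ ‖Z1 ((2 : ℝ) + s.im * I)‖ := by
      have := hl s.im
      rwa [mk_eq] at this
    have e3 : ‖∫ x in s.re..2, deriv Z1 (x + s.im * I) / Z1 (x + s.im * I)‖ ≤
        C * Real.log (3 + |s.im|) / h * |2 - s.re| := by
      refine intervalIntegral.norm_integral_le_of_norm_le_const fun x hx => ?_
      rw [uIoc_of_le h2] at hx
      have h3 := hb (x + s.im * I) (by simp; linarith [hx.1]) (by simpa using hx.2)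
      rw [gt, logDeriv_apply] at h3
      refine h3.trans ?_
      simp only [add_re, ofReal_re, mul_re, I_re, mul_zero, ofReal_im, I_im, mul_one, sub_self,
        add_zero, add_im, mul_im, zero_add]
      apply div_le_div_of_nonneg_left
      · have := one_le_log3 s.im
        positivity
      · exact hh
      · linarith [hx.1]
    have e4 : (-∫ x in s.re..2, deriv Z1 (x + s.im * I) / Z1 (x + s.im * I)).re ≥
        -(2 * C / h) * Real.log (3 + |s.im|) := by
      have h5 := abs_re_le_norm (∫ x in s.re..2, deriv Z1 (x + s.im * I) / Z1 (x + s.im * I))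
      rw [neg_re]
      have h6 := (le_abs_self _).trans (h5.trans e3)
      have h7 : |2 - s.re| ≤ 2 := by rw [abs_le]; constructor <;> linarith
      have h8 : C * Real.log (3 + |s.im|) / h * |2 - s.re| ≤ C * Real.log (3 + |s.im|) / h * 2 := by
        have := one_le_log3 s.im
        exact mul_le_mul_of_nonneg_left h7 (by positivity)
      have h9 : C * Real.log (3 + |s.im|) / h * 2 = (2 * C / h) * Real.log (3 + |s.im|) := by ring
      linarith
    have e5 : (3 + |s.im|) ^ (-(2 * C / h)) ≤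
        Real.exp (-∫ x in s.re..2, deriv Z1 (x + s.im * I) / Z1 (x + s.im * I)).re := by
      rw [Real.rpow_def_of_pos (by positivity), Real.exp_le_exp, mul_comm]
      exact e4
    exact mul_le_mul e2 e5 (by positivity) (norm_nonneg _)
  · intro x hx
    have h3 : HasDerivAt Z1 (deriv Z1 (x + s.im * I)) ((x : ℂ) + s.im * I) :=
      (Z1_an (by simp; linarith [hx.1])).differentiableAt.hasDerivAt
    have := HasDerivAt.comp x h3 (hasDerivAt_line s.im x)
    simpa [Function.comp_def] using this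
  · intro x hx
    exact Z1_ne hRH (by simp; linarith [hx.1])
  · intro x hx
    have hx1 : 1 / 2 < ((x : ℂ) + s.im * I).re := by simp; linarith [hx.1]
    refine ContinuousAt.continuousWithinAt ?_
    have h3 : AnalyticAt ℂ (fun z => deriv Z1 z / Z1 z) ((x : ℂ) + s.im * I) :=
      (Z1_an (by linarith)).deriv.div (Z1_an (by linarith)) (Z1_ne hRH hx1)
    exact ContinuousAt.comp (f := fun x : ℝ => (x : ℂ) + s.im * I) h3.continuousAt (by fun_prop)

/-- zeta and its inverse are bounded for `Re s ≥ 2` -/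
lemma zeta_bdd : ∃ B : ℝ, 0 < B ∧ ∀ s : ℂ, 2 ≤ s.re → ‖riemannZeta s‖ ≤ B ∧
    ‖(riemannZeta s)⁻¹‖ ≤ B := by
  set A : ℝ := ∑' n, ‖LSeries.term 1 2 n‖ with hA
  have hsum : Summable fun n => ‖LSeries.term 1 2 n‖ :=
    ((LSeriesSummable_one_iff (s := 2)).2 (by norm_num)).norm
  have hgen : ∀ (f : ℕ → ℂ) (s : ℂ), (∀ n, ‖f n‖ ≤ 1) → 2 ≤ s.re → ‖LSeries f s‖ ≤ A := by
    intro f s hf hs
    rw [LSeries]
    refine tsum_of_norm_bounded hsum.hasSum fun n => ?_
    refine (LSeries.norm_term_le_of_re_le_re f (s := 2) (s' := s) (by simpa using hs) n).trans ?_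
    exact LSeries.norm_term_le 2 (by simpa using hf n)
  have hA0 : 0 ≤ A := tsum_nonneg fun n => norm_nonneg _
  refine ⟨A + 1, by linarith, fun s hs => ?_⟩
  have h1 : LSeries 1 s = riemannZeta s := LSeries_one_eq_riemannZeta (by linarith)
  constructor
  · rw [← h1]
    refine (hgen 1 s (fun n => by simp) hs).trans (by linarith)
  · have h2 := ArithmeticFunction.LSeries_zeta_mul_Lseries_moebius (s := s) (by linarith)
    rw [ArithmeticFunction.LSeries_zeta_eq_riemannZeta (by linarith)] at h2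
    have h3 : (riemannZeta s)⁻¹ = LSeries (fun n => ((ArithmeticFunction.moebius n : ℤ) : ℂ)) s :=
      inv_eq_of_mul_eq_one_right h2
    rw [h3]
    refine (hgen _ s (fun n => ?_) hs).trans (by linarith)
    have := ArithmeticFunction.abs_moebius_le_one (n := n)
    rw [Complex.norm_intCast]
    exact_mod_cast this

end Pool.Agent.H476
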