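import Pool.Agent.H476.ZC
import Pool.Graph.R_seed8.H370R2.Digamma

open Complex Filter Topology Set Metric MeasureTheory Asymptotics Bornology

namespace Pool.Agent.H476

/-- the beta function bound -/
lemma beta_bound {h : ℝ} (hh : 0 < h) : ∃ B : ℝ, 0 < B ∧ ∀ u : ℂ, 1 / 8 ≤ u.re →
    ‖betaIntegral u h‖ ≤ B := by
  have hint := betaIntegral_convergent (u := (1 / 8 : ℝ)) (v := (h : ℂ)) (by simp) (by simpa using hh)
  refine ⟨(∫ x in (0 : ℝ)..1, ‖(x : ℂ) ^ (((1 / 8 : ℝ) : ℂ) - 1) * (1 - x : ℂ) ^ ((h : ℂ) - 1)‖) + 1,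
    ?_, ?_⟩
  · have : 0 ≤ ∫ x in (0 : ℝ)..1, ‖(x : ℂ) ^ (((1 / 8 : ℝ) : ℂ) - 1) * (1 - x : ℂ) ^ ((h : ℂ) - 1)‖ :=
      intervalIntegral.integral_nonneg (by norm_num) fun x _ => norm_nonneg _
    linarith
  · intro u hu
    rw [betaIntegral]
    have h1 : ‖∫ x in (0 : ℝ)..1, (x : ℂ) ^ (u - 1) * (1 - x : ℂ) ^ ((h : ℂ) - 1)‖ ≤
        ∫ x in (0 : ℝ)..1, ‖(x : ℂ) ^ (((1 / 8 : ℝ) : ℂ) - 1) * (1 - x : ℂ) ^ ((h : ℂ) - 1)‖ := by
      refine intervalIntegral.norm_integral_le_of_norm_le (by norm_num) ?_ hint.norm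
      refine Eventually.of_forall fun x hx => ?_
      rw [norm_mul, norm_mul]
      refine mul_le_mul_of_nonneg_right ?_ (norm_nonneg _)
      rw [Complex.norm_cpow_eq_rpow_re_of_pos hx.1, Complex.norm_cpow_eq_rpow_re_of_pos hx.1]
      apply Real.rpow_le_rpow_of_exponent_ge hx.1 hx.2
      simp
      norm_num at hu
      linarith
    linarith

/-- ratio of Gamma factors -/
lemma Gammaℝ_ratio {h : ℝ} (hh : 0 < h) (hh4 : h < 1 / 4) : ∃ B : ℝ, 0 < B ∧ ∀ s : ℂ,
    1 / 2 ≤ s.re → ‖Gammaℝ (s - h)‖ ≤ B * ‖Gammaℝ (s + h)‖ := by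
  obtain ⟨B, hB, hb⟩ := beta_bound hh
  have hG : Complex.Gamma h ≠ 0 := Complex.Gamma_ne_zero_of_re_pos (by simpa using hh)
  have hG0 : 0 < ‖Complex.Gamma h‖ := norm_pos_iff.2 hG
  refine ⟨Real.pi ^ h * (B / ‖Complex.Gamma h‖), by positivity, fun s hs => ?_⟩
  have h1 : (1 / 8 : ℝ) ≤ ((s - h) / 2).re := by
    have : ((s - h) / 2).re = (s.re - h) / 2 := by
      rw [show (s - (h : ℂ)) / 2 = (s - h) * ((1 / 2 : ℝ) : ℂ) by push_cast; ring]
      rw [re_mul_ofReal]; simp; ring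
    rw [this]; linarith
  have key := Gamma_mul_Gamma_eq_betaIntegral (s := (s - h) / 2) (t := (h : ℂ)) (by linarith)
    (by simpa using hh)
  have e1 : (s - (h : ℂ)) / 2 + h = (s + h) / 2 := by ring
  rw [e1] at key
  have e2 : ‖Complex.Gamma ((s - h) / 2)‖ ≤ B / ‖Complex.Gamma h‖ * ‖Complex.Gamma ((s + h) / 2)‖ := by
    have := congrArg norm key
    rw [norm_mul, norm_mul] at this
    rw [div_mul_eq_mul_div, le_div_iff₀ hG0, this, mul_comm]
    exact mul_le_mul_of_nonneg_right (hb _ h1) (norm_nonneg _)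
  unfold Gammaℝ
  rw [norm_mul, norm_mul]
  have e3 : ‖(Real.pi : ℂ) ^ (-(s - h) / 2)‖ = Real.pi ^ h * ‖(Real.pi : ℂ) ^ (-(s + h) / 2)‖ := by
    rw [Complex.norm_cpow_eq_rpow_re_of_pos Real.pi_pos, Complex.norm_cpow_eq_rpow_re_of_pos
      Real.pi_pos, ← Real.rpow_add Real.pi_pos]
    congr 1
    rw [show -(s - (h : ℂ)) / 2 = (-(s - h)) * ((1 / 2 : ℝ) : ℂ) by push_cast; ring,
      show -(s + (h : ℂ)) / 2 = (-(s + h)) * ((1 / 2 : ℝ) : ℂ) by push_cast; ring,
      re_mul_ofReal, re_mul_ofReal]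
    simp
    ring
  rw [e3]
  calc Real.pi ^ h * ‖(Real.pi : ℂ) ^ (-(s + h) / 2)‖ * ‖Complex.Gamma ((s - h) / 2)‖
      ≤ Real.pi ^ h * ‖(Real.pi : ℂ) ^ (-(s + h) / 2)‖ *
        (B / ‖Complex.Gamma h‖ * ‖Complex.Gamma ((s + h) / 2)‖) := by
        exact mul_le_mul_of_nonneg_left e2 (by positivity)
    _ = _ := by ring

/-- polynomial bound for the quotient -/
lemma Z1_ratio (hRH : RiemannHypothesis) {h : ℝ} (hh : 0 < h) (hh4 : h < 1 / 4) :
    ∃ B A : ℝ, 0 < B ∧ 0 < A ∧ ∀ s : ℂ, 1 / 2 ≤ s.re →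
      ‖Z1 (s - h)‖ ≤ B * (3 + |s.im|) ^ A * ‖Z1 (s + h)‖ ∧
      (3 ≤ s.re → ‖Z1 (s - h)‖ ≤ B * ‖Z1 (s + h)‖) := by
  obtain ⟨C, A, hC, hA, hg⟩ := Z1_growth
  obtain ⟨c, A', hc, hA', hl⟩ := Z1_lower_in hRH
  obtain ⟨B, hB, hz⟩ := zeta_bdd
  have hright : ∀ s : ℂ, 2 + h ≤ s.re → ‖Z1 (s - h)‖ ≤ B ^ 2 * ‖Z1 (s + h)‖ := by
    intro s hs
    have n1 : s - h ≠ 1 := by
      intro hc
      have := congrArg re hc
      simp at this
      linarith
    have n2 : s + h ≠ 1 := by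
      intro hc
      have := congrArg re hc
      simp at this
      linarith
    rw [Z1_eq (by simp; linarith) n1, Z1_eq (by simp; linarith) n2, norm_mul, norm_mul]
    have a1 := (hz (s - h) (by simp; linarith)).1
    have a2 := (hz (s + h) (by simp; linarith)).2
    rw [norm_inv] at a2
    have a3 : 0 < ‖riemannZeta (s + h)‖ :=
      norm_pos_iff.2 (riemannZeta_ne_zero_of_one_le_re (by simp; linarith))
    have a4 : 1 ≤ B * ‖riemannZeta (s + h)‖ := by
      rwa [inv_le_iff_one_le_mul₀ a3] at a2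
    have a5 : ‖s - h - 1‖ ≤ ‖s + h - 1‖ := by
      apply Real.sqrt_le_sqrt
      simp only [normSq_apply, sub_re, ofReal_re, one_re, sub_im, ofReal_im, one_im, add_re, add_im]
      nlinarith
    calc ‖s - h - 1‖ * ‖riemannZeta (s - h)‖ ≤ ‖s + h - 1‖ * B :=
          mul_le_mul a5 a1 (norm_nonneg _) (norm_nonneg _)
      _ ≤ ‖s + h - 1‖ * B * (B * ‖riemannZeta (s + h)‖) :=
          le_mul_of_one_le_right (by positivity) a4
      _ = _ := by ring
  have hle1 : ∀ (t : ℝ) (a : ℝ), 0 ≤ a → 1 ≤ (3 + |t|) ^ a := fun t a ha =>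
    Real.one_le_rpow (by linarith [abs_nonneg t]) ha
  set cc := max (B ^ 2) (max (C / c) (C * B * B)) with hcc
  have hmid : ∀ s : ℂ, 1 / 2 ≤ s.re → s.re ≤ 2 + h →
      ‖Z1 (s - h)‖ ≤ (C / c + C * B) * (3 + |s.im|) ^ (A + A' / h) * ‖Z1 (s + h)‖ := by
    intro s h1 h2
    have b1 := hg (s - h) (by simp; linarith) (by simp; linarith)
    simp only [sub_im, ofReal_im, sub_zero] at b1
    have hp : 0 < 3 + |s.im| := by positivity
    rcases le_or_gt (s.re + h) 2 with h3 | h3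
    · have b2 := hl h (s + h) hh (by simp; linarith) (by simpa using h3)
      simp only [add_im, ofReal_im, add_zero] at b2
      have b3 : (3 + |s.im|) ^ A ≤ (1 / c) * (3 + |s.im|) ^ (A + A' / h) * ‖Z1 (s + h)‖ := by
        calc (3 + |s.im|) ^ A = (1 / c) * (3 + |s.im|) ^ (A + A' / h) *
              (c * (3 + |s.im|) ^ (-(A' / h))) := by
              rw [Real.rpow_add hp, Real.rpow_neg hp.le]
              field_simp
          _ ≤ _ := mul_le_mul_of_nonneg_left b2 (by positivity)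
      calc ‖Z1 (s - h)‖ ≤ C * (3 + |s.im|) ^ A := b1
        _ ≤ C * ((1 / c) * (3 + |s.im|) ^ (A + A' / h) * ‖Z1 (s + h)‖) :=
            mul_le_mul_of_nonneg_left b3 (by linarith)
        _ = (C / c) * ((3 + |s.im|) ^ (A + A' / h) * ‖Z1 (s + h)‖) := by ring
        _ ≤ (C / c + C * B) * ((3 + |s.im|) ^ (A + A' / h) * ‖Z1 (s + h)‖) := by
            refine mul_le_mul_of_nonneg_right ?_ (by positivity)
            have : 0 < C * B := by positivity
            linarith
        _ = _ := by ring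
    · have n2 : s + h ≠ 1 := by
        intro hc
        have := congrArg re hc
        simp at this
        linarith
      have a2 := (hz (s + h) (by simp; linarith)).2
      rw [norm_inv] at a2
      have a3 : 0 < ‖riemannZeta (s + h)‖ :=
        norm_pos_iff.2 (riemannZeta_ne_zero_of_one_le_re (by simp; linarith))
      have a4 : 1 ≤ B * ‖riemannZeta (s + h)‖ := by
        rwa [inv_le_iff_one_le_mul₀ a3] at a2
      have a5 : 1 ≤ ‖s + h - 1‖ := by
        have := abs_re_le_norm (s + h - 1)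
        simp only [sub_re, add_re, ofReal_re, one_re] at this
        have h4 := le_abs_self (s.re + h - 1)
        linarith
      have a6 : 1 ≤ B * ‖Z1 (s + h)‖ := by
        rw [Z1_eq (by simp; linarith) n2, norm_mul]
        nlinarith [norm_nonneg (riemannZeta (s + h))]
      have a7 : (3 + |s.im|) ^ A ≤ (3 + |s.im|) ^ (A + A' / h) :=
        Real.rpow_le_rpow_of_exponent_le (by linarith [abs_nonneg s.im])
          (by have : 0 < A' / h := by positivity
              linarith)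
      calc ‖Z1 (s - h)‖ ≤ C * (3 + |s.im|) ^ A := b1
        _ ≤ C * (3 + |s.im|) ^ (A + A' / h) := mul_le_mul_of_nonneg_left a7 (by linarith)
        _ ≤ C * (3 + |s.im|) ^ (A + A' / h) * (B * ‖Z1 (s + h)‖) :=
            le_mul_of_one_le_right (by positivity) a6
        _ = (C * B) * ((3 + |s.im|) ^ (A + A' / h) * ‖Z1 (s + h)‖) := by ring
        _ ≤ (C / c + C * B) * ((3 + |s.im|) ^ (A + A' / h) * ‖Z1 (s + h)‖) := by
            refine mul_le_mul_of_nonneg_right ?_ (by positivity)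
            have : 0 < C / c := by positivity
            linarith
        _ = _ := by ring
  have hCB : 0 < C / c + C * B := by positivity
  refine ⟨B ^ 2 + (C / c + C * B), A + A' / h, by positivity, by positivity, fun s hs => ⟨?_, ?_⟩⟩
  · have h0 := hle1 s.im (A + A' / h) (by positivity)
    rcases le_or_gt s.re (2 + h) with h1 | h1
    · refine (hmid s hs h1).trans ?_
      have : 0 < B ^ 2 := by positivity
      refine mul_le_mul_of_nonneg_right ?_ (norm_nonneg _)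
      exact mul_le_mul_of_nonneg_right (by linarith) (by linarith)
    · refine (hright s h1.le).trans ?_
      refine mul_le_mul_of_nonneg_right ?_ (norm_nonneg _)
      have : 0 < B ^ 2 := by positivity
      nlinarith
  · intro h3
    refine (hright s (by linarith)).trans ?_
    refine mul_le_mul_of_nonneg_right (by linarith) (norm_nonneg _)

lemma X_reflect (t h : ℝ) : ‖X ((1 / 2 : ℂ) + t * I - h)‖ = ‖X ((1 / 2 : ℂ) + t * I + h)‖ := by
  have h1 : X ((1 / 2 : ℂ) + t * I - h) = (starRingEnd ℂ) (X ((1 / 2 : ℂ) + t * I + h)) := by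
    rw [← X_symm, ← X_conj]
    congr 1
    apply Complex.ext <;> simp <;> ring
  rw [h1, RCLike.norm_conj]

/-- monotonicity of `|ξ|` -/
lemma X_mono (hRH : RiemannHypothesis) {h : ℝ} (hh : 0 < h) (hh4 : h < 1 / 4) {s : ℂ}
    (hs : 1 / 2 ≤ s.re) : ‖X (s - h)‖ ≤ ‖X (s + h)‖ := by
  obtain ⟨B1, hB1, hG⟩ := Gammaℝ_ratio hh hh4
  obtain ⟨B2, A, hB2, hA, hZ⟩ := Z1_ratio hRH hh hh4
  -- the quotient
  set φ : ℂ → ℂ := fun z => X (1 / 2 + z - h) / X (1 / 2 + z + h) with hφ
  have hXne : ∀ z : ℂ, 0 ≤ z.re → X (1 / 2 + z + h) ≠ 0 := by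
    intro z hz
    apply X_ne hRH
    simp
    norm_num
    linarith
  have hbound : ∀ z : ℂ, 0 ≤ z.re → ‖φ z‖ ≤ B1 * (B2 * (3 + |z.im|) ^ A) ∧
      (3 ≤ z.re → ‖φ z‖ ≤ B1 * B2) := by
    intro z hz
    have hX0 : 0 < ‖X (1 / 2 + z + h)‖ := norm_pos_iff.2 (hXne z hz)
    have hre : 1 / 2 ≤ (1 / 2 + z : ℂ).re := by simp; norm_num; linarith
    have him : (1 / 2 + z : ℂ).im = z.im := by simp
    have g1 := hG (1 / 2 + z) hre
    have g2 := hZ (1 / 2 + z) hre
    rw [him] at g2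
    have p1 : 0 < (1 / 2 + z - h : ℂ).re := by simp; norm_num; linarith
    have p2 : 0 < (1 / 2 + z + h : ℂ).re := by simp; norm_num; linarith
    have g3 : ‖(1 / 2 + z - h : ℂ)‖ ≤ ‖(1 / 2 + z + h : ℂ)‖ := by
      apply Real.sqrt_le_sqrt
      simp only [normSq_apply, sub_re, ofReal_re, sub_im, ofReal_im, add_re, add_im]
      norm_num
      nlinarith
    have g4 : ∀ D : ℝ, 0 ≤ D → ‖Z1 (1 / 2 + z - h)‖ ≤ D * ‖Z1 (1 / 2 + z + h)‖ →
        ‖φ z‖ ≤ B1 * D := by
      intro D hD hle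
      rw [hφ]
      simp only
      rw [norm_div, div_le_iff₀ hX0, X_eq_Z1 p1, X_eq_Z1 p2]
      simp only [norm_mul]
      calc ‖(1 / 2 + z - h : ℂ)‖ * ‖Gammaℝ (1 / 2 + z - h)‖ * ‖Z1 (1 / 2 + z - h)‖
          ≤ ‖(1 / 2 + z + h : ℂ)‖ * (B1 * ‖Gammaℝ (1 / 2 + z + h)‖) *
            (D * ‖Z1 (1 / 2 + z + h)‖) := by gcongr
        _ = _ := by ring
    refine ⟨g4 _ (by positivity) g2.1, fun h3 => g4 _ hB2.le (g2.2 ?_)⟩
    simp; norm_num; linarith
  have hd : DifferentiableOn ℂ φ {z : ℂ | 0 ≤ z.re} := by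
    intro z hz
    refine DifferentiableAt.differentiableWithinAt ?_
    refine DifferentiableAt.div ?_ ?_ (hXne z hz)
    · exact DifferentiableAt.comp z (f := fun z : ℂ => 1 / 2 + z - h) (X_diff _) (by fun_prop)
    · exact DifferentiableAt.comp z (f := fun z : ℂ => 1 / 2 + z + h) (X_diff _) (by fun_prop)
  have hPL : ∀ z : ℂ, 0 ≤ z.re → ‖φ z‖ ≤ 1 := by
    intro z hz
    refine PhragmenLindelof.right_half_plane_of_bounded_on_real (f := φ) (C := 1) ?_ ?_ ?_ ?_ hz
    · refine DifferentiableOn.diffContOnCl ?_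
      rw [Complex.closure_setOfPred_lt_re]
      exact hd
    · refine ⟨1, by norm_num, A, ?_⟩
      refine IsBigO.of_bound (B1 * B2 * Real.exp (2 * A)) ?_
      have : ∀ᶠ z in cobounded ℂ ⊓ 𝓟 {z : ℂ | 0 < z.re}, z ∈ {z : ℂ | 0 < z.re} :=
        (eventually_principal.2 fun x hx => hx).filter_mono inf_le_right
      filter_upwards [this] with z hz
      have hz : 0 < z.re := hz
      refine (hbound z hz.le).1.trans ?_
      have e1 : (3 + |z.im|) ^ A ≤ Real.exp (2 * A) * Real.exp (A * ‖z‖) := by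
        rw [Real.rpow_def_of_pos (by positivity), ← Real.exp_add, Real.exp_le_exp]
        have e2 := Real.log_le_sub_one_of_pos (show 0 < 3 + |z.im| by positivity)
        have e3 := abs_im_le_norm z
        nlinarith
      rw [Real.rpow_one, Real.norm_eq_abs, abs_of_pos (Real.exp_pos _)]
      calc B1 * (B2 * (3 + |z.im|) ^ A) ≤ B1 * (B2 * (Real.exp (2 * A) * Real.exp (A * ‖z‖))) := by
            gcongr
        _ = _ := by ring
    · refine ⟨B1 * B2, ?_⟩
      rw [eventually_map]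
      filter_upwards [eventually_ge_atTop (3 : ℝ)] with x hx
      exact (hbound x (by simp; linarith)).2 (by simpa using hx)
    · intro x
      have h1 := X_reflect x h
      rw [hφ]
      simp only
      have h2 : 0 < ‖X ((1 / 2 : ℂ) + x * I + h)‖ := norm_pos_iff.2 (hXne (x * I) (by simp))
      rw [norm_div, h1, div_self h2.ne']
  have h1 := hPL (s - 1 / 2) (by simp; norm_num at hs ⊢; linarith)
  rw [hφ] at h1
  simp only [add_sub_cancel] at h1
  have h2 : 0 < ‖X (s + h)‖ := by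
    rw [norm_pos_iff]
    apply X_ne hRH
    simp; linarith
  rwa [norm_div, div_le_one h2] at h1

lemma re_logDeriv_X_nonneg (hRH : RiemannHypothesis) {s : ℂ} (hs : 1 / 2 < s.re) :
    0 ≤ (logDeriv X s).re := by
  -- `normSq` along the two curves
  have hcurve : ∀ (ε : ℝ), HasDerivAt (fun h : ℝ => normSq (X (s + ε * h)))
      (2 * (deriv X s * ε * (starRingEnd ℂ) (X s)).re) 0 := by
    intro ε
    have h1 : HasDerivAt (fun h : ℝ => X (s + ε * h)) (deriv X s * ε) 0 := by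
      have h2 : HasDerivAt (fun h : ℝ => s + (ε : ℂ) * (h : ℂ)) (ε : ℂ) 0 := by
        simpa using ((ofRealCLM.hasDerivAt (x := (0 : ℝ))).const_mul (ε : ℂ)).const_add s
      have h3 : HasDerivAt X (deriv X s) (s + (ε : ℂ) * ((0 : ℝ) : ℂ)) := by
        simpa using (X_diff s).hasDerivAt
      exact HasDerivAt.comp (0 : ℝ) h3 h2
    have h4 : HasDerivAt (fun h : ℝ => (X (s + ε * h)).re) (deriv X s * ε).re 0 := by
      have := (reCLM.hasFDerivAt (x := X (s + ε * (0 : ℝ)))).comp_hasDerivAt (0 : ℝ) h1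
      simpa [Function.comp_def] using this
    have h5 : HasDerivAt (fun h : ℝ => (X (s + ε * h)).im) (deriv X s * ε).im 0 := by
      have := (imCLM.hasFDerivAt (x := X (s + ε * (0 : ℝ)))).comp_hasDerivAt (0 : ℝ) h1
      simpa [Function.comp_def] using this
    have h6 := (h4.mul h4).add (h5.mul h5)
    refine (h6.congr_deriv ?_).congr_of_eventuallyEq ?_
    · simp only [ofReal_zero, mul_zero, add_zero]
      rw [mul_re (deriv X s * ε), conj_re, conj_im]
      ring
    · refine Eventually.of_forall fun h => ?_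
      simp only [normSq_apply, Pi.add_apply, Pi.mul_apply]
  have h1 := (hcurve 1).sub (hcurve (-1))
  set G : ℝ → ℝ := fun h => normSq (X (s + (1 : ℝ) * h)) - normSq (X (s + ((-1 : ℝ) : ℂ) * h)) with hG
  have hG' : HasDerivAt G (4 * (deriv X s * (starRingEnd ℂ) (X s)).re) 0 := by
    refine h1.congr_deriv ?_
    simp
    ring
  have hG0 : G 0 = 0 := by simp [hG]
  have hGpos : ∀ h ∈ Ioo (0 : ℝ) (1 / 4), 0 ≤ G h := by
    intro h hh
    have := X_mono hRH hh.1 hh.2 (s := s) hs.le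
    rw [hG]
    simp only [ofReal_one, one_mul, ofReal_neg, neg_mul, ← sub_eq_add_neg]
    rw [normSq_eq_norm_sq, normSq_eq_norm_sq]
    have h0 := norm_nonneg (X (s - h))
    nlinarith
  have hder : 0 ≤ 4 * (deriv X s * (starRingEnd ℂ) (X s)).re := by
    have h2 := hG'.hasDerivWithinAt (s := Ioi 0)
    rw [hasDerivWithinAt_iff_tendsto_slope' (by simp)] at h2
    refine ge_of_tendsto h2 ?_
    have : Ioo (0 : ℝ) (1 / 4) ∈ 𝓝[>] (0 : ℝ) := Ioo_mem_nhdsGT (by norm_num)
    filter_upwards [this] with h hh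
    rw [slope_def_field, hG0]
    exact div_nonneg (by linarith [hGpos h hh]) (by linarith [hh.1])
  have hX0 := X_ne hRH hs
  rw [logDeriv_apply]
  have e1 : deriv X s / X s = (deriv X s * (starRingEnd ℂ) (X s)) / (normSq (X s) : ℂ) := by
    rw [← mul_conj, mul_div_mul_right _ _ ((map_ne_zero _).2 hX0)]
  rw [e1, div_ofReal_re]
  exact div_nonneg (by linarith) (normSq_nonneg _)

end Pool.Agent.H476
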