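import Pool.Agent.H476.ZD

open Complex Filter Topology Set Metric MeasureTheory Asymptotics Bornology

namespace Pool.Agent.H476

lemma logDeriv_Gammaℝ {s : ℂ} (hs : 0 < s.re) :
    logDeriv Gammaℝ s = -(Real.log Real.pi / 2 : ℝ) + logDeriv Complex.Gamma (s / 2) / 2 := by
  have hpi : (Real.pi : ℂ) ≠ 0 := by exact_mod_cast Real.pi_ne_zero
  have hs2 : 0 < (s / 2).re := by
    rw [show s / 2 = s * ((1 / 2 : ℝ) : ℂ) by push_cast; ring, re_mul_ofReal]
    linarith
  have hG : DifferentiableAt ℂ Complex.Gamma (s / 2) := by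
    refine differentiableAt_Gamma _ fun m h => ?_
    rw [h] at hs2
    simp at hs2
    have hm : (0 : ℝ) ≤ m := Nat.cast_nonneg m
    linarith
  have hG0 : Complex.Gamma (s / 2) ≠ 0 := Complex.Gamma_ne_zero_of_re_pos hs2
  have h1 : HasDerivAt (fun z : ℂ => (Real.pi : ℂ) ^ (-z / 2))
      ((Real.pi : ℂ) ^ (-s / 2) * Complex.log Real.pi * (-1 / 2)) s := by
    have : HasDerivAt (fun z : ℂ => -z / 2) (-1 / 2) s := ((hasDerivAt_id s).neg).div_const 2
    exact this.const_cpow (Or.inl hpi)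
  have h2 : HasDerivAt (fun z : ℂ => Complex.Gamma (z / 2)) (deriv Complex.Gamma (s / 2) * (1 / 2)) s :=
    HasDerivAt.comp s hG.hasDerivAt ((hasDerivAt_id s).div_const 2)
  have h3 := h1.mul h2
  have h4 : (fun z : ℂ => (Real.pi : ℂ) ^ (-z / 2)) * (fun z : ℂ => Complex.Gamma (z / 2)) = Gammaℝ := by
    funext z
    rfl
  rw [h4] at h3
  rw [logDeriv_apply, logDeriv_apply, h3.deriv, Gammaℝ, ← ofReal_log Real.pi_pos.le]
  have h5 : (Real.pi : ℂ) ^ (-s / 2) ≠ 0 := by simp [hpi]
  push_cast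
  field_simp

lemma gt_eq_X (hRH : RiemannHypothesis) {s : ℂ} (hs : 1 / 2 < s.re) :
    gt s = logDeriv X s - 1 / s - logDeriv Gammaℝ s := by
  have hs0 : 0 < s.re := by linarith
  have h0 : s ≠ 0 := by rintro rfl; simp at hs0
  have h2 : X =ᶠ[𝓝 s] fun z => (z * Gammaℝ z) * Z1 z := by
    have a1 : {z : ℂ | 0 < z.re} ∈ 𝓝 s := (isOpen_lt continuous_const continuous_re).mem_nhds hs0
    filter_upwards [a1] with z hz1
    exact X_eq_Z1 hz1
  have h3 : logDeriv X s = logDeriv (fun z => (z * Gammaℝ z) * Z1 z) s := by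
    rw [logDeriv_apply, logDeriv_apply, h2.deriv_eq, h2.eq_of_nhds]
  have h4 : logDeriv (fun z => (z * Gammaℝ z) * Z1 z) s =
      logDeriv (fun z => z * Gammaℝ z) s + logDeriv Z1 s :=
    logDeriv_mul (f := fun z => z * Gammaℝ z) s (sG_ne hs0) (Z1_ne hRH hs)
      (differentiableAt_id.mul (Gammaℝ_an hs0).differentiableAt) (Z1_an hs0).differentiableAt
  have h5 : logDeriv (fun z => z * Gammaℝ z) s = logDeriv (fun z : ℂ => z) s + logDeriv Gammaℝ s :=
    logDeriv_mul (f := fun z : ℂ => z) s h0 (Gammaℝ_ne hs0) differentiableAt_id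
      (Gammaℝ_an hs0).differentiableAt
  have h6 : logDeriv (fun z : ℂ => z) s = 1 / s := by
    rw [logDeriv_apply]; simp
  rw [h3, h4, h5, h6, gt]
  ring

/-- (L2) -/
lemma neg_re_gt_le (hRH : RiemannHypothesis) : ∃ C : ℝ, 0 < C ∧ ∀ s : ℂ, 1 / 2 < s.re → s.re ≤ 2 →
    -(gt s).re ≤ (1 / 2) * Real.log (3 + |s.im|) + C := by
  refine ⟨2 + (1 / 2) * Real.log Real.pi + ∑' n : ℕ, 1 / ((n : ℝ) + 1) ^ 2 + 1, ?_, ?_⟩
  · have h1 : 0 ≤ ∑' n : ℕ, 1 / ((n : ℝ) + 1) ^ 2 := tsum_nonneg fun n => by positivity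
    have h2 : 0 ≤ Real.log Real.pi := Real.log_nonneg (by linarith [Real.pi_gt_three])
    linarith
  · intro s h1 h2
    have hs0 : 0 < s.re := by linarith
    have h0 : s ≠ 0 := by rintro rfl; simp at hs0
    rw [gt_eq_X hRH h1, logDeriv_Gammaℝ hs0]
    have e1 := re_logDeriv_X_nonneg hRH h1
    have e2 : (1 / s).re ≤ 2 := by
      have : ‖1 / s‖ ≤ 2 := by
        rw [norm_div, norm_one, div_le_iff₀ (norm_pos_iff.2 h0)]
        have := (le_abs_self _).trans (abs_re_le_norm s)
        linarith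
      exact (re_le_norm _).trans this
    set z : ℂ := s / 2 with hz
    have hzre : z.re = s.re / 2 := by
      rw [hz, show s / 2 = s * ((1 / 2 : ℝ) : ℂ) by push_cast; ring, re_mul_ofReal]
      ring
    have hz0 : 0 < z.re := by rw [hzre]; linarith
    have e3 := H370.DG.logDeriv_Gamma' hz0
    have e4 : 0 ≤ (1 / z).re := by
      rw [one_div, inv_re]
      exact div_nonneg hz0.le (normSq_nonneg _)
    have e5 : 0 ≤ (1 / (z + 1)).re := by
      rw [one_div, inv_re]
      exact div_nonneg (by simp; linarith) (normSq_nonneg _)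
    have e6 := H370.DG.norm_tsum_er hz0
    have e7 := (re_le_norm (∑' n, H370.DG.er n z)).trans e6
    have e8 : (Complex.log (z + 2)).re ≤ Real.log (3 + |s.im|) := by
      rw [Complex.log_re]
      apply Real.log_le_log
      · rw [norm_pos_iff]
        intro h
        have := congrArg re h
        simp at this
        linarith
      · have := norm_le_abs_re_add_abs_im (z + 2)
        have him : z.im = s.im / 2 := by
          rw [hz, show s / 2 = s * ((1 / 2 : ℝ) : ℂ) by push_cast; ring, im_mul_ofReal]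
          ring
        simp only [add_re, re_ofNat, add_im, im_ofNat, add_zero, hzre, him] at this
        rw [abs_of_pos (by linarith), abs_div, abs_of_pos (by norm_num : (0 : ℝ) < 2)] at this
        have h3 := abs_nonneg s.im
        linarith
    have e9 : (logDeriv Complex.Gamma z).re ≤ Real.log (3 + |s.im|) +
        ∑' n : ℕ, 1 / ((n : ℝ) + 1) ^ 2 := by
      rw [e3]
      simp only [add_re, sub_re]
      linarith
    have e10 : (logDeriv Complex.Gamma z / 2).re = (logDeriv Complex.Gamma z).re / 2 := by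
      rw [show logDeriv Complex.Gamma z / 2 = logDeriv Complex.Gamma z * ((1 / 2 : ℝ) : ℂ) by
        push_cast; ring, re_mul_ofReal]
      ring
    simp only [sub_re, add_re, neg_re, ofReal_re, e10]
    have h5 : 0 ≤ ∑' n : ℕ, 1 / ((n : ℝ) + 1) ^ 2 := tsum_nonneg fun n => by positivity
    have h6 : 0 ≤ Real.log Real.pi := Real.log_nonneg (by linarith [Real.pi_gt_three])
    linarith

end Pool.Agent.H476
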